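import Pool.Agent.BI.Basic

set_option autoImplicit false

open MeasureTheory Set
open scoped ENNReal

namespace Pool.Agent.BI

theorem a1_combo {A B C : ℝ × ℝ} {a b c : ℝ} (ha : 0 ≤ a) (hb : 0 ≤ b) (hc : 0 ≤ c)
    (h : a + b + c = 1) : a • A + b • B + c • C ∈ convexHull ℝ ({A, B, C} : Set (ℝ × ℝ)) := by
  have hx : A ∈ convexHull ℝ ({A, B, C} : Set (ℝ × ℝ)) := subset_convexHull _ _ (by simp)
  have hp : B ∈ convexHull ℝ ({A, B, C} : Set (ℝ × ℝ)) := subset_convexHull _ _ (by simp)
  have hq : C ∈ convexHull ℝ ({A, B, C} : Set (ℝ × ℝ)) := subset_convexHull _ _ (by simp)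
  have hconv := convex_convexHull ℝ ({A, B, C} : Set (ℝ × ℝ))
  have := hconv.sum_mem (t := (Finset.univ : Finset (Fin 3))) (w := ![a, b, c])
    (z := ![A, B, C]) (by
      intro i _
      fin_cases i
      · exact ha
      · exact hb
      · exact hc) (by
      rw [Fin.sum_univ_three]
      exact h) (by
      intro i _
      fin_cases i
      · exact hx
      · exact hp
      · exact hq)
  rw [Fin.sum_univ_three] at this
  exact this

theorem a1_wbtw {S : Set (ℝ × ℝ)} {A B C P : ℝ × ℝ} (h : Wbtw ℝ A B C) (h3 : segment ℝ A C ⊆ S)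
    (hP : P ∈ convexHull ℝ ({A, B, C} : Set (ℝ × ℝ))) : P ∈ S := by
  apply h3
  have h1 : ({A, B, C} : Set (ℝ × ℝ)) ⊆ segment ℝ A C := by
    intro x hx
    rcases hx with rfl | rfl | rfl
    · exact left_mem_segment ℝ _ _
    · exact mem_segment_iff_wbtw.2 h
    · exact right_mem_segment ℝ _ _
  exact convexHull_min h1 (convex_segment A C) hP

/-- [BI-A1] The Delta-condition, degenerate triangles included.
PROOF. If `A, B, C` are not collinear this is the definition. If they are collinear, one of the three
points lies on the segment of the two others (`Collinear` points: `Wbtw` trichotomy,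
`Collinear.wbtw_or_wbtw_or_wbtw`), say `B ∈ [A, C]`; then `convexHull {A, B, C} = [C, A]` (or use that
`segment C A` is convex and contains the three points, `convexHull_min`), a subset of `S`; likewise in
the two other cases. -/
theorem tri_mem {S : Set (ℝ × ℝ)} (hS : TriConn S) {A B C P : ℝ × ℝ} (h1 : segment ℝ A B ⊆ S)
    (h2 : segment ℝ B C ⊆ S) (h3 : segment ℝ C A ⊆ S) (hP : P ∈ convexHull ℝ {A, B, C}) : P ∈ S := by
  by_cases hc : Collinear ℝ {A, B, C}
  · rcases hc.wbtw_or_wbtw_or_wbtw with h | h | h
    · exact a1_wbtw h (by rwa [segment_symm]) hP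
    · refine a1_wbtw h (by rwa [segment_symm]) ?_
      have : ({B, C, A} : Set (ℝ × ℝ)) = {A, B, C} := by
        ext x
        simp only [mem_insert_iff, mem_singleton_iff]
        tauto
      rwa [this]
    · refine a1_wbtw h (by rwa [segment_symm]) ?_
      have : ({C, A, B} : Set (ℝ × ℝ)) = {A, B, C} := by
        ext x
        simp only [mem_insert_iff, mem_singleton_iff]
        tauto
      rwa [this]
  · exact hS A B C hc h1 h2 h3 hP

/-- [BI-A1] Membership in a triangle by signs of determinants.
PROOF. Put `D = tdet A B C > 0`, `a = tdet B C P / D`, `b = tdet C A P / D`, `c = tdet A B P / D`; these are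
`≥ 0`, `a + b + c = 1` (polynomial identity `tdet B C P + tdet C A P + tdet A B P = tdet A B C`) and
`a A + b B + c C = P` (polynomial identity, `field_simp; ring`). So `P` is in the convex hull
(`convexHull_insert` / `Convex.sum_mem` as in `tri_bound` of
`Pool/Agent/Results/MP_0d1e2e_co/LogBound.lean`), and `tri_mem` applies. -/
theorem tri_mem_det {S : Set (ℝ × ℝ)} (hS : TriConn S) {A B C P : ℝ × ℝ} (h1 : segment ℝ A B ⊆ S)
    (h2 : segment ℝ B C ⊆ S) (h3 : segment ℝ C A ⊆ S) (hD : 0 < tdet A B C)
    (d1 : 0 ≤ tdet A B P) (d2 : 0 ≤ tdet B C P) (d3 : 0 ≤ tdet C A P) : P ∈ S := by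
  have hD' : tdet A B C ≠ 0 := hD.ne'
  have h := a1_combo (A := A) (B := B) (C := C) (div_nonneg d2 hD.le) (div_nonneg d3 hD.le)
    (div_nonneg d1 hD.le) (by
      rw [← add_div, ← add_div, div_eq_one_iff_eq hD']
      unfold tdet
      ring)
  have e : (tdet B C P / tdet A B C) • A + (tdet C A P / tdet A B C) • B +
      (tdet A B P / tdet A B C) • C = P := by
    ext
    · simp only [Prod.fst_add, Prod.smul_fst, smul_eq_mul]
      field_simp
      unfold tdet
      ring
    · simp only [Prod.snd_add, Prod.smul_snd, smul_eq_mul]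
      field_simp
      unfold tdet
      ring
  rw [e] at h
  exact tri_mem hS h1 h2 h3 h

/-- [BI-A1] The same with the other orientation. PROOF: `tri_mem_det` for `A, C, B` (swap `B` and `C`;
`tdet A C B = - tdet A B C`, `tdet A C P = - tdet C A P`, ...; segments by `segment_symm`). -/
theorem tri_mem_det' {S : Set (ℝ × ℝ)} (hS : TriConn S) {A B C P : ℝ × ℝ} (h1 : segment ℝ A B ⊆ S)
    (h2 : segment ℝ B C ⊆ S) (h3 : segment ℝ C A ⊆ S) (hD : tdet A B C < 0)
    (d1 : tdet A B P ≤ 0) (d2 : tdet B C P ≤ 0) (d3 : tdet C A P ≤ 0) : P ∈ S := by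
  refine tri_mem_det hS (A := A) (B := C) (C := B) (by rwa [segment_symm]) (by rwa [segment_symm])
    (by rwa [segment_symm]) ?_ ?_ ?_ ?_
  · have e : tdet A C B = - tdet A B C := by
      unfold tdet
      ring
    rw [e]
    linarith
  · have e : tdet A C P = - tdet C A P := by
      unfold tdet
      ring
    rw [e]
    linarith
  · have e : tdet C B P = - tdet B C P := by
      unfold tdet
      ring
    rw [e]
    linarith
  · have e : tdet B A P = - tdet A B P := by
      unfold tdet
      ring
    rw [e]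
    linarith

/-- [BI-A1] A point of the convex hull, converse direction not needed; here: if the three sides lie
in `S`, the whole hull does. PROOF: `fun P hP => tri_mem hS h1 h2 h3 hP`. -/
theorem tri_subset {S : Set (ℝ × ℝ)} (hS : TriConn S) {A B C : ℝ × ℝ} (h1 : segment ℝ A B ⊆ S)
    (h2 : segment ℝ B C ⊆ S) (h3 : segment ℝ C A ⊆ S) : convexHull ℝ {A, B, C} ⊆ S :=
  fun _ hP => tri_mem hS h1 h2 h3 hP

end Pool.Agent.BI
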