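import Pool.Agent.BI.Basic

set_option autoImplicit false

open MeasureTheory Set
open scoped ENNReal

namespace Pool.Agent.BI

/-- The standard triangle has area at least `1 / 2`: it and its image under `p ↦ (1, 1) - p` cover
the unit square. -/
theorem a2_std : ENNReal.ofReal (1 / 2) ≤
    volume {p : ℝ × ℝ | 0 ≤ p.1 ∧ 0 ≤ p.2 ∧ p.1 + p.2 ≤ 1} := by
  set T : Set (ℝ × ℝ) := {p : ℝ × ℝ | 0 ≤ p.1 ∧ 0 ≤ p.2 ∧ p.1 + p.2 ≤ 1} with hT
  have hc : IsClosed T := by
    refine (isClosed_le continuous_const continuous_fst).inter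
      ((isClosed_le continuous_const continuous_snd).inter
        (isClosed_le (continuous_fst.add continuous_snd) continuous_const))
  have h1 : volume ((fun p : ℝ × ℝ => ((1 : ℝ), (1 : ℝ)) - p) ⁻¹' T) = volume T :=
    (Measure.measurePreserving_sub_left volume ((1 : ℝ), (1 : ℝ))).measure_preimage
      hc.measurableSet.nullMeasurableSet
  have h2 : Icc (0 : ℝ) 1 ×ˢ Icc (0 : ℝ) 1 ⊆
      T ∪ (fun p : ℝ × ℝ => ((1 : ℝ), (1 : ℝ)) - p) ⁻¹' T := by
    rintro ⟨x, y⟩ ⟨⟨hx0, hx1⟩, ⟨hy0, hy1⟩⟩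
    simp only at hx0 hx1 hy0 hy1
    rcases le_total (x + y) 1 with h | h
    · left
      exact ⟨hx0, hy0, h⟩
    · right
      refine ⟨?_, ?_, ?_⟩
      · show 0 ≤ 1 - x
        linarith
      · show 0 ≤ 1 - y
        linarith
      · show (1 - x) + (1 - y) ≤ 1
        linarith
  have h3 : volume (Icc (0 : ℝ) 1 ×ˢ Icc (0 : ℝ) 1) = 1 := by
    rw [Measure.volume_eq_prod, Measure.prod_prod, Real.volume_Icc]
    norm_num
  have h4 : (1 : ℝ≥0∞) ≤ 2 * volume T := by
    rw [← h3, two_mul]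
    refine (measure_mono h2).trans ((measure_union_le _ _).trans ?_)
    rw [h1]
  calc ENNReal.ofReal (1 / 2) = (2 : ℝ≥0∞)⁻¹ * 1 := by
        rw [mul_one, ENNReal.ofReal_div_of_pos (by norm_num)]
        norm_num
    _ ≤ (2 : ℝ≥0∞)⁻¹ * (2 * volume T) := by gcongr
    _ = volume T := by
        rw [← mul_assoc, ENNReal.inv_mul_cancel (by norm_num) (by norm_num), one_mul]

/-- [BI-A2] Area of a triangle (lower bound is all that is needed; equality holds).
PROOF. The triangle with vertices `A, B, C` has area `|tdet A B C| / 2`. Lower bound: it contains the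
image of the standard triangle; or: it contains for every `n`... The simplest way: the linear map
`p ↦ p.1 • (B - A) + p.2 • (C - A)` has determinant `tdet A B C`
(`Measure.addHaar_image_linearMap`, see `par_area` in `Pool/Agent/Results/MP_0d1e2e_co/LogBound.lean`)
and maps `{p | 0 ≤ p.1, 0 ≤ p.2, p.1 + p.2 ≤ 1}` (area `1 / 2`: Fubini / `volume_regionBetween_eq_integral`, or: it
and its image under `p ↦ (1, 1) - p` cover the unit square of area `1`, so its area is `≥ 1 / 2`) into
the translate of the hull. -/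
theorem tri_area {A B C : ℝ × ℝ} :
    ENNReal.ofReal (|tdet A B C| / 2) ≤ volume (convexHull ℝ ({A, B, C} : Set (ℝ × ℝ))) := by
  set v : ℝ × ℝ := B - A with hv
  set w : ℝ × ℝ := C - A with hw
  set T : Set (ℝ × ℝ) := {p : ℝ × ℝ | 0 ≤ p.1 ∧ 0 ≤ p.2 ∧ p.1 + p.2 ≤ 1} with hT
  set f : ℝ × ℝ →ₗ[ℝ] ℝ × ℝ := Matrix.toLin (Module.Basis.finTwoProd ℝ) (Module.Basis.finTwoProd ℝ)
    !![v.1, w.1; v.2, w.2] with hf
  have hfa : ∀ p : ℝ × ℝ, f p = p.1 • v + p.2 • w := by
    intro p
    rw [hf, Matrix.toLin_finTwoProd_apply]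
    ext <;> simp <;> ring
  have hdet : LinearMap.det f = tdet A B C := by
    rw [hf, LinearMap.det_toLin, Matrix.det_fin_two_of]
    simp only [hv, hw, Prod.fst_sub, Prod.snd_sub, tdet]
    ring
  have himg : (fun y => A + y) '' (f '' T) ⊆ convexHull ℝ ({A, B, C} : Set (ℝ × ℝ)) := by
    rintro _ ⟨_, ⟨p, ⟨h0, h1, h2⟩, rfl⟩, rfl⟩
    have hA : A ∈ convexHull ℝ ({A, B, C} : Set (ℝ × ℝ)) := subset_convexHull ℝ _ (by simp)
    have hB : B ∈ convexHull ℝ ({A, B, C} : Set (ℝ × ℝ)) := subset_convexHull ℝ _ (by simp)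
    have hC : C ∈ convexHull ℝ ({A, B, C} : Set (ℝ × ℝ)) := subset_convexHull ℝ _ (by simp)
    have e : A + f p = (1 - p.1 - p.2) • A + p.1 • B + p.2 • C := by
      rw [hfa, hv, hw]
      module
    show A + f p ∈ _
    rw [e]
    have h3 := (convex_convexHull ℝ ({A, B, C} : Set (ℝ × ℝ))).sum_mem (t := Finset.univ)
      (w := ![1 - p.1 - p.2, p.1, p.2]) (z := ![A, B, C]) ?_ ?_ ?_
    · simpa [Fin.sum_univ_three] using h3
    · intro i _
      fin_cases i
      · show 0 ≤ 1 - p.1 - p.2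
        linarith
      · exact h0
      · exact h1
    · simp [Fin.sum_univ_three]
      ring
    · intro i _
      fin_cases i
      · exact hA
      · exact hB
      · exact hC
  have hvol : volume ((fun y => A + y) '' (f '' T)) = ENNReal.ofReal |tdet A B C| * volume T := by
    rw [image_add_left, measure_preimage_add, Measure.addHaar_image_linearMap, hdet]
  calc ENNReal.ofReal (|tdet A B C| / 2) = ENNReal.ofReal |tdet A B C| * ENNReal.ofReal (1 / 2) := by
        rw [← ENNReal.ofReal_mul (abs_nonneg _)]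
        congr 1
        ring
    _ ≤ ENNReal.ofReal |tdet A B C| * volume T := by
        gcongr
        exact a2_std
    _ = volume ((fun y => A + y) '' (f '' T)) := hvol.symm
    _ ≤ _ := measure_mono himg

end Pool.Agent.BI
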