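import Pool.Agent.BI.Basic

set_option autoImplicit false

open MeasureTheory Set
open scoped ENNReal

namespace Pool.Agent.BI

/-- [BI-A3] `fr c u` is affine.
PROOF: `ext`, unfold, `ring` (with `a + b = 1` for the translation part:
`c.1 = (a + b) * c.1`). -/
theorem fr_comb (c u p q : ℝ × ℝ) {a b : ℝ} (hab : a + b = 1) :
    fr c u (a • p + b • q) = a • fr c u p + b • fr c u q := by
  obtain rfl : b = 1 - a := by linarith
  refine Prod.ext ?_ ?_
  · simp only [fr, Prod.fst_add, Prod.snd_add, Prod.smul_fst, Prod.smul_snd, smul_eq_mul]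
    ring
  · simp only [fr, Prod.fst_add, Prod.snd_add, Prod.smul_fst, Prod.smul_snd, smul_eq_mul]
    ring

/-- [BI-A3] PROOF: `segment` is the set of `a • p + b • q`, `a, b ≥ 0`, `a + b = 1`; use `fr_comb`. -/
theorem fr_image_segment (c u p q : ℝ × ℝ) :
    fr c u '' segment ℝ p q = segment ℝ (fr c u p) (fr c u q) := by
  ext z
  constructor
  · rintro ⟨x, ⟨a, b, ha, hb, hab, rfl⟩, rfl⟩
    exact ⟨a, b, ha, hb, hab, (fr_comb c u p q hab).symm⟩
  · rintro ⟨a, b, ha, hb, hab, rfl⟩
    exact ⟨a • p + b • q, ⟨a, b, ha, hb, hab, rfl⟩, fr_comb c u p q hab⟩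

/-- [BI-A3] PROOF: `image_subset_iff` and `fr_image_segment`. -/
theorem segment_inF {S : Set (ℝ × ℝ)} {c u p q : ℝ × ℝ} :
    segment ℝ p q ⊆ fr c u ⁻¹' S ↔ segment ℝ (fr c u p) (fr c u q) ⊆ S := by
  rw [← image_subset_iff, fr_image_segment]

/-- [BI-A3] PROOF: `fr c u` is the restriction of an affine map (`fr_comb`), the image of a convex set is
convex (`convex_iff_forall_pos` or `Convex` by definition: for `fr p, fr q` in the image and weights `a, b`,
the point `a • fr p + b • fr q = fr (a • p + b • q)`). -/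
theorem convex_image_fr {c u : ℝ × ℝ} {D : Set (ℝ × ℝ)} (hD : Convex ℝ D) :
    Convex ℝ (fr c u '' D) := by
  rintro _ ⟨p, hp, rfl⟩ _ ⟨q, hq, rfl⟩ a b ha hb hab
  exact ⟨a • p + b • q, hD hp hq ha hb hab, fr_comb c u p q hab⟩

/-- [BI-A3] preimages of convex sets are convex. PROOF: `fr_comb`. -/
theorem convex_preimage_fr {c u : ℝ × ℝ} {D : Set (ℝ × ℝ)} (hD : Convex ℝ D) :
    Convex ℝ (fr c u ⁻¹' D) := by
  intro p hp q hq a b ha hb hab
  show fr c u (a • p + b • q) ∈ D
  rw [fr_comb c u p q hab]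
  exact hD hp hq ha hb hab

/-- [BI-A3] `fr c u` is continuous and measurable. -/
theorem continuous_fr (c u : ℝ × ℝ) : Continuous (fr c u) := by
  unfold fr
  fun_prop

theorem continuous_fi (c u : ℝ × ℝ) : Continuous (fi c u) := by
  unfold fi
  fun_prop

end Pool.Agent.BI
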