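import Pool.Agent.BI.A3

set_option autoImplicit false

open MeasureTheory Set
open scoped ENNReal

namespace Pool.Agent.BI

/-- [BI-A4] `fr c u` preserves Lebesgue measure.
PROOF. `fr c u = (· + c) ∘ L` with `L : ℝ × ℝ →ₗ ℝ × ℝ` the linear map with matrix
`!![u.1, -u.2; u.2, u.1]` (`Matrix.toLin (Module.Basis.finTwoProd ℝ) _`, see `par_area` in
`Pool/Agent/Results/MP_0d1e2e_co/LogBound.lean`), of determinant `u.1 ^ 2 + u.2 ^ 2 = 1`;
`Measure.addHaar_preimage_linearMap`/`map_linearMap_addHaar_eq_smul_addHaar` and translation invariance. -/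
theorem measurePreserving_fr {c u : ℝ × ℝ} (hu : UV u) :
    MeasurePreserving (fr c u) (volume : Measure (ℝ × ℝ)) (volume : Measure (ℝ × ℝ)) := by
  set L : ℝ × ℝ →ₗ[ℝ] ℝ × ℝ := Matrix.toLin (Module.Basis.finTwoProd ℝ) (Module.Basis.finTwoProd ℝ)
    !![u.1, -u.2; u.2, u.1] with hL
  have hdet : LinearMap.det L = 1 := by
    rw [hL, LinearMap.det_toLin, Matrix.det_fin_two_of]
    unfold UV at hu
    linear_combination hu
  have hLc : Continuous L := L.continuous_of_finiteDimensional
  have hLp : ∀ p : ℝ × ℝ, L p = (u.1 * p.1 + -u.2 * p.2, u.2 * p.1 + u.1 * p.2) := by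
    intro p
    rw [hL, Matrix.toLin_finTwoProd_apply]
  have hfr : fr c u = (fun p => p + c) ∘ L := by
    funext p
    rw [Function.comp_apply, hLp]
    ext
    · simp only [fr, Prod.fst_add]
      ring
    · simp only [fr, Prod.snd_add]
      ring
  refine ⟨(continuous_fr c u).measurable, ?_⟩
  rw [hfr, ← Measure.map_map (measurable_add_const c) hLc.measurable]
  have h1 : Measure.map L (volume : Measure (ℝ × ℝ)) = volume := by
    rw [Measure.map_linearMap_addHaar_eq_smul_addHaar volume (by rw [hdet]; exact one_ne_zero), hdet]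
    simp
  rw [h1]
  exact (measurePreserving_add_right volume c).map_eq

/-- [BI-A4] the same for arbitrary sets. PROOF: `fr c u` is a measurable equivalence with inverse
`fi c u` (`fr_fi`, `fi_fr`, continuity), so `MeasurePreserving.measure_preimage_equiv` (or
`MeasurableEmbedding`) applies to all sets. -/
theorem volume_preimage_fr {c u : ℝ × ℝ} (hu : UV u) (T : Set (ℝ × ℝ)) :
    volume (fr c u ⁻¹' T) = volume T := by
  have he : MeasurableEmbedding (fr c u) := by
    have h1 : Function.LeftInverse (fi c u) (fr c u) := fi_fr hu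
    have h2 : Function.RightInverse (fi c u) (fr c u) := fr_fi hu
    exact (MeasurableEquiv.measurableEmbedding
      { toFun := fr c u
        invFun := fi c u
        left_inv := h1
        right_inv := h2
        measurable_toFun := (continuous_fr c u).measurable
        measurable_invFun := (continuous_fi c u).measurable })
  exact (measurePreserving_fr hu).measure_preimage_emb he T

/-- [BI-A4] PROOF: `fr c u ⁻¹' (fr c u '' T) = T` (`fr` injective by `fi_fr`) and
`volume_preimage_fr`. -/
theorem volume_image_fr {c u : ℝ × ℝ} (hu : UV u) (T : Set (ℝ × ℝ)) :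
    volume (fr c u '' T) = volume T := by
  have h1 : Function.Injective (fr c u) := Function.LeftInverse.injective (g := fi c u) (fi_fr hu)
  rw [← volume_preimage_fr hu, preimage_image_eq T h1]

end Pool.Agent.BI
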