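import Pool.Agent.BI.A1
import Pool.Agent.BI.A3
import Pool.Agent.BI.A4

set_option autoImplicit false

open MeasureTheory Set
open scoped ENNReal

namespace Pool.Agent.BI

/-- [BI-A5] PROOF. Let `A, B, C` be non-collinear with the three sides in `fr c u ⁻¹' S`. Their images are
non-collinear (if the images were collinear, `fi c u`, which is affine too, would map them to
collinear points; or: collinearity is equivalent to the vanishing of the determinant
`(B.1 - A.1) * (C.2 - A.2) - (B.2 - A.2) * (C.1 - A.1)`, which `fr` preserves, as `u` is a unit vector)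
and have their sides in `S` (`segment_inF`). So the hull of the images is in `S`; and
`fr c u '' convexHull {A, B, C} ⊆ convexHull {fr A, fr B, fr C}` (`convexHull_min` and
`convex_preimage_fr`). -/
theorem TriConn_inF {S : Set (ℝ × ℝ)} (hS : TriConn S) {c u : ℝ × ℝ} (hu : UV u) :
    TriConn (fr c u ⁻¹' S) := by
  intro A B C _ h1 h2 h3
  rw [segment_inF] at h1 h2 h3
  have h4 := tri_subset hS h1 h2 h3
  refine Subset.trans (convexHull_min ?_ (convex_preimage_fr (c := c) (u := u)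
    (convex_convexHull ℝ ({fr c u A, fr c u B, fr c u C} : Set (ℝ × ℝ))))) (preimage_mono h4)
  intro p hp
  rw [mem_preimage]
  apply subset_convexHull
  rcases hp with rfl | rfl | rfl <;> simp

/-- [BI-A5] composition of frames. PROOF: `fr_rel` (Basic): `ext p`, unfold `inF`, `mem_preimage`. -/
theorem inF_relRoom {S : Set (ℝ × ℝ)} {j k : Room} (hj : UV j.u) :
    inF (relRoom j k) (inF j S) = inF k S := by
  ext p
  simp only [inF, mem_preimage]
  rw [fr_rel hj]

/-- [BI-A5] PROOF: all clauses are statements about `inF (relRoom j k) (inF j S) = inF k S` and about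
`r, h`, which do not change; `UV` by `UV_rel`; `RectIn` by `fr_rel`. -/
theorem IsRoom_rel {S : Set (ℝ × ℝ)} {κ : ℝ} {j k : Room} (hj : UV j.u) (hk : IsRoom S κ k) :
    IsRoom (inF j S) κ (relRoom j k) := by
  refine ⟨UV_rel hj hk.uv, hk.h0, hk.thin, hk.lo, hk.hi, ?_, ?_⟩
  · intro x y hx hy
    have h := hk.rect x y hx hy
    show fr j.c j.u (fr (relRoom j k).c (relRoom j k).u (x, y)) ∈ S
    rw [fr_rel hj]
    exact h
  · rw [inF_relRoom hj]
    exact hk.reg

/-- [BI-A5] -/
theorem DRoom_rel {S : Set (ℝ × ℝ)} {κ ε : ℝ} {j k : Room} (hj : UV j.u) (hk : DRoom S κ ε k) :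
    DRoom (inF j S) κ ε (relRoom j k) := by
  refine ⟨IsRoom_rel hj hk.toIsRoom, ?_⟩
  rw [inF_relRoom hj]
  exact hk.cov

/-- [BI-A5] a D-room seen in its own frame. PROOF: unfold everything; `rect` is `RectIn`. -/
theorem DRoom.std {S : Set (ℝ × ℝ)} {κ ε : ℝ} {j : Room} (hS : TriConn S) (hκ : 0 < κ) (hε : 0 < ε)
    (hε1 : ε ≤ 1 / 10 ^ 30) (hj : DRoom S κ ε j) : StdD (inF j S) κ ε j.r j.h := by
  exact ⟨TriConn_inF hS hj.uv, hκ, hε, hε1, hj.h0, hj.thin, hj.lo, hj.hi,
    fun x y hx hy => hj.rect x y hx hy, hj.reg, hj.cov⟩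

/-- [BI-A5] points of the axis of `k` in the frame of `j`. PROOF: `fr_rel`. -/
theorem ax_rel {j k : Room} (hj : UV j.u) (t : ℝ) :
    fr j.c j.u ((relRoom j k).ax t) = k.ax t := by
  unfold Room.ax
  exact fr_rel hj _

/-- [BI-A5] foot and distance: if `|(fi c u y).2| ≤ p` then `y` is at distance `≤ p` from the point
`fr c u ((fi c u y).1, 0)`. PROOF: `y = fr c u (fi c u y)` and `d2_fr`. -/
theorem d2_foot {c u y : ℝ × ℝ} (hu : UV u) {p : ℝ} (h : |(fi c u y).2| ≤ p) :
    d2 y (fr c u ((fi c u y).1, 0)) ≤ p ^ 2 := by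
  have h1 : d2 y (fr c u ((fi c u y).1, 0)) = (fi c u y).2 ^ 2 := by
    have h2 := d2_fr (c := c) hu (fi c u y) ((fi c u y).1, 0)
    rw [fr_fi hu] at h2
    rw [h2]
    simp [d2]
  rw [h1]
  exact sq_le_sq' (by linarith [(abs_le.mp h).1]) (abs_le.mp h).2

/-- [BI-A5] the projections to the frame coordinates do not increase distances. PROOF: with
`p = fi c u x`, `q = fi c u y` one has `d2 x y = d2 (fr p) (fr q) = d2 p q ≥ (p.1 - q.1) ^ 2`. Then
`abs_le_of_sq_le_sq'`. -/
theorem abs_fi_sub_le {c u x y : ℝ × ℝ} (hu : UV u) {a : ℝ} (ha : 0 ≤ a) (h : d2 x y ≤ a ^ 2) :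
    |(fi c u x).1 - (fi c u y).1| ≤ a ∧ |(fi c u x).2 - (fi c u y).2| ≤ a := by
  have h1 : d2 x y = d2 (fi c u x) (fi c u y) := by
    have h2 := d2_fr (c := c) hu (fi c u x) (fi c u y)
    rwa [fr_fi hu, fr_fi hu] at h2
  rw [h1] at h
  unfold d2 at h
  constructor
  · apply abs_le_of_sq_le_sq _ ha
    nlinarith [sq_nonneg ((fi c u x).2 - (fi c u y).2)]
  · apply abs_le_of_sq_le_sq _ ha
    nlinarith [sq_nonneg ((fi c u x).1 - (fi c u y).1)]

end Pool.Agent.BI
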