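import Pool.Agent.BI.Basic

set_option autoImplicit false

open MeasureTheory Set
open scoped ENNReal

namespace Pool.Agent.BI

theorem a6_equiv {S : Set (ℝ × ℝ)} (hS : TriConn S) (f : (ℝ × ℝ) ≃ₗ[ℝ] (ℝ × ℝ)) :
    TriConn (f ⁻¹' S) := by
  intro A B C hc h1 h2 h3
  have hseg : ∀ p q : ℝ × ℝ, segment ℝ p q ⊆ f ⁻¹' S → segment ℝ (f p) (f q) ⊆ S := by
    intro p q h
    have e : (f : (ℝ × ℝ) → (ℝ × ℝ)) '' segment ℝ p q = segment ℝ (f p) (f q) :=
      image_segment ℝ (f.toLinearMap.toAffineMap) p q
    rw [← e, image_subset_iff]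
    exact h
  have hc' : ¬ Collinear ℝ {f A, f B, f C} := by
    intro h
    apply hc
    rw [collinear_iff_exists_forall_eq_smul_vadd] at h ⊢
    obtain ⟨p, v, hv⟩ := h
    have key : ∀ X : ℝ × ℝ, (∃ r : ℝ, f X = r • v +ᵥ p) →
        ∃ r : ℝ, X = r • f.symm v +ᵥ f.symm p := by
      rintro X ⟨r, hr⟩
      refine ⟨r, ?_⟩
      rw [vadd_eq_add] at hr ⊢
      rw [← map_smul, ← map_add, ← hr, f.symm_apply_apply]
    refine ⟨f.symm p, f.symm v, ?_⟩
    intro X hX
    apply key
    apply hv
    rcases hX with rfl | rfl | rfl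
    · exact Or.inl rfl
    · exact Or.inr (Or.inl rfl)
    · exact Or.inr (Or.inr rfl)
  have h4 := hS (f A) (f B) (f C) hc' (hseg A B h1) (hseg B C h2) (hseg C A h3)
  have e : (f : (ℝ × ℝ) → (ℝ × ℝ)) '' convexHull ℝ {A, B, C} = convexHull ℝ {f A, f B, f C} := by
    have h5 := f.toLinearMap.image_convexHull ({A, B, C} : Set (ℝ × ℝ))
    rw [image_insert_eq, image_pair] at h5
    exact h5
  rw [← image_subset_iff, e]
  exact h4

/-- [BI-A6] PROOF. The reflection is a linear involution: images of segments are segments, images of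
convex hulls are convex hulls, collinearity is preserved (determinant changes sign). For `A, B, C`
non-collinear with sides in `flipx S` the reflected points have sides in `S` and are non-collinear, so their
hull is in `S`; a point of `convexHull {A, B, C}` is reflected into the hull of the reflected points.
(Use the linear equivalence `LinearEquiv.prodCongr (LinearEquiv.neg ℝ) (LinearEquiv.refl ℝ ℝ)`, or do it by
hand with `a • p + b • q`.) -/
theorem TriConn_flipx {S : Set (ℝ × ℝ)} (hS : TriConn S) : TriConn (flipx S) := by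
  exact a6_equiv hS (LinearEquiv.prodCongr (LinearEquiv.neg ℝ) (LinearEquiv.refl ℝ ℝ))

/-- [BI-A6] the same. -/
theorem TriConn_flipy {S : Set (ℝ × ℝ)} (hS : TriConn S) : TriConn (flipy S) := by
  exact a6_equiv hS (LinearEquiv.prodCongr (LinearEquiv.refl ℝ ℝ) (LinearEquiv.neg ℝ))

end Pool.Agent.BI
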