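import Pool.Agent.BI.A6

set_option autoImplicit false

open MeasureTheory Set
open scoped ENNReal

namespace Pool.Agent.BI

/-- the reflection as a measurable equivalence -/
noncomputable def a7_ex : ℝ × ℝ ≃ᵐ ℝ × ℝ := (MeasurableEquiv.neg ℝ).prodCongr (MeasurableEquiv.refl ℝ)

noncomputable def a7_ey : ℝ × ℝ ≃ᵐ ℝ × ℝ := (MeasurableEquiv.refl ℝ).prodCongr (MeasurableEquiv.neg ℝ)

theorem a7_mpx : MeasurePreserving a7_ex (volume : Measure (ℝ × ℝ)) (volume : Measure (ℝ × ℝ)) :=
  (Measure.measurePreserving_neg (volume : Measure ℝ)).prod (MeasurePreserving.id (volume : Measure ℝ))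

theorem a7_mpy : MeasurePreserving a7_ey (volume : Measure (ℝ × ℝ)) (volume : Measure (ℝ × ℝ)) :=
  (MeasurePreserving.id (volume : Measure ℝ)).prod (Measure.measurePreserving_neg (volume : Measure ℝ))

theorem a7_volx (D : Set (ℝ × ℝ)) : volume (flipx D) = volume D := a7_mpx.measure_preimage_equiv D

theorem a7_voly (D : Set (ℝ × ℝ)) : volume (flipy D) = volume D := a7_mpy.measure_preimage_equiv D

theorem a7_convx {D : Set (ℝ × ℝ)} (h : Convex ℝ D) : Convex ℝ (flipx D) := by
  intro p hp q hq a b ha hb hab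
  have h1 := h hp hq ha hb hab
  change (-(a • p + b • q).1, (a • p + b • q).2) ∈ D
  have e : ((-(a • p + b • q).1, (a • p + b • q).2) : ℝ × ℝ) = a • (-p.1, p.2) + b • (-q.1, q.2) := by
    ext
    · simp; ring
    · simp
  rw [e]
  exact h1

theorem a7_convy {D : Set (ℝ × ℝ)} (h : Convex ℝ D) : Convex ℝ (flipy D) := by
  intro p hp q hq a b ha hb hab
  have h1 := h hp hq ha hb hab
  change ((a • p + b • q).1, -(a • p + b • q).2) ∈ D
  have e : (((a • p + b • q).1, -(a • p + b • q).2) : ℝ × ℝ) = a • (p.1, -p.2) + b • (q.1, -q.2) := by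
    ext
    · simp
    · simp; ring
  rw [e]
  exact h1

theorem a7_rungsx (S : Set (ℝ × ℝ)) (r q : ℝ) : Rungs (flipx S) r q = Neg.neg ⁻¹' Rungs S r q := by
  ext t
  constructor
  · rintro ⟨h1, g, h2, h3⟩
    refine ⟨h1, -g, ?_, ?_⟩
    · rwa [abs_neg]
    · intro y hy
      have h4 : (-(t + g * y), y) ∈ S := h3 y hy
      have e : -t + -g * y = -(t + g * y) := by ring
      rw [e]
      exact h4
  · rintro ⟨h1, g, h2, h3⟩
    refine ⟨h1, -g, ?_, ?_⟩
    · rwa [abs_neg]
    · intro y hy
      have h4 : (-t + g * y, y) ∈ S := h3 y hy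
      have e : -t + g * y = -(t + -g * y) := by ring
      rw [e] at h4
      exact h4

theorem a7_rungsy (S : Set (ℝ × ℝ)) (r q : ℝ) : Rungs (flipy S) r q = Rungs S r q := by
  ext t
  constructor
  · rintro ⟨h1, g, h2, h3⟩
    refine ⟨h1, -g, ?_, ?_⟩
    · rwa [abs_neg]
    · intro y hy
      have h4 : (t + g * -y, - -y) ∈ S := h3 (-y) (by rwa [abs_neg])
      rw [neg_neg] at h4
      have e : t + -g * y = t + g * -y := by ring
      rw [e]
      exact h4
  · rintro ⟨h1, g, h2, h3⟩
    refine ⟨h1, -g, ?_, ?_⟩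
    · rwa [abs_neg]
    · intro y hy
      have h4 : (t + g * -y, -y) ∈ S := h3 (-y) (by rwa [abs_neg])
      change (t + -g * y, -y) ∈ S
      have e : t + -g * y = t + g * -y := by ring
      rw [e]
      exact h4

/-- [BI-A7] PROOF. Clause by clause. `tri`: `TriConn_flipx`. `rect`: `|-x| = |x|`. `reg`: for `D ⊆ flipx S`
convex put `D' = {p | (-p.1, p.2) ∈ D}` (convex, `⊆ S`, same volume: the reflection preserves the measure,
e.g. `Measure.prod` of the two measure preserving maps `Neg.neg` and `id`; for an arbitrary convex set use that the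
reflection is a measurable equivalence, or that it is an isometry: `LinearIsometryEquiv`/`MeasurableEquiv`); the points
`(a, 0), (b, 0) ∈ D` give `(-b, 0), (-a, 0) ∈ D'` with `-r ≤ -b < -a ≤ r` and the same length.
`cov`: `t ∈ Rungs (flipx S) r q ↔ -t ∈ Rungs S r q` (slope `-g`), so the interior is the image of the
interior under `Neg.neg` (homeomorphism), and `Icc (-(r/2)) (r/2)` is symmetric; `Neg.neg` preserves the
volume of all sets (`Measure.measure_preimage_neg`). -/
theorem StdD_flipx {S : Set (ℝ × ℝ)} {κ ε r h : ℝ} (H : StdD S κ ε r h) :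
    StdD (flipx S) κ ε r h := by
  refine
    { tri := TriConn_flipx H.tri
      κ0 := H.κ0
      ε0 := H.ε0
      ε1 := H.ε1
      h0 := H.h0
      thin := H.thin
      lo := H.lo
      hi := H.hi
      rect := ?_
      reg := ?_
      cov := ?_ }
  · intro x y hx hy
    exact H.rect (-x) y (by rwa [abs_neg]) hy
  · intro D hD hconv hball a b ha hab hb h1 h2
    have hD' : flipx D ⊆ S := by
      intro p hp
      have h3 : (- -p.1, p.2) ∈ S := hD hp
      rw [neg_neg] at h3
      exact h3
    have h4 := H.reg (flipx D) hD' (a7_convx hconv)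
      (by
        intro p hp
        have h5 := hball _ hp
        simp only [neg_sq] at h5
        exact h5)
      (-b) (-a) (by linarith) (by linarith) (by linarith)
      (by
        change (- -b, (0 : ℝ)) ∈ D
        rw [neg_neg]
        exact h2)
      (by
        change (- -a, (0 : ℝ)) ∈ D
        rw [neg_neg]
        exact h1)
    rw [a7_volx, show -a - -b = b - a by ring] at h4
    exact h4
  · unfold Cov
    rw [a7_rungsx]
    have h1 : interior (Neg.neg ⁻¹' Rungs S r (pst κ ε r)) = Neg.neg ⁻¹' interior (Rungs S r (pst κ ε r)) :=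
      ((Homeomorph.neg ℝ).preimage_interior _).symm
    rw [h1]
    have h2 : Icc (-(r / 2)) (r / 2) \ Neg.neg ⁻¹' interior (Rungs S r (pst κ ε r)) =
        Neg.neg ⁻¹' (Icc (-(r / 2)) (r / 2) \ interior (Rungs S r (pst κ ε r))) := by
      ext t
      simp only [mem_diff, mem_Icc, mem_preimage]
      constructor
      · rintro ⟨⟨h3, h4⟩, h5⟩
        exact ⟨⟨by linarith, by linarith⟩, h5⟩
      · rintro ⟨⟨h3, h4⟩, h5⟩
        exact ⟨⟨by linarith, by linarith⟩, h5⟩
    rw [h2, Measure.measure_preimage_neg]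
    exact H.cov

/-- [BI-A7] the same for the other reflection; here `Rungs (flipy S) r q = Rungs S r q`:
`(t + g y, y) ∈ flipy S` for all `|y| ≤ q` iff `(t + (-g) y', y') ∈ S` for all `|y'| ≤ q` (`y' = -y`). In
`reg` the points `(a, 0), (b, 0)` do not move. -/
theorem StdD_flipy {S : Set (ℝ × ℝ)} {κ ε r h : ℝ} (H : StdD S κ ε r h) :
    StdD (flipy S) κ ε r h := by
  refine
    { tri := TriConn_flipy H.tri
      κ0 := H.κ0
      ε0 := H.ε0
      ε1 := H.ε1
      h0 := H.h0
      thin := H.thin
      lo := H.lo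
      hi := H.hi
      rect := ?_
      reg := ?_
      cov := ?_ }
  · intro x y hx hy
    exact H.rect x (-y) hx (by rwa [abs_neg])
  · intro D hD hconv hball a b ha hab hb h1 h2
    have hD' : flipy D ⊆ S := by
      intro p hp
      have h3 : (p.1, - -p.2) ∈ S := hD hp
      rw [neg_neg] at h3
      exact h3
    have h4 := H.reg (flipy D) hD' (a7_convy hconv)
      (by
        intro p hp
        have h5 := hball _ hp
        simp only [neg_sq] at h5
        exact h5)
      a b ha hab hb
      (by
        change (a, -(0 : ℝ)) ∈ D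
        rw [neg_zero]
        exact h1)
      (by
        change (b, -(0 : ℝ)) ∈ D
        rw [neg_zero]
        exact h2)
    rw [a7_voly] at h4
    exact h4
  · unfold Cov
    rw [a7_rungsy]
    exact H.cov

end Pool.Agent.BI
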