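import Pool.Agent.BI.Basic

set_option autoImplicit false

open MeasureTheory Set
open scoped ENNReal

namespace Pool.Agent.BI

/-- [BI-B1] Crossing point of a rung with the chord.  Write `f x = A + σ x`.
PROOF. `q > 0` as `q ≥ 20000 h > 0`. `f (i₀), f (i₁) ∈ (0, q / 1000]`, so
`|σ| (i₁ - i₀) = |f i₁ - f i₀| ≤ q / 1000` and `|σ| ≤ (q / 1000) * (20 / r) = q / (50 r)`; `|g| ≤ r / q`. Hence
`|g σ| ≤ 1 / 50`. The second claim is `field_simp; ring` (`1 - g σ ≠ 0`). With `X = XX A σ t g`: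
`X - t = g f(t) / (1 - g σ)`, `|g| f(t) ≤ (r / q) (q / 1000) = r / 1000`, `1 - g σ ≥ 49 / 50`, so
`|X - t| ≤ r / 980 ≤ r / 900`. Finally `t ≥ i₀ + (i₁ - i₀) / 20 ≥ i₀ + r / 400`, and `r / 900 ≤ r / 400`;
likewise on the right. -/
theorem IL_XX {S : Set (ℝ × ℝ)} {r h q A σ i₀ i₁ : ℝ} (H : ILctx S r h q A σ i₀ i₁) {t g : ℝ}
    (ht : t ∈ Mid i₀ i₁) (hg : IsRung S r q t g) :
    |g * σ| ≤ 1 / 50 ∧ XX A σ t g = t + g * (A + σ * XX A σ t g) ∧ |XX A σ t g - t| ≤ r / 900 ∧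
      XX A σ t g ∈ Icc i₀ i₁ := by
  have hr := H.r0
  have hh := H.h0
  have hq0 : 0 < q := by linarith [H.hq]
  have hi := H.hi
  have hi01 : i₀ < i₁ := by linarith
  have m0 : i₀ ∈ Icc i₀ i₁ := ⟨le_refl _, hi01.le⟩
  have m1 : i₁ ∈ Icc i₀ i₁ := ⟨hi01.le, le_refl _⟩
  have p0 := H.pos i₀ m0
  have p1 := H.pos i₁ m1
  have l0 := H.low i₀ m0
  have l1 := H.low i₁ m1
  have htI : t ∈ Icc i₀ i₁ := by
    constructor
    · linarith [ht.1]
    · linarith [ht.2]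
  have hσ : |σ| * (i₁ - i₀) ≤ q / 1000 := by
    have e1 : |σ| * (i₁ - i₀) = |σ * (i₁ - i₀)| := by
      rw [abs_mul, abs_of_pos (by linarith : 0 < i₁ - i₀)]
    rw [e1, abs_le]
    constructor
    · nlinarith
    · nlinarith
  have hσ2 : |σ| * r ≤ q / 50 := by
    have e2 : |σ| * (r / 20) ≤ |σ| * (i₁ - i₀) := mul_le_mul_of_nonneg_left hi (abs_nonneg _)
    linarith
  have hgq : |g| * q ≤ r := hg.1
  have c1 : |g * σ| ≤ 1 / 50 := by
    rw [abs_mul]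
    have e3 : |g| * (|σ| * r) ≤ |g| * (q / 50) := mul_le_mul_of_nonneg_left hσ2 (abs_nonneg _)
    have e4 : (|g| * |σ|) * r ≤ (1 / 50) * r := by
      calc (|g| * |σ|) * r = |g| * (|σ| * r) := by ring
        _ ≤ |g| * (q / 50) := e3
        _ = (|g| * q) / 50 := by ring
        _ ≤ r / 50 := by linarith
        _ = (1 / 50) * r := by ring
    exact le_of_mul_le_mul_right e4 hr
  obtain ⟨c1a, c1b⟩ := abs_le.1 c1
  have hden : 49 / 50 ≤ 1 - g * σ := by linarith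
  have hden0 : 1 - g * σ ≠ 0 := by linarith
  have hX : XX A σ t g * (1 - g * σ) = t + g * A := by
    unfold XX
    rw [div_mul_cancel₀ _ hden0]
  have c2 : XX A σ t g = t + g * (A + σ * XX A σ t g) := by linear_combination hX
  have hdiff : (XX A σ t g - t) * (1 - g * σ) = g * (A + σ * t) := by linear_combination hX
  have c3 : |XX A σ t g - t| ≤ r / 900 := by
    have e5 : |XX A σ t g - t| * (1 - g * σ) = |g| * (A + σ * t) := by
      have h1 := congrArg abs hdiff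
      rw [abs_mul, abs_mul, abs_of_pos (by linarith : 0 < 1 - g * σ), abs_of_pos (H.pos t htI)] at h1
      exact h1
    have e6 : |g| * (A + σ * t) ≤ |g| * (q / 1000) := by
      refine mul_le_mul_of_nonneg_left ?_ (abs_nonneg _)
      linarith [H.low t htI]
    have e7 : |XX A σ t g - t| * (49 / 50) ≤ |XX A σ t g - t| * (1 - g * σ) :=
      mul_le_mul_of_nonneg_left hden (abs_nonneg _)
    have e8 : |g| * (q / 1000) ≤ r / 1000 := by
      calc |g| * (q / 1000) = (|g| * q) / 1000 := by ring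
        _ ≤ r / 1000 := by linarith
    have e9 : |XX A σ t g - t| * (49 / 50) ≤ r / 1000 := by linarith
    linarith
  obtain ⟨c3a, c3b⟩ := abs_le.1 c3
  refine ⟨c1, c2, c3, ?_, ?_⟩
  · linarith [ht.1]
  · linarith [ht.2]

/-- [BI-B1] PROOF. `ω = (x, y)` separates `1` from `3`; `(t₂ + g₂ y, y) ∈ S` because `|y| ≤ q`
(`0 < y < f x ≤ q / 1000`), so `x ≠ t₂ + g₂ y`; if `x < t₂ + g₂ y`, `ω` separates `1` from `2`, otherwise `2` from
`3`. -/
theorem IL_trans {S : Set (ℝ × ℝ)} {r h q A σ i₀ i₁ : ℝ} (H : ILctx S r h q A σ i₀ i₁)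
    {t₁ g₁ t₂ g₂ t₃ g₃ : ℝ} (hg : IsRung S r q t₂ g₂) (hs : Sep S A σ i₀ i₁ t₁ g₁ t₃ g₃) :
    Sep S A σ i₀ i₁ t₁ g₁ t₂ g₂ ∨ Sep S A σ i₀ i₁ t₂ g₂ t₃ g₃ := by
  obtain ⟨x, y, hx, hy0, hy1, hS, h1, h3⟩ := hs
  have hq0 : 0 < q := by linarith [H.hq, H.h0]
  have hy : |y| ≤ q := by
    rw [abs_of_pos hy0]
    linarith [H.low x hx]
  have hm := hg.2 y hy
  have hne : x ≠ t₂ + g₂ * y := by
    intro h
    rw [h] at hS
    exact hS hm
  rcases lt_or_gt_of_ne hne with h | h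
  · left
    exact ⟨x, y, hx, hy0, hy1, hS, h1, h⟩
  · right
    exact ⟨x, y, hx, hy0, hy1, hS, h, h3⟩

end Pool.Agent.BI
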