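import Pool.Agent.BI.A1
import Pool.Agent.BI.B1

set_option autoImplicit false

open MeasureTheory Set
open scoped ENNReal

namespace Pool.Agent.BI

/-- pieces of a rung are in `S` -/
theorem b2_rung {S : Set (ℝ × ℝ)} {r q t g : ℝ} (hg : IsRung S r q t g) {y₁ y₂ : ℝ}
    (h1 : |y₁| ≤ q) (h2 : |y₂| ≤ q) :
    segment ℝ ((t + g * y₁, y₁) : ℝ × ℝ) (t + g * y₂, y₂) ⊆ S := by
  rintro p ⟨a, b, ha, hb, hab, rfl⟩
  have e : a • ((t + g * y₁, y₁) : ℝ × ℝ) + b • (t + g * y₂, y₂) =
      (t + g * (a * y₁ + b * y₂), a * y₁ + b * y₂) := by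
    ext
    · simp only [Prod.smul_mk, Prod.mk_add_mk, smul_eq_mul]
      linear_combination t * hab
    · simp only [Prod.smul_mk, Prod.mk_add_mk, smul_eq_mul]
  rw [e]
  apply hg.2
  rw [abs_le] at *
  obtain ⟨h1, h1'⟩ := h1
  obtain ⟨h2, h2'⟩ := h2
  constructor
  · nlinarith
  · nlinarith

/-- pieces of the chord are in `S` -/
theorem b2_chord {S : Set (ℝ × ℝ)} {r h q A σ i₀ i₁ : ℝ} (H : ILctx S r h q A σ i₀ i₁) {x₁ x₂ : ℝ}
    (h1 : x₁ ∈ Icc i₀ i₁) (h2 : x₂ ∈ Icc i₀ i₁) :
    segment ℝ ((x₁, A + σ * x₁) : ℝ × ℝ) (x₂, A + σ * x₂) ⊆ S := by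
  rintro p ⟨a, b, ha, hb, hab, rfl⟩
  have e : a • ((x₁, A + σ * x₁) : ℝ × ℝ) + b • (x₂, A + σ * x₂) =
      (a * x₁ + b * x₂, A + σ * (a * x₁ + b * x₂)) := by
    ext
    · simp only [Prod.smul_mk, Prod.mk_add_mk, smul_eq_mul]
    · simp only [Prod.smul_mk, Prod.mk_add_mk, smul_eq_mul]
      linear_combination A * hab
  rw [e]
  exact H.chord _ (convex_Icc i₀ i₁ h1 h2 ha hb hab)

/-- pieces of the axis are in `S` -/
theorem b2_axis {S : Set (ℝ × ℝ)} {r h q A σ i₀ i₁ : ℝ} (H : ILctx S r h q A σ i₀ i₁) {x₁ x₂ : ℝ}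
    (h1 : |x₁| ≤ r) (h2 : |x₂| ≤ r) :
    segment ℝ ((x₁, 0) : ℝ × ℝ) (x₂, 0) ⊆ S := by
  rintro p ⟨a, b, ha, hb, hab, rfl⟩
  have e : a • ((x₁, 0) : ℝ × ℝ) + b • (x₂, 0) = (a * x₁ + b * x₂, 0) := by
    ext
    · simp only [Prod.smul_mk, Prod.mk_add_mk, smul_eq_mul]
    · simp only [Prod.smul_mk, Prod.mk_add_mk, smul_eq_mul]
      ring
  rw [e]
  apply H.rect
  · rw [abs_le] at *
    obtain ⟨h1, h1'⟩ := h1
    obtain ⟨h2, h2'⟩ := h2
    constructor
    · nlinarith
    · nlinarith
  · rw [abs_zero]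
    exact H.h0.le

theorem b2_q {S : Set (ℝ × ℝ)} {r h q A σ i₀ i₁ : ℝ} (H : ILctx S r h q A σ i₀ i₁) : 0 < q := by
  have := H.hq
  have := H.h0
  linarith

theorem b2_mid {i₀ i₁ t : ℝ} (h : i₀ ≤ i₁) (ht : t ∈ Mid i₀ i₁) : t ∈ Icc i₀ i₁ := by
  obtain ⟨a, b⟩ := ht
  constructor <;> linarith

theorem b2_le {S : Set (ℝ × ℝ)} {r h q A σ i₀ i₁ : ℝ} (H : ILctx S r h q A σ i₀ i₁) : i₀ ≤ i₁ := by
  have := H.hi
  have := H.r0
  linarith

/-- two rungs separated by an obstacle do not cross below the chord in the wrong order -/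
theorem b2_cross {S : Set (ℝ × ℝ)} {r h q A σ i₀ i₁ : ℝ} (H : ILctx S r h q A σ i₀ i₁)
    {t g t' g' : ℝ} (ht : t ∈ Mid i₀ i₁) (ht' : t' ∈ Mid i₀ i₁) (hg : IsRung S r q t g)
    (hg' : IsRung S r q t' g') (hs : Sep S A σ i₀ i₁ t g t' g') (hgg : g < g') {Y : ℝ}
    (hY : |Y| ≤ q) (hYe : t + g * Y = t' + g' * Y)
    (h1 : Y < A + σ * XX A σ t g) (h2 : Y < A + σ * XX A σ t' g') : False := by
  obtain ⟨a1, a2, a3, a4⟩ := IL_XX H ht hg
  obtain ⟨b1, b2, b3, b4⟩ := IL_XX H ht' hg'
  obtain ⟨x, y, hx, hy, hyf, hxy, hl, hr⟩ := hs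
  have hq := b2_q H
  set X := XX A σ t g with hX
  set X' := XX A σ t' g' with hX'
  have hF : |A + σ * X| ≤ q := by
    have := H.pos X a4
    have := H.low X a4
    rw [abs_of_pos (by assumption)]
    linarith
  have hF' : |A + σ * X'| ≤ q := by
    have := H.pos X' b4
    have := H.low X' b4
    rw [abs_of_pos (by assumption)]
    linarith
  have hXX : 0 < X' - X := by
    have e : (1 - g * σ) * (X' - X) = (g' - g) * (A + σ * X' - Y) := by
      linear_combination b2 - a2 - hYe
    have p1 : 0 < (g' - g) * (A + σ * X' - Y) := mul_pos (by linarith) (by linarith)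
    have p2 : 0 < 1 - g * σ := by
      rw [abs_le] at a1
      linarith [a1.2]
    rw [← e] at p1
    exact (mul_pos_iff_of_pos_left p2).1 p1
  apply hxy
  have s1 := b2_rung hg' hY hF'
  have s2 := b2_chord H b4 a4
  have s3 := b2_rung hg hF hY
  rw [← a2] at s3
  rw [← b2, ← hYe] at s1
  have d1 : tdet (t + g * Y, Y) (X', A + σ * X') (x, y) = (A + σ * X' - Y) * (t' + g' * y - x) := by
    simp only [tdet]
    linear_combination (y - Y) * (b2 - hYe) + (A + σ * X' - Y) * hYe
  have d2 : tdet (X', A + σ * X') (X, A + σ * X) (x, y) = (X' - X) * (A + σ * x - y) := by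
    simp only [tdet]
    ring
  have d3 : tdet (X, A + σ * X) (t + g * Y, Y) (x, y) = (A + σ * X - Y) * (x - (t + g * y)) := by
    simp only [tdet]
    linear_combination (Y - y) * a2
  have d4 : tdet (t + g * Y, Y) (X', A + σ * X') (X, A + σ * X) =
      tdet (t + g * Y, Y) (X', A + σ * X') (x, y) + tdet (X', A + σ * X') (X, A + σ * X) (x, y) +
        tdet (X, A + σ * X) (t + g * Y, Y) (x, y) := by
    simp only [tdet]
    ring
  have p1 : 0 < (A + σ * X' - Y) * (t' + g' * y - x) := mul_pos (by linarith) (by linarith)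
  have p2 : 0 < (X' - X) * (A + σ * x - y) := mul_pos hXX (by linarith)
  have p3 : 0 < (A + σ * X - Y) * (x - (t + g * y)) := mul_pos (by linarith) (by linarith)
  exact tri_mem_det H.tri s1 s2 s3 (by rw [d4, d1, d2, d3]; linarith) (by rw [d1]; exact p1.le)
    (by rw [d2]; exact p2.le) (by rw [d3]; exact p3.le)

/-- [BI-B2] Order of separated rungs.  Write `f x = A + σ x`, `X = XX A σ t g`, `X' = XX A σ t' g'`,
`F = f X`, `F' = f X'`, `ω = (x, y)` the obstacle; `P = (X, F)`, `P' = (X', F')` are the points of the rungs on the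
chord (`IL_XX`). Note `0 < y < f x ≤ q / 1000`, `F, F' ∈ (0, q / 1000]`. All the triangles below have their three
sides in `S`: pieces of the rungs at heights of absolute value `≤ q`, a piece of the chord between `X` and `X'`
(both in `[i₀, i₁]`), a piece of the axis between `t` and `t'`. To put a segment between two points of a line
into `S`: a point of `segment` is `a • p + b • q`; its height is the same combination of the heights.
PROOF.
(2) `(g' - g) q ≤ t' - t`, if `t < t'`. Otherwise `g' > g` and `y₁ = (t' - t) / (g' - g) ∈ (0, q)`; the rungs cross at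
`C = (t - g y₁, - y₁) = (t' - g' y₁, - y₁)`. `(1 - g σ)(X' - X) = (t' - t) + (g' - g) F' > 0` (use
`X = t + g F`, `X' = t' + g' F'`, `F' - F = σ (X' - X)`), so `X' > X`. Apply `tri_mem_det` to `C, P', P`:
`tdet C P' ω = (F' + y₁)(t' + g' y - x) > 0`, `tdet P' P ω = (X - X')(y - f x) ≥ 0`,
`tdet P C ω = (F + y₁)(x - t - g y) > 0`, and `tdet C P' P` is the sum of these three (polynomial identity), so
positive. Hence `ω ∈ S`, a contradiction.
(1) `t < t'`. Suppose `t' ≤ t`. As `t + g y < x < t' + g' y`, `g' > g` and `y₁ = (t - t') / (g' - g) ∈ [0, y)`; the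
rungs cross at `C = (t + g y₁, y₁) = (t' + g' y₁, y₁)`. Claim `y₁ < F` and `y₁ < F'`: the functions
`φ(s) = f (t + g s) - s = f t - (1 - σ g) s`, `φ'(s) = f (t' + g' s) - s` are strictly decreasing (`|g σ|, |g' σ| ≤ 1/50`),
with zeros `F`, `F'`; `f x > y` and `x` is strictly between `t + g y` and `t' + g' y`, `f` affine, so `φ(y) > 0` or
`φ'(y) > 0`; as `y₁ < y` and `φ(y₁) = φ'(y₁) = f(C.1) - y₁`, both are `> 0` at `y₁`, so `y₁ < F, F'`. Then
`(1 - g σ)(X' - X) = (t' - t) + (g' - g) F' = (g' - g)(F' - y₁) > 0`, and `tri_mem_det` for `C, P', P` as in (2):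
`tdet C P' ω = (F' - y₁)(t' + g' y - x) > 0`, `tdet P' P ω = (X - X')(y - f x) ≥ 0`,
`tdet P C ω = (F - y₁)(x - t - g y) > 0`.
(3) Suppose `(g - g') f t > 1.1 (t' - t)`. Then `g > g'`, and `y₁ = (t' - t) / (g - g') < f t / 1.1 ≤ q`;
`t + g y < x < t' + g' y` gives `y < y₁`. The rungs cross at `C = (t + g y₁, y₁)`. `tri_mem_det` for
`(t, 0), (t', 0), C`: the determinants at `ω` are `(t' - t) y`, `y₁ (t' + g' y - x)`, `y₁ (x - t - g y)`, all `> 0`.
Sides: the axis between `t` and `t'` (`rect` with `y = 0`), pieces of the rungs at heights in `[0, y₁] ⊆ [0, q]`. -/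
theorem IL_ord {S : Set (ℝ × ℝ)} {r h q A σ i₀ i₁ : ℝ} (H : ILctx S r h q A σ i₀ i₁)
    {t g t' g' : ℝ} (ht : t ∈ Mid i₀ i₁) (ht' : t' ∈ Mid i₀ i₁) (hg : IsRung S r q t g)
    (hg' : IsRung S r q t' g') (hs : Sep S A σ i₀ i₁ t g t' g') :
    t < t' ∧ (g' - g) * q ≤ t' - t ∧ (g - g') * (A + σ * t) ≤ 11 / 10 * (t' - t) := by
  have hq := b2_q H
  obtain ⟨a1, a2, a3, a4⟩ := IL_XX H ht hg
  obtain ⟨b1, b2, b3, b4⟩ := IL_XX H ht' hg'
  obtain ⟨x, y, hx, hy, hyf, hxy, hl, hr⟩ := hs
  have hs : Sep S A σ i₀ i₁ t g t' g' := ⟨x, y, hx, hy, hyf, hxy, hl, hr⟩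
  have F0 := H.pos _ a4
  have F0' := H.pos _ b4
  have Fq := H.low _ a4
  have Fq' := H.low _ b4
  have hyq : 1000 * y ≤ q := by
    have := H.low x hx
    linarith
  have c1 : 0 < 1 - g * σ := by
    rw [abs_le] at a1
    linarith [a1.2]
  have c1' : 0 < 1 - g' * σ := by
    rw [abs_le] at b1
    linarith [b1.2]
  have key1 : t < t' := by
    by_contra hc
    push Not at hc
    have hgg : g < g' := by
      by_contra h
      push Not at h
      have : g' * y ≤ g * y := mul_le_mul_of_nonneg_right h hy.le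
      linarith
    have hd : 0 < g' - g := by linarith
    have e1 : (g' - g) * ((t - t') / (g' - g)) = t - t' := by
      field_simp
    set Y := (t - t') / (g' - g) with hY
    have Y0 : 0 ≤ Y := div_nonneg (by linarith) hd.le
    have Yy : Y < y := by
      rw [hY, div_lt_iff₀ hd]
      linarith
    -- `F > y` or `F' > y`
    have hφ : A + σ * (t + g * y) - y = (1 - g * σ) * (A + σ * XX A σ t g - y) := by
      linear_combination (-σ) * a2
    have hφ' : A + σ * (t' + g' * y) - y = (1 - g' * σ) * (A + σ * XX A σ t' g' - y) := by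
      linear_combination (-σ) * b2
    have hor : y < A + σ * XX A σ t g ∨ y < A + σ * XX A σ t' g' := by
      rcases le_total 0 σ with hσ | hσ
      · right
        have : 0 < (1 - g' * σ) * (A + σ * XX A σ t' g' - y) := by
          rw [← hφ']
          have : σ * x ≤ σ * (t' + g' * y) := mul_le_mul_of_nonneg_left hr.le hσ
          linarith
        have := (mul_pos_iff_of_pos_left c1').1 this
        linarith
      · left
        have : 0 < (1 - g * σ) * (A + σ * XX A σ t g - y) := by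
          rw [← hφ]
          have : σ * x ≤ σ * (t + g * y) := mul_le_mul_of_nonpos_left hl.le hσ
          linarith
        have := (mul_pos_iff_of_pos_left c1).1 this
        linarith
    have hYe : t + g * Y = t' + g' * Y := by linarith
    have heq : (1 - g * σ) * (A + σ * XX A σ t g - Y) = (1 - g' * σ) * (A + σ * XX A σ t' g' - Y) := by
      linear_combination σ * a2 - σ * b2 + σ * hYe
    have hY1 : Y < A + σ * XX A σ t g := by
      rcases hor with h | h
      · linarith
      · have : 0 < (1 - g' * σ) * (A + σ * XX A σ t' g' - Y) := mul_pos c1' (by linarith)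
        rw [← heq] at this
        have := (mul_pos_iff_of_pos_left c1).1 this
        linarith
    have hY2 : Y < A + σ * XX A σ t' g' := by
      rcases hor with h | h
      · have : 0 < (1 - g * σ) * (A + σ * XX A σ t g - Y) := mul_pos c1 (by linarith)
        rw [heq] at this
        have := (mul_pos_iff_of_pos_left c1').1 this
        linarith
      · linarith
    exact b2_cross H ht ht' hg hg' hs hgg (by rw [abs_of_nonneg Y0]; linarith) hYe hY1 hY2
  refine ⟨key1, ?_, ?_⟩
  · by_contra hc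
    push Not at hc
    have hgg : g < g' := by
      by_contra h
      push Not at h
      have : (g' - g) * q ≤ 0 := mul_nonpos_of_nonpos_of_nonneg (by linarith) hq.le
      linarith
    have hd : 0 < g' - g := by linarith
    have e1 : (g' - g) * ((t' - t) / (g' - g)) = t' - t := by
      field_simp
    set y₁ := (t' - t) / (g' - g) with hy₁
    have y0 : 0 < y₁ := div_pos (by linarith) hd
    have yq : y₁ < q := by
      rw [hy₁, div_lt_iff₀ hd]
      linarith
    exact b2_cross H ht ht' hg hg' hs hgg (Y := -y₁) (by rw [abs_neg, abs_of_pos y0]; exact yq.le)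
      (by linarith) (by linarith) (by linarith)
  · by_contra hc
    push Not at hc
    have ht0 := b2_mid (b2_le H) ht
    have ht0' := b2_mid (b2_le H) ht'
    have ft0 := H.pos _ ht0
    have ftq := H.low _ ht0
    have hgg : g' < g := by
      by_contra h
      push Not at h
      have : (g - g') * (A + σ * t) ≤ 0 := mul_nonpos_of_nonpos_of_nonneg (by linarith) ft0.le
      linarith
    have hd : 0 < g - g' := by linarith
    have e1 : (g - g') * ((t' - t) / (g - g')) = t' - t := by
      field_simp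
    set y₁ := (t' - t) / (g - g') with hy₁
    have y0 : 0 < y₁ := div_pos (by linarith) hd
    have yq : y₁ < A + σ * t := by
      rw [hy₁, div_lt_iff₀ hd]
      linarith
    have yy : y < y₁ := by
      rw [hy₁, lt_div_iff₀ hd]
      linarith
    have hYe : t + g * y₁ = t' + g' * y₁ := by linarith
    have r0 := H.r0
    have i0 := H.hi0
    have i1 := H.hi1
    have s1 : segment ℝ ((t, 0) : ℝ × ℝ) (t', 0) ⊆ S := b2_axis H
      (by rw [abs_le]; constructor <;> linarith [ht0.1, ht0.2])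
      (by rw [abs_le]; constructor <;> linarith [ht0'.1, ht0'.2])
    have s2 := b2_rung hg' (y₁ := 0) (y₂ := y₁) (by rw [abs_zero]; exact hq.le)
      (by rw [abs_of_pos y0]; linarith)
    have s3 := b2_rung hg (y₁ := y₁) (y₂ := 0) (by rw [abs_of_pos y0]; linarith)
      (by rw [abs_zero]; exact hq.le)
    rw [mul_zero, add_zero, ← hYe] at s2
    rw [mul_zero, add_zero] at s3
    apply hxy
    have d0 : tdet (t, 0) (t', 0) (t + g * y₁, y₁) = (t' - t) * y₁ := by
      simp only [tdet]
      ring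
    have d1 : tdet (t, 0) (t', 0) (x, y) = (t' - t) * y := by
      simp only [tdet]
      ring
    have d2 : tdet (t', 0) (t + g * y₁, y₁) (x, y) = y₁ * (t' + g' * y - x) := by
      simp only [tdet]
      linear_combination y * hYe
    have d3 : tdet (t + g * y₁, y₁) (t, 0) (x, y) = y₁ * (x - (t + g * y)) := by
      simp only [tdet]
      ring
    exact tri_mem_det H.tri s1 s2 s3 (by rw [d0]; exact mul_pos (by linarith) y0)
      (by rw [d1]; exact (mul_pos (by linarith) hy).le)
      (by rw [d2]; exact (mul_pos y0 (by linarith)).le)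
      (by rw [d3]; exact (mul_pos y0 (by linarith)).le)

end Pool.Agent.BI
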