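import Pool.Agent.BI.B1
import Pool.Agent.BI.B2

set_option autoImplicit false

open MeasureTheory Set
open scoped ENNReal

namespace Pool.Agent.BI

/-- [BI-B3] PROOF. With `X, X', F'` as in `IL_ord`: `(1 - g σ)(X' - X) = (t' - t) + (g' - g) F'`,
`0 < F' ≤ q / 1000`, `(g' - g) q ≤ t' - t` (`IL_ord`), so the right side is `≤ (t' - t)(1 + 1/1000)`;
`1 - g σ ≥ 49 / 50`. If `X' - X ≤ 0` nothing is to be proved (`t < t'`). -/
theorem IL_top {S : Set (ℝ × ℝ)} {r h q A σ i₀ i₁ : ℝ} (H : ILctx S r h q A σ i₀ i₁)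
    {t g t' g' : ℝ} (ht : t ∈ Mid i₀ i₁) (ht' : t' ∈ Mid i₀ i₁) (hg : IsRung S r q t g)
    (hg' : IsRung S r q t' g') (hs : Sep S A σ i₀ i₁ t g t' g') :
    XX A σ t' g' - XX A σ t g ≤ 11 / 10 * (t' - t) := by
  obtain ⟨h1, h2, -, -⟩ := IL_XX H ht hg
  obtain ⟨-, h4, -, h5⟩ := IL_XX H ht' hg'
  obtain ⟨h6, h7, -⟩ := IL_ord H ht ht' hg hg' hs
  have hF := H.pos _ h5
  have hq := H.low _ h5
  set X := XX A σ t g
  set X' := XX A σ t' g'
  set F' := A + σ * X' with hF'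
  have e1 : (1 - g * σ) * (X' - X) = (t' - t) + (g' - g) * F' := by
    rw [hF'] at h4 ⊢
    linear_combination h4 - h2
  have e2 : (g' - g) * F' ≤ (t' - t) / 1000 := by
    rcases le_or_gt (g' - g) 0 with h8 | h8
    · have h9 : (g' - g) * F' ≤ 0 := mul_nonpos_of_nonpos_of_nonneg h8 hF.le
      have h10 : 0 ≤ (t' - t) / 1000 := by linarith
      linarith
    · have h9 : (g' - g) * (1000 * F') ≤ (g' - g) * q := mul_le_mul_of_nonneg_left hq h8.le
      linarith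
  have e3 : 49 / 50 ≤ 1 - g * σ := by
    have := (abs_le.1 h1).2
    linarith
  rcases le_or_gt (X' - X) 0 with h8 | h8
  · have : 0 ≤ 11 / 10 * (t' - t) := by linarith
    linarith
  · have e4 : 49 / 50 * (X' - X) ≤ (1 - g * σ) * (X' - X) := mul_le_mul_of_nonneg_right e3 h8.le
    linarith

end Pool.Agent.BI
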