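import Pool.Agent.BI.B2

set_option autoImplicit false

open MeasureTheory Set
open scoped ENNReal

namespace Pool.Agent.BI

/-- [BI-B4] Rungs in one interval of rung positions are not separated.
PROOF. Suppose `ω = (x, y)` separates. For `s ∈ [a, b]` let `p s = s + G s * y`; `(p s, y) ∈ S` (`|y| ≤ q`), so
`p s ≠ x`. Let `L = {s ∈ [a, b] | p s < x}`; `a ∈ L`, `b ∉ L`. If `s ∈ L`, `s' ∈ [a, b] \ L`, then `Sep` holds for
`(s, G s), (s', G s')` (with the same `ω`), so `s < s'` and `(G s' - G s) q ≤ s' - s` by `IL_ord`; hence, as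
`0 < y ≤ q`, `0 < p s' - p s ≤ (s' - s) + max 0 (G s' - G s) * y ≤ 2 (s' - s)`. Let `s₀ = sSup L ∈ [a, b]`.
If `s₀ ∈ L`: `s₀ < b` (as `b ∉ L`), all `s' ∈ (s₀, b]` are not in `L`, so `x - p s₀ < p s' - p s₀ ≤ 2 (s' - s₀)`; let
`s' → s₀`: contradiction with `x - p s₀ > 0` (take `s' = min b (s₀ + (x - p s₀) / 2)`).
If `s₀ ∉ L`: `δ = p s₀ - x > 0`; there is `s ∈ L` with `s > s₀ - δ / 2` (`exists_lt_of_lt_csSup`), and
`δ < p s₀ - p s ≤ 2 (s₀ - s) < δ`, a contradiction. -/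
theorem IL_comp {S : Set (ℝ × ℝ)} {r h q A σ i₀ i₁ : ℝ} (H : ILctx S r h q A σ i₀ i₁) {a b : ℝ}
    (hab : a ≤ b) (hM : Icc a b ⊆ Mid i₀ i₁) (G : ℝ → ℝ)
    (hG : ∀ t ∈ Icc a b, IsRung S r q t (G t)) : ¬ Sep S A σ i₀ i₁ a (G a) b (G b) := by
  rintro ⟨x, y, hx, hy0, hy1, hxS, hxa, hxb⟩
  have hq0 : 0 < q := by
    have h1 := H.hq
    have h2 := H.h0
    linarith
  have hyq : y ≤ q := by
    have h1 := H.low x hx
    have h2 := H.pos x hx
    linarith
  have hya : |y| ≤ q := by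
    rw [abs_of_pos hy0]
    exact hyq
  have hne : ∀ s ∈ Icc a b, s + G s * y ≠ x := by
    intro s hs he
    apply hxS
    have h1 := (hG s hs).2 y hya
    rw [he] at h1
    exact h1
  have key : ∀ s ∈ Icc a b, ∀ s' ∈ Icc a b, s + G s * y < x → ¬ (s' + G s' * y < x) →
      (s' + G s' * y) - (s + G s * y) ≤ 2 * (s' - s) := by
    intro s hs s' hs' h1 h2
    have h3 : x < s' + G s' * y := lt_of_le_of_ne (not_lt.1 h2) (hne s' hs').symm
    obtain ⟨h4, h5, -⟩ := IL_ord H (hM hs) (hM hs') (hG s hs) (hG s' hs')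
      ⟨x, y, hx, hy0, hy1, hxS, h1, h3⟩
    have h6 : (G s' - G s) * y ≤ s' - s := by
      rcases le_total (G s' - G s) 0 with h7 | h7
      · have h8 : (G s' - G s) * y ≤ 0 := mul_nonpos_of_nonpos_of_nonneg h7 hy0.le
        linarith
      · have := mul_le_mul_of_nonneg_left hyq h7
        linarith
    linarith
  have haI : a ∈ Icc a b := ⟨le_rfl, hab⟩
  have hbI : b ∈ Icc a b := ⟨hab, le_rfl⟩
  set L : Set ℝ := {s | s ∈ Icc a b ∧ s + G s * y < x} with hL
  have hane : L.Nonempty := ⟨a, haI, hxa⟩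
  have hbdd : BddAbove L := ⟨b, fun s hs => hs.1.2⟩
  have hs0a : a ≤ sSup L := le_csSup hbdd ⟨haI, hxa⟩
  have hs0b : sSup L ≤ b := csSup_le hane fun s hs => hs.1.2
  by_cases hs0 : sSup L + G (sSup L) * y < x
  · have h1 : sSup L ≠ b := by
      intro h2
      rw [h2] at hs0
      linarith
    have h2 : sSup L < b := lt_of_le_of_ne hs0b h1
    set δ := x - (sSup L + G (sSup L) * y) with hδ
    have hδ0 : 0 < δ := by
      rw [hδ]
      linarith
    set s' := min b (sSup L + δ / 2) with hs'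
    have h3 : sSup L < s' := lt_min h2 (by linarith)
    have h4 : s' ∈ Icc a b := ⟨by linarith, min_le_left _ _⟩
    have h5 : ¬ (s' + G s' * y < x) := by
      intro h6
      have h7 : s' ≤ sSup L := le_csSup hbdd ⟨h4, h6⟩
      linarith
    have h6 := key _ ⟨hs0a, hs0b⟩ _ h4 hs0 h5
    have h7 : s' ≤ sSup L + δ / 2 := min_le_right _ _
    have h8 : s' + G s' * y ≠ x := hne s' h4
    have h9 : x < s' + G s' * y := lt_of_le_of_ne (not_lt.1 h5) h8.symm
    linarith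
  · set δ := (sSup L + G (sSup L) * y) - x with hδ
    have hδ0 : 0 < δ := by
      have h1 : x < sSup L + G (sSup L) * y :=
        lt_of_le_of_ne (not_lt.1 hs0) (hne _ ⟨hs0a, hs0b⟩).symm
      rw [hδ]
      linarith
    obtain ⟨s, hsL, hs1⟩ := exists_lt_of_lt_csSup hane (show sSup L - δ / 2 < sSup L by linarith)
    have h6 := key _ hsL.1 _ ⟨hs0a, hs0b⟩ hsL.2 hs0
    have h7 := hsL.2
    linarith

end Pool.Agent.BI
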