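import Pool.Agent.BI.A1
import Pool.Agent.BI.B1
import Pool.Agent.BI.B2

set_option autoImplicit false

open MeasureTheory Set
open scoped ENNReal

namespace Pool.Agent.BI

/-- pieces of a rung are in `S` -/
theorem b5_rung {S : Set (ℝ × ℝ)} {r q t g : ℝ} (hg : IsRung S r q t g) {y₁ y₂ : ℝ}
    (h1 : |y₁| ≤ q) (h2 : |y₂| ≤ q) :
    segment ℝ ((t + g * y₁, y₁) : ℝ × ℝ) (t + g * y₂, y₂) ⊆ S := by
  rintro p ⟨a, b, ha, hb, hab, rfl⟩
  have e : a • ((t + g * y₁, y₁) : ℝ × ℝ) + b • (t + g * y₂, y₂) =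
      (t + g * (a * y₁ + b * y₂), a * y₁ + b * y₂) := by
    ext
    · simp only [Prod.smul_mk, Prod.mk_add_mk, smul_eq_mul]
      linear_combination t * hab
    · simp only [Prod.smul_mk, Prod.mk_add_mk, smul_eq_mul]
  rw [e]
  apply hg.2
  rw [abs_le] at *
  obtain ⟨h1, h1'⟩ := h1
  obtain ⟨h2, h2'⟩ := h2
  constructor
  · nlinarith
  · nlinarith

/-- pieces of the chord are in `S` -/
theorem b5_chord {S : Set (ℝ × ℝ)} {r h q A σ i₀ i₁ : ℝ} (H : ILctx S r h q A σ i₀ i₁) {x₁ x₂ : ℝ}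
    (h1 : x₁ ∈ Icc i₀ i₁) (h2 : x₂ ∈ Icc i₀ i₁) :
    segment ℝ ((x₁, A + σ * x₁) : ℝ × ℝ) (x₂, A + σ * x₂) ⊆ S := by
  rintro p ⟨a, b, ha, hb, hab, rfl⟩
  have e : a • ((x₁, A + σ * x₁) : ℝ × ℝ) + b • (x₂, A + σ * x₂) =
      (a * x₁ + b * x₂, A + σ * (a * x₁ + b * x₂)) := by
    ext
    · simp only [Prod.smul_mk, Prod.mk_add_mk, smul_eq_mul]
    · simp only [Prod.smul_mk, Prod.mk_add_mk, smul_eq_mul]
      linear_combination A * hab
  rw [e]
  exact H.chord _ (convex_Icc i₀ i₁ h1 h2 ha hb hab)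

/-- pieces of the axis are in `S` -/
theorem b5_axis {S : Set (ℝ × ℝ)} {r h q A σ i₀ i₁ : ℝ} (H : ILctx S r h q A σ i₀ i₁) {x₁ x₂ : ℝ}
    (h1 : |x₁| ≤ r) (h2 : |x₂| ≤ r) :
    segment ℝ ((x₁, 0) : ℝ × ℝ) (x₂, 0) ⊆ S := by
  rintro p ⟨a, b, ha, hb, hab, rfl⟩
  have e : a • ((x₁, 0) : ℝ × ℝ) + b • (x₂, 0) = (a * x₁ + b * x₂, 0) := by
    ext
    · simp only [Prod.smul_mk, Prod.mk_add_mk, smul_eq_mul]
    · simp only [Prod.smul_mk, Prod.mk_add_mk, smul_eq_mul]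
      ring
  rw [e]
  apply H.rect
  · rw [abs_le] at *
    obtain ⟨h1, h1'⟩ := h1
    obtain ⟨h2, h2'⟩ := h2
    constructor
    · nlinarith
    · nlinarith
  · rw [abs_zero]
    exact H.h0.le

theorem b5_q {S : Set (ℝ × ℝ)} {r h q A σ i₀ i₁ : ℝ} (H : ILctx S r h q A σ i₀ i₁) : 0 < q := by
  have := H.hq
  have := H.h0
  linarith

theorem b5_mid {i₀ i₁ t : ℝ} (h : i₀ ≤ i₁) (ht : t ∈ Mid i₀ i₁) : t ∈ Icc i₀ i₁ := by
  obtain ⟨a, b⟩ := ht
  constructor <;> linarith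

theorem b5_le {S : Set (ℝ × ℝ)} {r h q A σ i₀ i₁ : ℝ} (H : ILctx S r h q A σ i₀ i₁) : i₀ ≤ i₁ := by
  have := H.hi
  have := H.r0
  linarith

/-- [BI-B5] The tilt lemma.  Write `f x = A + σ x`, `X_i = XX A σ t_i g_i`, `F_i = f X_i`, `P_i = (X_i, F_i)`.
PROOF. Suppose `q (t₃ - t₂) < 400 h (X₂ - X₁)`. `d = t₃ - t₂ > 0` (`IL_ord`), so `X₂ > X₁` and, as
`400 h / q ≤ 1 / 50`, `d < (X₂ - X₁) / 50`.
(a) `T := t₂ + g₂ F₁ - X₁ = (1 - g₂ σ)(X₂ - X₁) ≥ (49 / 50)(X₂ - X₁)` (`X₂ = t₂ + g₂ F₂`, `F₂ - F₁ = σ (X₂ - X₁)`).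
(b) `f t₂ ≥ F₁ / 20`: `t₂ ∈ Mid`, so `t₂ = α i₀ + β i₁` with `α, β ≥ 1 / 20`, `α + β = 1`, and
`f t₂ = α f i₀ + β f i₁ ≥ max (f i₀) (f i₁) / 20 ≥ F₁ / 20` (`X₁ ∈ [i₀, i₁]`, `f` affine, positive).
(c) `IL_ord` for `2, 3`: `(g₂ - g₃) f t₂ ≤ 1.1 d`, so `g₃ - g₂ ≥ - 22 d / F₁` (if `g₃ ≥ g₂` clear).
(d) `D := T / F₁ + (g₃ - g₂) ≥ (0.98 (X₂ - X₁) - 22 d) / F₁ ≥ 0.54 (X₂ - X₁) / F₁ > 0`.
(e) `y₀ := d / D`; `0 < y₀ ≤ d F₁ / (0.54 (X₂ - X₁)) < (400 h / q)(q / 1000) / 0.54 < h`.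
(f) `m := (X₁ - t₂) / F₁ = g₂ - T / F₁`; the line `x = t₂ + m y` passes through `(t₂, 0)` and `P₁`, and at height `- y₀` it
meets rung 3: `Y := (t₃ - g₃ y₀, - y₀) = (t₂ - m y₀, - y₀)`, because `(g₃ - m) y₀ = D y₀ = d`.
(g) `1 - m σ = f t₂ / F₁ > 0` and `(X₃ - X₁)(1 - m σ) = D (F₃ + y₀) > 0` (`X₁ = t₂ + m F₁`,
`X₃ = t₃ + g₃ F₃ = t₂ + m F₃ + D (F₃ + y₀)`, `F₃ - F₁ = σ (X₃ - X₁)`), so `X₃ > X₁`.
(h) Triangle `Y, P₃, P₁`. Sides: `[Y, P₃]` on rung 3 (heights in `[-y₀, F₃]`, of absolute value `≤ q`);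
`[P₃, P₁]` on the chord; `[P₁, Y]`: its points are `(t₂ + m s, s)`, `- y₀ ≤ s ≤ F₁`. If `s ≤ 0` the point is in the
rectangle: `|s| ≤ h` and the abscissa is between `t₂` and `Y.1`, `|t₂| ≤ r / 2`,
`|Y.1| ≤ |t₃| + |g₃| y₀ ≤ r / 2 + (r / q) h ≤ r`. If `s = F₁` it is `P₁` on the chord. If `0 < s < F₁`, suppose the
point is not in `S`; it would be an obstacle separating rung 1 from rung 2, contradicting `hns`: its abscissa
`p = t₂ + m s` lies in `[i₀, i₁]` (between `t₂` and `X₁`), `s < f p` (`f p - s` is affine in `s`, `= f t₂ > 0` at `0` and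
`= 0` at `s = F₁`), `p - (t₁ + g₁ s) = (1 - s / F₁)(t₂ - t₁) > 0` (at `s = F₁` both are `X₁ = t₁ + g₁ F₁`),
`(t₂ + g₂ s) - p = (s / F₁) T > 0`.
(i) the obstacle `ω = (x, y)` of `hs`: `tdet Y P₃ ω = (F₃ + y₀)(t₃ + g₃ y - x) > 0`,
`tdet P₃ P₁ ω = (X₁ - X₃)(y - f x) > 0`, `tdet P₁ Y ω = (F₁ + y₀)(x - (t₂ + m y)) > 0` since
`x > t₂ + g₂ y ≥ t₂ + m y` (`g₂ - m = T / F₁ > 0`). The sum of the three is `tdet Y P₃ P₁`. By `tri_mem_det`
`ω ∈ S`, a contradiction. -/
theorem IL_tilt {S : Set (ℝ × ℝ)} {r h q A σ i₀ i₁ : ℝ} (H : ILctx S r h q A σ i₀ i₁)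
    {t₁ g₁ t₂ g₂ t₃ g₃ : ℝ} (h1 : t₁ ∈ Mid i₀ i₁) (h2 : t₂ ∈ Mid i₀ i₁) (h3 : t₃ ∈ Mid i₀ i₁)
    (hg1 : IsRung S r q t₁ g₁) (hg2 : IsRung S r q t₂ g₂) (hg3 : IsRung S r q t₃ g₃)
    (hlt : t₁ < t₂) (hns : ¬ Sep S A σ i₀ i₁ t₁ g₁ t₂ g₂) (hs : Sep S A σ i₀ i₁ t₂ g₂ t₃ g₃) :
    400 * h * (XX A σ t₂ g₂ - XX A σ t₁ g₁) ≤ q * (t₃ - t₂) := by
  by_contra hc
  push Not at hc
  have hq := b5_q H
  have hh := H.h0
  have r0 := H.r0
  have hhq := H.hq
  have i0 := H.hi0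
  have i1 := H.hi1
  have hii := H.hi
  obtain ⟨a1, a2, a3, a4⟩ := IL_XX H h1 hg1
  obtain ⟨b1, b2, b3, b4⟩ := IL_XX H h2 hg2
  obtain ⟨c1, c2, c3, c4⟩ := IL_XX H h3 hg3
  obtain ⟨o1, o2, o3⟩ := IL_ord H h2 h3 hg2 hg3 hs
  set X₁ := XX A σ t₁ g₁ with hX₁
  set X₂ := XX A σ t₂ g₂ with hX₂
  set X₃ := XX A σ t₃ g₃ with hX₃
  clear_value X₁ X₂ X₃
  have F1 := H.pos _ a4
  have F1q := H.low _ a4
  have F3 := H.pos _ c4
  have F3q := H.low _ c4
  have m1 := b5_mid (b5_le H) h1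
  have m2 := b5_mid (b5_le H) h2
  have m3 := b5_mid (b5_le H) h3
  have f2 := H.pos _ m2
  obtain ⟨x, y, hx, hy, hyf, hxy, hl, hr⟩ := hs
  have hyq := H.low _ hx
  set F := A + σ * X₁ with hF
  set d := t₃ - t₂ with hd
  have d0 : 0 < d := by linarith
  have hX : 0 < X₂ - X₁ := by
    have e1 : 0 < 400 * h * (X₂ - X₁) := lt_trans (mul_pos hq d0) hc
    exact (mul_pos_iff_of_pos_left (by positivity)).1 e1
  have hdX : 50 * d < X₂ - X₁ := by
    have e1 : 400 * h * (X₂ - X₁) ≤ q / 50 * (X₂ - X₁) :=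
      mul_le_mul_of_nonneg_right (by linarith) hX.le
    have e2 : q * d < q * ((X₂ - X₁) / 50) := by linarith
    have := lt_of_mul_lt_mul_left e2 hq.le
    linarith
  -- (a)
  clear_value F d
  set T := t₂ + g₂ * F - X₁ with hT
  clear_value T
  have eT : T = (1 - g₂ * σ) * (X₂ - X₁) := by
    rw [hT, hF]
    linear_combination (-1 : ℝ) * b2
  have hTl : 49 / 50 * (X₂ - X₁) ≤ T := by
    rw [eT]
    refine mul_le_mul_of_nonneg_right ?_ hX.le
    linarith [(abs_le.1 b1).2]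
  have T0 : 0 < T := by
    have : 0 < 49 / 50 * (X₂ - X₁) := by positivity
    linarith
  -- (b)
  have hb : F ≤ 20 * (A + σ * t₂) := by
    have q0 := H.pos i₀ ⟨le_rfl, b5_le H⟩
    have q1 := H.pos i₁ ⟨b5_le H, le_rfl⟩
    rcases le_total 0 σ with hσ | hσ
    · have e1 : σ * X₁ ≤ σ * i₁ := mul_le_mul_of_nonneg_left a4.2 hσ
      have e2 : σ * (i₀ + (i₁ - i₀) / 20) ≤ σ * t₂ := mul_le_mul_of_nonneg_left h2.1 hσ
      rw [hF]
      linarith
    · have e1 : σ * X₁ ≤ σ * i₀ := mul_le_mul_of_nonpos_left a4.1 hσ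
      have e2 : σ * (i₁ - (i₁ - i₀) / 20) ≤ σ * t₂ := mul_le_mul_of_nonpos_left h2.2 hσ
      rw [hF]
      linarith
  -- (c)
  have hcc : (g₂ - g₃) * F ≤ 22 * d := by
    rcases le_total g₂ g₃ with hg | hg
    · have : (g₂ - g₃) * F ≤ 0 := mul_nonpos_of_nonpos_of_nonneg (by linarith) F1.le
      linarith
    · have : (g₂ - g₃) * F ≤ (g₂ - g₃) * (20 * (A + σ * t₂)) :=
        mul_le_mul_of_nonneg_left hb (by linarith)
      linarith
  -- (d)
  set D := T / F + (g₃ - g₂) with hD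
  have eD : D * F = T + (g₃ - g₂) * F := by
    rw [hD]
    field_simp
  clear_value D
  have hDF : 27 / 50 * (X₂ - X₁) ≤ D * F := by
    rw [eD]
    linarith
  have D0 : 0 < D := by
    have : 0 < D * F := by
      have : 0 < 27 / 50 * (X₂ - X₁) := by positivity
      linarith
    exact (mul_pos_iff_of_pos_right F1).1 this
  -- (e)
  set y₀ := d / D with hy₀
  have ey : D * y₀ = d := by
    rw [hy₀]
    field_simp
  have y0 : 0 < y₀ := div_pos d0 D0
  clear_value y₀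
  have yh : y₀ < h := by
    rw [hy₀, div_lt_iff₀ D0]
    have e1 : d * F ≤ d * (q / 1000) := mul_le_mul_of_nonneg_left (by linarith) d0.le
    have e2 : h * (27 / 50 * (X₂ - X₁)) ≤ h * (D * F) := mul_le_mul_of_nonneg_left hDF hh.le
    have e3 : 0 < h * (X₂ - X₁) := mul_pos hh hX
    have e4 : d * F < (h * D) * F := by linarith
    exact lt_of_mul_lt_mul_right e4 F1.le
  -- (f)
  set m := (X₁ - t₂) / F with hm
  have em : m * F = X₁ - t₂ := by
    rw [hm]
    field_simp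
  clear_value m
  have egm : (g₂ - m) * F = T := by
    rw [hT]
    linear_combination (-1 : ℝ) * em
  have gm : 0 < g₂ - m := by
    rw [← egm] at T0
    exact (mul_pos_iff_of_pos_right F1).1 T0
  have eDm : D = g₃ - m := by
    have : (D - (g₃ - m)) * F = 0 := by
      linear_combination eD - egm
    rcases mul_eq_zero.1 this with h | h
    · linarith
    · exact absurd h F1.ne'
  have eY : t₂ - m * y₀ = t₃ - g₃ * y₀ := by
    have : (g₃ - m) * y₀ = t₃ - t₂ := by rw [← eDm, ey, hd]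
    linear_combination this
  -- (g)
  have e1m : (1 - m * σ) * F = A + σ * t₂ := by
    have : σ * (m * F) = σ * (X₁ - t₂) := by rw [em]
    rw [hF] at *
    linear_combination (-1 : ℝ) * this
  have p1m : 0 < 1 - m * σ := by
    rw [← e1m] at f2
    exact (mul_pos_iff_of_pos_right F1).1 f2
  have e3 : (X₃ - X₁) * (1 - m * σ) = D * ((A + σ * X₃) + y₀) := by
    rw [mul_add, ey, eDm]
    rw [hF] at em
    linear_combination c2 + em - hd
  have X31 : 0 < X₃ - X₁ := by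
    have : 0 < (X₃ - X₁) * (1 - m * σ) := by
      rw [e3]
      exact mul_pos D0 (by linarith)
    exact (mul_pos_iff_of_pos_right p1m).1 this
  -- (h)
  have t2r : |t₂| ≤ r := by
    rw [abs_le]
    constructor <;> linarith [m2.1, m2.2]
  have tYr : |t₂ - m * y₀| ≤ r := by
    rw [eY]
    have e1 : |g₃| * y₀ ≤ r / 2 := by
      have e2 : |g₃| * y₀ ≤ |g₃| * (q / 2) := mul_le_mul_of_nonneg_left (by linarith) (abs_nonneg _)
      have := hg3.1
      linarith
    have e2 : |g₃ * y₀| ≤ r / 2 := by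
      rw [abs_mul, abs_of_pos y0]
      exact e1
    rw [abs_le] at *
    constructor <;> linarith [m3.1, m3.2, e2.1, e2.2]
  have s1 := b5_rung hg3 (y₁ := -y₀) (y₂ := A + σ * X₃) (by rw [abs_neg, abs_of_pos y0]; linarith)
    (by rw [abs_of_pos F3]; linarith)
  have s2 := b5_chord H c4 a4
  rw [← hF] at s2
  rw [← c2, mul_neg, ← sub_eq_add_neg, ← eY] at s1
  have s3 : segment ℝ ((X₁, F) : ℝ × ℝ) (t₂ - m * y₀, -y₀) ⊆ S := by
    rintro p ⟨a, b, ha, hb, hab, rfl⟩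
    have e : a • ((X₁, F) : ℝ × ℝ) + b • (t₂ - m * y₀, -y₀) =
        (t₂ + m * (a * F - b * y₀), a * F - b * y₀) := by
      ext
      · simp only [Prod.smul_mk, Prod.mk_add_mk, smul_eq_mul]
        linear_combination t₂ * hab - a * em
      · simp only [Prod.smul_mk, Prod.mk_add_mk, smul_eq_mul]
        ring
    rw [e]
    have hs1 : -y₀ ≤ a * F - b * y₀ := by
      have : b * y₀ ≤ 1 * y₀ := mul_le_mul_of_nonneg_right (by linarith) y0.le
      have : 0 ≤ a * F := mul_nonneg ha F1.le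
      linarith
    have hs2 : a * F - b * y₀ ≤ F := by
      have : a * F ≤ 1 * F := mul_le_mul_of_nonneg_right (by linarith) F1.le
      have : 0 ≤ b * y₀ := mul_nonneg hb y0.le
      linarith
    set s := a * F - b * y₀ with hs
    clear_value s
    rcases le_or_gt s 0 with hs0 | hs0
    · apply H.rect
      · rw [abs_le] at *
        constructor
        · have : 0 ≤ (y₀ + s) * (r + t₂) + (-s) * (r + (t₂ - m * y₀)) :=
            add_nonneg (mul_nonneg (by linarith) (by linarith [t2r.1]))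
              (mul_nonneg (by linarith) (by linarith [tYr.1]))
          have e5 : (y₀ + s) * (r + t₂) + (-s) * (r + (t₂ - m * y₀)) = y₀ * (r + t₂ + m * s) := by
            ring
          rw [e5] at this
          have := (mul_nonneg_iff_of_pos_left y0).1 this
          linarith
        · have : 0 ≤ (y₀ + s) * (r - t₂) + (-s) * (r - (t₂ - m * y₀)) :=
            add_nonneg (mul_nonneg (by linarith) (by linarith [t2r.2]))
              (mul_nonneg (by linarith) (by linarith [tYr.2]))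
          have e5 : (y₀ + s) * (r - t₂) + (-s) * (r - (t₂ - m * y₀)) = y₀ * (r - t₂ - m * s) := by
            ring
          rw [e5] at this
          have := (mul_nonneg_iff_of_pos_left y0).1 this
          linarith
      · rw [abs_le]
        constructor <;> linarith
    · rcases eq_or_lt_of_le hs2 with hsF | hsF
      · rw [hsF, em]
        have : t₂ + (X₁ - t₂) = X₁ := by ring
        rw [this, hF]
        exact H.chord _ a4
      · by_contra hn
        apply hns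
        have efs : (A + σ * (t₂ + m * s) - s) * F = (F - s) * (A + σ * t₂) := by
          linear_combination (-s) * e1m
        have e1s : (t₂ + m * s - (t₁ + g₁ * s)) * F = (F - s) * (t₂ - t₁) := by
          linear_combination s * em + s * a2
        refine ⟨t₂ + m * s, s, ?_, hs0, ?_, hn, ?_, ?_⟩
        · have hc1 : (t₂ + m * s) * F = (F - s) * t₂ + s * X₁ := by
            linear_combination s * em
          constructor
          · have : i₀ * F ≤ (t₂ + m * s) * F := by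
              rw [hc1]
              have e6 := mul_le_mul_of_nonneg_left m2.1 (by linarith : 0 ≤ F - s)
              have e7 := mul_le_mul_of_nonneg_left a4.1 hs0.le
              linarith
            exact le_of_mul_le_mul_right this F1
          · have : (t₂ + m * s) * F ≤ i₁ * F := by
              rw [hc1]
              have e6 := mul_le_mul_of_nonneg_left m2.2 (by linarith : 0 ≤ F - s)
              have e7 := mul_le_mul_of_nonneg_left a4.2 hs0.le
              linarith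
            exact le_of_mul_le_mul_right this F1
        · have : 0 < (A + σ * (t₂ + m * s) - s) * F := by
            rw [efs]
            exact mul_pos (by linarith) f2
          have := (mul_pos_iff_of_pos_right F1).1 this
          linarith
        · have : 0 < (t₂ + m * s - (t₁ + g₁ * s)) * F := by
            rw [e1s]
            exact mul_pos (by linarith) (by linarith)
          have := (mul_pos_iff_of_pos_right F1).1 this
          linarith
        · have : 0 < (g₂ - m) * s := mul_pos gm hs0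
          linarith
  -- (i)
  apply hxy
  have k1 : tdet (t₂ - m * y₀, -y₀) (X₃, A + σ * X₃) (x, y) =
      ((A + σ * X₃) + y₀) * (t₃ + g₃ * y - x) := by
    simp only [tdet]
    linear_combination (y + y₀) * c2 - ((y + y₀) - ((A + σ * X₃) + y₀)) * eY
  have k2 : tdet (X₃, A + σ * X₃) (X₁, F) (x, y) = (X₃ - X₁) * (A + σ * x - y) := by
    rw [hF]
    simp only [tdet]
    ring
  have k3 : tdet (X₁, F) (t₂ - m * y₀, -y₀) (x, y) = (F + y₀) * (x - (t₂ + m * y)) := by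
    simp only [tdet]
    linear_combination (y + y₀) * em
  have k4 : tdet (t₂ - m * y₀, -y₀) (X₃, A + σ * X₃) (X₁, F) =
      tdet (t₂ - m * y₀, -y₀) (X₃, A + σ * X₃) (x, y) + tdet (X₃, A + σ * X₃) (X₁, F) (x, y) +
        tdet (X₁, F) (t₂ - m * y₀, -y₀) (x, y) := by
    simp only [tdet]
    ring
  have q1 : 0 < ((A + σ * X₃) + y₀) * (t₃ + g₃ * y - x) := mul_pos (by linarith) (by linarith)
  have q2 : 0 < (X₃ - X₁) * (A + σ * x - y) := mul_pos X31 (by linarith)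
  have q3 : 0 < (F + y₀) * (x - (t₂ + m * y)) := by
    refine mul_pos (by linarith) ?_
    have : 0 < (g₂ - m) * y := mul_pos gm hy
    linarith
  exact tri_mem_det H.tri s1 s2 s3 (by rw [k4, k1, k2, k3]; linarith) (by rw [k1]; exact q1.le)
    (by rw [k2]; exact q2.le) (by rw [k3]; exact q3.le)

end Pool.Agent.BI
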