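import Pool.Agent.BI.A6
import Pool.Agent.BI.B5

set_option autoImplicit false

open MeasureTheory Set
open scoped ENNReal

namespace Pool.Agent.BI

/-- [BI-B6] The context reflected. PROOF: clause by clause (`TriConn_flipx`; `x ∈ [-i₁, -i₀]` iff
`-x ∈ [i₀, i₁]`; `A + (-σ) x = A + σ (-x)`). -/
theorem ILctx_flip {S : Set (ℝ × ℝ)} {r h q A σ i₀ i₁ : ℝ} (H : ILctx S r h q A σ i₀ i₁) :
    ILctx (flipx S) r h q A (-σ) (-i₁) (-i₀) := by
  have hmem : ∀ x : ℝ, x ∈ Icc (-i₁) (-i₀) → -x ∈ Icc i₀ i₁ := by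
    intro x hx
    exact ⟨by linarith [hx.2], by linarith [hx.1]⟩
  refine ⟨TriConn_flipx H.tri, H.r0, H.h0, H.hr, H.hq, ?_, by linarith [H.hi1], by linarith [H.hi0],
    by linarith [H.hi], ?_, ?_, ?_⟩
  · intro x y hx hy
    exact H.rect (-x) y (by rwa [abs_neg]) hy
  · intro x hx
    have h := H.pos (-x) (hmem x hx)
    have e : A + σ * (-x) = A + -σ * x := by ring
    rwa [e] at h
  · intro x hx
    have h := H.low (-x) (hmem x hx)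
    have e : A + σ * (-x) = A + -σ * x := by ring
    rwa [e] at h
  · intro x hx
    have h := H.chord (-x) (hmem x hx)
    have e : A + σ * (-x) = A + -σ * x := by ring
    rw [e] at h
    exact h

/-- [BI-B6] PROOF: obstacle `(x, y) ↦ (-x, y)`. -/
theorem Sep_flip {S : Set (ℝ × ℝ)} {A σ i₀ i₁ t g t' g' : ℝ} :
    Sep (flipx S) A (-σ) (-i₁) (-i₀) (-t') (-g') (-t) (-g) ↔ Sep S A σ i₀ i₁ t g t' g' := by
  constructor
  · rintro ⟨x, y, hx, hy, h1, h2, h3, h4⟩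
    refine ⟨-x, y, ⟨by linarith [hx.2], by linarith [hx.1]⟩, hy, by linarith, h2, by linarith,
      by linarith⟩
  · rintro ⟨x, y, hx, hy, h1, h2, h3, h4⟩
    refine ⟨-x, y, ⟨by linarith [hx.2], by linarith [hx.1]⟩, hy, by linarith, ?_, by linarith,
      by linarith⟩
    intro h5
    apply h2
    have h6 : (-(-x), y) ∈ S := h5
    rwa [neg_neg] at h6

/-- [BI-B6] PROOF: `(t + g y, y) ∈ S ↔ (-t + (-g) y, y) ∈ flipx S`. -/
theorem IsRung_flip {S : Set (ℝ × ℝ)} {r q t g : ℝ} (hg : IsRung S r q t g) :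
    IsRung (flipx S) r q (-t) (-g) := by
  refine ⟨by rw [abs_neg]; exact hg.1, ?_⟩
  intro y hy
  have h := hg.2 y hy
  show (-(-t + -g * y), y) ∈ S
  have e : -(-t + -g * y) = t + g * y := by ring
  rwa [e]

/-- [BI-B6] The mirror image of the tilt lemma.
PROOF. `IL_tilt` for `flipx S` (`ILctx_flip`), the rungs `(-t₂, -g₂), (-t₁, -g₁), (-t₃, -g₃)` in this order
(`IsRung_flip`), `Sep_flip`; `XX A (-σ) (-t) (-g) = - XX A σ t g` (`unfold XX; ring_nf`), and `-t ∈ Mid (-i₁) (-i₀)` iff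
`t ∈ Mid i₀ i₁`. -/
theorem IL_tilt' {S : Set (ℝ × ℝ)} {r h q A σ i₀ i₁ : ℝ} (H : ILctx S r h q A σ i₀ i₁)
    {t₁ g₁ t₂ g₂ t₃ g₃ : ℝ} (h1 : t₁ ∈ Mid i₀ i₁) (h2 : t₂ ∈ Mid i₀ i₁) (h3 : t₃ ∈ Mid i₀ i₁)
    (hg1 : IsRung S r q t₁ g₁) (hg2 : IsRung S r q t₂ g₂) (hg3 : IsRung S r q t₃ g₃)
    (hlt : t₁ < t₂) (hns : ¬ Sep S A σ i₀ i₁ t₁ g₁ t₂ g₂) (hs : Sep S A σ i₀ i₁ t₃ g₃ t₁ g₁) :
    400 * h * (XX A σ t₂ g₂ - XX A σ t₁ g₁) ≤ q * (t₁ - t₃) := by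
  have hM : ∀ t : ℝ, t ∈ Mid i₀ i₁ → -t ∈ Mid (-i₁) (-i₀) := by
    intro t ht
    unfold Mid at ht ⊢
    exact ⟨by linarith [ht.2], by linarith [ht.1]⟩
  have hX : ∀ t g : ℝ, XX A (-σ) (-t) (-g) = - XX A σ t g := by
    intro t g
    unfold XX
    have e1 : -t + -g * A = -(t + g * A) := by ring
    have e2 : 1 - -g * -σ = 1 - g * σ := by ring
    rw [e1, e2, neg_div]
  have h := IL_tilt (ILctx_flip H) (hM t₂ h2) (hM t₁ h1) (hM t₃ h3) (IsRung_flip hg2)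
    (IsRung_flip hg1) (IsRung_flip hg3) (by linarith) (by rw [Sep_flip]; exact hns)
    (by rw [Sep_flip]; exact hs)
  rw [hX, hX] at h
  have e3 : -XX A σ t₁ g₁ - -XX A σ t₂ g₂ = XX A σ t₂ g₂ - XX A σ t₁ g₁ := by ring
  have e4 : -t₃ - -t₁ = t₁ - t₃ := by ring
  rwa [e3, e4] at h

end Pool.Agent.BI
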