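import Pool.Agent.BI.Basic

set_option autoImplicit false

open MeasureTheory Set
open scoped ENNReal

namespace Pool.Agent.BI

/-- [BI-B7] Mesh lemma.
PROOF. Put `W = V ∩ Ioo a b` (open). `volume W > ...`: choose a compact `K ⊆ W` with
`volume (Icc a b \ K) < ofReal d`: `volume (Icc a b) = volume (Icc a b \ W) + volume W`, all finite, `W` measurable,
`Icc a b \ W ⊆ (Icc a b \ V) ∪ {a, b}`; take `K` compact `⊆ W` with `volume (W \ K)` smaller than the positive number
`ofReal d - volume (Icc a b \ V)` (`MeasurableSet.exists_isCompact_diff_lt` or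
`IsOpen.exists_lt_isCompact`). There is `τ > 0` with `Metric.thickening τ K ⊆ V` (`IsCompact.exists_thickening_subset_open`).
Choose `n ≥ 1` with `(b - a) / n < τ`, and let `good` be the indices `i < n` for which the cell
`[a + i (b - a) / n, a + (i + 1) (b - a) / n]` is contained in `V`. A cell which meets `K` is contained in
`V` (its diameter is `< τ`). So the bad cells do not meet `K`; the bad half-open cells
`[a + i (b-a)/n, a + (i+1)(b-a)/n)` are disjoint subsets of `Icc a b \ K`, each of measure `(b - a) / n`; hence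
`(n - card good) (b - a) / n ≤ volume (Icc a b \ K) < d`. -/
theorem mesh {V : Set ℝ} (hV : IsOpen V) {a b d : ℝ} (hab : a < b) (hd : 0 < d)
    (hvol : volume (Icc a b \ V) < ENNReal.ofReal d) :
    ∃ n : ℕ, 0 < n ∧ ∃ good : Finset ℕ, good ⊆ Finset.range n ∧
      (∀ i ∈ good, Icc (a + i * ((b - a) / n)) (a + (i + 1) * ((b - a) / n)) ⊆ V) ∧
      ((n : ℝ) - good.card) * ((b - a) / n) ≤ d := by
  classical
  rcases le_or_gt (b - a) d with hc | hc
  · refine ⟨1, one_pos, ∅, by simp, by simp, ?_⟩
    simp only [Finset.card_empty, Nat.cast_one, Nat.cast_zero, sub_zero, one_mul, div_one]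
    exact hc
  -- the compact set
  have hW : ENNReal.ofReal (b - a - d) < volume (V ∩ Ioo a b) := by
    by_contra hcon
    rw [not_lt] at hcon
    have h1 : volume (Icc a b) ≤ volume (Icc a b \ V) + volume (V ∩ Ioo a b) + volume ({a, b} : Set ℝ) := by
      refine (measure_mono ?_).trans ((measure_union_le _ _).trans (add_le_add (measure_union_le _ _) le_rfl))
      intro x hx
      by_cases hxV : x ∈ V
      · by_cases ha : x = a
        · right; simp [ha]
        by_cases hb : x = b
        · right; simp [hb]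
        left; right
        exact ⟨hxV, lt_of_le_of_ne hx.1 (Ne.symm ha), lt_of_le_of_ne hx.2 hb⟩
      · left; left
        exact ⟨hx, hxV⟩
    have h2 : volume ({a, b} : Set ℝ) = 0 := (Set.toFinite _).measure_zero _
    rw [h2, add_zero, Real.volume_Icc] at h1
    have h3 : ENNReal.ofReal (b - a) < ENNReal.ofReal d + ENNReal.ofReal (b - a - d) := by
      refine lt_of_le_of_lt h1 ?_
      exact ENNReal.add_lt_add_of_lt_of_le (ne_top_of_le_ne_top ENNReal.ofReal_ne_top hcon) hvol hcon
    rw [← ENNReal.ofReal_add hd.le (by linarith), add_sub_cancel] at h3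
    exact lt_irrefl _ h3
  obtain ⟨K, hKW, hKc, hKv⟩ := (hV.inter isOpen_Ioo).exists_lt_isCompact hW
  have hKV : K ⊆ V := fun x hx => (hKW hx).1
  have hKI : K ⊆ Icc a b := fun x hx => Ioo_subset_Icc_self (hKW hx).2
  obtain ⟨τ, hτ, hthick⟩ := hKc.exists_thickening_subset_open hV hKV
  obtain ⟨n, hn⟩ := exists_nat_gt ((b - a) / τ)
  have hba : 0 < b - a := by linarith
  have hn0 : (0 : ℝ) < n := lt_trans (div_pos hba hτ) hn
  have hn0' : 0 < n := by exact_mod_cast hn0
  set δ : ℝ := (b - a) / n with hδ
  have hδ0 : 0 < δ := div_pos hba hn0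
  have hδτ : δ < τ := by
    rw [hδ, div_lt_iff₀ hn0]
    rw [div_lt_iff₀ hτ] at hn
    linarith
  refine ⟨n, hn0', (Finset.range n).filter fun i : ℕ => Icc (a + i * δ) (a + (i + 1) * δ) ⊆ V,
    Finset.filter_subset _ _, fun i hi => (Finset.mem_filter.1 hi).2, ?_⟩
  set good := (Finset.range n).filter fun i : ℕ => Icc (a + i * δ) (a + (i + 1) * δ) ⊆ V with hgood
  set bad := (Finset.range n).filter fun i : ℕ => ¬ Icc (a + i * δ) (a + (i + 1) * δ) ⊆ V with hbad
  have hcard : (bad.card : ℝ) = (n : ℝ) - good.card := by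
    have := Finset.card_filter_add_card_filter_not (s := Finset.range n) (fun i : ℕ => Icc (a + i * δ) (a + (i + 1) * δ) ⊆ V)
    rw [Finset.card_range] at this
    have h2 : good.card + bad.card = n := this
    have h' : (good.card : ℝ) + bad.card = n := by
      rw [← h2]
      simp only [Nat.cast_add]
    linarith
  rw [← hcard]
  have hsub : (⋃ i ∈ bad, Ico (a + (i : ℝ) * δ) (a + ((i : ℝ) + 1) * δ)) ⊆ Icc a b \ K := by
    intro x hx
    simp only [mem_iUnion, exists_prop] at hx
    obtain ⟨i, hi, hx1, hx2⟩ := hx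
    rw [hbad, Finset.mem_filter, Finset.mem_range] at hi
    refine ⟨⟨?_, ?_⟩, ?_⟩
    · have : 0 ≤ (i : ℝ) * δ := by positivity
      linarith
    · have h1 : ((i : ℝ) + 1) ≤ n := by exact_mod_cast hi.1
      have h2 : ((i : ℝ) + 1) * δ ≤ n * δ := mul_le_mul_of_nonneg_right h1 hδ0.le
      have h3 : (n : ℝ) * δ = b - a := by rw [hδ]; field_simp
      linarith
    · intro hxK
      apply hi.2
      intro y hy
      apply hthick
      rw [Metric.mem_thickening_iff]
      refine ⟨x, hxK, ?_⟩
      rw [Real.dist_eq, abs_lt]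
      constructor
      · have := hy.1
        nlinarith
      · have := hy.2
        nlinarith
  have hdisj : (bad : Set ℕ).PairwiseDisjoint fun i : ℕ => Ico (a + (i : ℝ) * δ) (a + ((i : ℝ) + 1) * δ) := by
    intro i _ j _ hij
    change Disjoint _ _
    rw [Set.disjoint_left]
    intro x hx hy
    rcases lt_or_gt_of_ne hij with h | h
    · have h1 : (i : ℝ) + 1 ≤ j := by exact_mod_cast h
      have h2 := hx.2
      have h3 := hy.1
      nlinarith
    · have h1 : (j : ℝ) + 1 ≤ i := by exact_mod_cast h
      have h2 := hy.2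
      have h3 := hx.1
      nlinarith
  have hm : volume (⋃ i ∈ bad, Ico (a + (i : ℝ) * δ) (a + ((i : ℝ) + 1) * δ)) = ENNReal.ofReal (bad.card * δ) := by
    rw [measure_biUnion_finset hdisj fun i _ => measurableSet_Ico]
    have : ∀ i ∈ bad, volume (Ico (a + (i : ℝ) * δ) (a + ((i : ℝ) + 1) * δ)) = ENNReal.ofReal δ := by
      intro i _
      rw [Real.volume_Ico]
      congr 1
      ring
    rw [Finset.sum_congr rfl this, Finset.sum_const, nsmul_eq_mul, ENNReal.ofReal_mul (by positivity),
      ENNReal.ofReal_natCast]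
  have hle : ENNReal.ofReal (bad.card * δ) ≤ ENNReal.ofReal d := by
    rw [← hm]
    refine (measure_mono hsub).trans ?_
    rw [measure_sdiff hKI hKc.measurableSet.nullMeasurableSet hKc.measure_lt_top.ne, Real.volume_Icc]
    refine (tsub_le_tsub_left hKv.le _).trans (le_of_eq ?_)
    rw [← ENNReal.ofReal_sub _ (by linarith)]
    congr 1
    ring
  exact (ENNReal.ofReal_le_ofReal_iff hd.le).1 hle

end Pool.Agent.BI
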