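import Pool.Agent.BI.B7

set_option autoImplicit false

open MeasureTheory Set
open scoped ENNReal

namespace Pool.Agent.BI

/-- the number of cells with index `< i` which are not good -/
noncomputable def b8_bad (good : Finset ℕ) (i : ℕ) : ℝ := i - ((good.filter (· < i)).card : ℝ)

theorem b8_bad_good {good : Finset ℕ} {i : ℕ} (h : i ∈ good) :
    b8_bad good (i + 1) = b8_bad good i := by
  unfold b8_bad
  have : good.filter (· < i + 1) = insert i (good.filter (· < i)) := by
    ext j
    simp only [Finset.mem_filter, Finset.mem_insert]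
    constructor
    · rintro ⟨h1, h2⟩
      rcases Nat.lt_succ_iff_lt_or_eq.1 h2 with h3 | h3
      · exact Or.inr ⟨h1, h3⟩
      · exact Or.inl h3
    · rintro (h1 | ⟨h1, h2⟩)
      · subst h1
        exact ⟨h, Nat.lt_succ_self _⟩
      · exact ⟨h1, by omega⟩
  rw [this, Finset.card_insert_of_notMem (by simp)]
  push_cast
  ring

theorem b8_bad_not {good : Finset ℕ} {i : ℕ} (h : i ∉ good) :
    b8_bad good (i + 1) = b8_bad good i + 1 := by
  unfold b8_bad
  have : good.filter (· < i + 1) = good.filter (· < i) := by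
    ext j
    simp only [Finset.mem_filter]
    constructor
    · rintro ⟨h1, h2⟩
      rcases Nat.lt_succ_iff_lt_or_eq.1 h2 with h3 | h3
      · exact ⟨h1, h3⟩
      · exact absurd (h3 ▸ h1) h
    · rintro ⟨h1, h2⟩
      exact ⟨h1, by omega⟩
  rw [this]
  push_cast
  ring

theorem b8_bad_mono {good : Finset ℕ} {i j : ℕ} (h : i ≤ j) :
    b8_bad good i ≤ b8_bad good j := by
  induction j, h using Nat.le_induction with
  | base => exact le_rfl
  | succ j hj ih =>
    refine ih.trans ?_
    by_cases h : j ∈ good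
    · rw [b8_bad_good h]
    · rw [b8_bad_not h]
      linarith

theorem b8_bad_nonneg {good : Finset ℕ} {i : ℕ} : 0 ≤ b8_bad good i := by
  have := b8_bad_mono (good := good) (Nat.zero_le i)
  refine le_trans (le_of_eq ?_) this
  unfold b8_bad
  simp

theorem b8_bad_top {good : Finset ℕ} {n : ℕ} (h : good ⊆ Finset.range n) :
    b8_bad good n = n - (good.card : ℝ) := by
  unfold b8_bad
  rw [Finset.filter_true_of_mem]
  intro i hi
  exact Finset.mem_range.1 (h hi)

/-- if all the cells `< i` are bad then `bad i = i` -/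
theorem b8_bad_all {good : Finset ℕ} {i : ℕ} (h : ∀ j ∈ good, i ≤ j) :
    b8_bad good i = i := by
  unfold b8_bad
  rw [Finset.filter_false_of_mem]
  · simp
  · intro j hj
    have := h j hj
    omega

/-- [BI-B8] Chain lemma (discrete telescoping).  `V₀ = V ∩ [a, b]`; `sep` means separated, `X` is the position at the top.
PROOF. Take `n`, `good` from `mesh`, `τ = (b - a) / n`, `x i = a + i τ`; for a good cell `i` both `x i` and
`x (i + 1)` are in `V₀`, and `¬ sep (x i) (x (i + 1))` (h1). Call `bad i` the number of bad cells with index `< i`;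
`τ * bad n ≤ d`. `good` is non-empty (otherwise `b - a ≤ d`, against `hnum`); let `i₁` be its smallest element, `s = x i₁`
(so `s - a ≤ τ * bad (i₁) ≤ d`).
Claim, by induction on `i` from `i₁ + 1` to `n`: there are `p, e ∈ V₀`, `s ≤ p ≤ e ≤ x i` with
 (i) `¬ sep p e`;  (ii) `e - s` and gaps: there is `D ≥ 0` with `D + (x i - e) ≤ τ * (bad i - bad i₁)`;
 (iii) `X p - X s ≤ (1 / β + 11 / 10) * D`;
 (iv) `p = s` or there is `e' ∈ V₀` with `sep e' p`, `e' ≤ p`, `p - e' ≤ D`.
Start `i = i₁ + 1`: `p = s`, `e = x (i₁ + 1)`, `D = 0`. Step, cell `i` bad: nothing changes. Cell `i` good: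
if `¬ sep e (x i)`: keep `p`, new `e = x (i + 1)`; by h2, `sep p (x (i+1))` would give `sep p e`, or `sep e (x (i + 1))` and then
`sep e (x i)` or `sep (x i) (x (i + 1))`, all excluded; new `D' = D + (x i - e)`.
If `sep e (x i)`: new `p' = x i`, `e' = x (i + 1)`, `D' = D + (x i - e)`; (iii):
`X p' - X s = (X (x i) - X e) + (X e - X p) + (X p - X s) ≤ 11/10 (x i - e) + (1 / β)(x i - e) + (1/β + 11/10) D` by h3 and
h4 for `p ≤ e`, `x i`; (iv) with the old `e`.
(`x i - e ≥ 0`; all the points are in `V₀`.)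
At `i = n`: `D ≤ d`, `b - e ≤ d`. If `p = s`, take `(s, e)`: done. Otherwise h5 gives `β (X e - X p) ≤ p - e' ≤ D ≤ d`, so
`X e - X s ≤ (1/β) d + (1/β + 11/10) d`; but `X e - X s ≥ (e - s) - 2 ρ ≥ (b - a) - 2 d - 2 ρ` by h6, contradicting
`hnum`. -/
theorem chain {V : Set ℝ} (hV : IsOpen V) {a b d β ρ : ℝ} (hab : a < b) (hd : 0 < d) (hβ : 0 < β)
    (hvol : volume (Icc a b \ V) < ENNReal.ofReal d)
    (sep : ℝ → ℝ → Prop) (X : ℝ → ℝ)
    (h1 : ∀ s t, s ≤ t → Icc s t ⊆ V ∩ Icc a b → ¬ sep s t)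
    (h2 : ∀ s ∈ V ∩ Icc a b, ∀ t ∈ V ∩ Icc a b, ∀ u ∈ V ∩ Icc a b, sep s u → sep s t ∨ sep t u)
    (h3 : ∀ s ∈ V ∩ Icc a b, ∀ t ∈ V ∩ Icc a b, sep s t → X t - X s ≤ 11 / 10 * (t - s))
    (h4 : ∀ s ∈ V ∩ Icc a b, ∀ t ∈ V ∩ Icc a b, ∀ u ∈ V ∩ Icc a b, s ≤ t → ¬ sep s t → sep t u →
      β * (X t - X s) ≤ u - t)
    (h5 : ∀ s ∈ V ∩ Icc a b, ∀ t ∈ V ∩ Icc a b, ∀ u ∈ V ∩ Icc a b, s ≤ t → ¬ sep s t → sep u s →
      β * (X t - X s) ≤ s - u)
    (h6 : ∀ t ∈ V ∩ Icc a b, |X t - t| ≤ ρ)
    (hnum : (2 / β + 4) * d + 2 * ρ < b - a) (hρ : 0 ≤ ρ) :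
    ∃ s ∈ V ∩ Icc a b, ∃ t ∈ V ∩ Icc a b, s ≤ a + d ∧ b - d ≤ t ∧ s ≤ t ∧ ¬ sep s t := by
  obtain ⟨n, hn, good, hgr, hgood, hbad⟩ := mesh hV hab hd hvol
  set τ := (b - a) / n with hτ
  have hn' : (0 : ℝ) < n := by exact_mod_cast hn
  have hτ0 : 0 < τ := div_pos (by linarith) hn'
  have hnτ : n * τ = b - a := by
    rw [hτ]
    field_simp
  have hβ1 : 0 < 2 / β := by positivity
  have hβ2 : 1 / β * β = 1 := by
    field_simp
  have hβ0 : 0 < 1 / β := by positivity
  have e2β : 2 / β = 1 / β + 1 / β := by ring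
  -- the nodes of good cells
  have hcell : ∀ i ∈ good, Icc (a + i * τ) (a + (i + 1) * τ) ⊆ V ∩ Icc a b := by
    intro i hi t ht
    refine ⟨hgood i hi ht, ?_, ?_⟩
    · have : 0 ≤ (i : ℝ) * τ := by positivity
      linarith [ht.1]
    · have h1 : ((i : ℝ) + 1) ≤ n := by
        exact_mod_cast Finset.mem_range.1 (hgr hi)
      have : ((i : ℝ) + 1) * τ ≤ n * τ := mul_le_mul_of_nonneg_right h1 hτ0.le
      linarith [ht.2]
  have hL : ∀ i ∈ good, a + i * τ ∈ V ∩ Icc a b := fun i hi =>
    hcell i hi ⟨le_rfl, by nlinarith⟩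
  have hR : ∀ i ∈ good, a + (i + 1) * τ ∈ V ∩ Icc a b := fun i hi =>
    hcell i hi ⟨by nlinarith, le_rfl⟩
  have hns : ∀ i ∈ good, ¬ sep (a + i * τ) (a + (i + 1) * τ) := fun i hi =>
    h1 _ _ (by nlinarith) (hcell i hi)
  have hbn : τ * b8_bad good n ≤ d := by
    rw [b8_bad_top hgr, mul_comm]
    exact hbad
  -- good is nonempty
  have hne : good.Nonempty := by
    by_contra h
    rw [Finset.not_nonempty_iff_eq_empty] at h
    subst h
    rw [Finset.card_empty, Nat.cast_zero, sub_zero, hnτ] at hbad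
    nlinarith
  obtain ⟨i₁, hi₁, hmin⟩ : ∃ i₁ ∈ good, ∀ j ∈ good, i₁ ≤ j :=
    ⟨good.min' hne, good.min'_mem hne, fun j hj => good.min'_le j hj⟩
  set s := a + i₁ * τ with hs
  have hsV : s ∈ V ∩ Icc a b := hL i₁ hi₁
  have hsa : s ≤ a + d := by
    have h8 : b8_bad good i₁ = i₁ := b8_bad_all hmin
    have h9 : b8_bad good i₁ ≤ b8_bad good n := b8_bad_mono (by
      have := Finset.mem_range.1 (hgr hi₁)
      omega)
    rw [h8] at h9
    have : τ * (i₁ : ℝ) ≤ τ * b8_bad good n := mul_le_mul_of_nonneg_left h9 hτ0.le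
    rw [hs]
    linarith
  -- the claim
  have claim : ∀ i : ℕ, i₁ + 1 ≤ i → i ≤ n → ∃ p ∈ V ∩ Icc a b, ∃ e ∈ V ∩ Icc a b,
      s ≤ p ∧ p ≤ e ∧ e ≤ a + i * τ ∧ ¬ sep p e ∧ ∃ D : ℝ, 0 ≤ D ∧
      D + (a + i * τ - e) ≤ τ * (b8_bad good i - b8_bad good i₁) ∧
      X p - X s ≤ (1 / β + 11 / 10) * D ∧
      (p = s ∨ ∃ e' ∈ V ∩ Icc a b, sep e' p ∧ e' ≤ p ∧ p - e' ≤ D) := by
    intro i hi
    induction i, hi using Nat.le_induction with
    | base =>
      intro hin
      refine ⟨s, hsV, a + (i₁ + 1) * τ, hR i₁ hi₁, le_rfl, ?_, ?_, hns i₁ hi₁, 0, le_rfl, ?_, ?_,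
        Or.inl rfl⟩
      · rw [hs]
        nlinarith
      · push_cast
        exact le_rfl
      · rw [b8_bad_good hi₁]
        push_cast
        simp
      · simp
    | succ i hi ih =>
      intro hin
      obtain ⟨p, hp, e, he, hsp, hpe, hei, hpe', D, hD, hDe, hX, hor⟩ := ih (by omega)
      by_cases hg : i ∈ good
      · by_cases hsep : sep e (a + i * τ)
        · -- new cluster
          refine ⟨a + i * τ, hL i hg, a + (i + 1) * τ, hR i hg, by linarith, by nlinarith, ?_,
            hns i hg, D + (a + i * τ - e), by linarith, ?_, ?_, Or.inr ⟨e, he, hsep, hei, by linarith⟩⟩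
          · push_cast
            exact le_rfl
          · rw [b8_bad_good hg]
            push_cast
            linarith
          · have h8 := h3 e he (a + i * τ) (hL i hg) hsep
            have h9 := h4 p hp e he (a + i * τ) (hL i hg) hpe hpe' hsep
            have h10 : X e - X p ≤ (1 / β) * (a + i * τ - e) := by
              rw [one_div, inv_mul_eq_div, le_div_iff₀ hβ]
              linarith
            linarith
        · refine ⟨p, hp, a + (i + 1) * τ, hR i hg, hsp, ?_, ?_, ?_, D + (a + i * τ - e), by linarith,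
            ?_, ?_, ?_⟩
          · nlinarith
          · push_cast
            exact le_rfl
          · intro h
            rcases h2 p hp e he _ (hR i hg) h with h | h
            · exact hpe' h
            · rcases h2 e he (a + i * τ) (hL i hg) _ (hR i hg) h with h | h
              · exact hsep h
              · exact hns i hg h
          · rw [b8_bad_good hg]
            push_cast
            linarith
          · have : 0 ≤ (1 / β + 11 / 10) * (a + i * τ - e) := mul_nonneg (by positivity) (by linarith)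
            linarith
          · rcases hor with h | ⟨e', he', h, h', h''⟩
            · exact Or.inl h
            · exact Or.inr ⟨e', he', h, h', by linarith⟩
      · refine ⟨p, hp, e, he, hsp, hpe, ?_, hpe', D, hD, ?_, hX, hor⟩
        · push_cast
          nlinarith
        · rw [b8_bad_not hg]
          push_cast
          linarith
  obtain ⟨p, hp, e, he, hsp, hpe, hei, hpe', D, hD, hDe, hX, hor⟩ := claim n (by
    have := Finset.mem_range.1 (hgr hi₁)
    omega) le_rfl
  have hDe' : D + (b - e) ≤ d := by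
    have h8 : 0 ≤ τ * b8_bad good i₁ := mul_nonneg hτ0.le b8_bad_nonneg
    have h9 : a + n * τ = b := by linarith
    rw [h9] at hDe
    linarith
  have heb : e ≤ b := he.2.2
  rcases hor with h | ⟨e', he', h, h', h''⟩
  · subst h
    exact ⟨s, hsV, e, he, hsa, by linarith, hpe, hpe'⟩
  · exfalso
    have h8 := h5 p hp e he e' he' hpe hpe' h
    have h9 : X e - X p ≤ (1 / β) * d := by
      rw [one_div, inv_mul_eq_div, le_div_iff₀ hβ]
      linarith
    have h10 : X p - X s ≤ (1 / β + 11 / 10) * d :=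
      hX.trans (mul_le_mul_of_nonneg_left (by linarith) (by positivity))
    have h11 := abs_le.1 (h6 e he)
    have h12 := abs_le.1 (h6 s hsV)
    have h13 : (2 / β + 4) * d = (1 / β) * d + (1 / β + 11 / 10) * d + (29 / 10) * d := by ring
    rw [h13] at hnum
    linarith [h11.1, h12.2]

end Pool.Agent.BI
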