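import Pool.Agent.BI.B1
import Pool.Agent.BI.B2
import Pool.Agent.BI.B3
import Pool.Agent.BI.B4
import Pool.Agent.BI.B5
import Pool.Agent.BI.B6
import Pool.Agent.BI.B8

set_option autoImplicit false

open MeasureTheory Set
open scoped ENNReal

namespace Pool.Agent.BI

/-- [BI-B9] Isolation lemma.
PROOF. Put `a = i₀ + (i₁ - i₀)/20`, `b = i₁ - (i₁ - i₀)/20` (`Icc a b = Mid i₀ i₁`), `V₀ = V ∩ [a, b]`,
`b - a = (9/10)(i₁ - i₀) ≥ (9/200) r`. For `t ∈ V` choose `G t` with `IsRung S r q t (G t)` (`hVr`), and put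
`sep s t := Sep S A σ i₀ i₁ s (G s) t (G t)`, `X t := XX A σ t (G t)`, `β = 400 h / q`, `ρ = r / 900`,
`d = d₀ + η` with `η > 0` so small that `(2/β + 4) η ≤ r / 1000` and `η ≤ r / 10 ^ 6`
(`volume (Icc a b \ V) ≤ d₀ < d` as `Icc a b ⊆ Icc (-(r/2)) (r/2)`). Hypotheses of `chain`: h1 = `IL_comp`, h2 = `IL_trans`, h3 = `IL_top`,
h4: if `s = t` the left side is `0` and `t < u` by `IL_ord`; if `s < t` it is `IL_tilt` divided by `q`; h5 = `IL_tilt'`
likewise, h6 = `IL_XX`.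
`hnum`: `2/β = q / (200 h)`, and `d₀ q ≤ h r / 4` gives `(2/β) d₀ ≤ r / 800`;
so `(2/β + 4) d ≤ r / 800 + 4 r / 10 ^ 6 + r / 1000` and `2 ρ = r / 450`; the sum is `< (9/200) r`.
So there are `s, t ∈ V₀`, `s ≤ a + d`, `t ≥ b - d`, `¬ sep s t`; `d ≤ 2 r / 10 ^ 6`.
Now let `(x, y)` be as in the claim and suppose `(x, y) ∉ S`. Then `y ≠ 0` (`rect`) and `y ≠ A + σ x` (`chord`), so
`0 < y < A + σ x ≤ q / 1000`, and `(x, y)` separates `s` from `t`:
`s + G s y ≤ a + d + |G s| y ≤ a + d + r / 1000 < x`, because `|G s| q ≤ r`, `x ≥ i₀ + (i₁ - i₀)/10 = a + (i₁ - i₀)/20` and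
`(i₁ - i₀)/20 ≥ r / 400 > r / 1000 + d`; likewise on the right. Contradiction. -/
theorem isolation {S : Set (ℝ × ℝ)} {r h q A σ i₀ i₁ : ℝ} (H : ILctx S r h q A σ i₀ i₁)
    {V : Set ℝ} (hV : IsOpen V) (hVr : ∀ t ∈ V, ∃ g : ℝ, IsRung S r q t g)
    {d₀ : ℝ} (hd0 : 0 ≤ d₀) (hd1 : d₀ * q ≤ h * r / 4) (hd2 : d₀ ≤ r / 10 ^ 6)
    (hvol : volume (Icc (-(r / 2)) (r / 2) \ V) ≤ ENNReal.ofReal d₀)
    {x y : ℝ} (hx0 : i₀ + (i₁ - i₀) / 10 ≤ x) (hx1 : x ≤ i₁ - (i₁ - i₀) / 10) (hy0 : 0 ≤ y)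
    (hy1 : y ≤ A + σ * x) : (x, y) ∈ S := by
  obtain ⟨r0, h0, hq, hi0, hi1, hi⟩ : 0 < r ∧ 0 < h ∧ 20000 * h ≤ q ∧ -(r / 2) ≤ i₀ ∧ i₁ ≤ r / 2 ∧ r / 20 ≤ i₁ - i₀ :=
    ⟨H.r0, H.h0, H.hq, H.hi0, H.hi1, H.hi⟩
  have q0 : 0 < q := by linarith
  choose! G hG using hVr
  set a : ℝ := i₀ + (i₁ - i₀) / 20 with ha
  set b : ℝ := i₁ - (i₁ - i₀) / 20 with hb
  have hab : a < b := by rw [ha, hb]; linarith
  have hMid : Icc a b = Mid i₀ i₁ := rfl
  have hβ : 0 < 400 * h / q := by positivity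
  have h2β : 2 / (400 * h / q) = q / (200 * h) := by
    field_simp
    norm_num
  have hc : 0 < 2 / (400 * h / q) + 4 := by positivity
  obtain ⟨η, hη0, hη1, hη2⟩ : ∃ η : ℝ, 0 < η ∧ η ≤ r / 10 ^ 6 ∧ (2 / (400 * h / q) + 4) * η ≤ r / 1000 := by
    refine ⟨min (r / 10 ^ 6) (r / 1000 / (2 / (400 * h / q) + 4)), lt_min (by positivity) (by positivity),
      min_le_left _ _, ?_⟩
    have := min_le_right (r / 10 ^ 6) (r / 1000 / (2 / (400 * h / q) + 4))
    rw [le_div_iff₀ hc] at this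
    linarith
  have hd : 0 < d₀ + η := by linarith
  have hvol' : volume (Icc a b \ V) < ENNReal.ofReal (d₀ + η) := by
    refine lt_of_le_of_lt ((measure_mono (sdiff_subset_sdiff_left (Icc_subset_Icc ?_ ?_))).trans hvol) ?_
    · rw [ha]; linarith
    · rw [hb]; linarith
    · exact (ENNReal.ofReal_lt_ofReal_iff hd).2 (by linarith)
  have hnum : (2 / (400 * h / q) + 4) * (d₀ + η) + 2 * (r / 900) < b - a := by
    have e1 : 2 / (400 * h / q) * d₀ ≤ r / 800 := by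
      rw [h2β, div_mul_eq_mul_div, div_le_iff₀ (by positivity)]
      linarith
    have e2 : b - a = 9 / 10 * (i₁ - i₀) := by rw [ha, hb]; ring
    rw [e2]
    have e3 : (2 / (400 * h / q) + 4) * (d₀ + η) =
        2 / (400 * h / q) * d₀ + 4 * d₀ + (2 / (400 * h / q) + 4) * η := by ring
    rw [e3]
    linarith
  obtain ⟨s, hs, t, ht, hs1, ht1, hst, hns⟩ := chain hV hab hd hβ hvol'
    (fun s t => Sep S A σ i₀ i₁ s (G s) t (G t)) (fun t => XX A σ t (G t)) (ρ := r / 900)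
    (by
      intro s t hst hsub
      exact IL_comp H hst (fun z hz => (hsub hz).2) G (fun z hz => hG z (hsub hz).1))
    (by
      intro s _ t ht u _ hsu
      exact IL_trans H (hG t ht.1) hsu)
    (by
      intro s hs t ht hst
      exact IL_top H hs.2 ht.2 (hG s hs.1) (hG t ht.1) hst)
    (by
      intro s hs t ht u hu hst hns htu
      rcases hst.eq_or_lt with he | hlt
      · subst he
        have := (IL_ord H hs.2 hu.2 (hG s hs.1) (hG u hu.1) htu).1
        rw [sub_self, mul_zero]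
        linarith
      · have h := IL_tilt H hs.2 ht.2 hu.2 (hG s hs.1) (hG t ht.1) (hG u hu.1) hlt hns htu
        rw [div_mul_eq_mul_div, div_le_iff₀ q0]
        linarith)
    (by
      intro s hs t ht u hu hst hns hus
      rcases hst.eq_or_lt with he | hlt
      · subst he
        have := (IL_ord H hu.2 hs.2 (hG u hu.1) (hG s hs.1) hus).1
        rw [sub_self, mul_zero]
        linarith
      · have h := IL_tilt' H hs.2 ht.2 hu.2 (hG s hs.1) (hG t ht.1) (hG u hu.1) hlt hns hus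
        rw [div_mul_eq_mul_div, div_le_iff₀ q0]
        linarith)
    (by
      intro t ht
      exact (IL_XX H ht.2 (hG t ht.1)).2.2.1)
    hnum (by positivity)
  by_contra hS
  have hxI : x ∈ Icc i₀ i₁ := ⟨by linarith, by linarith⟩
  have hy0' : 0 < y := by
    rcases hy0.eq_or_lt with he | hlt
    · exfalso
      apply hS
      rw [← he]
      refine H.rect x 0 ?_ ?_
      · rw [abs_le]
        exact ⟨by linarith [hxI.1], by linarith [hxI.2]⟩
      · rw [abs_zero]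
        exact h0.le
    · exact hlt
  have hy1' : y < A + σ * x := by
    rcases hy1.eq_or_lt with he | hlt
    · exfalso
      apply hS
      rw [he]
      exact H.chord x hxI
    · exact hlt
  have hyq : 1000 * y ≤ q := by
    have := H.low x hxI
    linarith
  have hslope : ∀ z ∈ V, |G z * y| ≤ r / 1000 := by
    intro z hz
    have h1 := (hG z hz).1
    rw [abs_mul, abs_of_pos hy0']
    have h2 : |G z| * (1000 * y) ≤ |G z| * q := mul_le_mul_of_nonneg_left hyq (abs_nonneg _)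
    linarith
  have f1 := abs_le.1 (hslope s hs.1)
  have f2 := abs_le.1 (hslope t ht.1)
  apply hns
  refine ⟨x, y, hxI, hy0', hy1', hS, ?_, ?_⟩
  · linarith
  · linarith

end Pool.Agent.BI
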