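import Mathlib

/-!
# MP_0d1e2e_co : the linear bound for the Beer index of Delta-connected planar sets.  Definitions.

Constants used throughout (all literal):
* thinness of rooms `h ≤ r / 10 ^ 20`,
* regularity `10 ^ 8`, `10 ^ 26`,
* `ε ≤ 1 / 10 ^ 30`,
* rung height `pst κ ε r = κ / (4 ε² r)`, zone height `pz κ ε r = κ / (10 ^ 5 ε r)`,
* aligned: `|dt| ≤ 10 ^ 17 κ / r²`; non-aligned crossing lines of a D-room have
  `|dt| > κ / (4000 ε² r²)`,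
* closeness `10 ^ 18`.
-/

set_option autoImplicit false

open MeasureTheory Set
open scoped ENNReal

namespace Pool.Agent.BI

/-- `S` is p-componentwise simply Δ-connected: every triangle (convex hull of three non-collinear
points) whose three sides lie in `S` is contained in `S`. -/
def TriConn (S : Set (ℝ × ℝ)) : Prop :=
  ∀ A B C : ℝ × ℝ, ¬ Collinear ℝ {A, B, C} → segment ℝ A B ⊆ S → segment ℝ B C ⊆ S →
    segment ℝ C A ⊆ S → convexHull ℝ {A, B, C} ⊆ S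

/-- unit vector (Euclidean) -/
def UV (u : ℝ × ℝ) : Prop := u.1 ^ 2 + u.2 ^ 2 = 1

/-- determinant -/
def dt (u v : ℝ × ℝ) : ℝ := u.1 * v.2 - u.2 * v.1

/-- scalar product -/
def dp (u v : ℝ × ℝ) : ℝ := u.1 * v.1 + u.2 * v.2

/-- squared Euclidean distance -/
def d2 (x y : ℝ × ℝ) : ℝ := (x.1 - y.1) ^ 2 + (x.2 - y.2) ^ 2

/-- the frame with origin `c` and first axis `u`: frame coordinates to the plane -/
def fr (c u p : ℝ × ℝ) : ℝ × ℝ := (c.1 + p.1 * u.1 - p.2 * u.2, c.2 + p.1 * u.2 + p.2 * u.1)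

/-- plane to frame coordinates -/
def fi (c u x : ℝ × ℝ) : ℝ × ℝ :=
  ((x.1 - c.1) * u.1 + (x.2 - c.2) * u.2, (x.2 - c.2) * u.1 - (x.1 - c.1) * u.2)

/-- a rectangle with centre `c`, direction `u`, half-length `r`, half-width `h` -/
structure Room where
  /-- centre -/
  c : ℝ × ℝ
  /-- direction -/
  u : ℝ × ℝ
  /-- half-length -/
  r : ℝ
  /-- half-width -/
  h : ℝ

/-- the point of the axis of a room with parameter `t` -/
def Room.ax (R : Room) (t : ℝ) : ℝ × ℝ := fr R.c R.u (t, 0)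

/-- direction `v` in the frame of direction `u` -/
def rel (u v : ℝ × ℝ) : ℝ × ℝ := (dp u v, dt u v)

/-- the room `k` in the frame of the room `j` -/
def relRoom (j k : Room) : Room := ⟨fi j.c j.u k.c, rel j.u k.u, k.r, k.h⟩

/-- the set `S` in the frame of `R` -/
def inF (R : Room) (S : Set (ℝ × ℝ)) : Set (ℝ × ℝ) := fr R.c R.u ⁻¹' S

/-- the rectangle of the room lies in `S` -/
def RectIn (S : Set (ℝ × ℝ)) (R : Room) : Prop :=
  ∀ x y : ℝ, |x| ≤ R.r → |y| ≤ R.h → fr R.c R.u (x, y) ∈ S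

/-- regularity of the rectangle `[-r, r] × [-h, h]` in standard position: convex subsets of `S`
in the ball of radius `2 r` which contain a part of length `b - a` of the axis have area at most
`10 ^ 8 (r / (b - a)) ^ 5 r h` (or the rectangle is fat). -/
def RegStd (S : Set (ℝ × ℝ)) (r h : ℝ) : Prop :=
  ∀ D ⊆ S, Convex ℝ D → (∀ p ∈ D, p.1 ^ 2 + p.2 ^ 2 ≤ 4 * r ^ 2) →
    ∀ a b : ℝ, -r ≤ a → a < b → b ≤ r → (a, (0 : ℝ)) ∈ D → (b, (0 : ℝ)) ∈ D →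
      volume D ≤ ENNReal.ofReal (10 ^ 8 * (r / (b - a)) ^ 5 * (r * h)) ∨
        r ≤ 10 ^ 26 * (r / (b - a)) ^ 5 * h

/-- a regular room of level `κ` -/
structure IsRoom (S : Set (ℝ × ℝ)) (κ : ℝ) (R : Room) : Prop where
  uv : UV R.u
  h0 : 0 < R.h
  thin : R.h ≤ R.r / 10 ^ 20
  lo : κ ≤ R.r * R.h
  hi : R.r * R.h < 2 * κ
  rect : RectIn S R
  reg : RegStd (inF R S) R.r R.h

/-- a rung through the point `(t, 0)`, of slope `g` (horizontal displacement per unit of height)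
and height `q` above and below the axis -/
def IsRung (S : Set (ℝ × ℝ)) (r q t g : ℝ) : Prop :=
  |g| * q ≤ r ∧ ∀ y : ℝ, |y| ≤ q → (t + g * y, y) ∈ S

/-- positions of rungs -/
def Rungs (S : Set (ℝ × ℝ)) (r q : ℝ) : Set ℝ := {t | q ≤ r ∧ ∃ g : ℝ, IsRung S r q t g}

/-- height of rungs -/
noncomputable def pst (κ ε r : ℝ) : ℝ := κ / (4 * ε ^ 2 * r)

/-- height of the zone -/
noncomputable def pz (κ ε r : ℝ) : ℝ := κ / (10 ^ 5 * ε * r)

/-- the interior of the set of rung positions almost covers the central half of the axis -/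
def Cov (S : Set (ℝ × ℝ)) (κ ε r : ℝ) : Prop :=
  volume (Icc (-(r / 2)) (r / 2) \ interior (Rungs S r (pst κ ε r))) ≤ ENNReal.ofReal (ε ^ 2 * r)

/-- regular room of level `κ` with almost covered axis -/
structure DRoom (S : Set (ℝ × ℝ)) (κ ε : ℝ) (R : Room) : Prop extends IsRoom S κ R where
  cov : Cov (inF R S) κ ε R.r

/-- a `DRoom` in standard position, together with the standing assumptions -/
structure StdD (S : Set (ℝ × ℝ)) (κ ε r h : ℝ) : Prop where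
  tri : TriConn S
  κ0 : 0 < κ
  ε0 : 0 < ε
  ε1 : ε ≤ 1 / 10 ^ 30
  h0 : 0 < h
  thin : h ≤ r / 10 ^ 20
  lo : κ ≤ r * h
  hi : r * h < 2 * κ
  rect : ∀ x y : ℝ, |x| ≤ r → |y| ≤ h → (x, y) ∈ S
  reg : RegStd S r h
  cov : Cov S κ ε r

/-- two rooms of the same class which are similar -/
def Close (κ : ℝ) (i j : Room) : Prop :=
  |dt j.u i.u| ≤ 10 ^ 18 * κ / j.r ^ 2 ∧ |(fi j.c j.u i.c).2| ≤ 10 ^ 18 * κ / j.r ∧
    d2 i.c j.c ≤ (4 * j.r) ^ 2

/-- the point `x` is within `a pz` of the central part of the axis of `i` -/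
def near (κ ε : ℝ) (i : Room) (x : ℝ × ℝ) (a : ℝ) : Prop :=
  ∃ τ : ℝ, |τ| ≤ i.r / 8 ∧ d2 x (i.ax τ) ≤ (a * pz κ ε i.r) ^ 2

/-- `i` (shorter) and `j` are almost parallel -/
def Al (κ : ℝ) (i j : Room) : Prop := |dt i.u j.u| ≤ 10 ^ 17 * κ / i.r ^ 2

open Classical in
/-- effective angle between the shorter room `i` and the longer room `j` -/
noncomputable def th (κ : ℝ) (i j : Room) : ℝ :=
  if Al κ i j then κ / i.r ^ 2 else |dt i.u j.u|

/-- the line `k` crosses the axis of `j` near the point with parameter `t`, and is not aligned -/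
def Cross (κ ε : ℝ) (j k : Room) (t : ℝ) : Prop :=
  j.r ≤ 2 * k.r ∧ ¬ Al κ j k ∧ ∃ τ : ℝ, |τ| ≤ k.r / 8 ∧ d2 (j.ax t) (k.ax τ) ≤ (4 * pz κ ε j.r) ^ 2

/-- orientation determinant of three points -/
def tdet (A B C : ℝ × ℝ) : ℝ := (B.1 - A.1) * (C.2 - A.2) - (B.2 - A.2) * (C.1 - A.1)

/-- reflection in the second axis -/
def flipx (S : Set (ℝ × ℝ)) : Set (ℝ × ℝ) := {p | (-p.1, p.2) ∈ S}

/-- reflection in the first axis -/
def flipy (S : Set (ℝ × ℝ)) : Set (ℝ × ℝ) := {p | (p.1, -p.2) ∈ S}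

/-- Context of the isolation lemma: the room `[-r, r] × [-h, h]` and the chord
`y = A + σ x` over `[i₀, i₁]` above the axis are in `S`; `q` = height of the rungs. -/
structure ILctx (S : Set (ℝ × ℝ)) (r h q A σ i₀ i₁ : ℝ) : Prop where
  tri : TriConn S
  r0 : 0 < r
  h0 : 0 < h
  hr : h ≤ r
  hq : 20000 * h ≤ q
  rect : ∀ x y : ℝ, |x| ≤ r → |y| ≤ h → (x, y) ∈ S
  hi0 : -(r / 2) ≤ i₀
  hi1 : i₁ ≤ r / 2
  hi : r / 20 ≤ i₁ - i₀
  pos : ∀ x ∈ Icc i₀ i₁, 0 < A + σ * x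
  low : ∀ x ∈ Icc i₀ i₁, 1000 * (A + σ * x) ≤ q
  chord : ∀ x ∈ Icc i₀ i₁, (x, A + σ * x) ∈ S

/-- abscissa of the crossing point of the rung of slope `g` at `t` with the chord -/
noncomputable def XX (A σ t g : ℝ) : ℝ := (t + g * A) / (1 - g * σ)

/-- the middle nine tenths of the interval -/
def Mid (i₀ i₁ : ℝ) : Set ℝ := Icc (i₀ + (i₁ - i₀) / 20) (i₁ - (i₁ - i₀) / 20)

/-- An obstacle `(x, y) ∉ S` between the axis and the chord separates the rung `(t, g)` (passing left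
of it) from the rung `(t', g')` (passing right of it). -/
def Sep (S : Set (ℝ × ℝ)) (A σ i₀ i₁ t g t' g' : ℝ) : Prop :=
  ∃ x y : ℝ, x ∈ Icc i₀ i₁ ∧ 0 < y ∧ y < A + σ * x ∧ (x, y) ∉ S ∧ t + g * y < x ∧ x < t' + g' * y

/-- `t` is fine for the family of properties `P` (think of `P t a` as: some line crosses at `t` with angle `≥ a`)
up to the scale `Xm` -/
def Fine (P : ℝ → ℝ → Prop) (Xm t : ℝ) : Prop :=
  ∀ X : ℝ, 0 < X → X ≤ Xm → P t (64 / X ^ 2) →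
    (∃ t' ∈ Icc (t + 3 / 5 * X) (t + 9 / 10 * X), P t' (4 / X ^ 2)) ∧
    (∃ t' ∈ Icc (t - 9 / 10 * X) (t - 3 / 5 * X), P t' (4 / X ^ 2))

/-- heavy interval with centre `x` and half-length `ρ`: no angle `≥ 4 / X²` at any point, `X = 2 ρ / 0.3` -/
def Heavy (P : ℝ → ℝ → Prop) (Xm x ρ : ℝ) : Prop :=
  0 < ρ ∧ 20 / 3 * ρ ≤ Xm ∧ ∀ t ∈ Icc (x - ρ) (x + ρ), ¬ P t (4 / (20 / 3 * ρ) ^ 2)

/-- the window for the vectors seen: length `≈ sqrt (κ / θ)`, direction within `≈ θ` of `u` -/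
def Win (κ θ : ℝ) (u w : ℝ × ℝ) : Prop :=
  κ / 100 ≤ θ * (w.1 ^ 2 + w.2 ^ 2) ∧ θ * (w.1 ^ 2 + w.2 ^ 2) ≤ κ / 4 ∧
    dt u w ^ 2 ≤ 10 ^ 40 * θ ^ 2 * (w.1 ^ 2 + w.2 ^ 2)

/-- the hypothesis that a steep rung crosses the axis in `[a, b]` -/
def RungIn (S : Set (ℝ × ℝ)) (X m a b : ℝ) : Prop :=
  ∃ x₁ c s T : ℝ, a ≤ x₁ ∧ x₁ ≤ b ∧ c ^ 2 + s ^ 2 = 1 ∧ 39 / 10 * m ≤ s ∧ 3 / 2 * m * X ≤ T * s ∧
    ∀ τ, |τ| ≤ T → (x₁ + τ * c, τ * s) ∈ S

/-- a finite family of regular rooms of level `κ`, in sparse classes, similar rooms excluded -/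
structure Fam (S : Set (ℝ × ℝ)) (κ ε : ℝ) (F : Finset Room) (cls : Room → ℤ) : Prop where
  tri : TriConn S
  κ0 : 0 < κ
  ε0 : 0 < ε
  ε1 : ε ≤ 1 / 10 ^ 30
  room : ∀ R ∈ F, IsRoom S κ R
  same : ∀ i ∈ F, ∀ j ∈ F, cls i = cls j → i.r ≤ 2 * j.r
  lt : ∀ i ∈ F, ∀ j ∈ F, cls i < cls j → i.r ≤ ε ^ 2 / 4 * j.r
  sep : ∀ i ∈ F, ∀ j ∈ F, i ≠ j → cls i = cls j → ¬ Close κ i j

/-- the same with all rooms almost covered -/
structure DFam (S : Set (ℝ × ℝ)) (κ ε : ℝ) (F : Finset Room) (cls : Room → ℤ) : Prop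
    extends Fam S κ ε F cls where
  droom : ∀ R ∈ F, DRoom S κ ε R

/-- `i` is a strictly shorter room passing near the point `t` of the axis of `j` (dilation `a`) -/
def Sh (F : Finset Room) (cls : Room → ℤ) (κ ε : ℝ) (j : Room) (t a : ℝ) (i : Room) : Prop :=
  i ∈ F ∧ cls i < cls j ∧ near κ ε i (j.ax t) a

/-- `i` minimises the effective angle with `j` among the shorter rooms near `t` -/
def IsMin (F : Finset Room) (cls : Room → ℤ) (κ ε : ℝ) (j : Room) (t : ℝ) (i : Room) : Prop :=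
  Sh F cls κ ε j t 4 i ∧ ∀ i', Sh F cls κ ε j t 4 i' → th κ i j ≤ th κ i' j

/-- type I at the point `t` of `j` -/
def IT (F : Finset Room) (cls : Room → ℤ) (κ ε : ℝ) (j : Room) (t : ℝ) : Prop :=
  ∃ i, IsMin F cls κ ε j t i ∧ (Al κ i j ∨
    ∃ i', Sh F cls κ ε j t 6 i' ∧ ¬ Al κ i' j ∧ 64 * th κ i j ≤ |dt i'.u j.u|)

/-- some shorter non-aligned room passes near `t` with angle at least `κ a` -/
def PP (F : Finset Room) (cls : Room → ℤ) (κ ε : ℝ) (j : Room) (t a : ℝ) : Prop :=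
  ∃ i, Sh F cls κ ε j t 6 i ∧ ¬ Al κ i j ∧ κ * a ≤ |dt i.u j.u|

/-- the points of the axis of `j` crossed by some room at least as long -/
def Xc (F : Finset Room) (cls : Room → ℤ) (κ ε : ℝ) (j : Room) : Set ℝ :=
  {t | |t| ≤ j.r / 7 ∧ ∃ k ∈ F, cls j ≤ cls k ∧ Cross κ ε j k t}

/-- if `t` is crossed then there is another crossed point at a distance of the right order -/
def NTok (F : Finset Room) (cls : Room → ℤ) (κ ε : ℝ) (j : Room) (t : ℝ) : Prop :=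
  t ∈ Xc F cls κ ε j → ∃ t' ∈ Xc F cls κ ε j, j.r / 80000 ≤ |t - t'| ∧ |t - t'| ≤ j.r / 400

/-- the zone of `j` -/
def Zn (κ ε : ℝ) (j : Room) (y : ℝ × ℝ) : Prop :=
  |(fi j.c j.u y).2| ≤ pz κ ε j.r ∧ |(fi j.c j.u y).1| ≤ j.r / 8

/-- the condition defining the supplied pairs -/
def PSc (F : Finset Room) (cls : Room → ℤ) (κ ε : ℝ) (j : Room) (p : (ℝ × ℝ) × (ℝ × ℝ)) : Prop :=
  Zn κ ε j p.1 ∧ ∃ i, IsMin F cls κ ε j (fi j.c j.u p.1).1 i ∧ Win κ (th κ i j) j.u p.2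

/-- the uncovered part of the room -/
def Unc (S : Set (ℝ × ℝ)) (κ ε : ℝ) (j : Room) : Set (ℝ × ℝ) :=
  {x | |(fi j.c j.u x).2| ≤ j.h / 16 ∧
    (fi j.c j.u x).1 ∈ Icc (-(j.r / 2)) (j.r / 2) \ interior (Rungs (inF j S) j.r (pst κ ε j.r))}

/-- the chord with midpoint `z` and half-vector `v` -/
def Ch (z v : ℝ × ℝ) : Set (ℝ × ℝ) := segment ℝ (z - v) (z + v)

/-- the long side `{y = - s h}` of the rectangle (`s = ± 1`) lies on the chord `(z, v)`, `v` a positive multiple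
of the direction -/
def OnSide (z v : ℝ × ℝ) (R : Room) (s : ℝ) : Prop :=
  ∃ x l : ℝ, |x| + R.r ≤ l ∧ v = (l * R.u.1, l * R.u.2) ∧ z = fr R.c R.u (x, -(s * R.h))

/-- admissible rectangles for the chord `(z, v)` -/
def Adm (S : Set (ℝ × ℝ)) (z v : ℝ × ℝ) (R : Room) : Prop :=
  UV R.u ∧ 0 < R.h ∧ R.h ≤ R.r / 10 ^ 20 ∧ RectIn S R ∧ (OnSide z v R 1 ∨ OnSide z v R (-1))

/-- near-maximal admissible rectangle -/
def NearMax (S : Set (ℝ × ℝ)) (z v : ℝ × ℝ) (R : Room) : Prop :=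
  Adm S z v R ∧ ∀ R', Adm S z v R' → R'.r ^ 4 * R'.h ≤ 2 * (R.r ^ 4 * R.h)

/-- rooms of level `κ` and scale `ρ` near-maximal for the chord `p` -/
def Sel (S : Set (ℝ × ℝ)) (κ ρ : ℝ) (p : (ℝ × ℝ) × (ℝ × ℝ)) (R : Room) : Prop :=
  NearMax S p.1 p.2 R ∧ ρ ≤ R.r ∧ R.r < 2 * ρ ∧ κ ≤ R.r * R.h ∧ R.r * R.h < 2 * κ

/-- similar rooms at scale `ρ` -/
def Sim (κ ρ : ℝ) (i j : Room) : Prop :=
  |dt j.u i.u| ≤ 10 ^ 18 * κ / ρ ^ 2 ∧ |(fi j.c j.u i.c).2| ≤ 10 ^ 18 * κ / ρ ∧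
    d2 i.c j.c ≤ (8 * ρ) ^ 2

/-- the class of a room -/
noncomputable def cl (R : Room) : ℤ := Int.log 2 R.r

/-- the selected rooms of level `κ` and class `n` -/
def SR (S : Set (ℝ × ℝ)) (κ : ℝ) (n : ℤ) (G : Set ((ℝ × ℝ) × (ℝ × ℝ))) : Set Room :=
  {R | ∃ p ∈ G, Sel S κ ((2 : ℝ) ^ n) p R}

/-! ### elementary facts -/

theorem fr_fi {c u : ℝ × ℝ} (hu : UV u) (x : ℝ × ℝ) : fr c u (fi c u x) = x := by
  unfold UV at hu
  ext
  · simp only [fr, fi]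
    linear_combination (x.1 - c.1) * hu
  · simp only [fr, fi]
    linear_combination (x.2 - c.2) * hu

theorem fi_fr {c u : ℝ × ℝ} (hu : UV u) (p : ℝ × ℝ) : fi c u (fr c u p) = p := by
  unfold UV at hu
  ext
  · simp only [fr, fi]
    linear_combination p.1 * hu
  · simp only [fr, fi]
    linear_combination p.2 * hu

theorem d2_nonneg (x y : ℝ × ℝ) : 0 ≤ d2 x y := by unfold d2; positivity

theorem d2_comm (x y : ℝ × ℝ) : d2 x y = d2 y x := by unfold d2; ring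

theorem d2_fr {c u : ℝ × ℝ} (hu : UV u) (p q : ℝ × ℝ) : d2 (fr c u p) (fr c u q) = d2 p q := by
  unfold UV at hu
  simp only [d2, fr]
  linear_combination ((p.1 - q.1) ^ 2 + (p.2 - q.2) ^ 2) * hu

theorem d2_tri {x y z : ℝ × ℝ} {a b : ℝ} (ha : 0 ≤ a) (hb : 0 ≤ b) (h1 : d2 x y ≤ a ^ 2)
    (h2 : d2 y z ≤ b ^ 2) : d2 x z ≤ (a + b) ^ 2 := by
  unfold d2 at *
  set p := x.1 - y.1
  set q := x.2 - y.2
  set p' := y.1 - z.1
  set q' := y.2 - z.2
  have e1 : x.1 - z.1 = p + p' := by simp only [p, p']; ring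
  have e2 : x.2 - z.2 = q + q' := by simp only [q, q']; ring
  rw [e1, e2]
  have h3 : p * p' + q * q' ≤ a * b := by
    apply abs_le_of_sq_le_sq' _ (by positivity) |>.2
    have h4 : (p * p' + q * q') ^ 2 ≤ (p ^ 2 + q ^ 2) * (p' ^ 2 + q' ^ 2) := by
      nlinarith [sq_nonneg (p * q' - q * p')]
    calc (p * p' + q * q') ^ 2 ≤ (p ^ 2 + q ^ 2) * (p' ^ 2 + q' ^ 2) := h4
      _ ≤ a ^ 2 * b ^ 2 := by gcongr
      _ = (a * b) ^ 2 := by ring
  nlinarith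

theorem dt_swap (u v : ℝ × ℝ) : dt u v = - dt v u := by unfold dt; ring

theorem abs_dt_comm (u v : ℝ × ℝ) : |dt u v| = |dt v u| := by rw [dt_swap, abs_neg]

theorem dt_sq_add_dp_sq {u v : ℝ × ℝ} (hu : UV u) (hv : UV v) : dt u v ^ 2 + dp u v ^ 2 = 1 := by
  unfold UV at hu hv
  unfold dt dp
  linear_combination (v.1 ^ 2 + v.2 ^ 2) * hu + hv

theorem abs_dt_le_one {u v : ℝ × ℝ} (hu : UV u) (hv : UV v) : |dt u v| ≤ 1 := by
  rw [← sq_le_one_iff_abs_le_one]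
  nlinarith [dt_sq_add_dp_sq hu hv, sq_nonneg (dp u v)]

theorem abs_dp_le_one {u v : ℝ × ℝ} (hu : UV u) (hv : UV v) : |dp u v| ≤ 1 := by
  rw [← sq_le_one_iff_abs_le_one]
  nlinarith [dt_sq_add_dp_sq hu hv, sq_nonneg (dt u v)]

/-- `|sin (α - γ)| ≤ |sin (α - β)| + |sin (β - γ)|` -/
theorem abs_dt_triangle {u v w : ℝ × ℝ} (hu : UV u) (hv : UV v) (hw : UV w) :
    |dt u w| ≤ |dt u v| + |dt v w| := by
  have e : dt u w = dt u v * dp v w + dp u v * dt v w := by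
    unfold UV at hv
    unfold dt dp
    linear_combination (-(u.1 * w.2 - u.2 * w.1)) * hv
  rw [e]
  calc |dt u v * dp v w + dp u v * dt v w| ≤ |dt u v * dp v w| + |dp u v * dt v w| := abs_add_le _ _
    _ = |dt u v| * |dp v w| + |dp u v| * |dt v w| := by rw [abs_mul, abs_mul]
    _ ≤ |dt u v| * 1 + 1 * |dt v w| := by
        gcongr
        · exact abs_dp_le_one hv hw
        · exact abs_dp_le_one hu hv
    _ = _ := by ring

theorem UV_rel {u v : ℝ × ℝ} (hu : UV u) (hv : UV v) : UV (rel u v) := by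
  have := dt_sq_add_dp_sq hu hv
  unfold UV rel
  linarith

theorem dt_rel {u : ℝ × ℝ} (hu : UV u) (v w : ℝ × ℝ) : dt (rel u v) (rel u w) = dt v w := by
  unfold UV at hu
  simp only [dt, rel, dp]
  linear_combination (v.1 * w.2 - v.2 * w.1) * hu

theorem dt_e1_rel (u v : ℝ × ℝ) : dt ((1 : ℝ), (0 : ℝ)) (rel u v) = dt u v := by
  simp only [dt, rel, dp]
  ring

/-- change of frames -/
theorem fr_rel {j k : Room} (hj : UV j.u) (p : ℝ × ℝ) :
    fr j.c j.u (fr (relRoom j k).c (relRoom j k).u p) = fr k.c k.u p := by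
  unfold UV at hj
  ext
  · simp only [fr, relRoom, rel, fi, dp, dt]
    linear_combination ((k.c.1 - j.c.1) + p.1 * k.u.1 - p.2 * k.u.2) * hj
  · simp only [fr, relRoom, rel, fi, dp, dt]
    linear_combination ((k.c.2 - j.c.2) + p.1 * k.u.2 + p.2 * k.u.1) * hj

end Pool.Agent.BI
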