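import Pool.Agent.BI.B9

set_option autoImplicit false

open MeasureTheory Set
open scoped ENNReal

namespace Pool.Agent.BI

/-- [BI-C1] Numerical facts about D-rooms.
PROOF. `r > 0`: from `0 < κ ≤ r h` and `h > 0`. The rung set is non-empty: otherwise its interior is empty and
`volume (Icc (-(r/2)) (r/2)) = r ≤ ε² r`, impossible as `ε² < 1`. So `pst κ ε r ≤ r` (definition of `Rungs`), which
says `κ ≤ 4 ε² r²`. Then `h < 2 κ / r ≤ 8 ε² r`. `pst > 0`. `20000 h ≤ pst`: `h < 2 κ / r` and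
`pst = κ / (4 ε² r) ≥ 40000 κ / r` since `ε² ≤ 1 / 160000`. `ε² r * pst = κ / 4 ≤ h r / 4`. -/
theorem StdD.facts {S : Set (ℝ × ℝ)} {κ ε r h : ℝ} (H : StdD S κ ε r h) :
    0 < r ∧ h ≤ r ∧ κ ≤ 4 * ε ^ 2 * r ^ 2 ∧ h ≤ 8 * ε ^ 2 * r ∧ 0 < pst κ ε r ∧ pst κ ε r ≤ r ∧
      20000 * h ≤ pst κ ε r ∧ ε ^ 2 * r * pst κ ε r ≤ h * r / 4 ∧ ε ^ 2 * r ≤ r / 10 ^ 6 := by
  have hκ := H.κ0
  have hε := H.ε0
  have hh := H.h0
  have hr : 0 < r := by
    have h1 : 0 < r * h := lt_of_lt_of_le hκ H.lo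
    exact (pos_iff_pos_of_mul_pos h1).2 hh
  have hε2 : ε ^ 2 ≤ 1 / 10 ^ 60 := by
    have h1 : ε ^ 2 ≤ (1 / 10 ^ 30) ^ 2 := pow_le_pow_left₀ hε.le H.ε1 2
    refine le_trans h1 ?_
    norm_num
  have hε2' : 0 < ε ^ 2 := pow_pos hε 2
  have hden : 0 < 4 * ε ^ 2 * r := by positivity
  have hhr : h ≤ r := by
    refine le_trans H.thin ?_
    rw [div_le_iff₀ (by positivity)]
    nlinarith
  have hne : (Rungs S r (pst κ ε r)).Nonempty := by
    by_contra hemp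
    rw [not_nonempty_iff_eq_empty] at hemp
    have h1 := H.cov
    unfold Cov at h1
    rw [hemp, interior_empty, sdiff_empty, Real.volume_Icc,
      ENNReal.ofReal_le_ofReal_iff (by positivity)] at h1
    have h2 : ε ^ 2 * r < 1 * r := by
      apply mul_lt_mul_of_pos_right _ hr
      refine lt_of_le_of_lt hε2 ?_
      norm_num
    linarith
  obtain ⟨t, htq, -⟩ := hne
  have hpst : 0 < pst κ ε r := by
    unfold pst
    positivity
  have hκ2 : κ ≤ 4 * ε ^ 2 * r ^ 2 := by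
    have h1 := htq
    unfold pst at h1
    rw [div_le_iff₀ hden] at h1
    linarith
  have h8 : h ≤ 8 * ε ^ 2 * r := by
    have h1 := H.hi
    have h2 : r * h ≤ r * (8 * ε ^ 2 * r) := by
      have : r * (8 * ε ^ 2 * r) = 2 * (4 * ε ^ 2 * r ^ 2) := by ring
      linarith
    exact le_of_mul_le_mul_left h2 hr
  refine ⟨hr, hhr, hκ2, h8, hpst, htq, ?_, ?_, ?_⟩
  · unfold pst
    rw [le_div_iff₀ hden]
    have h1 : 20000 * h * (4 * ε ^ 2 * r) = 80000 * ε ^ 2 * (r * h) := by ring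
    rw [h1]
    have h2 : 80000 * ε ^ 2 * (r * h) ≤ 80000 * ε ^ 2 * (2 * κ) :=
      mul_le_mul_of_nonneg_left H.hi.le (by positivity)
    have h3 : ε ^ 2 * κ ≤ 1 / 10 ^ 60 * κ := mul_le_mul_of_nonneg_right hε2 hκ.le
    have h4 : 160000 * (1 / 10 ^ 60 * κ) ≤ κ := by
      have : (160000 : ℝ) * (1 / 10 ^ 60 * κ) = (160000 / 10 ^ 60) * κ := by ring
      rw [this]
      have h5 : (160000 / 10 ^ 60 : ℝ) ≤ 1 := by norm_num
      have := mul_le_mul_of_nonneg_right h5 hκ.le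
      linarith
    linarith
  · have h1 : ε ^ 2 * r * pst κ ε r = κ / 4 := by
      unfold pst
      field_simp
    rw [h1]
    have := H.lo
    linarith
  · have h1 := mul_le_mul_of_nonneg_right hε2 hr.le
    have h2 : (1 / 10 ^ 60 : ℝ) ≤ 1 / 10 ^ 6 := by norm_num
    have h3 := mul_le_mul_of_nonneg_right h2 hr.le
    linarith

/-- [BI-C1] Isolation for a D-room in standard position, chord above the axis.
PROOF. `isolation` with `q = pst κ ε r`, `V = interior (Rungs S r q)`, `d₀ = ε² r` and the facts `StdD.facts`. -/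
theorem StdD.isol {S : Set (ℝ × ℝ)} {κ ε r h : ℝ} (H : StdD S κ ε r h) {A σ i₀ i₁ : ℝ}
    (hi0 : -(r / 2) ≤ i₀) (hi1 : i₁ ≤ r / 2) (hi : r / 20 ≤ i₁ - i₀)
    (pos : ∀ x ∈ Icc i₀ i₁, 0 < A + σ * x) (low : ∀ x ∈ Icc i₀ i₁, 1000 * (A + σ * x) ≤ pst κ ε r)
    (chord : ∀ x ∈ Icc i₀ i₁, (x, A + σ * x) ∈ S)
    {x y : ℝ} (hx0 : i₀ + (i₁ - i₀) / 10 ≤ x) (hx1 : x ≤ i₁ - (i₁ - i₀) / 10) (hy0 : 0 ≤ y)
    (hy1 : y ≤ A + σ * x) : (x, y) ∈ S := by
  obtain ⟨f1, f2, -, -, -, -, f7, f8, f9⟩ := H.facts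
  have hctx : ILctx S r h (pst κ ε r) A σ i₀ i₁ :=
    { tri := H.tri
      r0 := f1
      h0 := H.h0
      hr := f2
      hq := f7
      rect := H.rect
      hi0 := hi0
      hi1 := hi1
      hi := hi
      pos := pos
      low := low
      chord := chord }
  refine isolation hctx (V := interior (Rungs S r (pst κ ε r))) isOpen_interior ?_
    (d₀ := ε ^ 2 * r) (by positivity) f8 f9 H.cov hx0 hx1 hy0 hy1
  intro t ht
  exact (interior_subset ht).2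

/-- [BI-C1] Regularity of a D-room without the fat alternative.
PROOF. `H.reg`; the alternative `r ≤ 10 ^ 26 (r / (b - a)) ^ 5 h` is impossible: `r / (b - a) ≤ 10 ^ 5`,
`h ≤ 8 ε² r ≤ 8 r / 10 ^ 60`, so the right side is `≤ 10 ^ 26 * 10 ^ 25 * 8 / 10 ^ 60 * r < r`. And
`r h < 2 κ`. -/
theorem StdD.reg' {S : Set (ℝ × ℝ)} {κ ε r h : ℝ} (H : StdD S κ ε r h) {D : Set (ℝ × ℝ)}
    (hDS : D ⊆ S) (hD : Convex ℝ D) (hB : ∀ p ∈ D, p.1 ^ 2 + p.2 ^ 2 ≤ 4 * r ^ 2) {a b : ℝ}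
    (ha : -r ≤ a) (hb : b ≤ r) (hab : r / 10 ^ 5 ≤ b - a) (h1 : (a, (0 : ℝ)) ∈ D)
    (h2 : (b, (0 : ℝ)) ∈ D) :
    volume D ≤ ENNReal.ofReal (2 * 10 ^ 8 * (r / (b - a)) ^ 5 * κ) := by
  obtain ⟨f1, -, -, f4, -, -, -, -, -⟩ := H.facts
  have hba : 0 < b - a := by
    have : 0 < r / 10 ^ 5 := by positivity
    linarith
  have hq0 : 0 ≤ r / (b - a) := by positivity
  rcases H.reg D hDS hD hB a b ha (by linarith) hb h1 h2 with hA | hA
  · refine le_trans hA (ENNReal.ofReal_le_ofReal ?_)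
    have h3 : 0 ≤ 10 ^ 8 * (r / (b - a)) ^ 5 := by positivity
    have h4 := mul_le_mul_of_nonneg_left H.hi.le h3
    linarith
  · exfalso
    have h3 : r / (b - a) ≤ 10 ^ 5 := by
      rw [div_le_iff₀ hba]
      have h5 := mul_le_mul_of_nonneg_left hab (show (0 : ℝ) ≤ 10 ^ 5 by positivity)
      have h6 : (10 : ℝ) ^ 5 * (r / 10 ^ 5) = r := by field_simp
      rw [h6] at h5
      exact h5
    have h4 : (r / (b - a)) ^ 5 ≤ (10 ^ 5) ^ 5 := pow_le_pow_left₀ hq0 h3 5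
    have hε2 : ε ^ 2 ≤ 1 / 10 ^ 60 := by
      have h5 : ε ^ 2 ≤ (1 / 10 ^ 30) ^ 2 := pow_le_pow_left₀ H.ε0.le H.ε1 2
      refine le_trans h5 ?_
      norm_num
    have h5 : h ≤ 8 / 10 ^ 60 * r := by
      have h6 := mul_le_mul_of_nonneg_right hε2 f1.le
      have h7 : 8 / 10 ^ 60 * r = 8 * (1 / 10 ^ 60 * r) := by ring
      rw [h7]
      linarith
    have h6 : 10 ^ 26 * (r / (b - a)) ^ 5 * h ≤ 10 ^ 26 * (10 ^ 5) ^ 5 * (8 / 10 ^ 60 * r) := by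
      have h7 : 10 ^ 26 * (r / (b - a)) ^ 5 ≤ 10 ^ 26 * (10 ^ 5) ^ 5 :=
        mul_le_mul_of_nonneg_left h4 (by positivity)
      exact mul_le_mul h7 h5 H.h0.le (by positivity)
    have h7 : (10 : ℝ) ^ 26 * (10 ^ 5) ^ 5 * (8 / 10 ^ 60 * r) = 8 / 10 ^ 9 * r := by
      ring
    rw [h7] at h6
    have h8 : 8 / 10 ^ 9 * r < 1 * r := mul_lt_mul_of_pos_right (by norm_num) f1
    linarith

end Pool.Agent.BI
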