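import Pool.Agent.BI.C1

set_option autoImplicit false

open MeasureTheory Set
open scoped ENNReal

namespace Pool.Agent.BI

/-- [BI-C2] Area of a clear trapezoid on the axis.
PROOF. `D = {p | a ≤ p.1 ≤ b, 0 ≤ p.2 ≤ A + σ p.1}` is convex, contained in `S` (hypothesis `clear`) and in the ball
(`|p.1| ≤ r`, `0 ≤ p.2 ≤ r`), contains `(a, 0), (b, 0)`, and its area is `(b - a) (f a + f b) / 2`
(`volume_regionBetween_eq_integral`, or: lower bound is enough: it contains the triangles..., any way).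
Only `≥` is needed: `(b - a) (f a + f b) / 2 ≤ area`. Apply `StdD.reg'`. -/
theorem StdD.trap {S : Set (ℝ × ℝ)} {κ ε r h : ℝ} (H : StdD S κ ε r h) {A σ a b : ℝ}
    (ha : -r ≤ a) (hb : b ≤ r) (hab : r / 10 ^ 5 ≤ b - a) (fa : 0 ≤ A + σ * a)
    (fb : 0 ≤ A + σ * b) (fa' : A + σ * a ≤ r) (fb' : A + σ * b ≤ r)
    (clear : ∀ x ∈ Icc a b, ∀ y, 0 ≤ y → y ≤ A + σ * x → (x, y) ∈ S) :
    (b - a) * ((A + σ * a) + (A + σ * b)) / 2 ≤ 2 * 10 ^ 8 * (r / (b - a)) ^ 5 * κ := by
  obtain ⟨hr0, -⟩ := H.facts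
  have hab0 : 0 < b - a := lt_of_lt_of_le (by positivity) hab
  have hκ := H.κ0
  set D : Set (ℝ × ℝ) := {p | a ≤ p.1 ∧ p.1 ≤ b ∧ 0 ≤ p.2 ∧ p.2 ≤ A + σ * p.1} with hD
  have hDS : D ⊆ S := by
    rintro ⟨x, y⟩ ⟨h1, h2, h3, h4⟩
    exact clear x ⟨h1, h2⟩ y h3 h4
  have hconv : Convex ℝ D := by
    rintro ⟨x, y⟩ ⟨h1, h2, h3, h4⟩ ⟨x', y'⟩ ⟨h1', h2', h3', h4'⟩ s t hs ht hst
    simp only at h1 h2 h3 h4 h1' h2' h3' h4'
    simp only [hD, Prod.smul_mk, Prod.mk_add_mk, smul_eq_mul, mem_setOf_eq]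
    have e1 : t = 1 - s := by linarith
    refine ⟨?_, ?_, ?_, ?_⟩
    · have : a = s * a + t * a := by rw [e1]; ring
      rw [this]
      gcongr
    · have : b = s * b + t * b := by rw [e1]; ring
      rw [this]
      gcongr
    · positivity
    · have : A + σ * (s * x + t * x') = s * (A + σ * x) + t * (A + σ * x') := by rw [e1]; ring
      rw [this]
      gcongr
  have hfx : ∀ x ∈ Icc a b, 0 ≤ A + σ * x ∧ A + σ * x ≤ r := by
    intro x hx
    have e : (b - a) * (A + σ * x) = (b - x) * (A + σ * a) + (x - a) * (A + σ * b) := by ring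
    have h1 : 0 ≤ b - x := by linarith [hx.2]
    have h2 : 0 ≤ x - a := by linarith [hx.1]
    constructor
    · have : 0 ≤ (b - a) * (A + σ * x) := by rw [e]; positivity
      exact nonneg_of_mul_nonneg_right this hab0
    · have : (b - a) * (A + σ * x) ≤ (b - a) * r := by
        rw [e]
        calc (b - x) * (A + σ * a) + (x - a) * (A + σ * b) ≤ (b - x) * r + (x - a) * r := by gcongr
          _ = (b - a) * r := by ring
      exact le_of_mul_le_mul_left this hab0
  have hball : ∀ p ∈ D, p.1 ^ 2 + p.2 ^ 2 ≤ 4 * r ^ 2 := by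
    rintro ⟨x, y⟩ ⟨h1, h2, h3, h4⟩
    simp only at h1 h2 h3 h4 ⊢
    have h5 := (hfx x ⟨h1, h2⟩).2
    have h6 : x ^ 2 ≤ r ^ 2 := sq_le_sq' (by linarith) (by linarith)
    have h7 : y ^ 2 ≤ r ^ 2 := sq_le_sq' (by linarith) (by linarith)
    nlinarith [sq_nonneg r]
  have hvol := H.reg' hDS hconv hball ha hb hab ⟨le_refl a, by linarith, le_refl _, by simpa using fa⟩
    ⟨by simp only; linarith, le_refl b, le_refl _, by simpa using fb⟩
  have hreg : regionBetween (fun _ : ℝ => (0 : ℝ)) (fun x => A + σ * x) (Icc a b) ⊆ D := by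
    rintro ⟨x, y⟩ ⟨h1, h2⟩
    exact ⟨h1.1, h1.2, h2.1.le, h2.2.le⟩
  have hcont : Continuous (fun x : ℝ => A + σ * x) := by fun_prop
  have hint : volume (regionBetween (fun _ : ℝ => (0 : ℝ)) (fun x => A + σ * x) (Icc a b)) =
      ENNReal.ofReal ((b - a) * ((A + σ * a) + (A + σ * b)) / 2) := by
    have h1 : (volume : Measure (ℝ × ℝ)) = (volume : Measure ℝ).prod volume := rfl
    rw [h1, volume_regionBetween_eq_integral (integrableOn_const (by simp))
      (hcont.continuousOn.integrableOn_compact isCompact_Icc) measurableSet_Icc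
      (fun x hx => (hfx x hx).1)]
    congr 1
    have h2 : ∀ x : ℝ, ((fun x => A + σ * x) - fun _ : ℝ => (0 : ℝ)) x = A + σ * x := by
      intro x; simp
    simp_rw [h2]
    rw [integral_Icc_eq_integral_Ioc, ← intervalIntegral.integral_of_le (by linarith)]
    rw [intervalIntegral.integral_add (by simp) ((by fun_prop : Continuous
      (fun x : ℝ => σ * x)).intervalIntegrable _ _), intervalIntegral.integral_const,
      intervalIntegral.integral_const_mul, integral_id]
    simp only [smul_eq_mul]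
    ring
  have hle : ENNReal.ofReal ((b - a) * ((A + σ * a) + (A + σ * b)) / 2) ≤
      ENNReal.ofReal (2 * 10 ^ 8 * (r / (b - a)) ^ 5 * κ) := by
    rw [← hint]
    exact (measure_mono hreg).trans hvol
  rwa [ENNReal.ofReal_le_ofReal_iff (by positivity)] at hle

end Pool.Agent.BI
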