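import Pool.Agent.BI.C2
import Pool.Agent.BI.A7

set_option autoImplicit false

open MeasureTheory Set
open scoped ENNReal

namespace Pool.Agent.BI

theorem c3_pos {S : Set (ℝ × ℝ)} {κ ε r h : ℝ} (H : StdD S κ ε r h) {A σ i₀ i₁ : ℝ}
    (h0 : -(r / 2) ≤ i₀) (h1 : i₁ ≤ r / 2) (hl : 9 / 100 * r ≤ i₁ - i₀)
    (chord : ∀ x ∈ Icc i₀ i₁, (x, A + σ * x) ∈ S)
    (low : ∀ x ∈ Icc i₀ i₁, 1000 * (A + σ * x) ≤ pst κ ε r)
    (pos : ∀ x ∈ Icc i₀ i₁, 0 < A + σ * x) :
    |σ| ≤ 10 ^ 17 * κ / r ^ 2 ∧ ∀ x, |x| ≤ 3 * r → |A + σ * x| ≤ 10 ^ 18 * κ / r := by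
  obtain ⟨f1, -, -, -, -, f6, -, -, -⟩ := H.facts
  have hκ := H.κ0
  set a := i₀ + (i₁ - i₀) / 10 with ha
  set b := i₁ - (i₁ - i₀) / 10 with hb
  have hba : 72 / 1000 * r ≤ b - a := by
    rw [ha, hb]
    linarith
  have hba0 : 0 < b - a := by
    have : 0 < 72 / 1000 * r := by positivity
    linarith
  have haI : a ∈ Icc i₀ i₁ := by
    rw [ha]
    constructor <;> linarith
  have hbI : b ∈ Icc i₀ i₁ := by
    rw [hb]
    constructor <;> linarith
  have clear : ∀ x ∈ Icc a b, ∀ y, 0 ≤ y → y ≤ A + σ * x → (x, y) ∈ S := by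
    intro x hx y hy0 hy1
    exact H.isol h0 h1 (by linarith) pos low chord hx.1 hx.2 hy0 hy1
  have pa := (pos a haI).le
  have pb := (pos b hbI).le
  have la := low a haI
  have lb := low b hbI
  have htrap := H.trap (A := A) (σ := σ) (a := a) (b := b) (by linarith [haI.1]) (by linarith [hbI.2])
    (by
      have : r / 10 ^ 5 ≤ 72 / 1000 * r := by
        rw [div_le_iff₀ (by positivity)]
        linarith
      linarith) pa pb (by linarith) (by linarith) clear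
  set s := (A + σ * a) + (A + σ * b) with hs
  have hs0 : 0 ≤ s := by
    rw [hs]
    linarith
  have hu : r / (b - a) ≤ 1000 / 72 := by
    rw [div_le_iff₀ hba0]
    linarith
  have hu5 : (r / (b - a)) ^ 5 ≤ (1000 / 72) ^ 5 :=
    pow_le_pow_left₀ (by positivity) hu 5
  have e1 : (b - a) * s / 2 ≤ 2 * 10 ^ 8 * (1000 / 72) ^ 5 * κ := by
    refine le_trans htrap ?_
    exact mul_le_mul_of_nonneg_right (mul_le_mul_of_nonneg_left hu5 (by positivity)) hκ.le
  have e2 : 72 / 1000 * r * s ≤ (b - a) * s := mul_le_mul_of_nonneg_right hba hs0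
  have e3 : s * r ≤ 3 * 10 ^ 15 * κ := by
    have h2 : s * r ≤ 1000 / 72 * (2 * (2 * 10 ^ 8 * (1000 / 72) ^ 5 * κ)) := by linarith
    have h3 : 1000 / 72 * (2 * (2 * 10 ^ 8 * (1000 / 72) ^ 5)) ≤ (3 * 10 ^ 15 : ℝ) := by norm_num
    have h4 := mul_le_mul_of_nonneg_right h3 hκ.le
    linarith
  have e4 : |σ| * (b - a) ≤ s := by
    rw [← abs_of_pos hba0, ← abs_mul]
    have h2 : σ * (b - a) = (A + σ * b) - (A + σ * a) := by ring
    rw [h2, abs_le]
    constructor <;> linarith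
  have e5 : |σ| * r ≤ 1000 / 72 * s := by
    have h2 := mul_le_mul_of_nonneg_left hba (abs_nonneg σ)
    linarith
  have e6 : |σ| * r ^ 2 ≤ 42 * 10 ^ 15 * κ := by
    have h2 := mul_le_mul_of_nonneg_right e5 f1.le
    have h3 : |σ| * r ^ 2 = |σ| * r * r := by ring
    rw [h3]
    have h4 : 1000 / 72 * s * r = 1000 / 72 * (s * r) := by ring
    rw [h4] at h2
    linarith
  constructor
  · rw [le_div_iff₀ (by positivity)]
    linarith
  · intro x hx
    rw [le_div_iff₀ f1]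
    have h2 : A + σ * x = (A + σ * a) + σ * (x - a) := by ring
    have h3 : |x - a| ≤ 4 * r := by
      rw [abs_le] at hx ⊢
      constructor <;> linarith [haI.1, haI.2, hx.1, hx.2]
    have h4 : |A + σ * x| ≤ s + |σ| * (4 * r) := by
      rw [h2]
      refine le_trans (abs_add_le _ _) ?_
      rw [abs_mul, abs_of_nonneg pa]
      have h5 := mul_le_mul_of_nonneg_left h3 (abs_nonneg σ)
      rw [hs]
      linarith
    have h5 := mul_le_mul_of_nonneg_right h4 f1.le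
    have h6 : (s + |σ| * (4 * r)) * r = s * r + 4 * (|σ| * r ^ 2) := by ring
    rw [h6] at h5
    linarith

theorem c3_neg {S : Set (ℝ × ℝ)} {κ ε r h : ℝ} (H : StdD S κ ε r h) {A σ i₀ i₁ : ℝ}
    (h0 : -(r / 2) ≤ i₀) (h1 : i₁ ≤ r / 2) (hl : 9 / 100 * r ≤ i₁ - i₀)
    (chord : ∀ x ∈ Icc i₀ i₁, (x, A + σ * x) ∈ S)
    (low : ∀ x ∈ Icc i₀ i₁, 1000 * (-(A + σ * x)) ≤ pst κ ε r)
    (neg : ∀ x ∈ Icc i₀ i₁, A + σ * x < 0) :
    |σ| ≤ 10 ^ 17 * κ / r ^ 2 ∧ ∀ x, |x| ≤ 3 * r → |A + σ * x| ≤ 10 ^ 18 * κ / r := by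
  have e : ∀ x, -A + -σ * x = -(A + σ * x) := fun x => by ring
  have h := c3_pos (StdD_flipy H) (A := -A) (σ := -σ) h0 h1 hl (by
    intro x hx
    rw [e]
    change (x, -(-(A + σ * x))) ∈ S
    rw [neg_neg]
    exact chord x hx) (by
    intro x hx
    rw [e]
    exact low x hx) (by
    intro x hx
    rw [e]
    linarith [neg x hx])
  refine ⟨by rw [← abs_neg]; exact h.1, fun x hx => ?_⟩
  have h2 := h.2 x hx
  rwa [e, abs_neg] at h2

/-- [BI-C3] Almost parallel chords close to the axis of a D-room are very close.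
PROOF. Write `f x = A + σ x`. If `f = 0` on `[j₀, j₁]`, then `σ = 0 = A` and all is clear. Otherwise `f` has at most one zero,
so there is a closed subinterval `[i₀, i₁] ⊆ [j₀, j₁]` of length `≥ (9 / 100) r` on which `f > 0`, or one on which `f < 0`
(take the longer side of the zero, of length `≥ r / 10`, and cut off a piece of length `r / 100` at the zero). In the
second case pass to `flipy S` (`StdD_flipy`) and `-A, -σ`; so let `f > 0` on `[i₀, i₁]`. By `StdD.isol` the region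
below `f` is clear over `[a, b]`, `a = i₀ + (i₁ - i₀)/10`, `b = i₁ - (i₁ - i₀)/10`, `b - a ≥ (72 / 1000) r`.
`StdD.trap` (`f ≤ pst / 1000 ≤ r`): `f a + f b ≤ 4 * 10 ^ 8 (r/(b-a))^6 κ / r ≤ 4 * 10 ^ 8 * (1000/72) ^ 6 κ / r ≤ 3 * 10 ^ 15 κ / r`
(`(1000/72)^6 < 7.2 * 10 ^ 6`). So `f a, f b ∈ [0, 3 * 10 ^ 15 κ / r]`,
`|σ| = |f b - f a| / (b - a) ≤ 3 * 10 ^ 15 * (1000 / 72) κ / r² ≤ 10 ^ 17 κ / r²` (`≤ 4.2 * 10 ^ 16`), and for `|x| ≤ 3 r`:
`|f x| ≤ f a + |σ| |x - a| ≤ 3 * 10 ^ 15 κ / r + 4.2 * 10 ^ 16 * 4 κ / r ≤ 10 ^ 18 κ / r`. -/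
theorem StdD.close {S : Set (ℝ × ℝ)} {κ ε r h : ℝ} (H : StdD S κ ε r h) {A σ j₀ j₁ : ℝ}
    (h0 : -(r / 2) ≤ j₀) (h1 : j₁ ≤ r / 2) (hl : r / 5 ≤ j₁ - j₀)
    (chord : ∀ x ∈ Icc j₀ j₁, (x, A + σ * x) ∈ S)
    (low : ∀ x ∈ Icc j₀ j₁, 1000 * |A + σ * x| ≤ pst κ ε r) :
    |σ| ≤ 10 ^ 17 * κ / r ^ 2 ∧ ∀ x, |x| ≤ 3 * r → |A + σ * x| ≤ 10 ^ 18 * κ / r := by
  obtain ⟨f1, -, -, -, -, -, -, -, -⟩ := H.facts
  set m := (j₀ + j₁) / 2 with hm
  have low1 : ∀ x ∈ Icc j₀ j₁, 1000 * (A + σ * x) ≤ pst κ ε r := by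
    intro x hx
    have := low x hx
    have h2 := le_abs_self (A + σ * x)
    linarith
  have low2 : ∀ x ∈ Icc j₀ j₁, 1000 * (-(A + σ * x)) ≤ pst κ ε r := by
    intro x hx
    have := low x hx
    have h2 := neg_le_abs (A + σ * x)
    linarith
  have hR : ∀ i₀, m ≤ i₀ → ∀ x ∈ Icc i₀ j₁, x ∈ Icc j₀ j₁ := by
    intro i₀ hi x hx
    exact ⟨by linarith [hx.1], hx.2⟩
  have hL : ∀ i₁, i₁ ≤ m → ∀ x ∈ Icc j₀ i₁, x ∈ Icc j₀ j₁ := by
    intro i₁ hi x hx
    exact ⟨hx.1, by linarith [hx.2]⟩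
  have hf : ∀ x, A + σ * x = (A + σ * m) + σ * (x - m) := fun x => by ring
  rcases lt_trichotomy (A + σ * m) 0 with hm0 | hm0 | hm0
  · rcases le_or_gt σ 0 with hσ | hσ
    · refine c3_neg H (i₀ := m) (i₁ := j₁) (by linarith) h1 (by linarith)
        (fun x hx => chord x (hR m le_rfl x hx)) (fun x hx => low2 x (hR m le_rfl x hx)) ?_
      intro x hx
      rw [hf]
      have := mul_nonpos_of_nonpos_of_nonneg hσ (sub_nonneg.2 hx.1)
      linarith
    · refine c3_neg H (i₀ := j₀) (i₁ := m) h0 (by linarith) (by linarith)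
        (fun x hx => chord x (hL m le_rfl x hx)) (fun x hx => low2 x (hL m le_rfl x hx)) ?_
      intro x hx
      rw [hf]
      have := mul_nonpos_of_nonneg_of_nonpos hσ.le (sub_nonpos.2 hx.2)
      linarith
  · rcases lt_trichotomy σ 0 with hσ | hσ | hσ
    · refine c3_pos H (i₀ := j₀) (i₁ := m - r / 100) h0 (by linarith) (by linarith)
        (fun x hx => chord x (hL _ (by linarith) x hx)) (fun x hx => low1 x (hL _ (by linarith) x hx)) ?_
      intro x hx
      rw [hf, hm0, zero_add]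
      exact mul_pos_of_neg_of_neg hσ (by linarith [hx.2])
    · have hA : A = 0 := by
        rw [hσ] at hm0
        linarith
      have hκ := H.κ0
      subst hσ
      subst hA
      constructor
      · rw [abs_zero]
        positivity
      · intro x _
        rw [zero_mul, add_zero, abs_zero]
        positivity
    · refine c3_pos H (i₀ := m + r / 100) (i₁ := j₁) (by linarith) h1 (by linarith)
        (fun x hx => chord x (hR _ (by linarith) x hx)) (fun x hx => low1 x (hR _ (by linarith) x hx)) ?_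
      intro x hx
      rw [hf, hm0, zero_add]
      exact mul_pos hσ (by linarith [hx.1])
  · rcases le_or_gt 0 σ with hσ | hσ
    · refine c3_pos H (i₀ := m) (i₁ := j₁) (by linarith) h1 (by linarith)
        (fun x hx => chord x (hR m le_rfl x hx)) (fun x hx => low1 x (hR m le_rfl x hx)) ?_
      intro x hx
      rw [hf]
      have := mul_nonneg hσ (sub_nonneg.2 hx.1)
      linarith
    · refine c3_pos H (i₀ := j₀) (i₁ := m) h0 (by linarith) (by linarith)
        (fun x hx => chord x (hL m le_rfl x hx)) (fun x hx => low1 x (hL m le_rfl x hx)) ?_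
      intro x hx
      rw [hf]
      have := mul_nonneg_of_nonpos_of_nonpos hσ.le (sub_nonpos.2 hx.2)
      linarith

end Pool.Agent.BI
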