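import Pool.Agent.BI.C1
import Pool.Agent.BI.A1

set_option autoImplicit false

open MeasureTheory Set
open scoped ENNReal

namespace Pool.Agent.BI

/-- [BI-C4] Clear region at an aligned chord above the axis, chord rising to the right.
PROOF. `f x = A + σ x`, `0 ≤ σ`, `f s > 0`, `s ∈ [-r/7, r/7]`. If `f (-(r/2)) > 0`, `StdD.isol` with
`[i₀, i₁] = [-(r/2), r/2]` gives everything over `[-(2/5) r, (2/5) r] ⊇ [s, s + r/4]` (`1/7 + 1/4 < 2/5`). Otherwise let
`x₀ ∈ [-(r/2), s)` be a zero of `f` (`σ > 0`). For `i₀ ∈ (x₀, s)` with `i₀ ≤ x₀ + ...` (any `i₀` with `x₀ < i₀ ≤ s`), `f > 0` on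
`[i₀, r/2]`, of length `≥ r/2 - r/7 ≥ r / 20`; `StdD.isol` shows that the vertical segment at the abscissa
`x₁ = (2/5) r` (`≤ r/2 - (r/2 - i₀)/10`, and `≥ i₀ + (r/2 - i₀)/10` because `i₀ ≤ r/7`) from `(x₁, 0)` to `(x₁, f x₁)` lies in `S`. So the
triangle `(x₀, 0), (x₁, 0), (x₁, f x₁)` has its sides in `S` (axis, vertical segment, chord:
the chord from `(x₀, f x₀) = (x₀, 0)` to `(x₁, f x₁)`), hence it is in `S` by `tri_mem_det`; it contains all `(x, y)` with
`x₀ ≤ x ≤ x₁`, `0 ≤ y ≤ f x`, in particular those with `x ∈ [s, s + r/4]`. -/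
theorem StdD.wedge {S : Set (ℝ × ℝ)} {κ ε r h : ℝ} (H : StdD S κ ε r h) {A σ s : ℝ}
    (hσ : 0 ≤ σ) (hs : |s| ≤ r / 7) (hfs : 0 < A + σ * s)
    (chord : ∀ x, |x| ≤ r / 2 → (x, A + σ * x) ∈ S)
    (low : ∀ x, |x| ≤ r / 2 → 1000 * (A + σ * x) ≤ pst κ ε r)
    {x y : ℝ} (hx0 : s ≤ x) (hx1 : x ≤ s + r / 4) (hy0 : 0 ≤ y) (hy1 : y ≤ A + σ * x) :
    (x, y) ∈ S := by
  obtain ⟨hr0, hhr, -, -, hp0, hp1, -, -, -⟩ := H.facts
  have hh0 := H.h0
  obtain ⟨hs1, hs2⟩ := abs_le.mp hs
  rcases lt_or_ge 0 (A + σ * (-(r / 2))) with hcase | hcase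
  · refine H.isol (i₀ := -(r / 2)) (i₁ := r / 2) (le_refl _) (le_refl _) (by linarith) ?_ ?_ ?_
      (by linarith) (by linarith) hy0 hy1
    · intro z hz
      have : σ * (-(r / 2)) ≤ σ * z := mul_le_mul_of_nonneg_left hz.1 hσ
      linarith
    · intro z hz
      exact low z (abs_le.mpr hz)
    · intro z hz
      exact chord z (abs_le.mpr hz)
  · have hσ0 : 0 < σ := by
      rcases hσ.eq_or_lt with h | h
      · exfalso
        rw [← h] at hcase hfs
        linarith
      · exact h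
    obtain ⟨x₀, hx₀⟩ : ∃ x₀ : ℝ, A + σ * x₀ = 0 := ⟨-A / σ, by field_simp; ring⟩
    have hfx : ∀ z, A + σ * z = σ * (z - x₀) := by intro z; linarith
    have h1 : -(r / 2) ≤ x₀ := by
      rw [hfx] at hcase
      by_contra hcon
      have : 0 < σ * (-(r / 2) - x₀) := mul_pos hσ0 (by linarith)
      linarith
    have h2 : x₀ < s := by
      rw [hfx] at hfs
      have := (mul_pos_iff_of_pos_left hσ0).mp hfs
      linarith
    have hx1' : x ≤ 2 / 5 * r := by linarith
    have hfx1 : 0 < A + σ * (2 / 5 * r) := by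
      rw [hfx]
      exact mul_pos hσ0 (by linarith)
    have hvert : ∀ y', 0 ≤ y' → y' ≤ A + σ * (2 / 5 * r) → (2 / 5 * r, y') ∈ S := by
      intro y' h3 h4
      refine H.isol (A := A) (σ := σ) (i₀ := (x₀ + s) / 2) (i₁ := r / 2) (by linarith) (le_refl _)
        (by linarith) ?_ ?_ ?_ (by linarith) (by linarith) h3 h4
      · intro z hz
        rw [hfx]
        exact mul_pos hσ0 (by linarith [hz.1])
      · intro z hz
        exact low z (abs_le.mpr ⟨by linarith [hz.1], hz.2⟩)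
      · intro z hz
        exact chord z (abs_le.mpr ⟨by linarith [hz.1], hz.2⟩)
    refine tri_mem_det H.tri (A := (x₀, 0)) (B := (2 / 5 * r, 0))
      (C := (2 / 5 * r, A + σ * (2 / 5 * r))) ?_ ?_ ?_ ?_ ?_ ?_ ?_
    · rintro _ ⟨a, b, ha, hb, hab, rfl⟩
      simp only [Prod.smul_mk, Prod.mk_add_mk, smul_eq_mul, mul_zero, add_zero]
      refine H.rect _ _ (abs_le.mpr ⟨?_, ?_⟩) (by simpa using hh0.le)
      · have : a * (-r) + b * (-r) ≤ a * x₀ + b * (2 / 5 * r) := by
          gcongr <;> linarith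
        nlinarith
      · have : a * x₀ + b * (2 / 5 * r) ≤ a * r + b * r := by
          gcongr <;> linarith
        nlinarith
    · rintro _ ⟨a, b, ha, hb, hab, rfl⟩
      simp only [Prod.smul_mk, Prod.mk_add_mk, smul_eq_mul, mul_zero, zero_add]
      have e : a * (2 / 5 * r) + b * (2 / 5 * r) = 2 / 5 * r := by
        rw [← add_mul, hab, one_mul]
      rw [e]
      refine hvert _ (by positivity) ?_
      have : b ≤ 1 := by linarith
      nlinarith
    · rintro _ ⟨a, b, ha, hb, hab, rfl⟩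
      simp only [Prod.smul_mk, Prod.mk_add_mk, smul_eq_mul, mul_zero, add_zero]
      have e : a * (A + σ * (2 / 5 * r)) = A + σ * (a * (2 / 5 * r) + b * x₀) := by
        have : b = 1 - a := by linarith
        rw [this]
        linear_combination (-(1 - a)) * hx₀
      rw [e]
      refine chord _ (abs_le.mpr ⟨?_, ?_⟩)
      · have : a * (-(r / 2)) + b * (-(r / 2)) ≤ a * (2 / 5 * r) + b * x₀ := by
          gcongr
          linarith
        nlinarith
      · have : a * (2 / 5 * r) + b * x₀ ≤ a * (r / 2) + b * (r / 2) := by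
          gcongr <;> linarith
        nlinarith
    · simp only [tdet]
      have : 0 < (2 / 5 * r - x₀) * (A + σ * (2 / 5 * r)) := mul_pos (by linarith) hfx1
      linarith
    · simp only [tdet]
      have : 0 ≤ (2 / 5 * r - x₀) * y := mul_nonneg (by linarith) hy0
      linarith
    · simp only [tdet]
      have : 0 ≤ (A + σ * (2 / 5 * r)) * (2 / 5 * r - x) := mul_nonneg hfx1.le (by linarith)
      linarith
    · simp only [tdet]
      have : 0 ≤ (2 / 5 * r - x₀) * (A + σ * x - y) := mul_nonneg (by linarith) (by linarith)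
      have e2 : (x₀ - 2 / 5 * r) * (y - (A + σ * (2 / 5 * r))) -
          (0 - (A + σ * (2 / 5 * r))) * (x - 2 / 5 * r) = (2 / 5 * r - x₀) * (A + σ * x - y) := by
        linear_combination (x - 2 / 5 * r) * hx₀
      rw [e2]
      exact this

end Pool.Agent.BI
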