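import Pool.Agent.BI.C3
import Pool.Agent.BI.A5

set_option autoImplicit false

open MeasureTheory Set
open scoped ENNReal

namespace Pool.Agent.BI

theorem c5_pz {κ ε r : ℝ} (hκ : 0 < κ) (hε : 0 < ε) (hε1 : ε ≤ 1 / 10 ^ 30) (hr : 0 < r)
    (h4 : κ ≤ 4 * ε ^ 2 * r ^ 2) : 0 < pz κ ε r ∧ 8 * pz κ ε r ≤ r / 100 := by
  have h0 : 0 < pz κ ε r := by
    unfold pz
    positivity
  refine ⟨h0, ?_⟩
  have h1 : pz κ ε r ≤ 4 * ε * r / 10 ^ 5 := by
    unfold pz
    rw [div_le_div_iff₀ (by positivity) (by positivity)]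
    calc κ * 10 ^ 5 ≤ (4 * ε ^ 2 * r ^ 2) * 10 ^ 5 := by gcongr
      _ = 4 * ε * r * (10 ^ 5 * ε * r) := by ring
  have h2 : 4 * ε * r / 10 ^ 5 ≤ 4 * (1 / 10 ^ 30) * r / 10 ^ 5 := by gcongr
  have h3 : 8 * (4 * (1 / 10 ^ 30) * r / 10 ^ 5) ≤ r / 100 := by
    have : 8 * (4 * (1 / 10 ^ 30) * r / 10 ^ 5) = (32 / 10 ^ 35) * r := by ring
    rw [this]
    have : r / 100 = (1 / 100) * r := by ring
    rw [this]
    exact mul_le_mul_of_nonneg_right (by norm_num) hr.le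
  linarith

/-- [BI-C5] Dichotomy: a chord `k` (at least half as long as the D-room `j`) which passes within `8 pz` of the
central part of the axis of `j` makes with `j` an angle which is either large or tiny; in the second case it is
close to `j`.
PROOF. `r = j.r`, `p = pz κ ε r`. Suppose `|dt j.u k.u| ≤ κ / (4000 ε² r²) =: θ`; `κ ≤ 4 ε² r²` so `θ ≤ 1/1000`. Work in the frame of
`j`: `H = hj.std`, `k' = relRoom j k`, `k'.u = (a, b)` with `b = dt j.u k.u`, `a² + b² = 1`, `|a| ≥ 0.99`;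
`Q = k'.ax τ = (q₁, q₂)` with `|q₁ - t| ≤ 8 p`, `|q₂| ≤ 8 p` (`d2_fr`). Put `σ = b / a`, `A = q₂ - σ q₁`; the points of the axis of `k'` are
`(q₁ + s a, q₂ + s b) = (x, A + σ x)`, `x = q₁ + s a`, with `|τ + s| ≤ k.r`; as `|τ| ≤ k.r / 7` all `|s| ≤ (6/7) k.r`, in particular
all `|s| ≤ (3/7) r`, are allowed: all `x` with `|x - q₁| ≤ 0.42 r`. `|q₁| ≤ r / 4 + 8 p ≤ 0.26 r`
(`p = κ / (10^5 ε r) ≤ 4 ε r / 10 ^ 5`). So the chord `(x, A + σ x)` is in `S` for all `|x| ≤ (3/20) r`. There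
`|A + σ x| ≤ |q₂| + |σ| |x - q₁| ≤ 8 p + 1.02 θ (0.41 r)`, and `1000` times this is `≤ pst = κ / (4 ε² r)`:
`1000 θ * 0.42 r = 0.105 κ/(ε² r)`, `8000 p = 0.08 κ / (ε r) ≤ 0.01 κ / (ε² r)`. `StdD.close` on `[-(3/20) r, (3/20) r]` gives
`|σ| ≤ 10 ^ 17 κ / r²`, so `|b| ≤ |σ|`, which is `Al κ j k`; and, if `k.r ≤ 2 r`, the centre of `k'` is
`(x, A + σ x)` with `x = q₁ - τ a`, `|x| ≤ 0.26 r + 2 r / 7 ≤ 3 r`. -/
theorem dichotomy {S : Set (ℝ × ℝ)} {κ ε : ℝ} {j k : Room} (hS : TriConn S) (hκ : 0 < κ)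
    (hε : 0 < ε) (hε1 : ε ≤ 1 / 10 ^ 30) (hj : DRoom S κ ε j) (hku : UV k.u)
    (hk : ∀ t, |t| ≤ k.r → k.ax t ∈ S) (hr : j.r ≤ 2 * k.r) {t τ : ℝ} (ht : |t| ≤ j.r / 4)
    (hτ : |τ| ≤ k.r / 7) (hd : d2 (j.ax t) (k.ax τ) ≤ (8 * pz κ ε j.r) ^ 2) :
    κ / (4000 * ε ^ 2 * j.r ^ 2) < |dt j.u k.u| ∨
      (Al κ j k ∧ (k.r ≤ 2 * j.r → |(fi j.c j.u k.c).2| ≤ 10 ^ 18 * κ / j.r)) := by
  rcases lt_or_ge (κ / (4000 * ε ^ 2 * j.r ^ 2)) |dt j.u k.u| with hlt | hle
  · exact Or.inl hlt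
  right
  have H : StdD (inF j S) κ ε j.r j.h := hj.std hS hκ hε hε1
  obtain ⟨r0, -, h4, -, -, -, -, -, -⟩ := H.facts
  obtain ⟨hp0, hp⟩ := c5_pz hκ hε hε1 r0 h4
  have hju : UV j.u := hj.uv
  set r := j.r with hrdef
  set p := pz κ ε r with hpdef
  set b := dt j.u k.u with hb
  set a := dp j.u k.u with ha
  have hab : b ^ 2 + a ^ 2 = 1 := dt_sq_add_dp_sq hju hku
  set θ := κ / (4000 * ε ^ 2 * r ^ 2) with hθ
  have hθ0 : 0 < θ := by positivity
  have hθ1 : θ ≤ 1 / 1000 := by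
    rw [hθ, div_le_div_iff₀ (by positivity) (by norm_num)]
    nlinarith
  have hb1 : |b| ≤ 1 / 1000 := hle.trans hθ1
  have hb2 : b ^ 2 ≤ (1 / 1000) ^ 2 := by
    rw [← sq_abs]
    gcongr
  have ha1 : 99 / 100 ≤ |a| := by
    have : (99 / 100 : ℝ) ^ 2 ≤ a ^ 2 := by nlinarith
    have := sq_le_sq.1 this
    rwa [abs_of_pos (by norm_num : (0 : ℝ) < 99 / 100)] at this
  have ha0 : a ≠ 0 := by
    intro h
    rw [h, abs_zero] at ha1
    norm_num at ha1
  have ha2 : |a| ≤ 1 := abs_dp_le_one hju hku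
  -- the axis of `k` in the frame of `j`
  set c := fi j.c j.u k.c with hc
  have hax : ∀ s, fr j.c j.u (c.1 + s * a, c.2 + s * b) = k.ax s := by
    intro s
    have := ax_rel (j := j) (k := k) hju s
    rw [← this]
    congr 1
    simp only [Room.ax, relRoom, rel, fr]
    ext <;> simp [← hc, ← ha, ← hb]
  set q1 := c.1 + τ * a with hq1
  set q2 := c.2 + τ * b with hq2
  have hd' : (t - q1) ^ 2 + (0 - q2) ^ 2 ≤ (8 * p) ^ 2 := by
    have h1 := hd
    rw [← hax τ] at h1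
    unfold Room.ax at h1
    rw [d2_fr hju] at h1
    exact h1
  have hqt : |t - q1| ≤ 8 * p := by
    apply abs_le_of_sq_le_sq _ (by positivity)
    nlinarith [sq_nonneg (0 - q2)]
  have hq2' : |q2| ≤ 8 * p := by
    apply abs_le_of_sq_le_sq _ (by positivity)
    nlinarith [sq_nonneg (t - q1)]
  have hq1' : |q1| ≤ 26 / 100 * r := by
    have h1 := abs_le.1 hqt
    have h2 := abs_le.1 ht
    rw [abs_le]
    constructor <;> linarith
  set σ := b / a with hσ
  set A := q2 - σ * q1 with hA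
  have hσa : σ * a = b := by
    rw [hσ]
    field_simp
  have hσθ : |σ| ≤ θ / (99 / 100) := by
    rw [hσ, abs_div]
    gcongr
  have hpt : ∀ x, |x - q1| ≤ 41 / 100 * r → (x, A + σ * x) ∈ inF j S := by
    intro x hx
    have hs : |(x - q1) / a| ≤ 3 / 7 * r := by
      rw [abs_div, div_le_iff₀ (by linarith)]
      nlinarith
    have hmem := hk (τ + (x - q1) / a) (by
      have := abs_add_le τ ((x - q1) / a)
      linarith)
    rw [← hax] at hmem
    have e : ((c.1 + (τ + (x - q1) / a) * a, c.2 + (τ + (x - q1) / a) * b) : ℝ × ℝ) =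
        (x, A + σ * x) := by
      have e1 : (x - q1) / a * a = x - q1 := by field_simp
      have e2 : (x - q1) / a * b = σ * (x - q1) := by
        rw [hσ]
        ring
      ext
      · simp only
        rw [add_mul, e1, hq1]
        ring
      · simp only
        rw [add_mul, e2, hA, hq2]
        ring
    rw [e] at hmem
    exact hmem
  have hlow : ∀ x, |x - q1| ≤ 41 / 100 * r → 1000 * |A + σ * x| ≤ pst κ ε r := by
    intro x hx
    have e : A + σ * x = q2 + σ * (x - q1) := by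
      rw [hA]
      ring
    have h1 : |A + σ * x| ≤ 8 * p + θ / (99 / 100) * (41 / 100 * r) := by
      rw [e]
      refine (abs_add_le _ _).trans ?_
      rw [abs_mul]
      gcongr
    have h2 : θ / (99 / 100) * (41 / 100 * r) ≤ 42 / 100 * θ * r := by
      have : 0 < θ * r := by positivity
      nlinarith
    have h3 : 1000 * (42 / 100 * θ * r) = 105 / 1000 * (κ / (ε ^ 2 * r)) := by
      rw [hθ]
      field_simp
      ring
    have h5 : 1000 * (8 * p) ≤ 1 / 100 * (κ / (ε ^ 2 * r)) := by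
      have e5 : 1000 * (8 * p) = (8 / 100 * ε) * (κ / (ε ^ 2 * r)) := by
        rw [hpdef, pz]
        field_simp
        ring
      rw [e5]
      gcongr
      have : (1 : ℝ) / 10 ^ 30 ≤ 1 / 10 := by norm_num
      linarith
    have h6 : pst κ ε r = 1 / 4 * (κ / (ε ^ 2 * r)) := by
      unfold pst
      field_simp
    have h7 : 0 < κ / (ε ^ 2 * r) := by positivity
    rw [h6]
    nlinarith
  have hx0 : ∀ x ∈ Icc (-(3 / 20 * r)) (3 / 20 * r), |x - q1| ≤ 41 / 100 * r := by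
    intro x hx
    have h1 := abs_le.1 hq1'
    rw [abs_le]
    constructor <;> linarith [hx.1, hx.2]
  obtain ⟨hs1, hs2⟩ := H.close (A := A) (σ := σ) (j₀ := -(3 / 20 * r)) (j₁ := 3 / 20 * r)
    (by linarith) (by linarith) (by linarith) (fun x hx => hpt x (hx0 x hx))
    (fun x hx => hlow x (hx0 x hx))
  constructor
  · unfold Al
    rw [← hb, ← hσa, abs_mul]
    calc |σ| * |a| ≤ |σ| * 1 := by gcongr
      _ = |σ| := mul_one _
      _ ≤ _ := hs1
  · intro hkr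
    have e : c.2 = A + σ * c.1 := by
      rw [hA, hq1, hq2]
      have : σ * (c.1 + τ * a) = σ * c.1 + τ * (σ * a) := by ring
      rw [this, hσa]
      ring
    rw [e]
    apply hs2
    have e1 : c.1 = q1 - τ * a := by
      rw [hq1]
      ring
    rw [e1]
    have h1 : |τ * a| ≤ 2 / 7 * r := by
      rw [abs_mul]
      calc |τ| * |a| ≤ |τ| * 1 := by gcongr
        _ ≤ 2 / 7 * r := by linarith
    have h2 := abs_sub q1 (τ * a)
    linarith

/-- [BI-C5] Two D-rooms of similar length which are not `Close` and meet near central points are not aligned.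
PROOF. `dichotomy`. In the second case `Close κ k j` holds: `|dt j.u k.u| ≤ 10 ^ 17 κ / j.r²`;
the second clause is the second part of `dichotomy`; `d2 k.c j.c ≤ (4 j.r)²`: `k.c = k.ax 0` is at distance
`|τ| ≤ 2 j.r / 7` from `k.ax τ`, this one at distance `≤ 8 pz ≤ j.r / 10` from `j.ax t`, which is at distance
`|t| ≤ j.r / 4` from `j.c` (`d2_tri`, `d2_fr`). Contradiction with `hnc`. (`κ ≤ 4 ε² r²` for the bound of `pz` from
`StdD.facts`.) -/
theorem not_al_of_same {S : Set (ℝ × ℝ)} {κ ε : ℝ} {j k : Room} (hS : TriConn S) (hκ : 0 < κ)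
    (hε : 0 < ε) (hε1 : ε ≤ 1 / 10 ^ 30) (hj : DRoom S κ ε j) (hk : DRoom S κ ε k)
    (hr : j.r ≤ 2 * k.r) (hr' : k.r ≤ 2 * j.r) (hnc : ¬ Close κ k j) {t τ : ℝ}
    (ht : |t| ≤ j.r / 4) (hτ : |τ| ≤ k.r / 7)
    (hd : d2 (j.ax t) (k.ax τ) ≤ (8 * pz κ ε j.r) ^ 2) : ¬ Al κ j k := by
  intro hal
  have H : StdD (inF j S) κ ε j.r j.h := hj.std hS hκ hε hε1
  obtain ⟨r0, -, h4, -, -, -, -, -, -⟩ := H.facts
  obtain ⟨hp0, hp⟩ := c5_pz hκ hε hε1 r0 h4
  have hax : ∀ s, |s| ≤ k.r → k.ax s ∈ S := by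
    intro s hs
    exact hk.rect s 0 hs (by rw [abs_zero]; exact hk.h0.le)
  rcases dichotomy hS hκ hε hε1 hj hk.uv hax hr ht hτ hd with h | ⟨-, h⟩
  · unfold Al at hal
    have h1 : κ / (4000 * ε ^ 2 * j.r ^ 2) < 10 ^ 17 * κ / j.r ^ 2 := h.trans_le hal
    rw [div_lt_div_iff₀ (by positivity) (by positivity)] at h1
    have h2 : 10 ^ 17 * κ * (4000 * ε ^ 2 * j.r ^ 2) ≤ κ * j.r ^ 2 := by
      have h3 : ε ^ 2 ≤ (1 / 10 ^ 30) ^ 2 := by gcongr
      have h5 : 10 ^ 17 * κ * (4000 * ε ^ 2 * j.r ^ 2) = (κ * j.r ^ 2) * (4000 * 10 ^ 17 * ε ^ 2) := by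
        ring
      rw [h5]
      have h6 : 4000 * 10 ^ 17 * ε ^ 2 ≤ 1 := by
        calc 4000 * 10 ^ 17 * ε ^ 2 ≤ 4000 * 10 ^ 17 * (1 / 10 ^ 30) ^ 2 := by gcongr
          _ ≤ 1 := by norm_num
      calc (κ * j.r ^ 2) * (4000 * 10 ^ 17 * ε ^ 2) ≤ (κ * j.r ^ 2) * 1 := by gcongr
        _ = _ := mul_one _
    linarith
  · apply hnc
    refine ⟨?_, h hr', ?_⟩
    · unfold Al at hal
      refine hal.trans ?_
      gcongr
      · norm_num
      · norm_num
    · have e1 : k.c = k.ax 0 := by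
        ext <;> simp [Room.ax, fr]
      have e2 : j.c = j.ax 0 := by
        ext <;> simp [Room.ax, fr]
      have f1 : d2 k.c (k.ax τ) ≤ (2 / 7 * j.r) ^ 2 := by
        rw [e1]
        unfold Room.ax
        rw [d2_fr hk.uv]
        have : d2 ((0 : ℝ), (0 : ℝ)) (τ, 0) = |τ| ^ 2 := by
          rw [sq_abs]
          unfold d2
          ring
        rw [this]
        gcongr
        linarith
      have f2 : d2 (k.ax τ) (j.ax t) ≤ (8 * pz κ ε j.r) ^ 2 := by
        rw [d2_comm]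
        exact hd
      have f3 : d2 (j.ax t) j.c ≤ (j.r / 4) ^ 2 := by
        rw [e2]
        unfold Room.ax
        rw [d2_fr hj.uv]
        have : d2 (t, (0 : ℝ)) ((0 : ℝ), (0 : ℝ)) = |t| ^ 2 := by
          rw [sq_abs]
          unfold d2
          ring
        rw [this]
        gcongr
      have f4 := d2_tri (by positivity) (by positivity) f1 (d2_tri (by positivity) (by positivity) f2 f3)
      refine f4.trans ?_
      gcongr
      linarith

end Pool.Agent.BI
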