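import Pool.Agent.BI.C1
import Pool.Agent.BI.A1
import Pool.Agent.BI.A2

set_option autoImplicit false

open MeasureTheory Set
open scoped ENNReal

namespace Pool.Agent.BI

theorem d1_seg {S : Set (ℝ × ℝ)} {x s R : ℝ} {v : ℝ × ℝ}
    (cv : ∀ s, |s| ≤ R → (x + s * v.1, s * v.2) ∈ S) (hs : |s| ≤ R) :
    segment ℝ ((x, 0) : ℝ × ℝ) (x + s * v.1, s * v.2) ⊆ S := by
  rintro p ⟨a, b, ha, hb, hab, rfl⟩
  have h1 : a • ((x, 0) : ℝ × ℝ) + b • ((x + s * v.1, s * v.2) : ℝ × ℝ) =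
      (x + (b * s) * v.1, (b * s) * v.2) := by
    ext
    · simp only [Prod.fst_add, Prod.smul_fst, smul_eq_mul]
      linear_combination x * hab
    · simp only [Prod.snd_add, Prod.smul_snd, smul_eq_mul]
      ring
  rw [h1]
  apply cv
  rw [abs_mul, abs_of_nonneg hb]
  calc b * |s| ≤ 1 * |s| := by
        gcongr
        linarith
    _ ≤ R := by linarith

/-- [BI-D1] Two transversal chords through nearby points of the axis of a D-room do not meet.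
PROOF. Write `D = x₂ - x₁`, `θ₀ = κ / (4000 ε² r²)`. Suppose `|dt u v| (2 r / 5) > D max (u.2) (v.2)`; then `dt u v ≠ 0`. Put
`s = D v.2 / dt u v`, `s' = D u.2 / dt u v`; `|s|, |s'| < 2 r / 5` and
`x₁ + s u.1 = x₂ + s' v.1`, `s u.2 = s' v.2` (polynomial identities after `field_simp`). So
`Z = (x₁ + s u.1, s u.2)` lies on both chords, and the triangle `(x₁, 0), (x₂, 0), Z` has its sides in `S` (pieces of the
axis and of the chords). Its hull `T` is convex, `T ⊆ S` (`tri_subset`), in the ball of radius `2 r` (the vertices have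
coordinates of absolute value `≤ r`, so all the points: `Icc (-r) r ×ˢ Icc (-r) r` is convex), and contains
`(x₁, 0), (x₂, 0)`. `StdD.reg'`: `volume T ≤ 2 * 10 ^ 8 (r / D) ^ 5 κ ≤ 2 * 10 ^ 33 κ`. On the other hand `tri_area`:
`volume T ≥ |tdet| / 2 = D |s u.2| / 2 = D² u.2 v.2 / (2 |dt u v|)`, and `|dt u v| ≤ u.2 + v.2 ≤ 2 max`, so this is
`≥ D² min (u.2) (v.2) / 4 > (r / 10 ^ 5)² θ₀ / 4 = κ / (16000 * 10 ^ 10 ε²) ≥ 10 ^ 45 κ`. Contradiction. -/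
theorem StdD.cone {S : Set (ℝ × ℝ)} {κ ε r h : ℝ} (H : StdD S κ ε r h) {x₁ x₂ : ℝ}
    (hx1 : |x₁| ≤ r / 6) (hx2 : |x₂| ≤ r / 6) (hlt : r / 10 ^ 5 ≤ x₂ - x₁) {u v : ℝ × ℝ}
    (hu : UV u) (hv : UV v) (hu2 : κ / (4000 * ε ^ 2 * r ^ 2) < u.2)
    (hv2 : κ / (4000 * ε ^ 2 * r ^ 2) < v.2)
    (cu : ∀ s, |s| ≤ 2 * r / 5 → (x₁ + s * u.1, s * u.2) ∈ S)
    (cv : ∀ s, |s| ≤ 2 * r / 5 → (x₂ + s * v.1, s * v.2) ∈ S) :
    |dt u v| * (2 * r / 5) ≤ (x₂ - x₁) * max u.2 v.2 := by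
  obtain ⟨hr, -⟩ := H.facts
  have hκ := H.κ0
  have hε := H.ε0
  have hε1 := H.ε1
  by_contra hcon
  push Not at hcon
  obtain ⟨D, hD⟩ : ∃ D, D = x₂ - x₁ := ⟨_, rfl⟩
  rw [← hD] at hcon hlt
  have hD0 : 0 < D := lt_of_lt_of_le (by positivity) hlt
  obtain ⟨θ, hθ⟩ : ∃ θ, θ = κ / (4000 * ε ^ 2 * r ^ 2) := ⟨_, rfl⟩
  rw [← hθ] at hu2 hv2
  have hθ0 : 0 < θ := by rw [hθ]; positivity
  have hθκ : κ = θ * (4000 * ε ^ 2 * r ^ 2) := by
    rw [hθ]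
    field_simp
  have hu0 : 0 < u.2 := hθ0.trans hu2
  have hv0 : 0 < v.2 := hθ0.trans hv2
  obtain ⟨d, hd⟩ : ∃ d, d = dt u v := ⟨_, rfl⟩
  rw [← hd] at hcon
  have hmu : u.2 ≤ max u.2 v.2 := le_max_left _ _
  have hmv : v.2 ≤ max u.2 v.2 := le_max_right _ _
  have hdpos : 0 < |d| := by
    have h1 : 0 < D * max u.2 v.2 := mul_pos hD0 (lt_of_lt_of_le hu0 hmu)
    have h2 : 0 < |d| * (2 * r / 5) := h1.trans hcon
    exact pos_of_mul_pos_left h2 (by positivity)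
  have hd0 : d ≠ 0 := abs_pos.1 hdpos
  obtain ⟨s, hs⟩ : ∃ s, s = D * v.2 / d := ⟨_, rfl⟩
  obtain ⟨s', hs'⟩ : ∃ s', s' = D * u.2 / d := ⟨_, rfl⟩
  have hsabs : |s| ≤ 2 * r / 5 := by
    rw [hs, abs_div, abs_of_pos (mul_pos hD0 hv0), div_le_iff₀ hdpos]
    have : D * v.2 ≤ D * max u.2 v.2 := by gcongr
    rw [mul_comm (2 * r / 5)]
    exact this.trans hcon.le
  have hs'abs : |s'| ≤ 2 * r / 5 := by
    rw [hs', abs_div, abs_of_pos (mul_pos hD0 hu0), div_le_iff₀ hdpos]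
    have : D * u.2 ≤ D * max u.2 v.2 := by gcongr
    rw [mul_comm (2 * r / 5)]
    exact this.trans hcon.le
  have hZ1 : x₁ + s * u.1 = x₂ + s' * v.1 := by
    have h1 : s * u.1 - s' * v.1 = D := by
      rw [hs, hs']
      field_simp
      rw [hd]
      unfold dt
      ring
    linarith
  have hZ2 : s * u.2 = s' * v.2 := by
    rw [hs, hs']
    ring
  have hZ : ((x₁ + s * u.1, s * u.2) : ℝ × ℝ) = (x₂ + s' * v.1, s' * v.2) := by
    rw [hZ1, hZ2]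
  have hu1 : |u.1| ≤ 1 := by
    rw [← sq_le_one_iff_abs_le_one]
    unfold UV at hu
    linarith [sq_nonneg u.2]
  have hu21 : |u.2| ≤ 1 := by
    rw [← sq_le_one_iff_abs_le_one]
    unfold UV at hu
    linarith [sq_nonneg u.1]
  have hv1 : |v.1| ≤ 1 := by
    rw [← sq_le_one_iff_abs_le_one]
    unfold UV at hv
    linarith [sq_nonneg v.2]
  obtain ⟨h11, h12⟩ := abs_le.1 hx1
  obtain ⟨h21, h22⟩ := abs_le.1 hx2
  -- the triangle
  have e1 : segment ℝ ((x₁, 0) : ℝ × ℝ) (x₂, 0) ⊆ S := by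
    rintro p ⟨a, b, ha, hb, hab, rfl⟩
    have h1 : a • ((x₁, 0) : ℝ × ℝ) + b • ((x₂, 0) : ℝ × ℝ) = (a * x₁ + b * x₂, 0) := by
      ext
      · simp only [Prod.fst_add, Prod.smul_fst, smul_eq_mul]
      · simp only [Prod.snd_add, Prod.smul_snd, smul_eq_mul]
        ring
    rw [h1]
    apply H.rect
    · calc |a * x₁ + b * x₂| ≤ |a * x₁| + |b * x₂| := abs_add_le _ _
        _ = a * |x₁| + b * |x₂| := by rw [abs_mul, abs_mul, abs_of_nonneg ha, abs_of_nonneg hb]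
        _ ≤ a * (r / 6) + b * (r / 6) := by gcongr
        _ = (a + b) * (r / 6) := by ring
        _ ≤ r := by rw [hab]; linarith
    · rw [abs_zero]
      exact H.h0.le
  have e2 : segment ℝ ((x₂, 0) : ℝ × ℝ) (x₁ + s * u.1, s * u.2) ⊆ S := by
    rw [hZ]
    exact d1_seg cv hs'abs
  have e3 : segment ℝ ((x₁ + s * u.1, s * u.2) : ℝ × ℝ) (x₁, 0) ⊆ S := by
    rw [segment_symm]
    exact d1_seg cu hsabs
  have hT := tri_subset H.tri e1 e2 e3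
  have hsu1 : |s * u.1| ≤ 2 * r / 5 := by
    rw [abs_mul]
    calc |s| * |u.1| ≤ |s| * 1 := by gcongr
      _ ≤ 2 * r / 5 := by linarith
  have hsu2 : |s * u.2| ≤ 2 * r / 5 := by
    rw [abs_mul]
    calc |s| * |u.2| ≤ |s| * 1 := by gcongr
      _ ≤ 2 * r / 5 := by linarith
  have hball : ∀ p ∈ convexHull ℝ ({(x₁, 0), (x₂, 0), (x₁ + s * u.1, s * u.2)} : Set (ℝ × ℝ)),
      p.1 ^ 2 + p.2 ^ 2 ≤ 4 * r ^ 2 := by
    intro p hp
    have h1 : convexHull ℝ ({(x₁, 0), (x₂, 0), (x₁ + s * u.1, s * u.2)} : Set (ℝ × ℝ)) ⊆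
        Icc (-r) r ×ˢ Icc (-r) r := by
      apply convexHull_min
      · rintro q hq
        simp only [mem_insert_iff, mem_singleton_iff] at hq
        obtain ⟨g1, g2⟩ := abs_le.1 hsu1
        obtain ⟨g3, g4⟩ := abs_le.1 hsu2
        rcases hq with rfl | rfl | rfl
        · exact ⟨⟨by linarith, by linarith⟩, ⟨by linarith, by linarith⟩⟩
        · exact ⟨⟨by linarith, by linarith⟩, ⟨by linarith, by linarith⟩⟩
        · refine ⟨⟨?_, ?_⟩, ⟨?_, ?_⟩⟩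
          · simp only
            linarith
          · simp only
            linarith
          · simp only
            linarith
          · simp only
            linarith
      · exact (convex_Icc _ _).prod (convex_Icc _ _)
    obtain ⟨⟨g1, g2⟩, ⟨g3, g4⟩⟩ := h1 hp
    have g5 := sq_le_sq' g1 g2
    have g6 := sq_le_sq' g3 g4
    linarith [sq_nonneg r]
  have hvol := H.reg' hT (convex_convexHull ℝ _) hball (a := x₁) (b := x₂) (by linarith)
    (by linarith) (by rw [← hD]; exact hlt) (subset_convexHull ℝ _ (by simp))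
    (subset_convexHull ℝ _ (by simp))
  have harea := (tri_area (A := ((x₁, 0) : ℝ × ℝ)) (B := (x₂, 0))
    (C := (x₁ + s * u.1, s * u.2))).trans hvol
  rw [← hD] at harea
  rw [ENNReal.ofReal_le_ofReal_iff (by positivity)] at harea
  have htd : tdet ((x₁, 0) : ℝ × ℝ) (x₂, 0) (x₁ + s * u.1, s * u.2) = D * (s * u.2) := by
    unfold tdet
    simp only
    rw [hD]
    ring
  rw [htd] at harea
  have habs : |D * (s * u.2)| = D * (D * v.2 / |d| * u.2) := by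
    rw [abs_mul, abs_mul, abs_of_pos hD0, abs_of_pos hu0, hs, abs_div, abs_of_pos (mul_pos hD0 hv0)]
  rw [habs] at harea
  have hduv : |d| ≤ u.2 + v.2 := by
    rw [hd]
    unfold dt
    calc |u.1 * v.2 - u.2 * v.1| ≤ |u.1 * v.2| + |u.2 * v.1| := abs_sub _ _
      _ = |u.1| * v.2 + u.2 * |v.1| := by
          rw [abs_mul, abs_mul, abs_of_pos hu0, abs_of_pos hv0]
      _ ≤ 1 * v.2 + u.2 * 1 := by gcongr
      _ = u.2 + v.2 := by ring
  -- lower bound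
  have hlow : θ / 2 ≤ v.2 / |d| * u.2 := by
    rw [div_mul_eq_mul_div, le_div_iff₀ hdpos]
    calc θ / 2 * |d| ≤ θ / 2 * (u.2 + v.2) := by gcongr
      _ ≤ v.2 * u.2 := by
          have g1 : θ * u.2 ≤ v.2 * u.2 := mul_le_mul_of_nonneg_right hv2.le hu0.le
          have g2 : θ * v.2 ≤ u.2 * v.2 := mul_le_mul_of_nonneg_right hu2.le hv0.le
          linarith
  have hlow2 : D ^ 2 * (θ / 2) ≤ D * (D * v.2 / |d| * u.2) := by
    have e : D * (D * v.2 / |d| * u.2) = D ^ 2 * (v.2 / |d| * u.2) := by ring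
    rw [e]
    gcongr
  have hrD : r / D ≤ 10 ^ 5 := by
    rw [div_le_iff₀ hD0]
    rw [div_le_iff₀ (by norm_num)] at hlt
    linarith
  have hrD5 : (r / D) ^ 5 ≤ (10 ^ 5) ^ 5 := by
    gcongr
  have hup : 2 * 10 ^ 8 * (r / D) ^ 5 * κ ≤ 2 * 10 ^ 8 * (10 ^ 5) ^ 5 * κ := by
    gcongr
  have hmain : D ^ 2 * (θ / 2) / 2 ≤ 2 * 10 ^ 8 * (10 ^ 5) ^ 5 * κ := by linarith
  rw [hθκ] at hmain
  have hε2 : ε ^ 2 ≤ (1 / 10 ^ 30) ^ 2 := by gcongr
  have h5 : D ^ 2 / 4 ≤ 2 * 10 ^ 8 * (10 ^ 5) ^ 5 * (4000 * (1 / 10 ^ 30) ^ 2 * r ^ 2) := by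
    have h6 : θ * (D ^ 2 / 4) ≤ θ * (2 * 10 ^ 8 * (10 ^ 5) ^ 5 * (4000 * ε ^ 2 * r ^ 2)) := by
      linarith
    have h7 := le_of_mul_le_mul_left h6 hθ0
    calc D ^ 2 / 4 ≤ 2 * 10 ^ 8 * (10 ^ 5) ^ 5 * (4000 * ε ^ 2 * r ^ 2) := h7
      _ ≤ _ := by gcongr
  have h8 : (r / 10 ^ 5) ^ 2 ≤ D ^ 2 := by gcongr
  have hr2 : 0 < r ^ 2 := by positivity
  have h9 : (r / 10 ^ 5) ^ 2 = r ^ 2 / 10 ^ 10 := by ring
  rw [h9] at h8
  norm_num at h5 h8
  linarith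

end Pool.Agent.BI
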