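import Pool.Agent.BI.C5

set_option autoImplicit false

open MeasureTheory Set
open scoped ENNReal

namespace Pool.Agent.BI

/-- [BI-D2] The chord `k` crossing `j` near `t`, in the frame of `j`, with the direction normalised upwards.
PROOF. Frame of `j`; `k' = relRoom j k`, `k'.u = (dp j.u k.u, dt j.u k.u)`; let `u = ± k'.u` with `u.2 = |dt j.u k.u|`, which is
`> θ₀ = κ / (4000 ε² r²)` by `dichotomy` (`Cross` excludes `Al`; `4 pz ≤ 8 pz`). With `τ` from `Cross`,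
`Q = k'.ax τ = (q₁, q₂)`, `|q₁ - t|, |q₂| ≤ 4 p`, `p = pz κ ε r` (`abs_fi_sub_le`/`d2_fr`). Put `x = q₁ - q₂ u.1 / u.2`;
`|x - t| ≤ 4 p + 4 p / θ₀ ≤ 8 p / θ₀ = 8 * 4000 ε r / 10 ^ 5 ≤ ε r`. `(x + s u.1, s u.2) = Q + (s - q₂ / u.2) u` is the point of the axis
of `k'` with parameter `τ ± (s - q₂ / u.2)`, of absolute value
`≤ k.r / 8 + 2 r / 5 + ε r ≤ k.r` (`r ≤ 2 k.r`) if `|s| ≤ 2 r / 5`; so it is in `inF j S`. -/
theorem cross_std {S : Set (ℝ × ℝ)} {κ ε : ℝ} {j k : Room} (hS : TriConn S) (hκ : 0 < κ)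
    (hε : 0 < ε) (hε1 : ε ≤ 1 / 10 ^ 30) (hj : DRoom S κ ε j) (hku : UV k.u)
    (hk : ∀ t, |t| ≤ k.r → k.ax t ∈ S) {t : ℝ} (ht : |t| ≤ j.r / 7) (hc : Cross κ ε j k t) :
    κ / (4000 * ε ^ 2 * j.r ^ 2) < |dt j.u k.u| ∧
    ∃ x : ℝ, |x - t| ≤ ε * j.r ∧ ∃ u : ℝ × ℝ, UV u ∧ (u = rel j.u k.u ∨ u = -rel j.u k.u) ∧
      u.2 = |dt j.u k.u| ∧ ∀ s, |s| ≤ 2 * j.r / 5 → (x + s * u.1, s * u.2) ∈ inF j S := by
  obtain ⟨hrk, hnal, τ, hτ, hdist⟩ := hc
  have H := hj.std hS hκ hε hε1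
  obtain ⟨hr, -, hκr, -⟩ := H.facts
  have hju : UV j.u := hj.uv
  obtain ⟨r, hrr⟩ : ∃ r, r = j.r := ⟨_, rfl⟩
  rw [← hrr] at hr hκr ht hdist hrk ⊢
  have hkr : 0 < k.r := by linarith
  obtain ⟨p, hp⟩ : ∃ p, p = pz κ ε r := ⟨_, rfl⟩
  rw [← hp] at hdist
  have hp' : p = κ / (10 ^ 5 * ε * r) := hp
  have hp0 : 0 < p := by rw [hp']; positivity
  have hbig : κ / (4000 * ε ^ 2 * r ^ 2) < |dt j.u k.u| := by
    have hd8 : d2 (j.ax t) (k.ax τ) ≤ (8 * pz κ ε j.r) ^ 2 := by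
      rw [← hrr, ← hp]
      refine hdist.trans ?_
      gcongr
      norm_num
    have h1 := dichotomy hS hκ hε hε1 hj hku hk (by rw [← hrr]; exact hrk) (t := t) (τ := τ)
      (by rw [← hrr]; linarith) (by linarith) hd8
    rcases h1 with h1 | h1
    · rw [← hrr] at h1
      exact h1
    · exact absurd h1.1 hnal
  refine ⟨hbig, ?_⟩
  -- the foot
  obtain ⟨Q, hQ⟩ : ∃ Q, Q = fi j.c j.u (k.ax τ) := ⟨_, rfl⟩
  have hQt := abs_fi_sub_le (c := j.c) hju (by positivity) hdist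
  have hjt : fi j.c j.u (j.ax t) = (t, 0) := by
    unfold Room.ax
    exact fi_fr hju _
  rw [hjt, ← hQ] at hQt
  obtain ⟨hQ1, hQ2⟩ := hQt
  simp only [zero_sub, abs_neg] at hQ1 hQ2
  -- the direction
  obtain ⟨w, hw⟩ : ∃ w, w = rel j.u k.u := ⟨_, rfl⟩
  have hwu : UV w := by rw [hw]; exact UV_rel hju hku
  have hw2 : w.2 = dt j.u k.u := by rw [hw]; rfl
  obtain ⟨σ, hσ, hσ2⟩ : ∃ σ : ℝ, (σ = 1 ∨ σ = -1) ∧ σ * dt j.u k.u = |dt j.u k.u| := by
    rcases le_or_gt 0 (dt j.u k.u) with h | h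
    · exact ⟨1, Or.inl rfl, by rw [abs_of_nonneg h, one_mul]⟩
    · exact ⟨-1, Or.inr rfl, by rw [abs_of_neg h]; ring⟩
  have hσσ : σ * σ = 1 := by rcases hσ with h | h <;> rw [h] <;> norm_num
  have hσabs : |σ| = 1 := by rcases hσ with h | h <;> rw [h] <;> norm_num
  obtain ⟨b, hb⟩ : ∃ b, b = |dt j.u k.u| := ⟨_, rfl⟩
  rw [← hb] at hbig hσ2
  obtain ⟨θ, hθ⟩ : ∃ θ, θ = κ / (4000 * ε ^ 2 * r ^ 2) := ⟨_, rfl⟩
  rw [← hθ] at hbig
  have hθ0 : 0 < θ := by rw [hθ]; positivity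
  have hb0 : 0 < b := hθ0.trans hbig
  have hb1 : b ≤ 1 := by rw [hb]; exact abs_dt_le_one hju hku
  have hw1 : |w.1| ≤ 1 := by
    rw [← sq_le_one_iff_abs_le_one]
    unfold UV at hwu
    linarith [sq_nonneg w.2]
  -- `4 p / b ≤ ε r / 4`
  have hpb : 4 * p / b ≤ ε * r / 4 := by
    rw [div_le_iff₀ hb0]
    have h1 : 4 * p ≤ ε * r / 4 * θ := by
      have e : ε * r / 4 * θ = 10 ^ 5 / 16000 * p := by
        rw [hθ, hp']
        field_simp
        norm_num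
      rw [e]
      linarith
    have h2 : ε * r / 4 * θ ≤ ε * r / 4 * b := by gcongr
    exact h1.trans h2
  have hQ2b : |Q.2 / b| ≤ ε * r / 4 := by
    rw [abs_div, abs_of_pos hb0]
    exact (div_le_div_of_nonneg_right hQ2 hb0.le).trans hpb
  have h4p : 4 * p ≤ ε * r / 4 := by
    refine le_trans ?_ hpb
    rw [le_div_iff₀ hb0]
    have : 4 * p * b ≤ 4 * p * 1 := by gcongr
    linarith
  have hε' : ε ≤ 1 / 100 := hε1.trans (by norm_num)
  refine ⟨Q.1 - Q.2 / b * (σ * w.1), ?_, (σ * w.1, σ * w.2), ?_, ?_, ?_, ?_⟩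
  · have e : Q.1 - Q.2 / b * (σ * w.1) - t = -(t - Q.1) - Q.2 / b * (σ * w.1) := by ring
    rw [e]
    calc |-(t - Q.1) - Q.2 / b * (σ * w.1)| ≤ |-(t - Q.1)| + |Q.2 / b * (σ * w.1)| := abs_sub _ _
      _ = |t - Q.1| + |Q.2 / b| * (|σ| * |w.1|) := by rw [abs_neg, abs_mul, abs_mul]
      _ ≤ ε * r / 4 + ε * r / 4 * (1 * 1) := by
          rw [hσabs]
          gcongr
          exact hQ1.trans h4p
      _ ≤ ε * r := by
          have : 0 < ε * r := by positivity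
          linarith
  · unfold UV at hwu ⊢
    simp only
    linear_combination hwu + (w.1 ^ 2 + w.2 ^ 2) * hσσ
  · rcases hσ with h | h
    · left
      rw [h, ← hw]
      simp
    · right
      rw [h, ← hw]
      ext <;> simp
  · simp only
    rw [hw2, hσ2, hb]
  · intro s hs
    simp only
    have hσw2 : σ * w.2 = b := by rw [hw2, hσ2]
    obtain ⟨m, hm⟩ : ∃ m, m = s - Q.2 / b := ⟨_, rfl⟩
    have hax : (relRoom j k).ax τ = Q := by
      have h1 := ax_rel (j := j) (k := k) hju τ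
      rw [hQ, ← h1, fi_fr hju]
    have hpt : (Q.1 - Q.2 / b * (σ * w.1) + s * (σ * w.1), s * (σ * w.2)) =
        (relRoom j k).ax (τ + σ * m) := by
      have e0 : (relRoom j k).u = w := by rw [hw]; rfl
      have e1 := congrArg Prod.fst hax
      have e2 := congrArg Prod.snd hax
      unfold Room.ax fr at e1 e2 ⊢
      rw [e0] at e1 e2 ⊢
      simp only at e1 e2 ⊢
      ext
      · simp only
        rw [← e1, hm]
        ring
      · simp only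
        have e3 : (relRoom j k).c.2 + (τ + σ * m) * w.2 + 0 * w.1 = Q.2 + m * (σ * w.2) := by
          rw [← e2]
          ring
        rw [e3, hσw2, hm]
        field_simp
        ring
    rw [hpt]
    show fr j.c j.u ((relRoom j k).ax (τ + σ * m)) ∈ S
    rw [ax_rel hju]
    apply hk
    have h1 : |m| ≤ 2 * r / 5 + ε * r / 4 := by
      rw [hm]
      exact (abs_sub _ _).trans (add_le_add hs hQ2b)
    have h2 : ε * r ≤ 1 / 100 * r := by gcongr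
    calc |τ + σ * m| ≤ |τ| + |σ * m| := abs_add_le _ _
      _ = |τ| + |m| := by rw [abs_mul, hσabs, one_mul]
      _ ≤ k.r / 8 + (2 * r / 5 + ε * r / 4) := add_le_add hτ h1
      _ ≤ k.r := by linarith

end Pool.Agent.BI
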