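import Pool.Agent.BI.D1
import Pool.Agent.BI.D2

set_option autoImplicit false

open MeasureTheory Set
open scoped ENNReal

namespace Pool.Agent.BI

theorem d3_abs_dt {u v a b : ℝ × ℝ} (hu : u = a ∨ u = -a) (hv : v = b ∨ v = -b) :
    |dt u v| = |dt a b| := by
  rcases hu with rfl | rfl <;> rcases hv with rfl | rfl
  · rfl
  · rw [← abs_neg]
    congr 1
    unfold dt
    simp only [Prod.fst_neg, Prod.snd_neg]
    ring
  · rw [← abs_neg]
    congr 1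
    unfold dt
    simp only [Prod.fst_neg, Prod.snd_neg]
    ring
  · congr 1
    unfold dt
    simp only [Prod.fst_neg, Prod.snd_neg]
    ring

/-- [BI-D3] Cone lemma, two places.
PROOF. `cross_std` for `k` at `t` and `k'` at `t'` gives `x, u` and `x', v`; `|x - x'| ∈ [r / 10 ^ 5, r / 399]`
(`ε ≤ 10 ^ -30`), `|x|, |x'| ≤ r / 6`. If `x < x'` apply `StdD.cone` (else exchange the two):
`|dt u v| (2 r / 5) ≤ (r / 399) max s₁ s₂`, `s₁ = |dt j.u k.u|`, `s₂ = |dt j.u k'.u|`, and `|dt u v| = |dt k.u k'.u| =: D`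
(`dt_rel`, signs). So `D ≤ (1/159) max s₁ s₂`; `max s₁ s₂ ≤ s₁ + D` (`abs_dt_triangle`), so
`D ≤ (1/158) s₁ ≤ s₁ / 150`; the same with `s₂`. -/
theorem cone_two {S : Set (ℝ × ℝ)} {κ ε : ℝ} {j k k' : Room} (hS : TriConn S) (hκ : 0 < κ)
    (hε : 0 < ε) (hε1 : ε ≤ 1 / 10 ^ 30) (hj : DRoom S κ ε j) (hku : UV k.u)
    (hk : ∀ t, |t| ≤ k.r → k.ax t ∈ S) (hku' : UV k'.u) (hk' : ∀ t, |t| ≤ k'.r → k'.ax t ∈ S)
    {t t' : ℝ} (ht : |t| ≤ j.r / 7) (ht' : |t'| ≤ j.r / 7) (h1 : j.r / 80000 ≤ |t - t'|)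
    (h2 : |t - t'| ≤ j.r / 400) (hc : Cross κ ε j k t) (hc' : Cross κ ε j k' t') :
    |dt k.u k'.u| ≤ 1 / 150 * |dt j.u k.u| ∧ |dt k.u k'.u| ≤ 1 / 150 * |dt j.u k'.u| := by
  have H := hj.std hS hκ hε hε1
  obtain ⟨hr, -⟩ := H.facts
  have hju : UV j.u := hj.uv
  obtain ⟨hb, x, hx, u, hu, hur, hu2, hcu⟩ := cross_std hS hκ hε hε1 hj hku hk ht hc
  obtain ⟨hb', x', hx', v, hv, hvr, hv2, hcv⟩ := cross_std hS hκ hε hε1 hj hku' hk' ht' hc'
  obtain ⟨r, hrr⟩ : ∃ r, r = j.r := ⟨_, rfl⟩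
  rw [← hrr] at hr ht ht' h1 h2 hx hx' hb hb' hcu hcv H
  have hεr : ε * r ≤ 1 / 10 ^ 30 * r := by gcongr
  have hD : |dt u v| = |dt k.u k'.u| := by
    rw [d3_abs_dt hur hvr, dt_rel hju]
  obtain ⟨D, hDD⟩ : ∃ D, D = |dt k.u k'.u| := ⟨_, rfl⟩
  obtain ⟨s₁, hs₁⟩ : ∃ s, s = |dt j.u k.u| := ⟨_, rfl⟩
  obtain ⟨s₂, hs₂⟩ : ∃ s, s = |dt j.u k'.u| := ⟨_, rfl⟩
  rw [← hDD, ← hs₁, ← hs₂]
  have hxa : |x| ≤ r / 6 := by
    have := abs_sub_abs_le_abs_sub x t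
    linarith
  have hxa' : |x'| ≤ r / 6 := by
    have := abs_sub_abs_le_abs_sub x' t'
    linarith
  have hlow : r / 10 ^ 5 ≤ |x - x'| := by
    have e : t - t' = (x - x') - (x - t) + (x' - t') := by ring
    have h3 : |t - t'| ≤ |x - x'| + |x - t| + |x' - t'| := by
      rw [e]
      exact (abs_add_le _ _).trans (add_le_add (abs_sub _ _) le_rfl)
    linarith
  have hupp : |x - x'| ≤ r / 399 := by
    have e : x - x' = (t - t') + (x - t) - (x' - t') := by ring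
    have h3 : |x - x'| ≤ |t - t'| + |x - t| + |x' - t'| := by
      rw [e]
      exact (abs_sub _ _).trans (add_le_add (abs_add_le _ _) le_rfl)
    linarith
  have hcone : D * (2 * r / 5) ≤ |x - x'| * max s₁ s₂ := by
    rcases le_or_gt x x' with hle | hlt
    · have h3 : |x - x'| = x' - x := by
        rw [abs_sub_comm, abs_of_nonneg (by linarith)]
      rw [h3] at hlow ⊢
      have := H.cone hxa hxa' hlow hu hv (by rw [hu2]; exact hb) (by rw [hv2]; exact hb') hcu hcv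
      rw [hD, hu2, hv2, ← hDD, ← hs₁, ← hs₂] at this
      exact this
    · have h3 : |x - x'| = x - x' := abs_of_pos (by linarith)
      rw [h3] at hlow ⊢
      have := H.cone hxa' hxa hlow hv hu (by rw [hv2]; exact hb') (by rw [hu2]; exact hb) hcv hcu
      rw [abs_dt_comm v u, hD, hu2, hv2, ← hDD, ← hs₁, ← hs₂, max_comm] at this
      exact this
  have hs10 : 0 ≤ s₁ := by rw [hs₁]; exact abs_nonneg _
  have hs20 : 0 ≤ s₂ := by rw [hs₂]; exact abs_nonneg _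
  have hD0 : 0 ≤ D := by rw [hDD]; exact abs_nonneg _
  have hmax0 : 0 ≤ max s₁ s₂ := hs10.trans (le_max_left _ _)
  have hcone2 : D * (2 * r / 5) ≤ r / 399 * max s₁ s₂ := hcone.trans (by gcongr)
  have hcone3 : D * (2 / 5) ≤ 1 / 399 * max s₁ s₂ := by
    have h3 : r * (D * (2 / 5)) ≤ r * (1 / 399 * max s₁ s₂) := by linarith
    exact le_of_mul_le_mul_left h3 hr
  have ht1 : s₂ ≤ s₁ + D := by
    rw [hs₁, hs₂, hDD]
    exact abs_dt_triangle hju hku hku'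
  have ht2 : s₁ ≤ s₂ + D := by
    rw [hs₁, hs₂, hDD, abs_dt_comm k.u k'.u]
    exact abs_dt_triangle hju hku' hku
  have hm1 : max s₁ s₂ ≤ s₁ + D := max_le (by linarith) ht1
  have hm2 : max s₁ s₂ ≤ s₂ + D := max_le ht2 (by linarith)
  constructor <;> linarith

/-- [BI-D3] Cone lemma: two chords `k, k'` crossing `j` at `t` when `j` is also crossed at a `t'` nearby are
almost parallel compared with their angle with `j`.
PROOF. `cone_two` for `(k, k'')` and `(k', k'')`; with `D = |dt k.u k'.u|`, `D ≤ |dt k.u k''.u| + |dt k''.u k'.u| ≤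
(s + s') / 150`, `s = |dt j.u k.u|`, `s' = |dt j.u k'.u| ≤ s + D` (`abs_dt_triangle`, `abs_dt_comm`), so
`D (149 / 150) ≤ 2 s / 150`, `D ≤ s / 70`. Symmetric in `k, k'`. -/
theorem cone {S : Set (ℝ × ℝ)} {κ ε : ℝ} {j k k' k'' : Room} (hS : TriConn S) (hκ : 0 < κ)
    (hε : 0 < ε) (hε1 : ε ≤ 1 / 10 ^ 30) (hj : DRoom S κ ε j) (hku : UV k.u)
    (hk : ∀ t, |t| ≤ k.r → k.ax t ∈ S) (hku' : UV k'.u) (hk' : ∀ t, |t| ≤ k'.r → k'.ax t ∈ S)
    (hku'' : UV k''.u) (hk'' : ∀ t, |t| ≤ k''.r → k''.ax t ∈ S)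
    {t t' : ℝ} (ht : |t| ≤ j.r / 7) (ht' : |t'| ≤ j.r / 7) (h1 : j.r / 80000 ≤ |t - t'|)
    (h2 : |t - t'| ≤ j.r / 400) (hc : Cross κ ε j k t) (hc' : Cross κ ε j k' t)
    (hc'' : Cross κ ε j k'' t') :
    |dt k.u k'.u| ≤ 1 / 70 * |dt j.u k.u| ∧ |dt k.u k'.u| ≤ 1 / 70 * |dt j.u k'.u| := by
  have hju : UV j.u := hj.uv
  obtain ⟨a1, -⟩ := cone_two hS hκ hε hε1 hj hku hk hku'' hk'' ht ht' h1 h2 hc hc''
  obtain ⟨a2, -⟩ := cone_two hS hκ hε hε1 hj hku' hk' hku'' hk'' ht ht' h1 h2 hc' hc''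
  have h3 := abs_dt_triangle hku hku'' hku'
  rw [abs_dt_comm k''.u k'.u] at h3
  have ht1 : |dt j.u k'.u| ≤ |dt j.u k.u| + |dt k.u k'.u| := abs_dt_triangle hju hku hku'
  have ht2 : |dt j.u k.u| ≤ |dt j.u k'.u| + |dt k.u k'.u| := by
    rw [abs_dt_comm k.u k'.u]
    exact abs_dt_triangle hju hku' hku
  have h0 := abs_nonneg (dt j.u k.u)
  have h0' := abs_nonneg (dt j.u k'.u)
  constructor <;> linarith

end Pool.Agent.BI
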