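import Pool.Agent.BI.Basic

set_option autoImplicit false

open MeasureTheory Set
open scoped ENNReal

namespace Pool.Agent.BI

/-- [BI-E1] PROOF. Unfold `Fine`: there is `X ∈ (0, Xm]` with `P t (64 / X²)` and, say, no `t' ∈ [t + 0.6 X, t + 0.9 X]` with
`P t' (4 / X²)`. Take `ρ = 3 X / 20`, centre `x = t + 3/4 X`: `20/3 ρ = X`, `[x - ρ, x + ρ] = [t + 0.6 X, t + 0.9 X]`,
`|x - t| = 3/4 X = 5 ρ`. Likewise on the left. -/
theorem exists_heavy {P : ℝ → ℝ → Prop} {Xm t : ℝ} (h : ¬ Fine P Xm t) :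
    ∃ x ρ : ℝ, Heavy P Xm x ρ ∧ |x - t| ≤ 5 * ρ ∧ P t (64 / (20 / 3 * ρ) ^ 2) := by
  have h' : ∃ X : ℝ, 0 < X ∧ X ≤ Xm ∧ P t (64 / X ^ 2) ∧
      ¬ ((∃ t' ∈ Icc (t + 3 / 5 * X) (t + 9 / 10 * X), P t' (4 / X ^ 2)) ∧
        (∃ t' ∈ Icc (t - 9 / 10 * X) (t - 3 / 5 * X), P t' (4 / X ^ 2))) := by
    by_contra hc
    apply h
    intro X h1 h2 h3
    by_contra h4
    exact hc ⟨X, h1, h2, h3, h4⟩
  obtain ⟨X, hX0, hXm, hPt, hn⟩ := h'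
  have e : 20 / 3 * (3 * X / 20) = X := by ring
  rcases not_and_or.1 hn with hA | hB
  · refine ⟨t + 3 / 4 * X, 3 * X / 20, ⟨by positivity, by rw [e]; exact hXm, ?_⟩, ?_, ?_⟩
    · intro t' ht' hc
      rw [e] at hc
      exact hA ⟨t', ⟨by linarith [ht'.1], by linarith [ht'.2]⟩, hc⟩
    · rw [abs_le]
      constructor <;> linarith
    · rw [e]
      exact hPt
  · refine ⟨t - 3 / 4 * X, 3 * X / 20, ⟨by positivity, by rw [e]; exact hXm, ?_⟩, ?_, ?_⟩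
    · intro t' ht' hc
      rw [e] at hc
      exact hB ⟨t', ⟨by linarith [ht'.1], by linarith [ht'.2]⟩, hc⟩
    · rw [abs_le]
      constructor <;> linarith
    · rw [e]
      exact hPt

/-- [BI-E1] A near-maximal heavy interval near `t` consists of fine points.
PROOF. Let `a ∈ [x - ρ, x + ρ]` be not fine. `exists_heavy` gives `x', ρ'` heavy with `|x' - a| ≤ 5 ρ'` and
`P a (64 / X'²)`, `X' = 20/3 ρ'`. Let `X = 20/3 ρ`, so `¬ P a (4 / X²)`. If `64 / X'² ≥ 4 / X²` then `P a (4 / X²)` by `hP`, a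
contradiction; so `64 / X'² < 4 / X²`, i.e. `X' > 4 X`, `ρ' > 4 ρ`. Then `|x' - t| ≤ |x' - a| + |a - x| + |x - t| ≤ 5 ρ' + ρ + 7 ρ ≤ 7 ρ'`, so by
`hmax` `ρ' ≤ 2 ρ`, a contradiction. -/
theorem fine_of_max {P : ℝ → ℝ → Prop} (hP : ∀ t a b, a ≤ b → P t b → P t a) {Xm t x ρ : ℝ}
    (hh : Heavy P Xm x ρ) (hx : |x - t| ≤ 7 * ρ)
    (hmax : ∀ x' ρ', Heavy P Xm x' ρ' → |x' - t| ≤ 7 * ρ' → ρ' ≤ 2 * ρ) :
    ∀ a ∈ Icc (x - ρ) (x + ρ), Fine P Xm a := by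
  intro a ha
  by_contra hnf
  obtain ⟨x', ρ', hh', hxa, hPa⟩ := exists_heavy hnf
  have hρ := hh.1
  have hρ' := hh'.1
  have hnP := hh.2.2 a ha
  have hlt : 64 / (20 / 3 * ρ') ^ 2 < 4 / (20 / 3 * ρ) ^ 2 := by
    by_contra hc
    exact hnP (hP a _ _ (not_lt.1 hc) hPa)
  rw [div_lt_div_iff₀ (by positivity) (by positivity)] at hlt
  have h4 : 4 * ρ < ρ' := by
    by_contra hc
    push Not at hc
    have : ρ' ^ 2 ≤ (4 * ρ) ^ 2 := pow_le_pow_left₀ hρ'.le hc 2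
    nlinarith
  have h5 : |x' - t| ≤ 7 * ρ' := by
    have h6 : |a - x| ≤ ρ := by
      rw [abs_le]
      constructor <;> linarith [ha.1, ha.2]
    have h7 : |x' - t| ≤ |x' - a| + |a - x| + |x - t| := by
      calc |x' - t| = |(x' - a) + (a - x) + (x - t)| := by ring_nf
        _ ≤ _ := abs_add_three _ _ _
    linarith
  have := hmax x' ρ' hh' h5
  linarith

/-- [BI-E1] PROOF. The set of all `ρ'` with `Heavy P Xm x' ρ'`, `|x' - t| ≤ 7 ρ'` for some `x'` is non-empty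
(`exists_heavy`) and bounded by `3 Xm / 20`; let `M > 0` be its supremum and take an element `ρ > M / 2`
(`exists_lt_of_lt_csSup`); `fine_of_max`. -/
theorem exists_fine_interval {P : ℝ → ℝ → Prop} (hP : ∀ t a b, a ≤ b → P t b → P t a)
    {Xm t : ℝ} (h : ¬ Fine P Xm t) :
    ∃ x ρ : ℝ, 0 < ρ ∧ 20 / 3 * ρ ≤ Xm ∧ |x - t| ≤ 7 * ρ ∧ ∀ a ∈ Icc (x - ρ) (x + ρ), Fine P Xm a := by
  obtain ⟨x₀, ρ₀, hh₀, hx₀, -⟩ := exists_heavy h
  have hρ₀ := hh₀.1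
  set T : Set ℝ := {ρ' | ∃ x', Heavy P Xm x' ρ' ∧ |x' - t| ≤ 7 * ρ'} with hT
  have hmem : ρ₀ ∈ T := ⟨x₀, hh₀, by linarith⟩
  have hbdd : BddAbove T := by
    refine ⟨Xm, ?_⟩
    rintro ρ' ⟨x', hh', -⟩
    have h1 := hh'.1
    have h2 := hh'.2.1
    linarith
  have hsup : ρ₀ ≤ sSup T := le_csSup hbdd hmem
  obtain ⟨ρ, ⟨x, hh, hx⟩, hlt⟩ := exists_lt_of_lt_csSup (⟨ρ₀, hmem⟩ : T.Nonempty)
    (show sSup T / 2 < sSup T by linarith)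
  refine ⟨x, ρ, hh.1, hh.2.1, hx, fine_of_max hP hh hx ?_⟩
  intro x' ρ' hh' hx'
  have : ρ' ≤ sSup T := le_csSup hbdd ⟨x', hh', hx'⟩
  linarith

end Pool.Agent.BI
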