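import Pool.Agent.BI.E1

set_option autoImplicit false

open MeasureTheory Set
open scoped ENNReal

namespace Pool.Agent.BI

/-- [BI-E2] Fine points have a fixed proportion.
PROOF. `T = Icc (-l) l`. Let `N` be the set of `t ∈ T` which are not fine; choose for each `t ∈ N` `x t, ρ t` by
`exists_fine_interval`. Vitali (`Vitali.exists_disjoint_subfamily_covering_enlargement_closedBall` with `τ = 5`, index set
`N`, radii `≤ 3 Xm / 20`): there is `u ⊆ N` with the balls `B_b = closedBall (x b) (ρ b)` disjoint and each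
`closedBall (x a) (ρ a) ⊆ closedBall (x b) (5 ρ b)` for some `b ∈ u`; in `ℝ` the inclusion means `|x a - x b| + ρ a ≤ 5 ρ b`. So
`|a - x b| ≤ 7 ρ a + |x a - x b| ≤ 6 ρ a + 5 ρ b ≤ 35 ρ b`: `N ⊆ ⋃_{b ∈ u} closedBall (x b) (35 ρ b) =: U`. `u` is countable (disjoint
sets with non-empty interior: `Set.PairwiseDisjoint.countable_of_nonempty_interior`). Put
`G = (T \ U) ∪ ⋃_{b ∈ u} B_b`; it is measurable, its points are fine, and
`2 l = volume T ≤ volume (T \ U) + volume U ≤ volume (T \ U) + 35 ∑ volume B_b ≤ 36 volume G` (`volume closedBall = 2 * radius`,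
disjointness: `measure_biUnion`). `B_b ⊆ [-(l + 2 Xm), l + 2 Xm]` because `|x b| ≤ |b| + 7 ρ b ≤ l + 21/20 Xm` and
`ρ b ≤ 3/20 Xm`. -/
theorem fine_measure {P : ℝ → ℝ → Prop} (hP : ∀ t a b, a ≤ b → P t b → P t a) {Xm l : ℝ}
    (hXm : 0 < Xm) (hl : 0 < l) :
    ∃ G : Set ℝ, MeasurableSet G ∧ G ⊆ Icc (-(l + 2 * Xm)) (l + 2 * Xm) ∧
      (∀ t ∈ G, Fine P Xm t) ∧ ENNReal.ofReal (2 * l) ≤ 36 * volume G := by
  classical
  have hex : ∀ t : ℝ, ∃ x ρ : ℝ, ¬ Fine P Xm t → 0 < ρ ∧ 20 / 3 * ρ ≤ Xm ∧ |x - t| ≤ 7 * ρ ∧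
      ∀ a ∈ Icc (x - ρ) (x + ρ), Fine P Xm a := by
    intro t
    by_cases h : Fine P Xm t
    · exact ⟨0, 0, fun h' => absurd h h'⟩
    · obtain ⟨x, ρ, hx⟩ := exists_fine_interval hP h
      exact ⟨x, ρ, fun _ => hx⟩
  choose x ρ hxρ using hex
  set N : Set ℝ := {t | t ∈ Icc (-l) l ∧ ¬ Fine P Xm t} with hN
  obtain ⟨u, huN, hdisj, hcov⟩ :=
    Vitali.exists_disjoint_subfamily_covering_enlargement_closedBall N x ρ (3 * Xm / 20)
      (fun a ha => by have := (hxρ a ha.2).2.1; linarith) 5 (by norm_num)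
  have hpos : ∀ b ∈ u, 0 < ρ b := fun b hb => (hxρ b (huN hb).2).1
  have hucount : u.Countable := by
    apply hdisj.countable_of_nonempty_interior
    intro b hb
    rw [interior_closedBall _ (hpos b hb).ne']
    exact ⟨x b, Metric.mem_ball_self (hpos b hb)⟩
  set U : Set ℝ := ⋃ b ∈ u, Metric.closedBall (x b) (35 * ρ b) with hU
  set B : Set ℝ := ⋃ b ∈ u, Metric.closedBall (x b) (ρ b) with hB
  have hUm : MeasurableSet U :=
    MeasurableSet.biUnion hucount fun b _ => Metric.isClosed_closedBall.measurableSet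
  have hBm : MeasurableSet B :=
    MeasurableSet.biUnion hucount fun b _ => Metric.isClosed_closedBall.measurableSet
  have hNU : N ⊆ U := by
    intro a ha
    obtain ⟨b, hb, hsub⟩ := hcov a ha
    obtain ⟨ha1, ha2, ha3, -⟩ := hxρ a ha.2
    have hb1 := hpos b hb
    have e1 : x a + ρ a ∈ Metric.closedBall (x b) (5 * ρ b) := by
      apply hsub
      rw [Metric.mem_closedBall, Real.dist_eq]
      rw [show x a + ρ a - x a = ρ a by ring, abs_of_pos ha1]
    have e2 : x a - ρ a ∈ Metric.closedBall (x b) (5 * ρ b) := by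
      apply hsub
      rw [Metric.mem_closedBall, Real.dist_eq]
      rw [show x a - ρ a - x a = -ρ a by ring, abs_neg, abs_of_pos ha1]
    rw [Metric.mem_closedBall, Real.dist_eq, abs_le] at e1 e2
    rw [hU, mem_iUnion₂]
    refine ⟨b, hb, ?_⟩
    rw [Metric.mem_closedBall, Real.dist_eq, abs_le]
    rw [abs_le] at ha3
    constructor <;> linarith [e1.1, e1.2, e2.1, e2.2, ha3.1, ha3.2]
  refine ⟨(Icc (-l) l \ U) ∪ B, (measurableSet_Icc.diff hUm).union hBm, ?_, ?_, ?_⟩
  · rintro t (ht | ht)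
    · constructor
      · linarith [ht.1.1]
      · linarith [ht.1.2]
    · rw [hB, mem_iUnion₂] at ht
      obtain ⟨b, hb, hbt⟩ := ht
      obtain ⟨hb1, hb2, hb3, -⟩ := hxρ b (huN hb).2
      rw [Metric.mem_closedBall, Real.dist_eq, abs_le] at hbt
      rw [abs_le] at hb3
      have hb4 := (huN hb).1
      constructor <;> linarith [hbt.1, hbt.2, hb3.1, hb3.2, hb4.1, hb4.2]
  · rintro t (ht | ht)
    · by_contra hcon
      exact ht.2 (hNU ⟨ht.1, hcon⟩)
    · rw [hB, mem_iUnion₂] at ht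
      obtain ⟨b, hb, hbt⟩ := ht
      obtain ⟨-, -, -, hb5⟩ := hxρ b (huN hb).2
      apply hb5
      rw [Metric.mem_closedBall, Real.dist_eq, abs_le] at hbt
      constructor <;> linarith [hbt.1, hbt.2]
  · have h1 : ENNReal.ofReal (2 * l) = volume (Icc (-l) l) := by
      rw [Real.volume_Icc]; congr 1; ring
    have h2 : volume (Icc (-l) l) ≤ volume (Icc (-l) l \ U) + volume U := by
      refine (measure_mono ?_).trans (measure_union_le _ _)
      intro t ht
      by_cases h : t ∈ U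
      · exact Or.inr h
      · exact Or.inl ⟨ht, h⟩
    have h3 : volume U ≤ 35 * volume B := by
      rw [hB, measure_biUnion hucount hdisj
        (fun b _ => Metric.isClosed_closedBall.measurableSet), ← ENNReal.tsum_mul_left]
      refine (measure_biUnion_le _ hucount _).trans ?_
      apply ENNReal.tsum_le_tsum
      intro b
      rw [Real.volume_closedBall, Real.volume_closedBall]
      rw [show (35 : ℝ≥0∞) = ENNReal.ofReal 35 by norm_num, ← ENNReal.ofReal_mul (by norm_num)]
      apply ENNReal.ofReal_le_ofReal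
      linarith
    have h4 : volume (Icc (-l) l \ U) ≤ volume ((Icc (-l) l \ U) ∪ B) :=
      measure_mono subset_union_left
    have h5 : volume B ≤ volume ((Icc (-l) l \ U) ∪ B) := measure_mono subset_union_right
    calc ENNReal.ofReal (2 * l) = volume (Icc (-l) l) := h1
      _ ≤ volume (Icc (-l) l \ U) + volume U := h2
      _ ≤ volume ((Icc (-l) l \ U) ∪ B) + 35 * volume ((Icc (-l) l \ U) ∪ B) :=
        add_le_add h4 (h3.trans (mul_le_mul_right h5 _))
      _ = 36 * volume ((Icc (-l) l \ U) ∪ B) := by ring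

end Pool.Agent.BI
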