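import Pool.Agent.BI.Basic

set_option autoImplicit false

open MeasureTheory Set
open scoped ENNReal

namespace Pool.Agent.BI

/-- [BI-E3] Isolated points of an arbitrary set, between the scales `d` and `D`.
PROOF. Let `N` be the set. Cover `[-l, l]` by the `n = ⌈2 l / D⌉` intervals `I_m = [-l + m D, -l + (m + 1) D]`, `m < n`. Two points of
`N ∩ I_m` have distance `≤ D`, and as both are in `X`, their distance is `< d` (otherwise the first is not in `N`). So
`N ∩ I_m` has diameter `≤ d`, and outer measure `≤ d` (`Real.volume_le_diam`). Sum: `≤ n d ≤ (2 l / D + 1) d`. -/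
theorem isolated_measure (X : Set ℝ) {l d D : ℝ} (hl : 0 < l) (hd : 0 < d) (hD : 0 < D) :
    volume {t | t ∈ X ∧ |t| ≤ l ∧ ∀ t' ∈ X, ¬ (d ≤ |t - t'| ∧ |t - t'| ≤ D)} ≤
      ENNReal.ofReal ((2 * l / D + 1) * d) := by
  set N : Set ℝ := {t | t ∈ X ∧ |t| ≤ l ∧ ∀ t' ∈ X, ¬ (d ≤ |t - t'| ∧ |t - t'| ≤ D)} with hN
  set n : ℕ := ⌈2 * l / D⌉₊ with hn
  have hpos : 0 < 2 * l / D := by positivity
  have hn1 : 2 * l / D ≤ n := Nat.le_ceil _
  have hn2 : (n : ℝ) < 2 * l / D + 1 := Nat.ceil_lt_add_one hpos.le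
  have hcov : N ⊆ ⋃ m ∈ Finset.range n, N ∩ Icc (-l + m * D) (-l + (m + 1) * D) := by
    intro t ht
    have h1 : -l ≤ t := (abs_le.1 ht.2.1).1
    have h2 : t ≤ l := (abs_le.1 ht.2.1).2
    simp only [mem_iUnion, Finset.mem_range, exists_prop]
    have hq0 : 0 ≤ (t + l) / D := div_nonneg (by linarith) hD.le
    have hn0 : 0 < n := Nat.ceil_pos.2 hpos
    by_cases hc : ⌊(t + l) / D⌋₊ < n
    · refine ⟨⌊(t + l) / D⌋₊, hc, ht, ?_, ?_⟩
      · have := Nat.floor_le hq0
        rw [le_div_iff₀ hD] at this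
        linarith
      · have := (Nat.lt_floor_add_one ((t + l) / D)).le
        rw [div_le_iff₀ hD] at this
        linarith
    · refine ⟨n - 1, by omega, ht, ?_, ?_⟩
      · have h3 : (n : ℝ) ≤ (t + l) / D := by
          have h4 : (n : ℝ) ≤ (⌊(t + l) / D⌋₊ : ℝ) := by exact_mod_cast not_lt.1 hc
          exact h4.trans (Nat.floor_le hq0)
        rw [le_div_iff₀ hD] at h3
        have h5 : ((n - 1 : ℕ) : ℝ) = n - 1 := by
          rw [Nat.cast_sub (by omega)]; simp
        rw [h5]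
        nlinarith
      · have h5 : ((n - 1 : ℕ) : ℝ) = n - 1 := by
          rw [Nat.cast_sub (by omega)]; simp
        rw [h5]
        rw [div_le_iff₀ hD] at hn1
        nlinarith
  have hpiece : ∀ m : ℕ, volume (N ∩ Icc (-l + m * D) (-l + (m + 1) * D)) ≤ ENNReal.ofReal d := by
    intro m
    refine (Real.volume_le_diam _).trans ?_
    apply Metric.ediam_le
    intro x hx y hy
    rw [edist_dist]
    apply ENNReal.ofReal_le_ofReal
    rw [Real.dist_eq]
    have h1 : |x - y| ≤ D := by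
      rw [abs_le]
      constructor <;> nlinarith [hx.2.1, hx.2.2, hy.2.1, hy.2.2]
    by_contra h2
    exact hx.1.2.2 y hy.1.1 ⟨(not_le.1 h2).le, h1⟩
  calc volume N ≤ volume (⋃ m ∈ Finset.range n, N ∩ Icc (-l + m * D) (-l + (m + 1) * D)) := measure_mono hcov
    _ ≤ ∑ m ∈ Finset.range n, volume (N ∩ Icc (-l + m * D) (-l + (m + 1) * D)) := measure_biUnion_finset_le _ _
    _ ≤ ∑ m ∈ Finset.range n, ENNReal.ofReal d := Finset.sum_le_sum fun m _ => hpiece m
    _ = ENNReal.ofReal (n * d) := by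
        rw [Finset.sum_const, Finset.card_range, nsmul_eq_mul, ENNReal.ofReal_mul (by positivity),
          ENNReal.ofReal_natCast]
    _ ≤ _ := by
        apply ENNReal.ofReal_le_ofReal
        nlinarith

end Pool.Agent.BI
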