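import Pool.Agent.BI.E2
import Pool.Agent.BI.E3

set_option autoImplicit false

open MeasureTheory Set
open scoped ENNReal

namespace Pool.Agent.BI

/-- [BI-E4] Good points: fine and not isolated.
PROOF. `fine_measure` with `l = r / 9`, `Xm`, gives `G₀ ⊆ [-(r/8), r/8]` (`r / 9 + 2 Xm ≤ r / 8`), fine, with
`2 r / 9 ≤ 36 volume G₀`. Let `N` be the set of `isolated_measure` for `X`, `l = r / 8`, `d = r / 80000`, `D = r / 400`:
`volume N ≤ (100 + 1) r / 80000`. `G = G₀ \ toMeasurable volume N`. `volume G ≥ r / 162 - 101 r / 80000 ≥ r / 300`. -/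
theorem good_measure {P : ℝ → ℝ → Prop} (hP : ∀ t a b, a ≤ b → P t b → P t a) (X : Set ℝ)
    {Xm r : ℝ} (hXm : 0 < Xm) (hr : 0 < r) (hXr : 144 * Xm ≤ r) :
    ∃ G : Set ℝ, MeasurableSet G ∧ G ⊆ Icc (-(r / 8)) (r / 8) ∧
      (∀ t ∈ G, Fine P Xm t ∧
        (t ∈ X → ∃ t' ∈ X, r / 80000 ≤ |t - t'| ∧ |t - t'| ≤ r / 400)) ∧
      ENNReal.ofReal (r / 300) ≤ volume G := by
  obtain ⟨G₀, hG₀m, hG₀s, hG₀f, hG₀v⟩ := fine_measure hP hXm (l := r / 9) (by positivity)
  set N : Set ℝ := {t | t ∈ X ∧ |t| ≤ r / 8 ∧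
    ∀ t' ∈ X, ¬ (r / 80000 ≤ |t - t'| ∧ |t - t'| ≤ r / 400)} with hN
  have hNv : volume N ≤ ENNReal.ofReal (101 * r / 80000) := by
    have h := isolated_measure X (l := r / 8) (d := r / 80000) (D := r / 400) (by positivity)
      (by positivity) (by positivity)
    have e : (2 * (r / 8) / (r / 400) + 1) * (r / 80000) = 101 * r / 80000 := by
      field_simp
      ring
    rw [e] at h
    exact h
  refine ⟨G₀ \ toMeasurable volume N, hG₀m.diff (measurableSet_toMeasurable _ _), ?_, ?_, ?_⟩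
  · intro t ht
    have h := hG₀s ht.1
    rw [mem_Icc] at h ⊢
    constructor <;> linarith [h.1, h.2]
  · intro t ht
    refine ⟨hG₀f t ht.1, fun htX => ?_⟩
    have h := hG₀s ht.1
    rw [mem_Icc] at h
    have habs : |t| ≤ r / 8 := abs_le.2 ⟨by linarith [h.1], by linarith [h.2]⟩
    have hnot : t ∉ N := fun hh => ht.2 (subset_toMeasurable _ _ hh)
    by_contra hc
    apply hnot
    refine ⟨htX, habs, fun t' ht' hh => hc ⟨t', ht', hh.1, hh.2⟩⟩
  · have h1 : volume G₀ ≤ volume (G₀ \ toMeasurable volume N) + volume (toMeasurable volume N) := by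
      refine (measure_mono ?_).trans (measure_union_le _ _)
      intro t ht
      by_cases h : t ∈ toMeasurable volume N
      · exact Or.inr h
      · exact Or.inl ⟨ht, h⟩
    rw [measure_toMeasurable] at h1
    have h2 : ENNReal.ofReal (r / 162) ≤ volume G₀ := by
      have e : ENNReal.ofReal (2 * (r / 9)) = 36 * ENNReal.ofReal (r / 162) := by
        have e36 : (36 : ℝ≥0∞) = ENNReal.ofReal 36 := by norm_num
        rw [e36, ← ENNReal.ofReal_mul (by norm_num)]
        congr 1
        ring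
      rw [e] at hG₀v
      exact (ENNReal.mul_le_mul_iff_right (by norm_num) (by norm_num)).1 hG₀v
    have h3 : ENNReal.ofReal (r / 162) ≤ volume (G₀ \ toMeasurable volume N) +
        ENNReal.ofReal (101 * r / 80000) := h2.trans (h1.trans (by gcongr))
    have h4 : ENNReal.ofReal (r / 300) + ENNReal.ofReal (101 * r / 80000) ≤
        ENNReal.ofReal (r / 162) := by
      rw [← ENNReal.ofReal_add (by positivity) (by positivity)]
      apply ENNReal.ofReal_le_ofReal
      linarith
    exact (ENNReal.add_le_add_iff_right ENNReal.ofReal_ne_top).1 (h4.trans h3)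

end Pool.Agent.BI
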