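import Pool.Agent.BI.A1

set_option autoImplicit false

open MeasureTheory Set
open scoped ENNReal

namespace Pool.Agent.BI

/-- [BI-F1] The wedge between the axis and the chord `y = m (x - x₀)` is closed by a steep rung on the right.
PROOF. The rung meets the chord at height `y₁ = m (x₁ - x₀) / (1 - m c / s)`, abscissa `x₂ = x₁ + (c / s) y₁`, so
`y₁ = m (x₂ - x₀)`. `|m c / s| ≤ 10 / 39`, `x₁ - x₀ ∈ [0.58 X, 0.92 X]`, so
`y₁ ≤ 1.24 m X ≤ 3/2 m X ≤ T s` (the point is on the rung, `τ = y₁ / s ≤ T`) and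
`x₂ - x₀ = y₁ / m ∈ [0.46 X, 1.24 X]`; more precisely `x₂ - x₀ ≥ (58/100) X * 39/49 ≥ 0.4616 X`, so `0.45 X ≤ x₂ ≤ 3/2 X`.
Triangle `O = (x₀, 0)`, `P = (x₁, 0)`, `Z = (x₂, y₁)`: sides on the axis, the rung, the chord. For `ω = (x, y)` as in the claim:
`tdet O P ω = (x₁ - x₀) y ≥ 0`; `tdet Z O ω = (x₂ - x₀)(m (x - x₀) - y) ≥ 0`;
`tdet P Z ω = (x₂ - x₁) y - y₁ (x - x₁) ≥ 0`: clear if `x₂ ≥ x₁` (`x ≤ 0.45 X < x₁`); if `x₂ < x₁` it is
`≥ - (x₁ - x₂) m (x - x₀) + m (x₂ - x₀)(x₁ - x) = m (x₁ - x₀)(x₂ - x) ≥ 0`. `tdet O P Z = (x₁ - x₀) y₁ > 0`. `tri_mem_det`. -/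
theorem wedge_right {S : Set (ℝ × ℝ)} (hS : TriConn S) {X m x₀ : ℝ} (hX : 0 < X) (hm : 0 < m)
    (hx0 : |x₀| ≤ X / 100) (hax : ∀ x, |x| ≤ X → (x, (0 : ℝ)) ∈ S)
    (hL : ∀ x, |x| ≤ 3 / 2 * X → (x, m * (x - x₀)) ∈ S) {x₁ c s T : ℝ}
    (hx1 : 59 / 100 * X ≤ x₁) (hx1' : x₁ ≤ 91 / 100 * X) (hcs : c ^ 2 + s ^ 2 = 1)
    (hs : 39 / 10 * m ≤ s) (hT : 3 / 2 * m * X ≤ T * s)
    (hR : ∀ τ, |τ| ≤ T → (x₁ + τ * c, τ * s) ∈ S) {x y : ℝ} (hx : x₀ ≤ x)
    (hx' : x ≤ 45 / 100 * X) (hy : 0 ≤ y) (hy' : y ≤ m * (x - x₀)) : (x, y) ∈ S := by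
  obtain ⟨hx0a, hx0b⟩ := abs_le.1 hx0
  have hs0 : 0 < s := by linarith
  have hc1 : |c| ≤ 1 := by
    rw [← sq_le_one_iff_abs_le_one]
    nlinarith [sq_nonneg s]
  obtain ⟨hca, hcb⟩ := abs_le.1 hc1
  set D : ℝ := s - m * c with hD
  have hmc1 : m * c ≤ m := by nlinarith
  have hmc2 : -m ≤ m * c := by nlinarith
  have hD1 : 29 / 39 * s ≤ D := by
    rw [hD]
    linarith
  have hD2 : D ≤ 49 / 39 * s := by
    rw [hD]
    linarith
  have hD0 : 0 < D := by linarith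
  set w : ℝ := x₁ - x₀ with hw
  have hw1 : 58 / 100 * X ≤ w := by linarith
  have hw2 : w ≤ 92 / 100 * X := by linarith
  have hw0 : 0 < w := by linarith
  set t : ℝ := m * w / D with ht
  have ht0 : 0 < t := by positivity
  have htD : t * D = m * w := by
    rw [ht]
    field_simp
  have htT : t ≤ T := by
    have h1 : t * s ≤ T * s := by
      have h2 : t * (29 / 39 * s) ≤ m * w := by
        rw [← htD]
        exact mul_le_mul_of_nonneg_left hD1 ht0.le
      have h3 : m * w ≤ m * (92 / 100 * X) := mul_le_mul_of_nonneg_left hw2 hm.le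
      have h4 : 0 < m * X := by positivity
      nlinarith
    exact le_of_mul_le_mul_right h1 hs0
  set x₂ : ℝ := x₁ + t * c with hx2
  have hx20 : (x₂ - x₀) * D = w * s := by
    have : x₂ - x₀ = w + t * c := by
      rw [hx2, hw]
      ring
    rw [this]
    have h1 : t * c * D = m * w * c := by
      rw [← htD]
      ring
    have h2 : (w + t * c) * D = w * D + t * c * D := by ring
    rw [h2, h1, hD]
    ring
  have hy1 : t * s = m * (x₂ - x₀) := by
    have h1 : (t * s) * D = (m * (x₂ - x₀)) * D := by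
      have e1 : (t * s) * D = (t * D) * s := by ring
      have e2 : (m * (x₂ - x₀)) * D = m * ((x₂ - x₀) * D) := by ring
      rw [e1, e2, htD, hx20]
      ring
    exact mul_right_cancel₀ hD0.ne' h1
  have hx2a : 4616 / 10000 * X ≤ x₂ - x₀ := by
    have h1 : 0 < x₂ - x₀ := by
      have : 0 < (x₂ - x₀) * D := by
        rw [hx20]
        positivity
      exact pos_of_mul_pos_left this hD0.le
    have h2 : w * s ≤ (x₂ - x₀) * (49 / 39 * s) := by
      rw [← hx20]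
      exact mul_le_mul_of_nonneg_left hD2 h1.le
    have h3 : 58 / 100 * X * s ≤ w * s := mul_le_mul_of_nonneg_right hw1 hs0.le
    have h4 : 58 / 100 * X * s ≤ (49 / 39 * (x₂ - x₀)) * s := by linarith
    have h5 := le_of_mul_le_mul_right h4 hs0
    linarith
  have hx2b : x₂ - x₀ ≤ 1238 / 1000 * X := by
    have h1 : 0 < x₂ - x₀ := by linarith
    have h2 : (x₂ - x₀) * (29 / 39 * s) ≤ w * s := by
      rw [← hx20]
      exact mul_le_mul_of_nonneg_left hD1 h1.le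
    have h3 : w * s ≤ 92 / 100 * X * s := mul_le_mul_of_nonneg_right hw2 hs0.le
    have h4 : (29 / 39 * (x₂ - x₀)) * s ≤ 92 / 100 * X * s := by linarith
    have h5 := le_of_mul_le_mul_right h4 hs0
    linarith
  have hx20' : 0 < x₂ - x₀ := by linarith
  refine tri_mem_det hS (A := (x₀, 0)) (B := (x₁, 0)) (C := (x₂, t * s)) ?_ ?_ ?_ ?_ ?_ ?_ ?_
  · rintro _ ⟨a, b, ha, hb, hab, rfl⟩
    have e : a • ((x₀, 0) : ℝ × ℝ) + b • ((x₁, 0) : ℝ × ℝ) = (a * x₀ + b * x₁, 0) := by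
      ext <;> simp
    rw [e]
    apply hax
    rw [abs_le]
    have hb' : b = 1 - a := by linarith
    subst hb'
    constructor <;> nlinarith
  · rintro _ ⟨a, b, ha, hb, hab, rfl⟩
    have e : a • ((x₁, 0) : ℝ × ℝ) + b • ((x₂, t * s) : ℝ × ℝ) = (x₁ + (b * t) * c, (b * t) * s) := by
      ext
      · simp only [Prod.smul_mk, smul_eq_mul, Prod.mk_add_mk]
        rw [hx2]
        have ha' : a = 1 - b := by linarith
        rw [ha']
        ring
      · simp only [Prod.smul_mk, smul_eq_mul, Prod.mk_add_mk]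
        ring
    rw [e]
    apply hR
    rw [abs_of_nonneg (by positivity)]
    have : b ≤ 1 := by linarith
    nlinarith
  · rintro _ ⟨a, b, ha, hb, hab, rfl⟩
    have e : a • ((x₂, t * s) : ℝ × ℝ) + b • ((x₀, 0) : ℝ × ℝ) =
        (a * x₂ + b * x₀, m * ((a * x₂ + b * x₀) - x₀)) := by
      ext
      · simp
      · simp only [Prod.smul_mk, smul_eq_mul, Prod.mk_add_mk]
        rw [hy1]
        have hb' : b = 1 - a := by linarith
        rw [hb']
        ring
    rw [e]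
    apply hL
    have hb' : b = 1 - a := by linarith
    subst hb'
    have e2 : a * x₂ + (1 - a) * x₀ = x₀ + a * (x₂ - x₀) := by ring
    rw [e2, abs_le]
    have h1 : 0 ≤ a * (x₂ - x₀) := by positivity
    have h2 : a * (x₂ - x₀) ≤ 1 * (x₂ - x₀) :=
      mul_le_mul_of_nonneg_right (by linarith) hx20'.le
    constructor <;> linarith
  · simp only [tdet]
    have : 0 < w * (t * s) := by positivity
    have e : (x₁ - x₀) * (t * s - 0) - (0 - 0) * (x₂ - x₀) = w * (t * s) := by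
      rw [hw]
      ring
    rw [e]
    exact this
  · simp only [tdet]
    have : 0 ≤ w * y := by positivity
    have e : (x₁ - x₀) * (y - 0) - (0 - 0) * (x - x₀) = w * y := by
      rw [hw]
      ring
    rw [e]
    exact this
  · simp only [tdet]
    have e : (x₂ - x₁) * (y - 0) - (t * s - 0) * (x - x₁) =
        (x₂ - x₁) * y + m * (x₂ - x₀) * (x₁ - x) := by
      rw [hy1]
      ring
    rw [e]
    have hxx1 : 0 < x₁ - x := by linarith
    rcases le_total x₁ x₂ with h | h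
    · have h1 : 0 ≤ (x₂ - x₁) * y := mul_nonneg (by linarith) hy
      have h2 : 0 ≤ m * (x₂ - x₀) * (x₁ - x) := by positivity
      linarith
    · have h1 : (x₁ - x₂) * y ≤ (x₁ - x₂) * (m * (x - x₀)) :=
        mul_le_mul_of_nonneg_left hy' (by linarith)
      have h2 : 0 ≤ m * w * (x₂ - x) := by
        have : 0 ≤ x₂ - x := by linarith
        positivity
      have h3 : (x₂ - x₁) * y + m * (x₂ - x₀) * (x₁ - x) =
          m * w * (x₂ - x) + ((x₁ - x₂) * (m * (x - x₀)) - (x₁ - x₂) * y) := by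
        rw [hw]
        ring
      rw [h3]
      linarith
  · simp only [tdet]
    have e : (x₀ - x₂) * (y - t * s) - (0 - t * s) * (x - x₂) =
        (x₂ - x₀) * (m * (x - x₀) - y) := by
      rw [hy1]
      ring
    rw [e]
    exact mul_nonneg hx20'.le (by linarith)

/-- [BI-F1] Looking into the wedge.
PROOF. A point of the segment is `(ξ, η) = (t x, (1 - t) β + t y)`, `t ∈ [0, 1]`; `0 ≤ ξ ≤ x ≤ 0.45 X`, `η ≥ 0`. If
`η ≤ m (ξ - x₀)` it is in `S` by `hW`. Otherwise `0 < η - m (ξ - x₀) = (1 - t)(β + m x₀) + t (y - m (x - x₀)) ≤ β ≤ H`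
because `m x₀ ≤ 0` and `y - m (x - x₀) ≤ m x / 2 - m x + m x₀ ≤ 0`; so it is in `S` by `hth`. -/
theorem view_right {S : Set (ℝ × ℝ)} {X m x₀ H β : ℝ} (hX : 0 < X) (hm : 0 < m)
    (hx0' : x₀ ≤ 0)
    (hW : ∀ x y : ℝ, x₀ ≤ x → x ≤ 45 / 100 * X → 0 ≤ y → y ≤ m * (x - x₀) → (x, y) ∈ S)
    (hth : ∀ x y : ℝ, |x| ≤ X → |y - m * (x - x₀)| ≤ H → (x, y) ∈ S) (hβ : 0 < β) (hβH : β ≤ H)
    {x y : ℝ} (hx : X / 5 ≤ x) (hx' : x ≤ 2 / 5 * X) (hy : 0 ≤ y) (hy' : y ≤ m * x / 2) :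
    segment ℝ ((0 : ℝ), β) (x, y) ⊆ S := by
  rintro _ ⟨a, b, ha, hb, hab, rfl⟩
  have e : a • ((0, β) : ℝ × ℝ) + b • ((x, y) : ℝ × ℝ) = (b * x, a * β + b * y) := by
    ext <;> simp
  rw [e]
  have hx0 : 0 < x := by linarith
  have hb1 : b ≤ 1 := by linarith
  have hbx : 0 ≤ b * x := by positivity
  have hbx' : b * x ≤ x := by nlinarith
  rcases le_total (a * β + b * y) (m * (b * x - x₀)) with h | h
  · exact hW _ _ (by linarith) (by linarith) (by positivity) h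
  · apply hth
    · rw [abs_of_nonneg hbx]
      linarith
    · rw [abs_of_nonneg (by linarith)]
      have ha' : a = 1 - b := by linarith
      subst ha'
      have h1 : m * x₀ ≤ 0 := mul_nonpos_of_nonneg_of_nonpos hm.le hx0'
      have h2 : 0 ≤ m * x := by positivity
      have h3 : b * y ≤ b * (m * x / 2) := mul_le_mul_of_nonneg_left hy' hb
      have h4 : (1 - b) * β ≤ β := by nlinarith
      have h5 : 0 ≤ b * (m * x / 2) := by positivity
      nlinarith

end Pool.Agent.BI
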