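import Pool.Agent.BI.F1

set_option autoImplicit false

open MeasureTheory Set
open scoped ENNReal

namespace Pool.Agent.BI

/-- [BI-F2] Supply in standard position, `0 < m`, `x₀ ≤ 0` (view to the right, above).
PROOF. By `wedge_right`, `view_right` all `(x, y)` of `A = {X/5 ≤ x ≤ 2X/5, 0 ≤ y ≤ m x / 2}` are seen from `(0, β)`.
`volume A = m (4/25 - 1/25) X² / 4 = 0.03 m X² ≥ 0.03 θ X² = 0.03 κ` (`volume_regionBetween_eq_integral` or a lower bound by the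
rectangle `[X/5, 2X/5] × [0, m X / 10]` of area `m X² / 50 ≥ κ / 50`, which suffices). `w = (x, y - β)`. Window: `x² ≥ X² / 25`, so
`θ |w|² ≥ κ / 25 ≥ κ / 100`; `|y - β| ≤ m X / 5 + θ X / 100 ≤ X / 100` (`m ≤ 1/50`), so `θ |w|² ≤ (0.16 + 0.01) κ ≤ κ / 4`;
`dt (1, 0) w = w.2`, `|w.2| ≤ m X / 5 + θ X / 100 ≤ θ X ≤ 5 θ |w|`. -/
theorem supIb_pos {S : Set (ℝ × ℝ)} (hS : TriConn S) {κ θ X m x₀ H : ℝ} (hκ : 0 < κ)
    (hθ : 0 < θ) (hX : 0 < X) (hκX : θ * X ^ 2 = κ) (hm : θ ≤ m) (hm' : m ≤ 101 / 100 * θ)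
    (hm1 : m ≤ 1 / 50) (hx0 : |x₀| ≤ X / 100) (hx0' : x₀ ≤ 0)
    (hax : ∀ x, |x| ≤ X → (x, (0 : ℝ)) ∈ S) (hL : ∀ x, |x| ≤ 3 / 2 * X → (x, m * (x - x₀)) ∈ S)
    (hth : ∀ x y : ℝ, |x| ≤ X → |y - m * (x - x₀)| ≤ H → (x, y) ∈ S)
    (hR : RungIn S X m (59 / 100 * X) (91 / 100 * X)) {β : ℝ} (hβ : 0 < β) (hβH : β ≤ H)
    (hβθ : β ≤ θ * X / 100) :
    ENNReal.ofReal (κ / 100) ≤ volume {w : ℝ × ℝ |
      segment ℝ ((0 : ℝ), β) (w.1, β + w.2) ⊆ S ∧ Win κ θ ((1 : ℝ), (0 : ℝ)) w} := by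
  have hm0 : 0 < m := lt_of_lt_of_le hθ hm
  obtain ⟨x₁, c, s, T, hx1, hx1', hcs, hs, hT, hRg⟩ := hR
  have hW : ∀ x y : ℝ, x₀ ≤ x → x ≤ 45 / 100 * X → 0 ≤ y → y ≤ m * (x - x₀) → (x, y) ∈ S :=
    fun x y h1 h2 h3 h4 => wedge_right hS hX hm0 hx0 hax hL hx1 hx1' hcs hs hT hRg h1 h2 h3 h4
  have hmX : 0 < m * X := mul_pos hm0 hX
  have hθX : 0 < θ * X := mul_pos hθ hX
  have hsub : Icc (X / 5) (2 / 5 * X) ×ˢ Icc (-β) (m * X / 10 - β) ⊆ {w : ℝ × ℝ |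
      segment ℝ ((0 : ℝ), β) (w.1, β + w.2) ⊆ S ∧ Win κ θ ((1 : ℝ), (0 : ℝ)) w} := by
    rintro ⟨x, y⟩ ⟨⟨h1, h2⟩, ⟨h3, h4⟩⟩
    simp only at h1 h2 h3 h4
    have hmx : m * (X / 5) ≤ m * x := by gcongr
    refine ⟨view_right hX hm0 hx0' hW hth hβ hβH h1 h2 (by linarith) (by linarith), ?_⟩
    have hX2 : 0 < X ^ 2 := by positivity
    have hx2 : X ^ 2 / 25 ≤ x ^ 2 := by nlinarith
    have hx3 : x ^ 2 ≤ 4 / 25 * X ^ 2 := by nlinarith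
    -- bound of `y`
    have hy0 : |y| ≤ θ * X / 9 := by
      rw [abs_le]
      constructor <;> nlinarith
    have hθ1 : θ ≤ 1 / 50 := hm.trans hm1
    have hy1 : y ^ 2 ≤ (θ * X / 9) ^ 2 := sq_le_sq' (by linarith [(abs_le.1 hy0).1]) (abs_le.1 hy0).2
    have hy2 : y ^ 2 ≤ X ^ 2 / 100 := by
      refine hy1.trans ?_
      have h5 : θ * X / 9 ≤ X / 10 := by nlinarith
      nlinarith
    refine ⟨?_, ?_, ?_⟩
    · simp only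
      have h6 : θ * (X ^ 2 / 25) ≤ θ * (x ^ 2 + y ^ 2) := by
        gcongr
        nlinarith [sq_nonneg y]
      nlinarith
    · simp only
      have h6 : θ * (x ^ 2 + y ^ 2) ≤ θ * (17 / 100 * X ^ 2) := by
        gcongr
        nlinarith
      nlinarith
    · unfold dt
      simp only
      have h7 : (1 * y - 0 * x) ^ 2 = y ^ 2 := by ring
      rw [h7]
      have h8 : θ ^ 2 * (X ^ 2 / 25) ≤ θ ^ 2 * (x ^ 2 + y ^ 2) := by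
        gcongr
        nlinarith [sq_nonneg y]
      have h9 : (θ * X / 9) ^ 2 = θ ^ 2 * X ^ 2 / 81 := by ring
      have h10 : 0 ≤ θ ^ 2 * X ^ 2 := by positivity
      rw [h9] at hy1
      have h11 : (10 : ℝ) ^ 40 * θ ^ 2 * (x ^ 2 + y ^ 2) = 10 ^ 40 * (θ ^ 2 * (x ^ 2 + y ^ 2)) := by
        ring
      rw [h11]
      have h12 : 0 ≤ θ ^ 2 * (x ^ 2 + y ^ 2) := by positivity
      have h13 : 1 * (θ ^ 2 * (x ^ 2 + y ^ 2)) ≤ 10 ^ 40 * (θ ^ 2 * (x ^ 2 + y ^ 2)) := by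
        gcongr
        norm_num
      linarith
  refine le_trans ?_ (measure_mono hsub)
  rw [Measure.volume_eq_prod, Measure.prod_prod, Real.volume_Icc, Real.volume_Icc,
    ← ENNReal.ofReal_mul (by linarith)]
  apply ENNReal.ofReal_le_ofReal
  have h1 : (2 / 5 * X - X / 5) * (m * X / 10 - β - -β) = m * X ^ 2 / 50 := by ring
  rw [h1]
  have h2 : θ * X ^ 2 ≤ m * X ^ 2 := by gcongr
  linarith

end Pool.Agent.BI
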