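import Pool.Agent.BI.F2
import Pool.Agent.BI.A6

set_option autoImplicit false

open MeasureTheory Set
open scoped ENNReal

namespace Pool.Agent.BI

theorem f3_vol_neg {A B : Set (ℝ × ℝ)} {a b : ℝ} (ha : a = 1 ∨ a = -1) (hb : b = 1 ∨ b = -1)
    (h : ∀ w : ℝ × ℝ, w ∈ A → (a * w.1, b * w.2) ∈ B) : volume A ≤ volume B := by
  have e1 : MeasurePreserving (fun x : ℝ => a * x) volume volume := by
    rcases ha with rfl | rfl
    · simp only [one_mul]
      exact MeasurePreserving.id (volume : Measure ℝ)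
    · have := Measure.measurePreserving_neg (volume : Measure ℝ)
      simpa [Function.comp_def] using this
  have e2 : MeasurePreserving (fun x : ℝ => b * x) volume volume := by
    rcases hb with rfl | rfl
    · simp only [one_mul]
      exact MeasurePreserving.id (volume : Measure ℝ)
    · have := Measure.measurePreserving_neg (volume : Measure ℝ)
      simpa [Function.comp_def] using this
  have e3 : MeasurePreserving (fun w : ℝ × ℝ => (a * w.1, b * w.2)) volume volume := by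
    rw [Measure.volume_eq_prod]
    exact e1.prod e2
  have ha' : a ≠ 0 := by rcases ha with rfl | rfl <;> norm_num
  have hb' : b ≠ 0 := by rcases hb with rfl | rfl <;> norm_num
  have hmeas : Measurable fun w : ℝ × ℝ => (a * w.1, b * w.2) := by fun_prop
  have haa : a * a = 1 := by rcases ha with rfl | rfl <;> norm_num
  have hbb : b * b = 1 := by rcases hb with rfl | rfl <;> norm_num
  let E : (ℝ × ℝ) ≃ᵐ (ℝ × ℝ) :=
    { toFun := fun w => (a * w.1, b * w.2)
      invFun := fun w => (a * w.1, b * w.2)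
      left_inv := fun w => by
        ext
        · simp only
          linear_combination w.1 * haa
        · simp only
          linear_combination w.2 * hbb
      right_inv := fun w => by
        ext
        · simp only
          linear_combination w.1 * haa
        · simp only
          linear_combination w.2 * hbb
      measurable_toFun := hmeas
      measurable_invFun := hmeas }
  have e4 : MeasurePreserving E volume volume := e3
  calc volume A ≤ volume (E ⁻¹' B) := measure_mono fun w hw => h w hw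
    _ = volume B := e4.measure_preimage_equiv B

theorem f3_win {κ θ a b : ℝ} (ha : a = 1 ∨ a = -1) (hb : b = 1 ∨ b = -1) {w : ℝ × ℝ}
    (h : Win κ θ ((1 : ℝ), (0 : ℝ)) w) : Win κ θ ((1 : ℝ), (0 : ℝ)) (a * w.1, b * w.2) := by
  have haa : a * a = 1 := by rcases ha with rfl | rfl <;> norm_num
  have hbb : b * b = 1 := by rcases hb with rfl | rfl <;> norm_num
  have h1 : (a * w.1) ^ 2 + (b * w.2) ^ 2 = w.1 ^ 2 + w.2 ^ 2 := by
    linear_combination w.1 ^ 2 * haa + w.2 ^ 2 * hbb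
  unfold Win at h ⊢
  simp only [h1]
  refine ⟨h.1, h.2.1, ?_⟩
  have h2 : dt ((1 : ℝ), (0 : ℝ)) (a * w.1, b * w.2) ^ 2 = dt ((1 : ℝ), (0 : ℝ)) w ^ 2 := by
    unfold dt
    simp only
    linear_combination w.2 ^ 2 * hbb
  rw [h2]
  exact h.2.2

/-- segments under the reflections -/
theorem f3_seg {a b : ℝ} {p q : ℝ × ℝ} {z : ℝ × ℝ}
    (hz : z ∈ segment ℝ (a * p.1, b * p.2) (a * q.1, b * q.2)) :
    ∃ y ∈ segment ℝ p q, z = (a * y.1, b * y.2) := by
  obtain ⟨s, t, hs, ht, hst, rfl⟩ := hz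
  refine ⟨s • p + t • q, ⟨s, t, hs, ht, hst, rfl⟩, ?_⟩
  ext
  · simp only [Prod.fst_add, Prod.smul_fst, smul_eq_mul]
    ring
  · simp only [Prod.snd_add, Prod.smul_snd, smul_eq_mul]
    ring

/-- transport by a reflection `(x, y) ↦ (a x, b y)` -/
theorem f3_transport {S S' : Set (ℝ × ℝ)} {κ θ a b β β' : ℝ} (ha : a = 1 ∨ a = -1)
    (hb : b = 1 ∨ b = -1) (hSS : ∀ p : ℝ × ℝ, p ∈ S' → (a * p.1, b * p.2) ∈ S)
    (hβ : β' = b * β)
    (h : ENNReal.ofReal (κ / 100) ≤ volume {w : ℝ × ℝ |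
      segment ℝ ((0 : ℝ), β) (w.1, β + w.2) ⊆ S' ∧ Win κ θ ((1 : ℝ), (0 : ℝ)) w}) :
    ENNReal.ofReal (κ / 100) ≤ volume {w : ℝ × ℝ |
      segment ℝ ((0 : ℝ), β') (w.1, β' + w.2) ⊆ S ∧ Win κ θ ((1 : ℝ), (0 : ℝ)) w} := by
  refine h.trans (f3_vol_neg ha hb ?_)
  rintro w ⟨hw1, hw2⟩
  refine ⟨?_, f3_win ha hb hw2⟩
  intro z hz
  have h1 : (((0 : ℝ), β') : ℝ × ℝ) = (a * ((0 : ℝ), β).1, b * ((0 : ℝ), β).2) := by
    rw [hβ]
    simp
  have h2 : ((a * w.1, b * w.2).1, β' + (a * w.1, b * w.2).2) =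
      (a * (w.1, β + w.2).1, b * (w.1, β + w.2).2) := by
    rw [hβ]
    simp only
    rw [mul_add]
  rw [h1, h2] at hz
  obtain ⟨y, hy, rfl⟩ := f3_seg hz
  exact hSS y (hw1 hy)

/-- the case `0 < m` -/
theorem f3_pos {S : Set (ℝ × ℝ)} (hS : TriConn S) {κ θ X m x₀ H : ℝ} (hκ : 0 < κ)
    (hθ : 0 < θ) (hX : 0 < X) (hκX : θ * X ^ 2 = κ) (hm : θ ≤ m) (hm' : m ≤ 101 / 100 * θ)
    (hm1 : m ≤ 1 / 50) (hx0 : |x₀| ≤ X / 100)
    (hax : ∀ x, |x| ≤ X → (x, (0 : ℝ)) ∈ S) (hL : ∀ x, |x| ≤ 3 / 2 * X → (x, m * (x - x₀)) ∈ S)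
    (hth : ∀ x y : ℝ, |x| ≤ X → |y - m * (x - x₀)| ≤ H → (x, y) ∈ S)
    (hR : RungIn S X m (59 / 100 * X) (91 / 100 * X))
    (hR' : RungIn S X m (-(91 / 100 * X)) (-(59 / 100 * X))) :
    ∃ s : ℝ, (s = 1 ∨ s = -1) ∧ ∀ β : ℝ, 0 < β → β ≤ H → β ≤ θ * X / 100 →
      ENNReal.ofReal (κ / 100) ≤ volume {w : ℝ × ℝ |
        segment ℝ ((0 : ℝ), s * β) (w.1, s * β + w.2) ⊆ S ∧ Win κ θ ((1 : ℝ), (0 : ℝ)) w} := by
  rcases le_total x₀ 0 with h0 | h0
  · refine ⟨1, Or.inl rfl, fun β hβ hβH hβθ => ?_⟩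
    have h1 := supIb_pos hS hκ hθ hX hκX hm hm' hm1 hx0 h0 hax hL hth hR hβ hβH hβθ
    simpa only [one_mul] using h1
  · refine ⟨-1, Or.inr rfl, fun β hβ hβH hβθ => ?_⟩
    set S' := flipx (flipy S) with hS'
    have hmem : ∀ p : ℝ × ℝ, p ∈ S' ↔ (-p.1, -p.2) ∈ S := fun p => Iff.rfl
    have hT : TriConn S' := TriConn_flipx (TriConn_flipy hS)
    refine f3_transport (S' := S') (β := β) (Or.inr rfl) (Or.inr rfl) (fun p hp => ?_) rfl ?_
    · have := (hmem p).1 hp
      simpa only [neg_one_mul] using this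
    · refine supIb_pos (S := S') (x₀ := -x₀) (H := H) hT hκ hθ hX hκX hm hm' hm1
        (by rwa [abs_neg]) (by linarith) ?_ ?_ ?_ ?_ hβ hβH hβθ
      · intro x hx
        rw [hmem]
        simp only [neg_zero]
        exact hax _ (by rwa [abs_neg])
      · intro x hx
        rw [hmem]
        simp only
        have := hL (-x) (by rwa [abs_neg])
        convert this using 2
        ring
      · intro x y hx hy
        rw [hmem]
        simp only
        apply hth (-x) (-y) (by rwa [abs_neg])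
        rw [← abs_neg]
        convert hy using 2
        ring
      · obtain ⟨x₁, c, s, T, h1, h2, h3, h4, h5, h6⟩ := hR'
        refine ⟨-x₁, c, s, T, by linarith, by linarith, h3, h4, h5, fun τ hτ => ?_⟩
        rw [hmem]
        simp only
        have := h6 (-τ) (by rwa [abs_neg])
        convert this using 2 <;> ring

/-- [BI-F3] Supply in standard position, all signs.
PROOF. Four cases. `m > 0`, `x₀ ≤ 0`: `supIb_pos`, `s = 1`. `m > 0`, `x₀ > 0`: point reflection: `S' = flipx (flipy S)` (`TriConn_flipx`,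
`TriConn_flipy`), `x₀' = -x₀`, same `m`, rung from `hR'` (`x₁' = -x₁`, and `(x₁' + τ c, τ s) ∈ S'` iff
`(x₁ - τ c, - τ s) ∈ S`); the seen set for `S'` from `(0, β)` is the negative of the seen set for `S` from `(0, -β)`: `s = -1`.
`m < 0`: `S' = flipy S`, `m' = -m > 0`, same `x₀`; rungs `(c, s) ↦ (-c, s)` with `τ ↦ -τ`:
`(x₁ + τ (-c), τ s) ∈ flipy S` iff `(x₁ + (-τ) c, (-τ) s) ∈ S`. Then one of the two previous cases. The reflections
preserve the volume, `Win κ θ (1, 0)` is invariant (`w.2 ^ 2`). -/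
theorem supIb_std {S : Set (ℝ × ℝ)} (hS : TriConn S) {κ θ X m x₀ H : ℝ} (hκ : 0 < κ)
    (hθ : 0 < θ) (hX : 0 < X) (hκX : θ * X ^ 2 = κ) (hm : θ ≤ |m|) (hm' : |m| ≤ 101 / 100 * θ)
    (hm1 : |m| ≤ 1 / 50) (hx0 : |x₀| ≤ X / 100)
    (hax : ∀ x, |x| ≤ X → (x, (0 : ℝ)) ∈ S) (hL : ∀ x, |x| ≤ 3 / 2 * X → (x, m * (x - x₀)) ∈ S)
    (hth : ∀ x y : ℝ, |x| ≤ X → |y - m * (x - x₀)| ≤ H → (x, y) ∈ S)
    (hR : RungIn S X |m| (59 / 100 * X) (91 / 100 * X))
    (hR' : RungIn S X |m| (-(91 / 100 * X)) (-(59 / 100 * X))) :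
    ∃ s : ℝ, (s = 1 ∨ s = -1) ∧ ∀ β : ℝ, 0 < β → β ≤ H → β ≤ θ * X / 100 →
      ENNReal.ofReal (κ / 100) ≤ volume {w : ℝ × ℝ |
        segment ℝ ((0 : ℝ), s * β) (w.1, s * β + w.2) ⊆ S ∧ Win κ θ ((1 : ℝ), (0 : ℝ)) w} := by
  rcases le_total 0 m with h0 | h0
  · rw [abs_of_nonneg h0] at hm hm' hm1 hR hR'
    exact f3_pos hS hκ hθ hX hκX hm hm' hm1 hx0 hax hL hth hR hR'
  · rw [abs_of_nonpos h0] at hm hm' hm1 hR hR'
    set S' := flipy S with hS'
    have hmem : ∀ p : ℝ × ℝ, p ∈ S' ↔ (p.1, -p.2) ∈ S := fun p => Iff.rfl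
    have hT : TriConn S' := TriConn_flipy hS
    have hflip : ∀ a b : ℝ, RungIn S X (-m) a b → RungIn S' X (-m) a b := by
      intro a b hab
      obtain ⟨x₁, c, s, T, h1, h2, h3, h4, h5, h6⟩ := hab
      refine ⟨x₁, -c, s, T, h1, h2, by rw [neg_sq]; exact h3, h4, h5, fun τ hτ => ?_⟩
      rw [hmem]
      simp only
      have := h6 (-τ) (by rwa [abs_neg])
      convert this using 2 <;> ring
    obtain ⟨s, hs, hβ⟩ := f3_pos (S := S') (m := -m) (x₀ := x₀) (H := H) hT hκ hθ hX hκX hm hm' hm1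
      hx0 (by
        intro x hx
        rw [hmem]
        simp only [neg_zero]
        exact hax _ hx) (by
        intro x hx
        rw [hmem]
        simp only
        have := hL x hx
        convert this using 2
        ring) (by
        intro x y hx hy
        rw [hmem]
        simp only
        apply hth x (-y) hx
        rw [← abs_neg]
        convert hy using 2
        ring) (hflip _ _ hR) (hflip _ _ hR')
    refine ⟨-s, ?_, fun β h1 h2 h3 => ?_⟩
    · rcases hs with rfl | rfl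
      · right
        rfl
      · left
        ring
    · refine f3_transport (S' := S') (β := s * β) (a := 1) (b := -1) (Or.inl rfl) (Or.inr rfl)
        (fun p hp => ?_) (by ring) (hβ β h1 h2 h3)
      have := (hmem p).1 hp
      simpa only [neg_one_mul, one_mul] using this

end Pool.Agent.BI
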