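import Pool.Agent.BI.C5

set_option autoImplicit false

open MeasureTheory Set
open scoped ENNReal

namespace Pool.Agent.BI

/-- coordinates in the frame at `c` of a point of the room -/
theorem f4_coord {c u₀ : ℝ × ℝ} {i : Room} (hu : UV u₀) (τ a b : ℝ) :
    fr c u₀ ((fi c u₀ (i.ax τ)).1 + (a - τ) * dp u₀ i.u - b * dt u₀ i.u,
      (fi c u₀ (i.ax τ)).2 + (a - τ) * dt u₀ i.u + b * dp u₀ i.u) = fr i.c i.u (a, b) := by
  unfold UV at hu
  ext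
  · simp only [fr, fi, Room.ax, dp, dt]
    linear_combination (i.c.1 - c.1 + a * i.u.1 - b * i.u.2) * hu
  · simp only [fr, fi, Room.ax, dp, dt]
    linear_combination (i.c.2 - c.2 + a * i.u.2 + b * i.u.1) * hu

theorem f4_num {κ ε r θ : ℝ} (hκ : 0 < κ) (hε : 0 < ε) (hr : 0 < r) (hθ0 : 0 < θ)
    (hθ : κ / (4000 * ε ^ 2 * r ^ 2) < θ) :
    pz κ ε r / θ ≤ 1 / 25 * ε * r ∧ pz κ ε r ^ 2 / θ ≤ 4000 / 10 ^ 10 * κ := by
  have h1 : κ < θ * (4000 * ε ^ 2 * r ^ 2) := by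
    rwa [div_lt_iff₀ (by positivity)] at hθ
  unfold pz
  constructor
  · rw [div_div, div_le_iff₀ (by positivity)]
    have e : 1 / 25 * ε * r * (10 ^ 5 * ε * r * θ) = θ * (4000 * ε ^ 2 * r ^ 2) := by ring
    rw [e]
    exact h1.le
  · rw [div_pow, div_div, div_le_iff₀ (by positivity)]
    have e : 4000 / 10 ^ 10 * κ * ((10 ^ 5 * ε * r) ^ 2 * θ) = κ * (θ * (4000 * ε ^ 2 * r ^ 2)) := by
      ring
    rw [e]
    nlinarith

/-- [BI-F4] A short D-room `i` crossing the axis of `j` near `t`, not aligned, in the frame with origin `j.ax t` and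
direction `j.u`.
PROOF. `θ = |dt i.u j.u|`. `near`: `τ` with `|τ| ≤ i.r / 8`, `d2 (j.ax t) (i.ax τ) ≤ (6 p)²`, `p = pz κ ε i.r`.
First claim: `dichotomy` with `(j, k) := (i, j)`: `i.r ≤ 2 j.r`, `|τ| ≤ i.r / 4`, `|t| ≤ j.r / 7`, `6 p ≤ 8 p`; `¬ Al κ i j`.
Frame `c = j.ax t`, `u₀ = j.u`; the direction of `i` in it is `rel j.u i.u`, with second coordinate `dt j.u i.u` of absolute value `θ`;
`u = ± rel j.u i.u` with `u.2 = θ`. The point `Q = i.ax τ` has frame coordinates `(q₁, q₂)`, `|q₁|, |q₂| ≤ 6 p`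
(`abs_fi_sub_le`, `fi c u₀ c = 0`). `x₀ = q₁ - q₂ u.1 / u.2`: `|x₀| ≤ 6 p + 6 p / θ ≤ 12 p / θ`, and
`x₀² θ ≤ 144 p² / θ = 144 κ² / (10 ^ 10 ε² i.r² θ) ≤ 144 * 4000 κ / 10 ^ 10 ≤ κ / 10 ^ 4` by the first claim. The points
`(x₀ + s u.1 - v u.2, s u.2 + v u.1)` are `Q + (s - q₂ / u.2) u + v u^⊥`, i.e. (up to sign) the point of the rectangle of `i` with
coordinates `(τ ± (s - q₂/θ), ± v)`; `|q₂ / θ| ≤ 6 p / θ ≤ 6 * 4000 ε i.r / 10 ^ 5 ≤ i.r / 8`; so for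
`|s| ≤ i.r / 2` and `|v| ≤ i.h` it is in `S`. Last claim: `i.r² θ > κ / (4000 ε²) ≥ 10 ^ 50 κ`. -/
theorem cross_short {S : Set (ℝ × ℝ)} {κ ε : ℝ} {i j : Room} (hS : TriConn S) (hκ : 0 < κ)
    (hε : 0 < ε) (hε1 : ε ≤ 1 / 10 ^ 30) (hi : DRoom S κ ε i) (hj : DRoom S κ ε j)
    (hij : i.r ≤ ε ^ 2 / 4 * j.r) {t : ℝ} (ht : |t| ≤ j.r / 7) (hn : near κ ε i (j.ax t) 6)
    (hna : ¬ Al κ i j) :
    κ / (4000 * ε ^ 2 * i.r ^ 2) < |dt i.u j.u| ∧ 10 ^ 50 * κ ≤ i.r ^ 2 * |dt i.u j.u| ∧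
    ∃ x₀ : ℝ, x₀ ^ 2 * |dt i.u j.u| ≤ κ / 10 ^ 4 ∧ ∃ u : ℝ × ℝ, UV u ∧ u.2 = |dt i.u j.u| ∧
      ∀ s v : ℝ, |s| ≤ i.r / 2 → |v| ≤ i.h →
        fr (j.ax t) j.u (x₀ + s * u.1 - v * u.2, s * u.2 + v * u.1) ∈ S := by
  obtain ⟨τ, hτ, hd⟩ := hn
  set r := i.r with hr
  have hh0 : 0 < i.h := hi.h0
  have hr0 : 0 < r := by
    have := hi.thin
    by_contra hneg
    push Not at hneg
    have : i.r / 10 ^ 20 ≤ 0 := div_nonpos_of_nonpos_of_nonneg hneg (by positivity)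
    linarith
  have hε2 : ε ^ 2 ≤ 1 / 10 ^ 60 := by
    calc ε ^ 2 ≤ (1 / 10 ^ 30) ^ 2 := by gcongr
      _ = 1 / 10 ^ 60 := by norm_num
  have hjr0 : 0 < j.r := by
    by_contra hneg
    push Not at hneg
    have h3 : ε ^ 2 / 4 * j.r ≤ 0 := mul_nonpos_of_nonneg_of_nonpos (by positivity) hneg
    linarith
  have hrr : i.r ≤ 2 * j.r := by
    have h3 : ε ^ 2 / 4 ≤ 2 := by linarith [show (1:ℝ) / 10 ^ 60 ≤ 1 by norm_num]
    have h4 : ε ^ 2 / 4 * j.r ≤ 2 * j.r := by gcongr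
    linarith
  have hp0 : 0 < pz κ ε r := by unfold pz; positivity
  have hd' : d2 (i.ax τ) (j.ax t) ≤ (8 * pz κ ε i.r) ^ 2 := by
    rw [d2_comm]
    refine hd.trans ?_
    have : 0 < pz κ ε i.r := hp0
    gcongr
    norm_num
  have hax : ∀ t, |t| ≤ j.r → j.ax t ∈ S := by
    intro t ht
    exact hj.rect t 0 ht (by simpa using hj.h0.le)
  have hdich := dichotomy (j := i) (k := j) hS hκ hε hε1 hi hj.uv hax hrr (t := τ) (τ := t)
    (by linarith [hτ]) ht hd'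
  have hθ : κ / (4000 * ε ^ 2 * r ^ 2) < |dt i.u j.u| := by
    rcases hdich with h | h
    · exact h
    · exact absurd h.1 hna
  set θ := |dt i.u j.u| with hθd
  have hθ0 : 0 < θ := lt_of_le_of_lt (by positivity) hθ
  have hθ1 : θ ≤ 1 := abs_dt_le_one hi.uv hj.uv
  obtain ⟨hn1, hn2⟩ := f4_num hκ hε hr0 hθ0 hθ
  refine ⟨hθ, ?_, ?_⟩
  · have h1 : κ < θ * (4000 * ε ^ 2 * r ^ 2) := by
      rwa [div_lt_iff₀ (by positivity)] at hθ
    have h2 : 0 < θ * r ^ 2 := by positivity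
    have h3 : θ * (4000 * ε ^ 2 * r ^ 2) ≤ 4000 / 10 ^ 60 * (θ * r ^ 2) := by
      calc θ * (4000 * ε ^ 2 * r ^ 2) = 4000 * (θ * r ^ 2) * ε ^ 2 := by ring
        _ ≤ 4000 * (θ * r ^ 2) * (1 / 10 ^ 60) := by gcongr
        _ = _ := by ring
    have h4 : κ < 4000 / 10 ^ 60 * (r ^ 2 * θ) := by
      have : r ^ 2 * θ = θ * r ^ 2 := by ring
      rw [this]
      linarith
    have h5 : 0 < r ^ 2 * θ := by positivity
    calc 10 ^ 50 * κ ≤ 10 ^ 50 * (4000 / 10 ^ 60 * (r ^ 2 * θ)) := by gcongr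
      _ = 4000 / 10 ^ 10 * (r ^ 2 * θ) := by ring
      _ ≤ 1 * (r ^ 2 * θ) := by gcongr; norm_num
      _ = r ^ 2 * θ := one_mul _
  -- the frame coordinates
  set q := fi (j.ax t) j.u (i.ax τ) with hq
  have hq0 : fi (j.ax t) j.u (j.ax t) = (0, 0) := by
    simp [fi]
  have hqb := abs_fi_sub_le (c := j.ax t) (u := j.u) (x := i.ax τ) (y := j.ax t) hj.uv
    (a := 6 * pz κ ε r) (by positivity) (by rw [d2_comm]; exact hd)
  rw [hq0, ← hq] at hqb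
  obtain ⟨hq1, hq2⟩ := hqb
  simp only [sub_zero] at hq1 hq2
  -- the sign
  obtain ⟨σ, hσ1, hσ2⟩ : ∃ σ : ℝ, σ ^ 2 = 1 ∧ σ * dt j.u i.u = θ := by
    rcases le_total 0 (dt j.u i.u) with h | h
    · refine ⟨1, by norm_num, ?_⟩
      rw [hθd, abs_dt_comm, abs_of_nonneg h, one_mul]
    · refine ⟨-1, by norm_num, ?_⟩
      rw [hθd, abs_dt_comm, abs_of_nonpos h]
      ring
  have hσa : |σ| = 1 := by
    rw [← sq_eq_sq₀ (abs_nonneg _) zero_le_one, sq_abs, hσ1, one_pow]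
  set u1 := σ * dp j.u i.u with hu1
  have huv : u1 ^ 2 + θ ^ 2 = 1 := by
    have := dt_sq_add_dp_sq hj.uv hi.uv
    rw [hu1, ← hσ2]
    linear_combination this + (dp j.u i.u ^ 2 + dt j.u i.u ^ 2) * hσ1
  have hu1a : |u1| ≤ 1 := by
    rw [← sq_le_one_iff_abs_le_one]
    nlinarith [sq_nonneg θ]
  refine ⟨q.1 - q.2 * u1 / θ, ?_, (u1, θ), ?_, rfl, ?_⟩
  · have h1 : |q.1 - q.2 * u1 / θ| ≤ 12 * pz κ ε r / θ := by
      calc |q.1 - q.2 * u1 / θ| ≤ |q.1| + |q.2 * u1 / θ| := abs_sub _ _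
        _ = |q.1| + |q.2| * |u1| / θ := by rw [abs_div, abs_mul, abs_of_pos hθ0]
        _ ≤ 6 * pz κ ε r + 6 * pz κ ε r * 1 / θ := by gcongr
        _ ≤ 6 * pz κ ε r / θ + 6 * pz κ ε r * 1 / θ := by
            gcongr
            rw [le_div_iff₀ hθ0]
            nlinarith
        _ = _ := by ring
    calc (q.1 - q.2 * u1 / θ) ^ 2 * θ = |q.1 - q.2 * u1 / θ| ^ 2 * θ := by rw [sq_abs]
      _ ≤ (12 * pz κ ε r / θ) ^ 2 * θ := by gcongr
      _ = 144 * (pz κ ε r ^ 2 / θ) := by field_simp; ring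
      _ ≤ 144 * (4000 / 10 ^ 10 * κ) := by gcongr
      _ ≤ κ / 10 ^ 4 := by
          have : 0 < κ := hκ
          linarith [show (144 : ℝ) * (4000 / 10 ^ 10 * κ) = 576 / 10 ^ 7 * κ by ring,
            show κ / 10 ^ 4 = 1000 / 10 ^ 7 * κ by ring, mul_pos (show (0:ℝ) < 424 / 10 ^ 7 by norm_num) this,
            show 576 / 10 ^ 7 * κ + 424 / 10 ^ 7 * κ = 1000 / 10 ^ 7 * κ by ring]
  · unfold UV
    exact huv
  · intro s v hs hv
    have key := f4_coord (c := j.ax t) (i := i) hj.uv τ (τ + σ * (s - q.2 / θ)) (σ * v)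
    rw [← hq] at key
    have e1 : q.1 + (τ + σ * (s - q.2 / θ) - τ) * dp j.u i.u - σ * v * dt j.u i.u =
        q.1 - q.2 * u1 / θ + s * u1 - v * θ := by
      rw [hu1, ← hσ2]
      ring
    have e2 : q.2 + (τ + σ * (s - q.2 / θ) - τ) * dt j.u i.u + σ * v * dp j.u i.u =
        s * θ + v * u1 := by
      have : (τ + σ * (s - q.2 / θ) - τ) * dt j.u i.u = (s - q.2 / θ) * θ := by
        rw [← hσ2]
        ring
      rw [this, hu1]
      field_simp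
      ring
    rw [e1, e2] at key
    rw [key]
    refine hi.rect _ _ ?_ ?_
    · have h2 : |q.2 / θ| ≤ r / 8 := by
        rw [abs_div, abs_of_pos hθ0]
        calc |q.2| / θ ≤ 6 * pz κ ε r / θ := by gcongr
          _ = 6 * (pz κ ε r / θ) := by ring
          _ ≤ 6 * (1 / 25 * ε * r) := by gcongr
          _ ≤ 6 * (1 / 25 * (1 / 10 ^ 30) * r) := by gcongr
          _ ≤ r / 8 := by
              have h9 : 6 * (1 / 25 * (1 / 10 ^ 30) * r) = (6 / (25 * 10 ^ 30)) * r := by ring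
              rw [h9, div_eq_inv_mul r 8]
              gcongr
              norm_num
      calc |τ + σ * (s - q.2 / θ)| ≤ |τ| + |σ * (s - q.2 / θ)| := abs_add_le _ _
        _ = |τ| + |s - q.2 / θ| := by rw [abs_mul, hσa, one_mul]
        _ ≤ |τ| + (|s| + |q.2 / θ|) := by gcongr; exact abs_sub _ _
        _ ≤ r / 8 + (r / 2 + r / 8) := by gcongr
        _ ≤ i.r := by rw [← hr]; linarith
    · rw [abs_mul, hσa, one_mul]
      exact hv

end Pool.Agent.BI
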