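import Pool.Agent.BI.F3
import Pool.Agent.BI.F4

set_option autoImplicit false

open MeasureTheory Set
open scoped ENNReal

namespace Pool.Agent.BI

theorem f5_fr_ax (j : Room) (t x y : ℝ) : fr (j.ax t) j.u (x, y) = fr j.c j.u (t + x, y) := by
  ext
  · simp only [fr, Room.ax]
    ring
  · simp only [fr, Room.ax]
    ring

theorem f5_fr_shift (j : Room) (t t₁ x y : ℝ) :
    fr (j.ax t₁) j.u (x, y) = fr (j.ax t) j.u (t₁ - t + x, y) := by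
  rw [f5_fr_ax, f5_fr_ax]
  congr 2
  ring

theorem f5_fr_add (j : Room) (t b : ℝ) (w : ℝ × ℝ) :
    fr (j.ax t) j.u (w.1, b + w.2) = fr j.c j.u (t, b) + fr (0, 0) j.u w := by
  ext
  · simp only [fr, Room.ax, Prod.fst_add]
    ring
  · simp only [fr, Room.ax, Prod.snd_add]
    ring

theorem f5_win {κ θ : ℝ} {u w : ℝ × ℝ} (hu : UV u) (h : Win κ θ ((1 : ℝ), (0 : ℝ)) w) :
    Win κ θ u (fr (0, 0) u w) := by
  unfold UV at hu
  obtain ⟨h1, h2, h3⟩ := h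
  have e1 : (fr (0, 0) u w).1 ^ 2 + (fr (0, 0) u w).2 ^ 2 = w.1 ^ 2 + w.2 ^ 2 := by
    simp only [fr]
    linear_combination (w.1 ^ 2 + w.2 ^ 2) * hu
  have e2 : dt u (fr (0, 0) u w) = dt ((1 : ℝ), (0 : ℝ)) w := by
    simp only [dt, fr]
    linear_combination w.2 * hu
  unfold Win
  rw [e1, e2]
  exact ⟨h1, h2, h3⟩

theorem f5_near {κ ε : ℝ} {i : Room} {x : ℝ × ℝ} (hp : 0 ≤ pz κ ε i.r) (h : near κ ε i x 4) :
    near κ ε i x 6 := by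
  obtain ⟨τ, h1, h2⟩ := h
  refine ⟨τ, h1, h2.trans ?_⟩
  apply pow_le_pow_left₀ (by positivity)
  nlinarith

theorem f5_abs {x y c : ℝ} (hc : 0 ≤ y) (h : x ^ 2 ≤ (y * c) ^ 2) (hc' : 0 ≤ c) : |x| ≤ y * c :=
  abs_le_of_sq_le_sq h (by positivity)

/-- the slope -/
theorem f5_slope {u : ℝ × ℝ} (hu : UV u) {θ : ℝ} (h0 : 0 < θ) (h2 : u.2 = θ) (h64 : 64 * θ ≤ 1) :
    u.1 ≠ 0 ∧ 99 / 100 ≤ |u.1| ∧ |u.1| ≤ 1 ∧ θ ≤ |u.2 / u.1| ∧ |u.2 / u.1| ≤ 101 / 100 * θ ∧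
      |u.2 / u.1| ≤ 1 / 50 ∧ 39 / 10 * |u.2 / u.1| ≤ 4 * θ := by
  unfold UV at hu
  have h3 : θ ^ 2 ≤ 1 / 4096 := by nlinarith
  have h4 : |u.1| ^ 2 = 1 - θ ^ 2 := by
    rw [sq_abs]
    rw [h2] at hu
    linarith
  have h5 : 0 ≤ |u.1| := abs_nonneg _
  have h6 : |u.1| ≤ 1 := by nlinarith [sq_nonneg θ]
  have h7 : 999 / 1000 ≤ |u.1| := by nlinarith
  have h8 : 0 < |u.1| := by linarith
  have h9 : u.1 ≠ 0 := abs_pos.1 h8
  have e : |u.2 / u.1| = θ / |u.1| := by rw [abs_div, h2, abs_of_pos h0]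
  have h10 : θ / |u.1| ≤ 1002 / 1000 * θ := by
    rw [div_le_iff₀ h8]
    nlinarith
  refine ⟨h9, by linarith, h6, ?_, ?_, ?_, ?_⟩
  · rw [e, le_div_iff₀ h8]
    nlinarith
  · rw [e]
    linarith
  · rw [e]
    linarith
  · rw [e]
    linarith

/-- a rung -/
theorem f5_rung {S : Set (ℝ × ℝ)} {κ ε : ℝ} {i₁ j : Room} (hS : TriConn S) (hκ : 0 < κ)
    (hε : 0 < ε) (hε1 : ε ≤ 1 / 10 ^ 30) (hi₁ : DRoom S κ ε i₁) (hj : DRoom S κ ε j)
    (hij₁ : i₁.r ≤ ε ^ 2 / 4 * j.r) {t t₁ X θ m a b : ℝ} (ht₁ : |t₁| ≤ j.r / 7)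
    (hθ : 0 < θ) (hX : 0 < X) (hκX : θ * X ^ 2 = κ) (hn1 : near κ ε i₁ (j.ax t₁) 6)
    (hna1 : ¬ Al κ i₁ j) (h41 : 4 * θ ≤ |dt i₁.u j.u|) (hm0 : 0 ≤ m) (hm : m ≤ 101 / 100 * θ)
    (hm4 : 39 / 10 * m ≤ 4 * θ) (ha : a ≤ t₁ - t - X / 200) (hb : t₁ - t + X / 200 ≤ b) :
    RungIn (fr (j.ax t) j.u ⁻¹' S) X m a b := by
  obtain ⟨-, h2, x₀, hx₀, u, hu, hu2, hp⟩ :=
    cross_short hS hκ hε hε1 hi₁ hj hij₁ ht₁ hn1 hna1
  obtain ⟨θ₁, hθ₁⟩ : ∃ θ₁, θ₁ = |dt i₁.u j.u| := ⟨_, rfl⟩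
  rw [← hθ₁] at h2 hx₀ hu2 h41
  have hr1 : 0 < i₁.r := by
    have h3 := hi₁.h0
    have h4 := hi₁.lo
    by_contra hc
    push Not at hc
    have := mul_nonpos_of_nonpos_of_nonneg hc h3.le
    linarith
  have hθ₁0 : 0 < θ₁ := by linarith
  have hx0 : |x₀| ≤ X / 200 := by
    have h3 : x₀ ^ 2 * (4 * θ) ≤ κ / 10 ^ 4 :=
      (mul_le_mul_of_nonneg_left h41 (sq_nonneg _)).trans hx₀
    have h4 : x₀ ^ 2 ≤ (X * (1 / 200)) ^ 2 := by
      rw [← hκX] at h3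
      have h5 : (4 * θ) * (x₀ ^ 2 - (X * (1 / 200)) ^ 2) ≤ 0 := by
        have : (4 * θ) * (x₀ ^ 2 - (X * (1 / 200)) ^ 2) =
          x₀ ^ 2 * (4 * θ) - θ * X ^ 2 / 10 ^ 4 := by ring
        linarith
      by_contra hc
      push Not at hc
      have : 0 < (4 * θ) * (x₀ ^ 2 - (X * (1 / 200)) ^ 2) := mul_pos (by linarith) (by linarith)
      linarith
    have h6 := f5_abs hX.le h4 (by norm_num)
    linarith
  have hx0' := abs_le.1 hx0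
  refine ⟨t₁ - t + x₀, u.1, θ₁, i₁.r / 2, by linarith, by linarith, ?_, ?_, ?_, ?_⟩
  · rw [← hu2]
    exact hu
  · linarith
  · have h3 : (3 * (m * X)) ^ 2 ≤ (i₁.r * θ₁) ^ 2 := by
      have h4 : (m * X) ^ 2 ≤ (101 / 100 * θ * X) ^ 2 := by
        apply pow_le_pow_left₀ (by positivity)
        exact mul_le_mul_of_nonneg_right hm hX.le
      have h5 : (101 / 100 * θ * X) ^ 2 = (101 / 100) ^ 2 * (θ * κ) := by
        rw [← hκX]
        ring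
      have h6 : 10 ^ 50 * κ * (4 * θ) ≤ (i₁.r ^ 2 * θ₁) * θ₁ :=
        mul_le_mul h2 h41 (by positivity) (by positivity)
      have h7 : (i₁.r * θ₁) ^ 2 = (i₁.r ^ 2 * θ₁) * θ₁ := by ring
      have h8 : (3 * (m * X)) ^ 2 = 9 * (m * X) ^ 2 := by ring
      have h9 : 0 < θ * κ := by positivity
      rw [h7, h8]
      have h10 : 10 ^ 50 * κ * (4 * θ) = 4 * 10 ^ 50 * (θ * κ) := by ring
      nlinarith
    have h4 := abs_le_of_sq_le_sq h3 (by positivity)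
    rw [abs_of_nonneg (by positivity)] at h4
    linarith
  · intro τ hτ
    change fr (j.ax t) j.u (t₁ - t + x₀ + τ * u.1, τ * θ₁) ∈ S
    have h3 := hp τ 0 hτ (by rw [abs_zero]; exact hi₁.h0.le)
    rw [hu2, zero_mul, sub_zero, zero_mul, add_zero, f5_fr_shift j t t₁] at h3
    have e : t₁ - t + x₀ + τ * u.1 = t₁ - t + (x₀ + τ * u.1) := by ring
    rw [e]
    exact h3


/-- [BI-F5] Supply by a wedge.
PROOF. `θ = |dt i.u j.u| ≤ 1/64`, frame `(j.ax t, j.u)`, `S' = fr (j.ax t) j.u ⁻¹' S` (`TriConn_inF`). `cross_short` for `i` at `t`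
(`near` with `4` implies `near` with `6`): `x₀`, `u`, `u.2 = θ`; `|x₀| ≤ X / 100` (`x₀² θ ≤ κ / 10 ^ 4 = θ X² / 10 ^ 4`). `m = u.2 / u.1`,
`|m| ∈ [θ, 1.01 θ]`, `≤ 1 / 50`. `X² = κ / θ ≤ i.r² / 10 ^ 50`, so `X ≤ i.r / 10 ^ 25`. `hL`: `(x, m (x - x₀))` is the point with
`s = (x - x₀) / u.1`, `v = 0`. `hth` with `H = i.h`: `(x, y)`, `δ = y - m (x - x₀)`: `s = (x - x₀)/u.1 + δ u.2`, `v = δ u.1` (note
`(0, δ) = (δ u.2) u + (δ u.1) u^⊥`), `|δ| ≤ i.h ≤ i.r / 10 ^ 20`. `hax`: the axis of `j`: `|t + x| ≤ j.r / 8 + X ≤ j.r`.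
Rungs: `cross_short` for `i₁` at `t₁` (`|t₁| ≤ j.r / 7`: `X ≤ i.r ≤ j.r / 1000`), `θ₁ = |dt i₁.u j.u| ≥ 4 θ`: `x₀'` with `x₀'² θ₁ ≤ κ / 10 ^ 4`, so
`|x₀'| ≤ X / 200`; the abscissa in the frame of `t` is `x₁ = t₁ - t + x₀' ∈ [0.59 X, 0.91 X]` (frames at `t` and `t₁` differ by the
translation `t₁ - t` along the axis); `T = i₁.r / 2`: `(T θ₁)² = i₁.r² θ₁ * θ₁ / 4 ≥ 10 ^ 50 κ θ₁ / 4 ≥ 10 ^ 50 κ θ`, and
`(3/2 |m| X)² ≤ 2.3 θ² X² = 2.3 θ κ`; `39/10 |m| ≤ 4 θ ≤ θ₁` (`|m| ≤ θ / sqrt (1 - θ²) ≤ 1.001 θ`). Likewise `i₂` at `t₂`.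
`supIb_std`. `β ≤ pz κ ε j.r = κ / (10 ^ 5 ε j.r) ≤ ε κ / (4 * 10 ^ 5 i.r) ≤ i.h` (`κ ≤ i.r i.h`), and
`β ≤ θ X / 100 = κ / (100 X)` because `X ≤ i.r ≤ ε² j.r / 4`. Finally go back to the plane: `w ↦ rel`/rotation by `j.u` preserves the
volume (`volume_preimage_fr` with `c = 0`), `fr c u (p + w') = fr c u p + R w'`; `Win κ θ (1,0) w' ↔ Win κ θ j.u (R w')`. -/
theorem supply_b {S : Set (ℝ × ℝ)} {κ ε : ℝ} {i i₁ i₂ j : Room} (hS : TriConn S) (hκ : 0 < κ)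
    (hε : 0 < ε) (hε1 : ε ≤ 1 / 10 ^ 30) (hi : DRoom S κ ε i) (hi₁ : DRoom S κ ε i₁)
    (hi₂ : DRoom S κ ε i₂) (hj : DRoom S κ ε j) (hij : i.r ≤ ε ^ 2 / 4 * j.r)
    (hij₁ : i₁.r ≤ ε ^ 2 / 4 * j.r) (hij₂ : i₂.r ≤ ε ^ 2 / 4 * j.r) {t t₁ t₂ X : ℝ}
    (ht : |t| ≤ j.r / 8) (hn : near κ ε i (j.ax t) 4) (hna : ¬ Al κ i j)
    (h64 : 64 * |dt i.u j.u| ≤ 1) (hX : 0 < X) (hκX : |dt i.u j.u| * X ^ 2 = κ)
    (ht1 : t₁ ∈ Icc (t + 3 / 5 * X) (t + 9 / 10 * X)) (hn1 : near κ ε i₁ (j.ax t₁) 6)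
    (hna1 : ¬ Al κ i₁ j) (h41 : 4 * |dt i.u j.u| ≤ |dt i₁.u j.u|)
    (ht2 : t₂ ∈ Icc (t - 9 / 10 * X) (t - 3 / 5 * X)) (hn2 : near κ ε i₂ (j.ax t₂) 6)
    (hna2 : ¬ Al κ i₂ j) (h42 : 4 * |dt i.u j.u| ≤ |dt i₂.u j.u|) :
    ∃ s : ℝ, (s = 1 ∨ s = -1) ∧ ∀ β : ℝ, 0 < β → β ≤ pz κ ε j.r →
      ENNReal.ofReal (κ / 100) ≤ volume {w : ℝ × ℝ |
        segment ℝ (fr j.c j.u (t, s * β)) (fr j.c j.u (t, s * β) + w) ⊆ S ∧
          Win κ |dt i.u j.u| j.u w} := by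
  obtain ⟨θ, hθ⟩ : ∃ θ, θ = |dt i.u j.u| := ⟨_, rfl⟩
  have hjuv := hj.uv
  have hri : 0 < i.r := by
    have h3 := hi.h0
    have h4 := hi.lo
    by_contra hc
    push Not at hc
    have := mul_nonpos_of_nonpos_of_nonneg hc h3.le
    linarith
  have hrj : 0 < j.r := by
    have h3 := hj.h0
    have h4 := hj.lo
    by_contra hc
    push Not at hc
    have := mul_nonpos_of_nonpos_of_nonneg hc h3.le
    linarith
  have hε2 : ε ^ 2 ≤ 1 := by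
    have h1 : ε ≤ 1 := hε1.trans (by norm_num)
    nlinarith
  have hirj : i.r ≤ j.r / 4 := by
    have h1 : ε ^ 2 / 4 * j.r ≤ 1 / 4 * j.r :=
      mul_le_mul_of_nonneg_right (by linarith) hrj.le
    linarith
  have hpz : 0 ≤ pz κ ε i.r := by
    unfold pz
    positivity
  have hn6 := f5_near hpz hn
  obtain ⟨-, h2, x₀, hx₀, u, hu, hu2, hp⟩ :=
    cross_short hS hκ hε hε1 hi hj hij (by linarith : |t| ≤ j.r / 7) hn6 hna
  rw [← hθ] at h2 hx₀ hu2 h64 hκX h41 h42 ⊢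
  have hθ0 : 0 < θ := by
    by_contra hc
    push Not at hc
    have := mul_nonpos_of_nonpos_of_nonneg hc (sq_nonneg X)
    linarith
  obtain ⟨hu1, hu99, hu1', hmθ, hm', hm50, hm4⟩ := f5_slope hu hθ0 hu2 h64
  obtain ⟨m, hm⟩ : ∃ m, m = u.2 / u.1 := ⟨_, rfl⟩
  rw [← hm] at hmθ hm' hm50 hm4
  have hmu : m * u.1 = u.2 := by rw [hm, div_mul_cancel₀ _ hu1]
  have hx0 : |x₀| ≤ X / 100 := by
    have h4 : x₀ ^ 2 ≤ (X * (1 / 100)) ^ 2 := by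
      rw [← hκX] at hx₀
      by_contra hc
      push Not at hc
      have h5 : 0 < θ * (x₀ ^ 2 - (X * (1 / 100)) ^ 2) := mul_pos hθ0 (by linarith)
      have : θ * (x₀ ^ 2 - (X * (1 / 100)) ^ 2) = x₀ ^ 2 * θ - θ * X ^ 2 / 10 ^ 4 := by ring
      linarith
    have h6 := f5_abs hX.le h4 (by norm_num)
    linarith
  have hXr : X ≤ i.r / 10 ^ 25 := by
    have h4 : X ^ 2 ≤ (i.r * (1 / 10 ^ 25)) ^ 2 := by
      by_contra hc
      push Not at hc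
      have h5 : 0 < θ * (X ^ 2 - (i.r * (1 / 10 ^ 25)) ^ 2) := mul_pos hθ0 (by linarith)
      have h6 : θ * (X ^ 2 - (i.r * (1 / 10 ^ 25)) ^ 2) =
          θ * X ^ 2 - i.r ^ 2 * θ / 10 ^ 50 := by ring
      have h7 : κ ≤ i.r ^ 2 * θ / 10 ^ 50 := by
        rw [le_div_iff₀ (by positivity)]
        linarith
      rw [h6, hκX] at h5
      linarith
    have h6 := f5_abs hri.le h4 (by norm_num)
    rw [abs_of_pos hX] at h6
    have h7 : i.r * (1 / 10 ^ 25) = i.r / 10 ^ 25 := by ring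
    linarith
  have hXr' : X ≤ i.r / 1000 := by
    have h1 : i.r / 10 ^ 25 ≤ i.r / 1000 := by
      rw [div_le_div_iff_of_pos_left hri (by positivity) (by positivity)]
      norm_num
    linarith
  have hx0' := abs_le.1 hx0
  have ht' := abs_le.1 ht
  have hthin : i.h ≤ i.r / 100 := by
    have h1 : i.r / 10 ^ 20 ≤ i.r / 100 := by
      rw [div_le_div_iff_of_pos_left hri (by positivity) (by positivity)]
      norm_num
    exact hi.thin.trans h1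
  have hdiv : ∀ x : ℝ, |x| ≤ 3 / 2 * X → |(x - x₀) / u.1| ≤ 2 * X := by
    intro x hx
    have hx' := abs_le.1 hx
    rw [abs_div, div_le_iff₀ (by linarith : 0 < |u.1|)]
    have h1 : |x - x₀| ≤ 151 / 100 * X := by
      rw [abs_le]
      constructor <;> linarith
    have h3 : 2 * X * (99 / 100) ≤ 2 * X * |u.1| := mul_le_mul_of_nonneg_left hu99 (by positivity)
    linarith
  have hL : ∀ x, |x| ≤ 3 / 2 * X → (x, m * (x - x₀)) ∈ fr (j.ax t) j.u ⁻¹' S := by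
    intro x hx
    have h1 := hdiv x hx
    have h3 := hp ((x - x₀) / u.1) 0 (by linarith) (by rw [abs_zero]; exact hi.h0.le)
    have e1 : x₀ + (x - x₀) / u.1 * u.1 - 0 * u.2 = x := by
      rw [div_mul_cancel₀ _ hu1]
      ring
    have e2 : (x - x₀) / u.1 * u.2 + 0 * u.1 = m * (x - x₀) := by
      rw [hm]
      ring
    rw [e1, e2] at h3
    exact h3
  have hth : ∀ x y : ℝ, |x| ≤ X → |y - m * (x - x₀)| ≤ i.h →
      (x, y) ∈ fr (j.ax t) j.u ⁻¹' S := by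
    intro x y hx hy
    have h1 := hdiv x (by linarith)
    obtain ⟨δ, hδ⟩ : ∃ δ, δ = y - m * (x - x₀) := ⟨_, rfl⟩
    rw [← hδ] at hy
    have hu2' : |u.2| ≤ 1 := by
      rw [hu2, abs_of_pos hθ0]
      linarith
    have h4 : |δ * u.2| ≤ i.h := by
      rw [abs_mul]
      calc |δ| * |u.2| ≤ |δ| * 1 := mul_le_mul_of_nonneg_left hu2' (abs_nonneg _)
        _ = |δ| := mul_one _
        _ ≤ i.h := hy
    have h5 : |δ * u.1| ≤ i.h := by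
      rw [abs_mul]
      calc |δ| * |u.1| ≤ |δ| * 1 := mul_le_mul_of_nonneg_left hu1' (abs_nonneg _)
        _ = |δ| := mul_one _
        _ ≤ i.h := hy
    have h6 : |(x - x₀) / u.1 + δ * u.2| ≤ i.r / 2 := by
      refine (abs_add_le _ _).trans ?_
      linarith
    have h3 := hp ((x - x₀) / u.1 + δ * u.2) (δ * u.1) h6 h5
    unfold UV at hu
    have e1 : x₀ + ((x - x₀) / u.1 + δ * u.2) * u.1 - δ * u.1 * u.2 = x := by
      have : (x - x₀) / u.1 * u.1 = x - x₀ := div_mul_cancel₀ _ hu1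
      linear_combination this
    have e2 : ((x - x₀) / u.1 + δ * u.2) * u.2 + δ * u.1 * u.1 = y := by
      have h7 : (x - x₀) / u.1 * u.2 = m * (x - x₀) := by
        rw [hm]
        ring
      linear_combination h7 + δ * hu + hδ
    rw [e1, e2] at h3
    exact h3
  have hax : ∀ x, |x| ≤ X → (x, (0 : ℝ)) ∈ fr (j.ax t) j.u ⁻¹' S := by
    intro x hx
    change fr (j.ax t) j.u (x, 0) ∈ S
    rw [f5_fr_ax]
    have hx' := abs_le.1 hx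
    refine hj.rect (t + x) 0 ?_ (by rw [abs_zero]; exact hj.h0.le)
    rw [abs_le]
    constructor <;> linarith
  have hR : RungIn (fr (j.ax t) j.u ⁻¹' S) X |m| (59 / 100 * X) (91 / 100 * X) := by
    refine f5_rung hS hκ hε hε1 hi₁ hj hij₁ (t := t) (t₁ := t₁) ?_ hθ0 hX hκX hn1 hna1 h41
      (abs_nonneg m) hm' hm4 ?_ ?_
    · rw [abs_le]
      constructor <;> linarith [ht1.1, ht1.2]
    · linarith [ht1.1]
    · linarith [ht1.2]
  have hR' : RungIn (fr (j.ax t) j.u ⁻¹' S) X |m| (-(91 / 100 * X)) (-(59 / 100 * X)) := by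
    refine f5_rung hS hκ hε hε1 hi₂ hj hij₂ (t := t) (t₁ := t₂) ?_ hθ0 hX hκX hn2 hna2 h42
      (abs_nonneg m) hm' hm4 ?_ ?_
    · rw [abs_le]
      constructor <;> linarith [ht2.1, ht2.2]
    · linarith [ht2.1]
    · linarith [ht2.2]
  obtain ⟨s, hs, key⟩ := supIb_std (TriConn_inF hS hjuv (c := j.ax t)) hκ hθ0 hX hκX hmθ hm' hm50
    hx0 hax hL hth hR hR'
  refine ⟨s, hs, fun β hβ hβp => ?_⟩
  -- the two bounds for `β`
  have hβh : β ≤ i.h := by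
    have h1 : pz κ ε j.r ≤ i.h := by
      unfold pz
      rw [div_le_iff₀ (by positivity)]
      have h3 : i.r * 4 ≤ ε ^ 2 * j.r := by linarith
      have h4 : κ ≤ i.r * i.h := hi.lo
      have h5 : i.r ≤ ε * j.r := by
        have h6 : ε ^ 2 * j.r ≤ ε * j.r := by
          have h7 : ε ^ 2 ≤ ε := by
            have h8 : ε ≤ 1 := hε1.trans (by norm_num)
            nlinarith
          exact mul_le_mul_of_nonneg_right h7 hrj.le
        linarith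
      have h6 : i.r * i.h ≤ (ε * j.r) * i.h := mul_le_mul_of_nonneg_right h5 hi.h0.le
      have h7 : 0 ≤ (ε * j.r) * i.h := by
        have := hi.h0
        positivity
      have h8 : i.h * (10 ^ 5 * ε * j.r) = 10 ^ 5 * ((ε * j.r) * i.h) := by ring
      rw [h8]
      linarith
    linarith
  have hβθ : β ≤ θ * X / 100 := by
    have h1 : pz κ ε j.r ≤ θ * X / 100 := by
      unfold pz
      rw [div_le_iff₀ (by positivity)]
      have h3 : X ≤ ε * j.r := by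
        have h4 : i.r * 4 ≤ ε ^ 2 * j.r := by linarith
        have h6 : ε ^ 2 * j.r ≤ ε * j.r := by
          have h7 : ε ^ 2 ≤ ε := by
            have h8 : ε ≤ 1 := hε1.trans (by norm_num)
            nlinarith
          exact mul_le_mul_of_nonneg_right h7 hrj.le
        linarith
      have h4 : κ = θ * X * X := by rw [← hκX]; ring
      have h5 : θ * X * X ≤ θ * X * (ε * j.r) := mul_le_mul_of_nonneg_left h3 (by positivity)
      have h6 : θ * X / 100 * (10 ^ 5 * ε * j.r) = 1000 * (θ * X * (ε * j.r)) := by ring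
      have h7 : 0 ≤ θ * X * (ε * j.r) := by positivity
      rw [h6]
      linarith
    linarith
  refine (key β hβ hβh hβθ).trans ?_
  rw [← volume_preimage_fr (c := (0, 0)) hjuv {w : ℝ × ℝ |
        segment ℝ (fr j.c j.u (t, s * β)) (fr j.c j.u (t, s * β) + w) ⊆ S ∧ Win κ θ j.u w}]
  refine measure_mono ?_
  rintro w ⟨hw1, hw2⟩
  refine ⟨?_, f5_win hjuv hw2⟩
  have h1 := segment_inF.1 hw1
  rw [f5_fr_add j t (s * β) w, f5_fr_ax, add_zero] at h1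
  exact h1

end Pool.Agent.BI
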