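import Pool.Agent.BI.C3
import Pool.Agent.BI.C4
import Pool.Agent.BI.A7

set_option autoImplicit false

open MeasureTheory Set
open scoped ENNReal

namespace Pool.Agent.BI

/-- numerical facts -/
theorem f6_num {S : Set (ℝ × ℝ)} {κ ε r h : ℝ} (H : StdD S κ ε r h) {u : ℝ × ℝ} (hu : UV u)
    (hu1 : 0 < u.1) (hu2 : |u.2| ≤ 10 ^ 17 * κ / r ^ 2) :
    0 < r ∧ 0 < κ / r ∧ κ / r ≤ h ∧ h ≤ 2 * (κ / r) ∧ κ / r ≤ r / 10 ^ 50 ∧ |u.2| ≤ 1 / 10 ^ 30 ∧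
      99 / 100 ≤ u.1 ∧ u.1 ≤ 1 ∧ |u.2| ≤ 10 ^ 17 * (κ / r) / r := by
  obtain ⟨hr, -, hκr, -, -, -, -, -, -⟩ := H.facts
  have hκ := H.κ0
  have hε2 : ε ^ 2 ≤ 1 / 10 ^ 60 := by
    have h1 : ε ^ 2 ≤ (1 / 10 ^ 30) ^ 2 := pow_le_pow_left₀ H.ε0.le H.ε1 2
    calc ε ^ 2 ≤ (1 / 10 ^ 30) ^ 2 := h1
      _ = 1 / 10 ^ 60 := by norm_num
  have h1 : κ / r ≤ r / 10 ^ 50 := by
    rw [div_le_iff₀ hr]
    have h2 : 4 * ε ^ 2 * r ^ 2 ≤ 4 * (1 / 10 ^ 60) * r ^ 2 := by gcongr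
    have h3 : 4 * (1 / 10 ^ 60) * r ^ 2 ≤ r / 10 ^ 50 * r := by
      have h4 : (0 : ℝ) ≤ r ^ 2 := by positivity
      have h5 : r / 10 ^ 50 * r = r ^ 2 / 10 ^ 50 := by ring
      rw [h5]
      have h6 : 4 * (1 / 10 ^ 60) * r ^ 2 = (4 / 10 ^ 60) * r ^ 2 := by ring
      have h7 : r ^ 2 / 10 ^ 50 = (1 / 10 ^ 50) * r ^ 2 := by ring
      rw [h6, h7]
      exact mul_le_mul_of_nonneg_right (by norm_num) h4
    linarith
  have hu2' : |u.2| ≤ 10 ^ 17 * (κ / r) / r := by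
    have h2 : 10 ^ 17 * (κ / r) / r = 10 ^ 17 * κ / r ^ 2 := by
      field_simp
    rw [h2]
    exact hu2
  have hu3 : |u.2| ≤ 1 / 10 ^ 30 := by
    refine hu2'.trans ?_
    rw [div_le_iff₀ hr]
    have h2 : 10 ^ 17 * (κ / r) ≤ 10 ^ 17 * (r / 10 ^ 50) := by gcongr
    have h3 : 10 ^ 17 * (r / 10 ^ 50) = (1 / 10 ^ 33) * r := by ring
    have h4 : (1 / 10 ^ 33) * r ≤ 1 / 10 ^ 30 * r := mul_le_mul_of_nonneg_right (by norm_num) hr.le
    linarith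
  unfold UV at hu
  have hu4 : u.2 ^ 2 ≤ 1 / 100 := by
    have h2 : u.2 ^ 2 = |u.2| ^ 2 := (sq_abs _).symm
    rw [h2]
    have h3 : |u.2| ^ 2 ≤ (1 / 10 ^ 30) ^ 2 := pow_le_pow_left₀ (abs_nonneg _) hu3 2
    exact h3.trans (by norm_num)
  have hu5 : u.1 ≤ 1 := by nlinarith [sq_nonneg u.2]
  have hu6 : 99 / 100 ≤ u.1 := by nlinarith
  refine ⟨hr, by positivity, ?_, ?_, h1, hu3, hu6, hu5, hu2'⟩
  · rw [div_le_iff₀ hr]
    linarith [H.lo, mul_comm r h]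
  · have h2 : h * r ≤ 2 * κ := by linarith [H.hi, mul_comm r h]
    have h3 : 2 * (κ / r) = 2 * κ / r := by ring
    rw [h3, le_div_iff₀ hr]
    exact h2

/-- the window -/
theorem f6_win {κ r x y : ℝ} {u : ℝ × ℝ} (hr : 0 < r) (hk : 0 < κ / r)
    (hk1 : κ / r ≤ r / 10 ^ 50) (hu1 : 0 < u.1) (hu1' : u.1 ≤ 1)
    (hu2 : |u.2| ≤ 10 ^ 17 * (κ / r) / r) (hx : 14 / 100 * r ≤ |x|) (hx' : |x| ≤ 31 / 100 * r)
    (hy : |y| ≤ 2 * 10 ^ 18 * (κ / r)) : Win κ (κ / r ^ 2) u (x, y) := by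
  obtain ⟨k, hkk⟩ : ∃ k, k = κ / r := ⟨_, rfl⟩
  have hκ : κ = k * r := by rw [hkk]; field_simp
  have hθ : κ / r ^ 2 = k / r := by rw [hκ]; field_simp
  rw [← hkk] at hk hk1 hu2 hy
  have hx2 : 196 / 10000 * r ^ 2 ≤ x ^ 2 := by
    rw [← sq_abs x]
    have := pow_le_pow_left₀ (by positivity) hx 2
    nlinarith
  have hx2' : x ^ 2 ≤ 961 / 10000 * r ^ 2 := by
    rw [← sq_abs x]
    have := pow_le_pow_left₀ (abs_nonneg x) hx' 2
    nlinarith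
  have hy2 : y ^ 2 ≤ (2 * 10 ^ 18 * k) ^ 2 := by
    rw [← sq_abs y]
    exact pow_le_pow_left₀ (abs_nonneg y) hy 2
  have hy3 : y ^ 2 ≤ 1 / 100 * r ^ 2 := by
    have h1 : 2 * 10 ^ 18 * k ≤ r / 10 := by
      have h2 : 2 * 10 ^ 18 * k ≤ 2 * 10 ^ 18 * (r / 10 ^ 50) := by gcongr
      have h3 : 2 * 10 ^ 18 * (r / 10 ^ 50) = (2 / 10 ^ 32) * r := by ring
      have h4 : (2 / 10 ^ 32) * r ≤ (1 / 10) * r := mul_le_mul_of_nonneg_right (by norm_num) hr.le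
      linarith
    have h5 := pow_le_pow_left₀ (by positivity) h1 2
    nlinarith
  have hr2 : 0 < r ^ 2 := by positivity
  rw [hθ]
  refine ⟨?_, ?_, ?_⟩
  · change κ / 100 ≤ k / r * (x ^ 2 + y ^ 2)
    have h1 : k / r * (196 / 10000 * r ^ 2) ≤ k / r * (x ^ 2 + y ^ 2) := by
      apply mul_le_mul_of_nonneg_left _ (by positivity)
      nlinarith [sq_nonneg y]
    have h2 : k / r * (196 / 10000 * r ^ 2) = 196 / 10000 * (k * r) := by
      field_simp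
    have h3 : 0 < k * r := by positivity
    rw [hκ]
    linarith
  · change k / r * (x ^ 2 + y ^ 2) ≤ κ / 4
    have h1 : k / r * (x ^ 2 + y ^ 2) ≤ k / r * (1 / 4 * r ^ 2) := by
      apply mul_le_mul_of_nonneg_left _ (by positivity)
      nlinarith
    have h2 : k / r * (1 / 4 * r ^ 2) = 1 / 4 * (k * r) := by
      field_simp
    rw [hκ]
    linarith
  · change dt u (x, y) ^ 2 ≤ 10 ^ 40 * (k / r) ^ 2 * (x ^ 2 + y ^ 2)
    have h1 : |dt u (x, y)| ≤ 3 * 10 ^ 18 * k := by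
      have e : dt u (x, y) = u.1 * y - u.2 * x := rfl
      rw [e]
      have h2 : |u.1 * y - u.2 * x| ≤ |u.1 * y| + |u.2 * x| := abs_sub _ _
      have h3 : |u.1 * y| ≤ 2 * 10 ^ 18 * k := by
        rw [abs_mul, abs_of_pos hu1]
        calc u.1 * |y| ≤ 1 * |y| := mul_le_mul_of_nonneg_right hu1' (abs_nonneg y)
          _ = |y| := one_mul _
          _ ≤ _ := hy
      have h4 : |u.2 * x| ≤ 10 ^ 18 * k := by
        rw [abs_mul]
        calc |u.2| * |x| ≤ (10 ^ 17 * k / r) * (31 / 100 * r) :=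
              mul_le_mul hu2 hx' (abs_nonneg x) (by positivity)
          _ = 31 / 100 * (10 ^ 17 * k) := by field_simp
          _ ≤ 10 ^ 18 * k := by nlinarith
      linarith
    have h5 : dt u (x, y) ^ 2 ≤ (3 * 10 ^ 18 * k) ^ 2 := by
      rw [← sq_abs]
      exact pow_le_pow_left₀ (abs_nonneg _) h1 2
    have h6 : 10 ^ 40 * (k / r) ^ 2 * (196 / 10000 * r ^ 2) ≤
        10 ^ 40 * (k / r) ^ 2 * (x ^ 2 + y ^ 2) := by
      apply mul_le_mul_of_nonneg_left _ (by positivity)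
      nlinarith [sq_nonneg y]
    have h7 : 10 ^ 40 * (k / r) ^ 2 * (196 / 10000 * r ^ 2) = 10 ^ 40 * (196 / 10000) * k ^ 2 := by
      field_simp
    have h8 : (3 * 10 ^ 18 * k) ^ 2 ≤ 10 ^ 40 * (196 / 10000) * k ^ 2 := by
      have h9 : 0 ≤ k ^ 2 := sq_nonneg k
      have h10 : (3 * 10 ^ 18 * k) ^ 2 = 9 * 10 ^ 36 * k ^ 2 := by ring
      rw [h10]
      exact mul_le_mul_of_nonneg_right (by norm_num) h9
    linarith

/-- a rectangle of vectors is seen from `p` -/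
def f6_P (S : Set (ℝ × ℝ)) (κ r : ℝ) (u p : ℝ × ℝ) : Prop :=
  ∃ a1 b1 a2 b2 : ℝ, a1 ≤ b1 ∧ a2 ≤ b2 ∧ κ / 100 ≤ (b1 - a1) * (b2 - a2) ∧
    ∀ x y : ℝ, a1 ≤ x → x ≤ b1 → a2 ≤ y → y ≤ b2 →
      segment ℝ p (p.1 + x, p.2 + y) ⊆ S ∧ Win κ (κ / r ^ 2) u (x, y)

theorem f6_vol {S : Set (ℝ × ℝ)} {κ r : ℝ} {u p : ℝ × ℝ} (h : f6_P S κ r u p) :
    ENNReal.ofReal (κ / 100) ≤ volume {w : ℝ × ℝ |
      segment ℝ p (p.1 + w.1, p.2 + w.2) ⊆ S ∧ Win κ (κ / r ^ 2) u w} := by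
  obtain ⟨a1, b1, a2, b2, h1, h2, h3, h4⟩ := h
  have hsub : Icc a1 b1 ×ˢ Icc a2 b2 ⊆ {w : ℝ × ℝ |
      segment ℝ p (p.1 + w.1, p.2 + w.2) ⊆ S ∧ Win κ (κ / r ^ 2) u w} := by
    rintro ⟨x, y⟩ ⟨hx, hy⟩
    exact h4 x y hx.1 hx.2 hy.1 hy.2
  refine le_trans ?_ (measure_mono hsub)
  rw [Measure.volume_eq_prod, Measure.prod_prod, Real.volume_Icc, Real.volume_Icc,
    ← ENNReal.ofReal_mul (by linarith)]
  exact ENNReal.ofReal_le_ofReal h3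

theorem f6_seg_flipx {S : Set (ℝ × ℝ)} {p q : ℝ × ℝ}
    (h : segment ℝ (-p.1, p.2) (-q.1, q.2) ⊆ flipx S) : segment ℝ p q ⊆ S := by
  rintro z ⟨a, b, ha, hb, hab, rfl⟩
  have h1 : a • ((-p.1, p.2) : ℝ × ℝ) + b • ((-q.1, q.2) : ℝ × ℝ) ∈ flipx S :=
    h ⟨a, b, ha, hb, hab, rfl⟩
  have h2 : (-(a • ((-p.1, p.2) : ℝ × ℝ) + b • ((-q.1, q.2) : ℝ × ℝ)).1,
      (a • ((-p.1, p.2) : ℝ × ℝ) + b • ((-q.1, q.2) : ℝ × ℝ)).2) ∈ S := h1
  have h3 : a • p + b • q = (-(a • ((-p.1, p.2) : ℝ × ℝ) + b • ((-q.1, q.2) : ℝ × ℝ)).1,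
      (a • ((-p.1, p.2) : ℝ × ℝ) + b • ((-q.1, q.2) : ℝ × ℝ)).2) := by
    ext
    · simp
      ring
    · simp
  rw [h3]
  exact h2

theorem f6_seg_flipy {S : Set (ℝ × ℝ)} {p q : ℝ × ℝ}
    (h : segment ℝ (p.1, -p.2) (q.1, -q.2) ⊆ flipy S) : segment ℝ p q ⊆ S := by
  rintro z ⟨a, b, ha, hb, hab, rfl⟩
  have h1 : a • ((p.1, -p.2) : ℝ × ℝ) + b • ((q.1, -q.2) : ℝ × ℝ) ∈ flipy S :=
    h ⟨a, b, ha, hb, hab, rfl⟩
  have h2 : ((a • ((p.1, -p.2) : ℝ × ℝ) + b • ((q.1, -q.2) : ℝ × ℝ)).1,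
      -(a • ((p.1, -p.2) : ℝ × ℝ) + b • ((q.1, -q.2) : ℝ × ℝ)).2) ∈ S := h1
  have h3 : a • p + b • q = ((a • ((p.1, -p.2) : ℝ × ℝ) + b • ((q.1, -q.2) : ℝ × ℝ)).1,
      -(a • ((p.1, -p.2) : ℝ × ℝ) + b • ((q.1, -q.2) : ℝ × ℝ)).2) := by
    ext
    · simp
    · simp
      ring
  rw [h3]
  exact h2

theorem f6_flipx {S : Set (ℝ × ℝ)} {κ r : ℝ} {u p : ℝ × ℝ}
    (h : f6_P (flipx S) κ r (u.1, -u.2) (-p.1, p.2)) : f6_P S κ r u p := by
  obtain ⟨a1, b1, a2, b2, h1, h2, h3, h4⟩ := h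
  refine ⟨-b1, -a1, a2, b2, by linarith, h2, by linarith, ?_⟩
  intro x y hx hx' hy hy'
  obtain ⟨h5, h6⟩ := h4 (-x) y (by linarith) (by linarith) hy hy'
  refine ⟨f6_seg_flipx ?_, ?_⟩
  · have e : (-(p.1 + x, p.2 + y).1, (p.1 + x, p.2 + y).2) =
        (((-p.1, p.2) : ℝ × ℝ).1 + -x, ((-p.1, p.2) : ℝ × ℝ).2 + y) := by
      ext <;> simp
      ring
    rw [e]
    exact h5
  · obtain ⟨w1, w2, w3⟩ := h6
    unfold Win dt at *
    simp only [neg_sq, mul_neg, neg_mul, neg_neg] at *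
    exact ⟨w1, w2, by simpa using w3⟩

theorem f6_flipy {S : Set (ℝ × ℝ)} {κ r : ℝ} {u p : ℝ × ℝ}
    (h : f6_P (flipy S) κ r (u.1, -u.2) (p.1, -p.2)) : f6_P S κ r u p := by
  obtain ⟨a1, b1, a2, b2, h1, h2, h3, h4⟩ := h
  refine ⟨a1, b1, -b2, -a2, h1, by linarith, by linarith, ?_⟩
  intro x y hx hx' hy hy'
  obtain ⟨h5, h6⟩ := h4 x (-y) hx hx' (by linarith) (by linarith)
  refine ⟨f6_seg_flipy ?_, ?_⟩
  · have e : ((p.1 + x, p.2 + y).1, -(p.1 + x, p.2 + y).2) =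
        (((p.1, -p.2) : ℝ × ℝ).1 + x, ((p.1, -p.2) : ℝ × ℝ).2 + -y) := by
      ext <;> simp
      ring
    rw [e]
    exact h5
  · obtain ⟨w1, w2, w3⟩ := h6
    unfold Win dt at *
    simp only [neg_sq, mul_neg, neg_mul] at *
    refine ⟨w1, w2, ?_⟩
    have e : (u.1 * y - u.2 * x) ^ 2 = (-(u.1 * y) - -(u.2 * x)) ^ 2 := by ring
    rw [e]
    exact w3

theorem f6_convex (c d A σ : ℝ) :
    Convex ℝ {p : ℝ × ℝ | c ≤ p.1 ∧ p.1 ≤ d ∧ 0 ≤ p.2 ∧ p.2 ≤ A + σ * p.1} := by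
  rintro p ⟨hp1, hp2, hp3, hp4⟩ q ⟨hq1, hq2, hq3, hq4⟩ a b ha hb hab
  have e1 : (a • p + b • q).1 = a * p.1 + b * q.1 := rfl
  have e2 : (a • p + b • q).2 = a * p.2 + b * q.2 := rfl
  refine ⟨?_, ?_, ?_, ?_⟩
  · rw [e1]
    have h1 := mul_le_mul_of_nonneg_left hp1 ha
    have h2 := mul_le_mul_of_nonneg_left hq1 hb
    have h3 : c = a * c + b * c := by rw [← add_mul, hab, one_mul]
    linarith
  · rw [e1]
    have h1 := mul_le_mul_of_nonneg_left hp2 ha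
    have h2 := mul_le_mul_of_nonneg_left hq2 hb
    have h3 : d = a * d + b * d := by rw [← add_mul, hab, one_mul]
    linarith
  · rw [e2]
    exact add_nonneg (mul_nonneg ha hp3) (mul_nonneg hb hq3)
  · rw [e1, e2]
    have h1 := mul_le_mul_of_nonneg_left hp4 ha
    have h2 := mul_le_mul_of_nonneg_left hq4 hb
    have h3 : A = a * A + b * A := by rw [← add_mul, hab, one_mul]
    have h4 : A + σ * (a * p.1 + b * q.1) = a * (A + σ * p.1) + b * (A + σ * q.1) := by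
      linear_combination h3
    linarith

theorem f6_convex_rect (c d h : ℝ) :
    Convex ℝ {p : ℝ × ℝ | c ≤ p.1 ∧ p.1 ≤ d ∧ -h ≤ p.2 ∧ p.2 ≤ h} := by
  rintro p ⟨hp1, hp2, hp3, hp4⟩ q ⟨hq1, hq2, hq3, hq4⟩ a b ha hb hab
  have e1 : (a • p + b • q).1 = a * p.1 + b * q.1 := rfl
  have e2 : (a • p + b • q).2 = a * p.2 + b * q.2 := rfl
  have key : ∀ c : ℝ, c = a * c + b * c := fun c => by rw [← add_mul, hab, one_mul]
  refine ⟨?_, ?_, ?_, ?_⟩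
  · rw [e1]
    linarith [mul_le_mul_of_nonneg_left hp1 ha, mul_le_mul_of_nonneg_left hq1 hb, key c]
  · rw [e1]
    linarith [mul_le_mul_of_nonneg_left hp2 ha, mul_le_mul_of_nonneg_left hq2 hb, key d]
  · rw [e2]
    linarith [mul_le_mul_of_nonneg_left hp3 ha, mul_le_mul_of_nonneg_left hq3 hb, key (-h)]
  · rw [e2]
    linarith [mul_le_mul_of_nonneg_left hp4 ha, mul_le_mul_of_nonneg_left hq4 hb, key h]

/-- the chord -/
theorem f6_chord {S : Set (ℝ × ℝ)} {κ ε r h : ℝ} (H : StdD S κ ε r h) {s u : ℝ × ℝ} (hu : UV u)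
    (hu1 : 0 < u.1) (hu2 : |u.2| ≤ 10 ^ 17 * κ / r ^ 2) (hs : |s.1| ≤ r / 7)
    (hs2 : 4000 * |s.2| ≤ pst κ ε r)
    (hc : ∀ τ, |τ| ≤ 2 * r → (s.1 + τ * u.1, s.2 + τ * u.2) ∈ S) :
    ∃ A σ : ℝ, σ * u.1 = u.2 ∧ A + σ * s.1 = s.2 ∧ (∀ x, |x| ≤ r / 2 → (x, A + σ * x) ∈ S) ∧
      (∀ x, |x| ≤ r / 2 → 1000 * |A + σ * x| ≤ pst κ ε r) ∧ |s.2| ≤ 10 ^ 18 * (κ / r) := by
  obtain ⟨hr, hk, hkh, hhk, hk1, hu3, hu4, hu5, hu6⟩ := f6_num H hu hu1 hu2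
  have hu1' : u.1 ≠ 0 := hu1.ne'
  have hs' := abs_le.1 hs
  have hσ1 : u.2 / u.1 * u.1 = u.2 := div_mul_cancel₀ _ hu1'
  have hσabs : |u.2 / u.1| * r ≤ 2 * 10 ^ 17 * (κ / r) := by
    rw [abs_div, abs_of_pos hu1, div_mul_eq_mul_div, div_le_iff₀ hu1]
    have h1 : |u.2| * r ≤ 10 ^ 17 * (κ / r) := by
      have h2 := mul_le_mul_of_nonneg_right hu6 hr.le
      rwa [div_mul_cancel₀ _ hr.ne'] at h2
    have h3 : 2 * 10 ^ 17 * (κ / r) * (99 / 100) ≤ 2 * 10 ^ 17 * (κ / r) * u.1 :=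
      mul_le_mul_of_nonneg_left hu4 (by positivity)
    linarith
  have hxs : ∀ x, |x| ≤ r / 2 → |x - s.1| ≤ r := by
    intro x hx
    have := abs_le.1 hx
    rw [abs_le]
    constructor <;> linarith
  have hpst : 10 ^ 59 * (κ / r) ≤ pst κ ε r := by
    have hε := H.ε0
    have h0 : pst κ ε r = κ / r / (4 * ε ^ 2) := by
      unfold pst
      field_simp
    rw [h0, le_div_iff₀ (by positivity)]
    have hε2 : ε ^ 2 ≤ 1 / 10 ^ 60 := by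
      have h1 : ε ^ 2 ≤ (1 / 10 ^ 30) ^ 2 := pow_le_pow_left₀ H.ε0.le H.ε1 2
      calc ε ^ 2 ≤ (1 / 10 ^ 30) ^ 2 := h1
        _ = 1 / 10 ^ 60 := by norm_num
    have h1 : 10 ^ 59 * (κ / r) * (4 * ε ^ 2) ≤ 10 ^ 59 * (κ / r) * (4 * (1 / 10 ^ 60)) := by
      gcongr
    have h2 : 10 ^ 59 * (κ / r) * (4 * (1 / 10 ^ 60)) = 4 / 10 * (κ / r) := by ring
    linarith
  have hchord : ∀ x, |x| ≤ r / 2 → (x, s.2 - u.2 / u.1 * s.1 + u.2 / u.1 * x) ∈ S := by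
    intro x hx
    have h1 := hc ((x - s.1) / u.1) (by
      rw [abs_div, abs_of_pos hu1, div_le_iff₀ hu1]
      have h2 := hxs x hx
      have h3 : 2 * r * (99 / 100) ≤ 2 * r * u.1 := mul_le_mul_of_nonneg_left hu4 (by positivity)
      linarith)
    have e1 : s.1 + (x - s.1) / u.1 * u.1 = x := by
      rw [div_mul_cancel₀ _ hu1']
      ring
    have e2 : s.2 + (x - s.1) / u.1 * u.2 = s.2 - u.2 / u.1 * s.1 + u.2 / u.1 * x := by ring
    rw [e1, e2] at h1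
    exact h1
  have hlow : ∀ x, |x| ≤ r / 2 →
      1000 * |s.2 - u.2 / u.1 * s.1 + u.2 / u.1 * x| ≤ pst κ ε r := by
    intro x hx
    have e1 : s.2 - u.2 / u.1 * s.1 + u.2 / u.1 * x = s.2 + u.2 / u.1 * (x - s.1) := by ring
    rw [e1]
    have h1 : |s.2 + u.2 / u.1 * (x - s.1)| ≤ |s.2| + |u.2 / u.1| * |x - s.1| := by
      refine (abs_add_le _ _).trans ?_
      rw [abs_mul]
    have h2 : |u.2 / u.1| * |x - s.1| ≤ |u.2 / u.1| * r :=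
      mul_le_mul_of_nonneg_left (hxs x hx) (abs_nonneg _)
    have h3 : 1000 * (2 * 10 ^ 17 * (κ / r)) ≤ 1 / 2 * (10 ^ 59 * (κ / r)) := by nlinarith
    linarith
  refine ⟨s.2 - u.2 / u.1 * s.1, u.2 / u.1, hσ1, by ring, hchord, hlow, ?_⟩
  have hmem : ∀ x ∈ Icc (-(r / 2)) (r / 2), |x| ≤ r / 2 := fun x hx => abs_le.2 hx
  have hcl := (StdD.close H (le_refl _) (le_refl _) (by linarith)
    (fun x hx => hchord x (hmem x hx)) (fun x hx => hlow x (hmem x hx))).2 s.1 (by linarith)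
  have e1 : s.2 - u.2 / u.1 * s.1 + u.2 / u.1 * s.1 = s.2 := by ring
  rw [e1] at hcl
  have e2 : 10 ^ 18 * κ / r = 10 ^ 18 * (κ / r) := by ring
  rwa [e2] at hcl

theorem f6_pos {S : Set (ℝ × ℝ)} {κ ε r h : ℝ} (H : StdD S κ ε r h) {s u : ℝ × ℝ} (hu : UV u)
    (hu1 : 0 < u.1) (hu2 : |u.2| ≤ 10 ^ 17 * κ / r ^ 2) (hs : |s.1| ≤ r / 7)
    (hs2 : 4000 * |s.2| ≤ pst κ ε r)
    (hc : ∀ τ, |τ| ≤ 2 * r → (s.1 + τ * u.1, s.2 + τ * u.2) ∈ S) (hp : h / 2 < s.2)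
    (hu0 : 0 ≤ u.2) {β : ℝ} (hβ : 0 < β) (hβh : β ≤ h / 8) :
    f6_P S κ r u (s.1 + β * u.2, s.2 - β * u.1) := by
  obtain ⟨hr, hk, hkh, hhk, hk1, hu3, hu4, hu5, hu6⟩ := f6_num H hu hu1 hu2
  obtain ⟨A, σ, hσ, hA, hchord, hlow, hs2k⟩ := f6_chord H hu hu1 hu2 hs hs2 hc
  have hh := H.h0
  have hσ0 : 0 ≤ σ := by
    by_contra hc
    push Not at hc
    have := mul_neg_of_neg_of_pos hc hu1
    linarith
  have hW : ∀ {x y : ℝ}, s.1 ≤ x → x ≤ s.1 + r / 4 → 0 ≤ y → y ≤ A + σ * x → (x, y) ∈ S :=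
    fun hx0 hx1 hy0 hy1 => StdD.wedge H hσ0 hs (by rw [hA]; linarith) hchord
      (fun x hx => (mul_le_mul_of_nonneg_left (le_abs_self _) (by norm_num)).trans (hlow x hx))
      hx0 hx1 hy0 hy1
  have hthin : h ≤ r / 10 ^ 20 := H.thin
  have hhr : h ≤ r / 10 ^ 10 := by
    have : r / 10 ^ 20 ≤ r / 10 ^ 10 := by
      rw [div_le_div_iff_of_pos_left hr (by positivity) (by positivity)]
      norm_num
    linarith
  have hβu0 : 0 ≤ β * u.2 := mul_nonneg hβ.le hu0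
  have hu21 : u.2 ≤ 1 := by
    have := (abs_le.1 hu3).2
    have h2 : (1 : ℝ) / 10 ^ 30 ≤ 1 := by norm_num
    linarith
  have hβu : β * u.2 ≤ r / 100 := by
    have h1 : β * u.2 ≤ β * 1 := mul_le_mul_of_nonneg_left hu21 hβ.le
    linarith
  have hβu1 : β * u.1 ≤ β := by
    have h1 : β * u.1 ≤ β * 1 := mul_le_mul_of_nonneg_left hu5 hβ.le
    linarith
  have hβu10 : 0 < β * u.1 := mul_pos hβ hu1
  have hs2k' := abs_le.1 hs2k
  refine ⟨15 / 100 * r - β * u.2, 24 / 100 * r - β * u.2, -(s.2 - β * u.1),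
    h / 4 - (s.2 - β * u.1), by linarith, by linarith, ?_, ?_⟩
  · have h1 : (24 / 100 * r - β * u.2 - (15 / 100 * r - β * u.2)) *
        (h / 4 - (s.2 - β * u.1) - -(s.2 - β * u.1)) = 9 / 400 * (r * h) := by ring
    rw [h1]
    have := H.lo
    have := H.κ0
    linarith
  · intro x y hx hx' hy hy'
    constructor
    · have hD := f6_convex s.1 (s.1 + r / 4) A σ
      have hsub : {p : ℝ × ℝ | s.1 ≤ p.1 ∧ p.1 ≤ s.1 + r / 4 ∧ 0 ≤ p.2 ∧ p.2 ≤ A + σ * p.1} ⊆ S := by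
        rintro ⟨X, Y⟩ ⟨h1, h2, h3, h4⟩
        exact hW h1 h2 h3 h4
      refine (hD.segment_subset ?_ ?_).trans hsub
      · refine ⟨?_, ?_, ?_, ?_⟩
        · change s.1 ≤ s.1 + β * u.2
          linarith
        · change s.1 + β * u.2 ≤ s.1 + r / 4
          linarith
        · change 0 ≤ s.2 - β * u.1
          linarith
        · change s.2 - β * u.1 ≤ A + σ * (s.1 + β * u.2)
          have h1 : 0 ≤ σ * (β * u.2) := mul_nonneg hσ0 hβu0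
          have h2 : A + σ * (s.1 + β * u.2) = s.2 + σ * (β * u.2) := by
            linear_combination hA
          linarith
      · refine ⟨?_, ?_, ?_, ?_⟩
        · change s.1 ≤ s.1 + β * u.2 + x
          linarith
        · change s.1 + β * u.2 + x ≤ s.1 + r / 4
          linarith
        · change 0 ≤ s.2 - β * u.1 + y
          linarith
        · change s.2 - β * u.1 + y ≤ A + σ * (s.1 + β * u.2 + x)
          have h1 : 0 ≤ σ * (β * u.2 + x) := mul_nonneg hσ0 (by linarith)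
          have h2 : A + σ * (s.1 + β * u.2 + x) = s.2 + σ * (β * u.2 + x) := by
            linear_combination hA
          linarith
    · have hx0 : 0 < x := by linarith
      refine f6_win hr hk hk1 hu1 hu5 hu6 ?_ ?_ ?_
      · rw [abs_of_pos hx0]
        linarith
      · rw [abs_of_pos hx0]
        linarith
      · rw [abs_le]
        have h1 : 2 * 10 ^ 18 * (κ / r) = 10 ^ 18 * (κ / r) + 10 ^ 18 * (κ / r) := by ring
        have h2 : h ≤ 10 ^ 18 * (κ / r) := by nlinarith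
        constructor <;> linarith

theorem f6_up {S : Set (ℝ × ℝ)} {κ ε r h : ℝ} (H : StdD S κ ε r h) {s u : ℝ × ℝ} (hu : UV u)
    (hu1 : 0 < u.1) (hu2 : |u.2| ≤ 10 ^ 17 * κ / r ^ 2) (hs : |s.1| ≤ r / 7)
    (hs2 : 4000 * |s.2| ≤ pst κ ε r)
    (hc : ∀ τ, |τ| ≤ 2 * r → (s.1 + τ * u.1, s.2 + τ * u.2) ∈ S) (hp : h / 2 < s.2)
    {β : ℝ} (hβ : 0 < β) (hβh : β ≤ h / 8) :
    f6_P S κ r u (s.1 + β * u.2, s.2 - β * u.1) := by
  rcases le_total 0 u.2 with hu0 | hu0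
  · exact f6_pos H hu hu1 hu2 hs hs2 hc hp hu0 hβ hβh
  · apply f6_flipx
    have hu' : UV ((u.1, -u.2) : ℝ × ℝ) := by
      unfold UV at *
      simpa using hu
    have key := f6_pos (StdD_flipx H) (s := (-s.1, s.2)) hu' hu1 (by simpa using hu2)
      (by simpa using hs) hs2 (by
        intro τ hτ
        change (-(-s.1 + τ * u.1), s.2 + τ * -u.2) ∈ S
        have h1 := hc (-τ) (by rwa [abs_neg])
        have e : (-(-s.1 + τ * u.1), s.2 + τ * -u.2) = (s.1 + -τ * u.1, s.2 + -τ * u.2) := by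
          ext
          · simp
            ring
          · simp
        rw [e]
        exact h1) hp (by simpa using hu0) hβ hβh
    have e : ((-((s.1 + β * u.2, s.2 - β * u.1) : ℝ × ℝ).1,
        ((s.1 + β * u.2, s.2 - β * u.1) : ℝ × ℝ).2) : ℝ × ℝ) =
        (((-s.1, s.2) : ℝ × ℝ).1 + β * ((u.1, -u.2) : ℝ × ℝ).2,
          ((-s.1, s.2) : ℝ × ℝ).2 - β * ((u.1, -u.2) : ℝ × ℝ).1) := by
      ext
      · simp
        ring
      · simp
    rw [e]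
    exact key

theorem f6_mid {S : Set (ℝ × ℝ)} {κ ε r h : ℝ} (H : StdD S κ ε r h) {s u : ℝ × ℝ} (hu : UV u)
    (hu1 : 0 < u.1) (hu2 : |u.2| ≤ 10 ^ 17 * κ / r ^ 2) (hs : |s.1| ≤ r / 7)
    (hp : |s.2| ≤ h / 2) {β : ℝ} (hβ : 0 < β) (hβh : β ≤ h / 8) :
    f6_P S κ r u (s.1 - β * u.2, s.2 + β * u.1) := by
  obtain ⟨hr, hk, hkh, hhk, hk1, hu3, hu4, hu5, hu6⟩ := f6_num H hu hu1 hu2
  have hh := H.h0
  have hthin : h ≤ r / 10 ^ 20 := H.thin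
  have hhr : h ≤ r / 10 ^ 10 := by
    have : r / 10 ^ 20 ≤ r / 10 ^ 10 := by
      rw [div_le_div_iff_of_pos_left hr (by positivity) (by positivity)]
      norm_num
    linarith
  have hu21 : |u.2| ≤ 1 := hu3.trans (by norm_num)
  have hβu : |β * u.2| ≤ r / 100 := by
    rw [abs_mul, abs_of_pos hβ]
    have h1 : β * |u.2| ≤ β * 1 := mul_le_mul_of_nonneg_left hu21 hβ.le
    linarith
  have hβu' := abs_le.1 hβu
  have hβu1 : β * u.1 ≤ β := by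
    have h1 : β * u.1 ≤ β * 1 := mul_le_mul_of_nonneg_left hu5 hβ.le
    linarith
  have hβu10 : 0 < β * u.1 := mul_pos hβ hu1
  have hs' := abs_le.1 hs
  have hp' := abs_le.1 hp
  refine ⟨15 / 100 * r + β * u.2, 30 / 100 * r + β * u.2, -(h / 4) - (s.2 + β * u.1),
    h / 4 - (s.2 + β * u.1), by linarith, by linarith, ?_, ?_⟩
  · have h1 : (30 / 100 * r + β * u.2 - (15 / 100 * r + β * u.2)) *
        (h / 4 - (s.2 + β * u.1) - (-(h / 4) - (s.2 + β * u.1))) = 15 / 200 * (r * h) := by ring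
    rw [h1]
    have := H.lo
    have := H.κ0
    linarith
  · intro x y hx hx' hy hy'
    constructor
    · have hD := f6_convex_rect (-r) r h
      have hsub : {p : ℝ × ℝ | -r ≤ p.1 ∧ p.1 ≤ r ∧ -h ≤ p.2 ∧ p.2 ≤ h} ⊆ S := by
        rintro ⟨X, Y⟩ ⟨h1, h2, h3, h4⟩
        exact H.rect X Y (abs_le.2 ⟨h1, h2⟩) (abs_le.2 ⟨h3, h4⟩)
      refine (hD.segment_subset ?_ ?_).trans hsub
      · refine ⟨?_, ?_, ?_, ?_⟩
        · change -r ≤ s.1 - β * u.2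
          linarith
        · change s.1 - β * u.2 ≤ r
          linarith
        · change -h ≤ s.2 + β * u.1
          linarith
        · change s.2 + β * u.1 ≤ h
          linarith
      · refine ⟨?_, ?_, ?_, ?_⟩
        · change -r ≤ s.1 - β * u.2 + x
          linarith
        · change s.1 - β * u.2 + x ≤ r
          linarith
        · change -h ≤ s.2 + β * u.1 + y
          linarith
        · change s.2 + β * u.1 + y ≤ h
          linarith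
    · have hx0 : 0 < x := by linarith
      refine f6_win hr hk hk1 hu1 hu5 hu6 ?_ ?_ ?_
      · rw [abs_of_pos hx0]
        linarith
      · rw [abs_of_pos hx0]
        linarith
      · rw [abs_le]
        have h2 : h ≤ 2 * 10 ^ 18 * (κ / r) := by nlinarith
        constructor <;> linarith


/-- [BI-F6] Supply by an aligned room, standard position of the shorter room.
PROOF. `u.1 ≥ 0.99` (`|u.2| ≤ 10 ^ 17 κ / r² ≤ 10 ^ 17 * 4 ε²`). `σ₀ = u.2 / u.1`, `A = s.2 - σ₀ s.1`; the chord is `(x, A + σ₀ x)`, in `S` for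
`|x - s.1| ≤ 1.9 r`, in particular for `|x| ≤ r / 2`; there `|A + σ₀ x| ≤ |s.2| + |σ₀| r`, `≤ pst / 2000`
(`|σ₀| r ≤ 1.02 * 10 ^ 17 κ / r`, `pst = κ / (4 ε² r)`). `StdD.close`: `|A + σ₀ x| ≤ 10 ^ 18 κ / r`. Below `y₀ = (s.1 - σ β u.2, s.2 + σ β u.1)` is the
point of view, `σ = ± 1`.
Case 1, `|s.2| ≤ h / 2`: take `σ = 1`; target `A₁ = [s.1 + 0.15 r, s.1 + 0.3 r] × [-h/4, h/4]`, area `0.075 r h ≥ κ / 100`. `y₀` and `A₁` are in
the rectangle (`|s.2| + β ≤ h`, `|s.1| + 0.3 r ≤ r`), convex, in `S`. `w = a - y₀`: `w.1 ∈ [0.14 r, 0.31 r]`, `|w.2| ≤ 2 h`.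
Case 2, `s.2 > h / 2` (case `s.2 < - h / 2` by `flipy`): take `σ = -1`: `y₀ = (s.1 + β u.2, s.2 - β u.1)`. If `u.2 ≥ 0`: `StdD.wedge` shows that
`D = {s.1 ≤ x ≤ s.1 + r/4, 0 ≤ y ≤ A + σ₀ x}` is in `S`; it is convex, contains `y₀` (`β ≤ h / 8 < s.2`,
`β u.2 ≤ r / 4`, height of the chord at `y₀.1` is `≥ s.2`) and the target
`A₂ = [s.1 + 0.15 r, s.1 + 0.24 r] × [0, h/4]` (there `A + σ₀ x ≥ s.2 > h / 2`), area `0.0225 r h ≥ κ / 100`. If `u.2 < 0` the mirror image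
(`flipx`, or: `StdD.wedge` for `flipx S` and `-σ₀`): `D` over `[s.1 - r/4, s.1]`, target `[s.1 - 0.24 r, s.1 - 0.15 r] × [0, h/4]`.
`|w.1| ∈ [0.14 r, 0.31 r]`, `|w.2| ≤ 10 ^ 18 κ / r + h ≤ 2 * 10 ^ 18 κ / r`.
Window with `θ = κ / r²`: `|w|² ∈ [r² / 100, r² / 4]`; `|dt u w| ≤ |w.2| + |u.2| |w.1|`, `≤ 2 * 10 ^ 18 κ / r + 10 ^ 17 κ / r`, and
`|w| ≥ r / 10`, so `|dt u w| ≤ 10 ^ 20 (κ / r²) |w|`. -/
theorem supIa_std {S : Set (ℝ × ℝ)} {κ ε r h : ℝ} (H : StdD S κ ε r h) {s u : ℝ × ℝ} (hu : UV u)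
    (hu1 : 0 < u.1) (hu2 : |u.2| ≤ 10 ^ 17 * κ / r ^ 2) (hs : |s.1| ≤ r / 7)
    (hs2 : 4000 * |s.2| ≤ pst κ ε r)
    (hc : ∀ τ, |τ| ≤ 2 * r → (s.1 + τ * u.1, s.2 + τ * u.2) ∈ S) :
    ∃ σ : ℝ, (σ = 1 ∨ σ = -1) ∧ ∀ β : ℝ, 0 < β → β ≤ h / 8 →
      ENNReal.ofReal (κ / 100) ≤ volume {w : ℝ × ℝ |
        segment ℝ (s.1 - σ * β * u.2, s.2 + σ * β * u.1)
          (s.1 - σ * β * u.2 + w.1, s.2 + σ * β * u.1 + w.2) ⊆ S ∧ Win κ (κ / r ^ 2) u w} := by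
  by_cases hp : |s.2| ≤ h / 2
  · refine ⟨1, Or.inl rfl, fun β hβ hβh => ?_⟩
    have key := f6_vol (f6_mid H hu hu1 hu2 hs hp hβ hβh)
    rw [one_mul]
    exact key
  · rcases le_total 0 s.2 with h0 | h0
    · have hp' : h / 2 < s.2 := by
        push Not at hp
        rwa [abs_of_nonneg h0] at hp
      refine ⟨-1, Or.inr rfl, fun β hβ hβh => ?_⟩
      have key := f6_vol (f6_up H hu hu1 hu2 hs hs2 hc hp' hβ hβh)
      have e1 : s.1 - -1 * β * u.2 = s.1 + β * u.2 := by ring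
      have e2 : s.2 + -1 * β * u.1 = s.2 - β * u.1 := by ring
      rw [e1, e2]
      exact key
    · have hp' : h / 2 < -s.2 := by
        push Not at hp
        rwa [abs_of_nonpos h0] at hp
      refine ⟨1, Or.inl rfl, fun β hβ hβh => ?_⟩
      have hu' : UV ((u.1, -u.2) : ℝ × ℝ) := by
        unfold UV at *
        simpa using hu
      have key1 := f6_up (StdD_flipy H) (s := (s.1, -s.2)) hu' hu1 (by simpa using hu2) hs
        (by simpa using hs2) (by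
          intro τ hτ
          change (s.1 + τ * u.1, -(-s.2 + τ * -u.2)) ∈ S
          have h1 := hc τ hτ
          have e : (s.1 + τ * u.1, -(-s.2 + τ * -u.2)) = (s.1 + τ * u.1, s.2 + τ * u.2) := by
            ext
            · simp
            · simp
              ring
          rw [e]
          exact h1) hp' hβ hβh
      have key2 : f6_P S κ r u (s.1 - β * u.2, s.2 + β * u.1) := by
        apply f6_flipy
        have e : ((((s.1 - β * u.2, s.2 + β * u.1) : ℝ × ℝ).1,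
            -((s.1 - β * u.2, s.2 + β * u.1) : ℝ × ℝ).2) : ℝ × ℝ) =
            (((s.1, -s.2) : ℝ × ℝ).1 + β * ((u.1, -u.2) : ℝ × ℝ).2,
              ((s.1, -s.2) : ℝ × ℝ).2 - β * ((u.1, -u.2) : ℝ × ℝ).1) := by
          ext
          · simp
            ring
          · simp
            ring
        rw [e]
        exact key1
      have key := f6_vol key2
      rw [one_mul]
      exact key

end Pool.Agent.BI
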