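import Pool.Agent.BI.F6
import Pool.Agent.BI.A5

set_option autoImplicit false

open MeasureTheory Set
open scoped ENNReal

namespace Pool.Agent.BI

theorem f7_fr {i : Room} (hi : UV i.u) (j : Room) (t a b : ℝ) :
    fr i.c i.u ((fi i.c i.u (j.ax t)).1 + a * (rel i.u j.u).1 - b * (rel i.u j.u).2,
      (fi i.c i.u (j.ax t)).2 + a * (rel i.u j.u).2 + b * (rel i.u j.u).1) =
      fr j.c j.u (t + a, b) := by
  unfold UV at hi
  ext
  · simp only [fr, fi, Room.ax, rel, dp, dt]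
    linear_combination (j.c.1 + t * j.u.1 - i.c.1 + a * j.u.1 - b * j.u.2) * hi
  · simp only [fr, fi, Room.ax, rel, dp, dt]
    linear_combination (j.c.2 + t * j.u.2 - i.c.2 + a * j.u.2 + b * j.u.1) * hi

theorem f7_add (c u p w : ℝ × ℝ) :
    fr c u (p.1 + w.1, p.2 + w.2) = fr c u p + fr (0, 0) u w := by
  ext
  · simp only [fr, Prod.fst_add]
    ring
  · simp only [fr, Prod.snd_add]
    ring

theorem f7_sq {u : ℝ × ℝ} (hu : UV u) (w : ℝ × ℝ) :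
    (fr (0, 0) u w).1 ^ 2 + (fr (0, 0) u w).2 ^ 2 = w.1 ^ 2 + w.2 ^ 2 := by
  unfold UV at hu
  simp only [fr]
  linear_combination (w.1 ^ 2 + w.2 ^ 2) * hu

theorem f7_dt (u v w : ℝ × ℝ) : dt v (fr (0, 0) u w) = dt (rel u v) w := by
  simp only [fr, dt, rel, dp]
  ring

/-- [BI-F7] Supply by an aligned room.
PROOF. Frame of `i`; `H = hi.std`. `near`: `τ`, `|τ| ≤ i.r / 8`, `d2 (j.ax t) (i.ax τ) ≤ (4 p)²`, `p = pz κ ε i.r`. `s = fi i.c i.u (j.ax t)`: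
`|s.1| ≤ i.r / 8 + 4 p ≤ i.r / 7`, `|s.2| ≤ 4 p`, `4000 * 4 p = 16000 κ / (10 ^ 5 ε i.r) ≤ pst`. The direction of `j` is
`v = rel i.u j.u`, `v.2 = dt i.u j.u`, `|v.2| ≤ 10 ^ 17 κ / i.r²` (`Al`), which is tiny, so `v.1 ≠ 0`; `u = ± v` with `u.1 > 0`. The chord: the axis of `j`,
`|t + τ'| ≤ j.r` for `|τ'| ≤ 2 i.r`. `β ≤ pz κ ε j.r ≤ ε κ / (4 * 10 ^ 5 i.r) ≤ i.h / 8`. `supIa_std`; the point of view
`fr j.c j.u (t, s' β)` has frame coordinates `s + s' β (-v.2, v.1)` (`fr_rel`), `= s + (± s') β (-u.2, u.1)`. Rotation back: volume and `Win` as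
in `supply_b`. -/
theorem supply_a {S : Set (ℝ × ℝ)} {κ ε : ℝ} {i j : Room} (hS : TriConn S) (hκ : 0 < κ)
    (hε : 0 < ε) (hε1 : ε ≤ 1 / 10 ^ 30) (hi : DRoom S κ ε i) (hj : DRoom S κ ε j)
    (hij : i.r ≤ ε ^ 2 / 4 * j.r) {t : ℝ} (ht : |t| ≤ j.r / 8) (hn : near κ ε i (j.ax t) 4)
    (hal : Al κ i j) :
    ∃ s : ℝ, (s = 1 ∨ s = -1) ∧ ∀ β : ℝ, 0 < β → β ≤ pz κ ε j.r →
      ENNReal.ofReal (κ / 100) ≤ volume {w : ℝ × ℝ |
        segment ℝ (fr j.c j.u (t, s * β)) (fr j.c j.u (t, s * β) + w) ⊆ S ∧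
          Win κ (κ / i.r ^ 2) j.u w} := by
  have H : StdD (inF i S) κ ε i.r i.h := hi.std hS hκ hε hε1
  obtain ⟨hr, -, hκ4, -, -, -, -, -, -⟩ := H.facts
  have hiu : UV i.u := hi.uv
  have hju : UV j.u := hj.uv
  have hε2 : ε ^ 2 ≤ 1 / 10 ^ 60 := by
    calc ε ^ 2 ≤ (1 / 10 ^ 30) ^ 2 := pow_le_pow_left₀ hε.le hε1 2
      _ = 1 / 10 ^ 60 := by norm_num
  have hε2' : 0 < ε ^ 2 := by positivity
  have hjr : 0 < j.r := by
    by_contra h
    have : ε ^ 2 / 4 * j.r ≤ 0 := mul_nonpos_of_nonneg_of_nonpos (by positivity) (not_lt.1 h)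
    linarith
  have hir : i.r ≤ j.r / 10 ^ 6 := by
    calc i.r ≤ ε ^ 2 / 4 * j.r := hij
      _ ≤ (1 / 10 ^ 60) / 4 * j.r := by gcongr
      _ ≤ j.r / 10 ^ 6 := by
        have : (1 / 10 ^ 60 : ℝ) / 4 ≤ 1 / 10 ^ 6 := by norm_num
        calc (1 / 10 ^ 60 : ℝ) / 4 * j.r ≤ 1 / 10 ^ 6 * j.r := by gcongr
          _ = j.r / 10 ^ 6 := by ring
  -- the point
  obtain ⟨τ, hτ, hd⟩ := hn
  have hp0 : 0 < pz κ ε i.r := by unfold pz; positivity
  have hpr : pz κ ε i.r ≤ i.r / 10 ^ 6 := by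
    unfold pz
    rw [div_le_iff₀ (by positivity)]
    calc κ ≤ 4 * ε ^ 2 * i.r ^ 2 := hκ4
      _ = ε * (4 * ε * i.r ^ 2) := by ring
      _ ≤ 1 / 10 ^ 30 * (4 * ε * i.r ^ 2) := by gcongr
      _ ≤ i.r / 10 ^ 6 * (10 ^ 5 * ε * i.r) := by
        have h0 : 0 ≤ ε * i.r ^ 2 := by positivity
        have e1 : i.r / 10 ^ 6 * (10 ^ 5 * ε * i.r) = 1 / 10 * (ε * i.r ^ 2) := by ring
        have e2 : 1 / 10 ^ 30 * (4 * ε * i.r ^ 2) = 4 / 10 ^ 30 * (ε * i.r ^ 2) := by ring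
        rw [e1, e2]
        exact mul_le_mul_of_nonneg_right (by norm_num) h0
  have hfi := abs_fi_sub_le (c := i.c) hiu (a := 4 * pz κ ε i.r) (by positivity) hd
  have hτfi : fi i.c i.u (i.ax τ) = (τ, 0) := fi_fr hiu (τ, 0)
  rw [hτfi] at hfi
  obtain ⟨hs1, hs2⟩ := hfi
  simp only [sub_zero] at hs2
  have hs1' : |(fi i.c i.u (j.ax t)).1| ≤ i.r / 7 := by
    have e : (fi i.c i.u (j.ax t)).1 = ((fi i.c i.u (j.ax t)).1 - τ) + τ := by ring
    rw [e]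
    refine (abs_add_le _ _).trans ?_
    have h1 : |(fi i.c i.u (j.ax t)).1 - τ| ≤ 4 * (i.r / 10 ^ 6) := hs1.trans (by gcongr)
    have h2 : 4 * (i.r / 10 ^ 6) + i.r / 8 ≤ i.r / 7 := by
      have e2 : 4 * (i.r / 10 ^ 6) + i.r / 8 = (4 / 10 ^ 6 + 1 / 8) * i.r := by ring
      have e3 : i.r / 7 = 1 / 7 * i.r := by ring
      rw [e2, e3]
      gcongr
      norm_num
    linarith
  have hs2' : 4000 * |(fi i.c i.u (j.ax t)).2| ≤ pst κ ε i.r := by
    have h1 : 4000 * |(fi i.c i.u (j.ax t)).2| ≤ 4000 * (4 * pz κ ε i.r) := by gcongr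
    refine h1.trans ?_
    unfold pz pst
    rw [le_div_iff₀ (by positivity)]
    have e : 4000 * (4 * (κ / (10 ^ 5 * ε * i.r))) * (4 * ε ^ 2 * i.r) = 64 / 100 * ε * κ := by
      field_simp
      norm_num
    rw [e]
    have h2 : 64 / 100 * ε ≤ 1 := by
      have : (1:ℝ) / 10 ^ 30 ≤ 1 := by norm_num
      linarith
    calc 64 / 100 * ε * κ ≤ 1 * κ := by gcongr
      _ = κ := one_mul κ
  -- the direction
  have hv : UV (rel i.u j.u) := UV_rel hiu hju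
  have hv2 : |(rel i.u j.u).2| ≤ 10 ^ 17 * κ / i.r ^ 2 := hal
  have hv2' : |(rel i.u j.u).2| ≤ 1 / 2 := by
    refine hv2.trans ?_
    rw [div_le_iff₀ (by positivity)]
    calc 10 ^ 17 * κ ≤ 10 ^ 17 * (4 * ε ^ 2 * i.r ^ 2) := by gcongr
      _ ≤ 10 ^ 17 * (4 * (1 / 10 ^ 60) * i.r ^ 2) := by gcongr
      _ = 4 / 10 ^ 43 * i.r ^ 2 := by ring
      _ ≤ 1 / 2 * i.r ^ 2 := mul_le_mul_of_nonneg_right (by norm_num) (by positivity)
  obtain ⟨e, he, hev⟩ : ∃ e : ℝ, (e = 1 ∨ e = -1) ∧ 0 < e * (rel i.u j.u).1 := by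
    rcases lt_trichotomy 0 (rel i.u j.u).1 with h | h | h
    · exact ⟨1, Or.inl rfl, by rwa [one_mul]⟩
    · exfalso
      unfold UV at hv
      rw [← h] at hv
      have h1 : (rel i.u j.u).2 ^ 2 ≤ (1 / 2) ^ 2 := by
        rw [← sq_abs]
        exact pow_le_pow_left₀ (abs_nonneg _) hv2' 2
      norm_num at hv h1
      rcases hv with h2 | h2 <;> rw [h2] at h1 <;> norm_num at h1
    · exact ⟨-1, Or.inr rfl, by linarith⟩
  have hee : e * e = 1 := by rcases he with h | h <;> rw [h] <;> norm_num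
  have hu : UV (e * (rel i.u j.u).1, e * (rel i.u j.u).2) := by
    unfold UV at hv ⊢
    simp only
    linear_combination hv + ((rel i.u j.u).1 ^ 2 + (rel i.u j.u).2 ^ 2) * hee
  have hu2 : |e * (rel i.u j.u).2| ≤ 10 ^ 17 * κ / i.r ^ 2 := by
    rw [abs_mul]
    have : |e| = 1 := by rcases he with h | h <;> rw [h] <;> norm_num
    rw [this, one_mul]
    exact hv2
  have hc : ∀ τ : ℝ, |τ| ≤ 2 * i.r →
      ((fi i.c i.u (j.ax t)).1 + τ * (e * (rel i.u j.u).1),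
        (fi i.c i.u (j.ax t)).2 + τ * (e * (rel i.u j.u).2)) ∈ inF i S := by
    intro τ hτ
    show fr i.c i.u _ ∈ S
    have h1 := f7_fr hiu j t (τ * e) 0
    have h2 : ((fi i.c i.u (j.ax t)).1 + τ * (e * (rel i.u j.u).1),
        (fi i.c i.u (j.ax t)).2 + τ * (e * (rel i.u j.u).2)) =
        ((fi i.c i.u (j.ax t)).1 + τ * e * (rel i.u j.u).1 - 0 * (rel i.u j.u).2,
      (fi i.c i.u (j.ax t)).2 + τ * e * (rel i.u j.u).2 + 0 * (rel i.u j.u).1) := by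
      ext
      · simp only
        ring
      · simp only
        ring
    rw [h2, h1]
    refine hj.rect _ _ ?_ ?_
    · refine (abs_add_le _ _).trans ?_
      have h3 : |τ * e| ≤ 2 * i.r := by
        rw [abs_mul]
        have : |e| = 1 := by rcases he with h | h <;> rw [h] <;> norm_num
        rw [this, mul_one]
        exact hτ
      have h4 : 2 * i.r ≤ 2 * (j.r / 10 ^ 6) := by gcongr
      have h5 : j.r / 8 + 2 * (j.r / 10 ^ 6) ≤ j.r := by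
        have e2 : j.r / 8 + 2 * (j.r / 10 ^ 6) = (1 / 8 + 2 / 10 ^ 6) * j.r := by ring
        rw [e2]
        calc (1 / 8 + 2 / 10 ^ 6) * j.r ≤ 1 * j.r := by
              gcongr
              norm_num
          _ = j.r := one_mul _
      linarith
    · rw [abs_zero]
      exact hj.h0.le
  obtain ⟨σ, hσ, hsup⟩ := supIa_std H (s := fi i.c i.u (j.ax t))
    (u := (e * (rel i.u j.u).1, e * (rel i.u j.u).2)) hu hev hu2 hs1' hs2' hc
  refine ⟨σ * e, ?_, ?_⟩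
  · rcases hσ with h | h <;> rcases he with h' | h' <;> rw [h, h'] <;> norm_num
  intro β hβ hβ2
  have hβ3 : β ≤ i.h / 8 := by
    refine hβ2.trans ?_
    have h1 : pz κ ε j.r ≤ ε * κ / (4 * 10 ^ 5 * i.r) := by
      unfold pz
      rw [div_le_div_iff₀ (by positivity) (by positivity)]
      calc κ * (4 * 10 ^ 5 * i.r) ≤ κ * (4 * 10 ^ 5 * (ε ^ 2 / 4 * j.r)) := by gcongr
        _ = ε * κ * (10 ^ 5 * ε * j.r) := by ring
    refine h1.trans ?_
    rw [div_le_iff₀ (by positivity)]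
    have h2 : κ ≤ i.r * i.h := hi.lo
    have h3 : ε ≤ 1 := hε1.trans (by norm_num)
    calc ε * κ ≤ 1 * (i.r * i.h) := by gcongr
      _ ≤ i.h / 8 * (4 * 10 ^ 5 * i.r) := by
        have h4 : 0 ≤ i.r * i.h := mul_nonneg hr.le hi.h0.le
        have e2 : i.h / 8 * (4 * 10 ^ 5 * i.r) = 50000 * (i.r * i.h) := by ring
        rw [e2]
        linarith
  refine (hsup β hβ hβ3).trans ?_
  rw [← volume_preimage_fr (c := (0, 0)) hiu {w : ℝ × ℝ |
        segment ℝ (fr j.c j.u (t, σ * e * β)) (fr j.c j.u (t, σ * e * β) + w) ⊆ S ∧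
          Win κ (κ / i.r ^ 2) j.u w}]
  refine measure_mono ?_
  rintro w ⟨hw1, hw2⟩
  have hpt : fr i.c i.u ((fi i.c i.u (j.ax t)).1 - σ * β * (e * (rel i.u j.u).2),
      (fi i.c i.u (j.ax t)).2 + σ * β * (e * (rel i.u j.u).1)) = fr j.c j.u (t, σ * e * β) := by
    have h1 := f7_fr hiu j t 0 (σ * e * β)
    rw [add_zero] at h1
    rw [← h1]
    congr 1
    ext
    · simp only
      ring
    · simp only
      ring
  refine ⟨?_, ?_⟩
  · have h1 := segment_inF.1 hw1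
    have h2 := f7_add i.c i.u ((fi i.c i.u (j.ax t)).1 - σ * β * (e * (rel i.u j.u).2),
      (fi i.c i.u (j.ax t)).2 + σ * β * (e * (rel i.u j.u).1)) w
    simp only at h2
    rw [h2, hpt] at h1
    exact h1
  · obtain ⟨a1, a2, a3⟩ := hw2
    have hd : dt (e * (rel i.u j.u).1, e * (rel i.u j.u).2) w ^ 2 =
        dt j.u (fr (0, 0) i.u w) ^ 2 := by
      rw [f7_dt]
      simp only [dt]
      linear_combination ((rel i.u j.u).1 * w.2 - (rel i.u j.u).2 * w.1) ^ 2 * hee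
    unfold Win
    rw [f7_sq hiu]
    refine ⟨a1, a2, ?_⟩
    rw [← hd]
    exact a3

end Pool.Agent.BI
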