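import Pool.Agent.BI.Basic

set_option autoImplicit false

open MeasureTheory Set
open scoped ENNReal

namespace Pool.Agent.BI

/-- [BI-G5] A set of reals in `[-L, L]`, pairwise `φ` apart. PROOF. The intervals `[x, x + φ)` are disjoint and contained in
`[-L, L + φ)`: `card * φ ≤ 2 L + φ` (volume). Or: the map `x ↦ ⌊(x + L) / φ⌋` is injective into `{0, ..., ⌊2 L / φ⌋}`. -/
theorem card_le_of_sep {ι : Type*} (J : Finset ι) (x : ι → ℝ) {L φ : ℝ} (hφ : 0 < φ) (hL : 0 ≤ L)
    (h1 : ∀ i ∈ J, |x i| ≤ L) (h2 : ∀ i ∈ J, ∀ j ∈ J, i ≠ j → φ ≤ |x i - x j|) :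
    (J.card : ℝ) ≤ 2 * L / φ + 1 := by
  have hmap : ∀ i ∈ J, ⌊(x i + L) / φ⌋ ∈ Finset.Icc (0 : ℤ) ⌊2 * L / φ⌋ := by
    intro i hi
    have h3 := abs_le.1 (h1 i hi)
    rw [Finset.mem_Icc]
    constructor
    · apply Int.floor_nonneg.2
      exact div_nonneg (by linarith) hφ.le
    · apply Int.floor_le_floor
      exact div_le_div_of_nonneg_right (by linarith) hφ.le
  have hinj : ∀ i ∈ J, ∀ j ∈ J, ⌊(x i + L) / φ⌋ = ⌊(x j + L) / φ⌋ → i = j := by
    intro i hi j hj hij
    by_contra hne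
    have h3 := Int.abs_sub_lt_one_of_floor_eq_floor hij
    have h4 := h2 i hi j hj hne
    have h5 : (x i + L) / φ - (x j + L) / φ = (x i - x j) / φ := by ring
    rw [h5, abs_div, abs_of_pos hφ, div_lt_one hφ] at h3
    linarith
  have hc : J.card ≤ (Finset.Icc (0 : ℤ) ⌊2 * L / φ⌋).card :=
    Finset.card_le_card_of_injOn (fun i => ⌊(x i + L) / φ⌋) hmap
      (fun i hi j hj hij => hinj i hi j hj hij)
  rw [Int.card_Icc] at hc
  have h0 : 0 ≤ ⌊2 * L / φ⌋ := Int.floor_nonneg.2 (by positivity)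
  have h6 : (J.card : ℝ) ≤ ((⌊2 * L / φ⌋ + 1 - 0).toNat : ℝ) := by exact_mod_cast hc
  have h7 : (((⌊2 * L / φ⌋ + 1 - 0).toNat : ℤ) : ℝ) = (⌊2 * L / φ⌋ : ℝ) + 1 := by
    rw [Int.toNat_of_nonneg (by omega)]
    push_cast
    ring
  have h8 : ((⌊2 * L / φ⌋ + 1 - 0).toNat : ℝ) = (⌊2 * L / φ⌋ : ℝ) + 1 := by exact_mod_cast h7
  have h9 := Int.floor_le (2 * L / φ)
  linarith

/-- [BI-G5] Counting directions.
PROOF. Let `s i = dt w (u i)`, `c i = dp w (u i)`; `s² + c² = 1`, `|s i| ≤ Φ`, and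
`dt (u i) (u j) = c i * s j - s i * c j` (`dt_rel`: `rel w (u i) = (c i, s i)`).
Group 1: `J₁ = {i | c i ^ 2 ≥ 1/2}`: `x i = s i / c i`, `|x i| ≤ 3/2 Φ` and
`|dt (u i) (u j)| = |c i c j| |x i - x j| ≤ |x i - x j|`; `card_le_of_sep`: `card J₁ ≤ 3 Φ / φ + 1`.
Group 2: `c i ^ 2 < 1/2`, so `s i ^ 2 > 1/2`; if it is non-empty, `Φ ≥ 7/10`; `x i = c i / s i`, `|x i| ≤ 1`, again
`|dt (u i) (u j)| ≤ |x i - x j|`: `card J₂ ≤ 2 / φ + 1 ≤ 3 Φ / φ + 1`. -/
theorem dir_count {ι : Type*} (J : Finset ι) (u : ι → ℝ × ℝ) (hu : ∀ i ∈ J, UV (u i)) {w : ℝ × ℝ}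
    (hw : UV w) {φ Φ : ℝ} (hφ : 0 < φ) (hΦ : 0 ≤ Φ) (h1 : ∀ i ∈ J, |dt (u i) w| ≤ Φ)
    (h2 : ∀ i ∈ J, ∀ j ∈ J, i ≠ j → φ ≤ |dt (u i) (u j)|) :
    (J.card : ℝ) ≤ 8 * (Φ / φ) + 2 := by
  classical
  have hsc : ∀ i ∈ J, dt w (u i) ^ 2 + dp w (u i) ^ 2 = 1 := fun i hi =>
    dt_sq_add_dp_sq hw (hu i hi)
  have hs : ∀ i ∈ J, dt w (u i) ^ 2 ≤ Φ ^ 2 := by
    intro i hi
    have := h1 i hi
    rw [abs_dt_comm] at this
    exact sq_le_sq' (abs_le.1 this).1 (abs_le.1 this).2
  have hdt : ∀ i j, dt (u i) (u j) = dp w (u i) * dt w (u j) - dt w (u i) * dp w (u j) := by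
    intro i j
    rw [← dt_rel hw]
    simp only [rel, dt]
  have hsplit : J.card = (J.filter fun i => 1 / 2 ≤ dp w (u i) ^ 2).card +
      (J.filter fun i => ¬ 1 / 2 ≤ dp w (u i) ^ 2).card :=
    (Finset.card_filter_add_card_filter_not _).symm
  have hc1 : ((J.filter fun i => 1 / 2 ≤ dp w (u i) ^ 2).card : ℝ) ≤
      2 * (3 / 2 * Φ) / φ + 1 := by
    refine card_le_of_sep _ (fun i => dt w (u i) / dp w (u i)) hφ (by positivity) ?_ ?_
    · intro i hi
      rw [Finset.mem_filter] at hi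
      have hc0 : 0 < dp w (u i) ^ 2 := by linarith [hi.2]
      apply abs_le_of_sq_le_sq _ (by positivity)
      rw [div_pow, div_le_iff₀ hc0]
      nlinarith [hs i hi.1, hi.2, sq_nonneg Φ]
    · intro i hi j hj hij
      rw [Finset.mem_filter] at hi hj
      have hci : dp w (u i) ≠ 0 := by
        intro h0
        rw [h0] at hi
        norm_num at hi
      have hcj : dp w (u j) ≠ 0 := by
        intro h0
        rw [h0] at hj
        norm_num at hj
      have e : dt w (u i) / dp w (u i) - dt w (u j) / dp w (u j) =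
          -(dt (u i) (u j)) / (dp w (u i) * dp w (u j)) := by
        rw [hdt]
        field_simp
        ring
      refine (h2 i hi.1 j hj.1 hij).trans ?_
      rw [e, abs_div, abs_neg, le_div_iff₀ (by positivity)]
      have h5 : |dp w (u i) * dp w (u j)| ≤ 1 := by
        rw [abs_mul]
        exact mul_le_one₀ (abs_dp_le_one hw (hu i hi.1)) (abs_nonneg _)
          (abs_dp_le_one hw (hu j hj.1))
      nlinarith [abs_nonneg (dt (u i) (u j))]
  have hc2 : ((J.filter fun i => ¬ 1 / 2 ≤ dp w (u i) ^ 2).card : ℝ) ≤ 3 * Φ / φ + 1 := by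
    rcases Finset.eq_empty_or_nonempty (J.filter fun i => ¬ 1 / 2 ≤ dp w (u i) ^ 2) with h0 | h0
    · rw [h0]
      simp only [Finset.card_empty, Nat.cast_zero]
      positivity
    · obtain ⟨i₀, hi₀⟩ := h0
      rw [Finset.mem_filter] at hi₀
      have h10 := hsc i₀ hi₀.1
      have h11 := hs i₀ hi₀.1
      have h12 : 7 / 10 ≤ Φ := by
        by_contra hc
        push Not at hc
        have := hi₀.2
        push Not at this
        nlinarith
      have h13 : ((J.filter fun i => ¬ 1 / 2 ≤ dp w (u i) ^ 2).card : ℝ) ≤ 2 * 1 / φ + 1 := by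
        refine card_le_of_sep _ (fun i => dp w (u i) / dt w (u i)) hφ (by positivity) ?_ ?_
        · intro i hi
          rw [Finset.mem_filter] at hi
          have h14 := hsc i hi.1
          have h15 := hi.2
          push Not at h15
          have hc0 : 0 < dt w (u i) ^ 2 := by linarith
          apply abs_le_of_sq_le_sq _ (by norm_num)
          rw [div_pow, div_le_iff₀ hc0]
          nlinarith
        · intro i hi j hj hij
          rw [Finset.mem_filter] at hi hj
          have h14 := hsc i hi.1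
          have h15 := hi.2
          push Not at h15
          have h16 := hsc j hj.1
          have h17 := hj.2
          push Not at h17
          have hsi : dt w (u i) ≠ 0 := by
            intro h0
            rw [h0] at h14
            norm_num at h14
            rcases h14 with h14 | h14 <;> rw [h14] at h15 <;> norm_num at h15
          have hsj : dt w (u j) ≠ 0 := by
            intro h0
            rw [h0] at h16
            norm_num at h16
            rcases h16 with h16 | h16 <;> rw [h16] at h17 <;> norm_num at h17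
          have e : dp w (u i) / dt w (u i) - dp w (u j) / dt w (u j) =
              dt (u i) (u j) / (dt w (u i) * dt w (u j)) := by
            rw [hdt]
            field_simp
          refine (h2 i hi.1 j hj.1 hij).trans ?_
          rw [e, abs_div, le_div_iff₀ (by positivity)]
          have h5 : |dt w (u i) * dt w (u j)| ≤ 1 := by
            rw [abs_mul]
            exact mul_le_one₀ (abs_dt_le_one hw (hu i hi.1)) (abs_nonneg _)
              (abs_dt_le_one hw (hu j hj.1))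
          nlinarith [abs_nonneg (dt (u i) (u j))]
      have h18 : 2 * 1 / φ ≤ 3 * Φ / φ := div_le_div_of_nonneg_right (by linarith) hφ.le
      linarith
  have h20 : (J.card : ℝ) = ((J.filter fun i => 1 / 2 ≤ dp w (u i) ^ 2).card : ℝ) +
      ((J.filter fun i => ¬ 1 / 2 ≤ dp w (u i) ^ 2).card : ℝ) := by exact_mod_cast hsplit
  have h21 : 0 ≤ Φ / φ := by positivity
  have h22 : 2 * (3 / 2 * Φ) / φ = 3 * (Φ / φ) := by ring
  have h23 : 3 * Φ / φ = 3 * (Φ / φ) := by ring
  rw [h22] at hc1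
  rw [h23] at hc2
  linarith

end Pool.Agent.BI
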