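import Pool.Agent.BI.G2
import Pool.Agent.BI.G5

set_option autoImplicit false

open MeasureTheory Set
open scoped ENNReal

namespace Pool.Agent.BI

theorem g6_r_pos {S : Set (ℝ × ℝ)} {κ : ℝ} {R : Room} (h : IsRoom S κ R) : 0 < R.r := by
  have h1 := h.h0
  have h2 := h.thin
  have h3 : 0 < R.r / 10 ^ 20 := lt_of_lt_of_le h1 h2
  by_contra hcon
  have h4 : R.r / 10 ^ 20 ≤ 0 := div_nonpos_of_nonpos_of_nonneg (not_lt.mp hcon) (by positivity)
  linarith

/-- [BI-G6] Lower bound of the effective angle.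
PROOF. `i` is a strictly shorter room near `j.ax t`. If `Al κ i j`, `th = κ / i.r²` and `i.r ≤ ε²/4 j.r`. Otherwise
`th = |dt i.u j.u| > 10 ^ 17 κ / i.r² ≥ κ / i.r²`. In both cases `th ≥ κ / i.r² ≥ 16 κ / (ε ^ 4 j.r ^ 2)`. -/
theorem Fam.th_lower {S : Set (ℝ × ℝ)} {κ ε : ℝ} {F : Finset Room} {cls : Room → ℤ}
    (T : Fam S κ ε F cls) {i j : Room} (hi : i ∈ F) (hj : j ∈ F) (hc : cls i < cls j) :
    16 * κ / (ε ^ 4 * j.r ^ 2) ≤ th κ i j := by
  have hir := g6_r_pos (T.room i hi)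
  have hjr := g6_r_pos (T.room j hj)
  have hlt := T.lt i hi j hj hc
  have hκ := T.κ0
  have hε := T.ε0
  have h1 : 16 * κ / (ε ^ 4 * j.r ^ 2) ≤ κ / i.r ^ 2 := by
    rw [div_le_div_iff₀ (by positivity) (by positivity)]
    have h2 : i.r ^ 2 ≤ (ε ^ 2 / 4 * j.r) ^ 2 := pow_le_pow_left₀ hir.le hlt 2
    have h3 : (ε ^ 2 / 4 * j.r) ^ 2 = ε ^ 4 * j.r ^ 2 / 16 := by ring
    rw [h3] at h2
    have h4 := mul_le_mul_of_nonneg_left h2 hκ.le
    linarith
  refine h1.trans ?_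
  unfold th
  split_ifs with hAl
  · exact le_rfl
  · unfold Al at hAl
    rw [not_le] at hAl
    have h5 : κ / i.r ^ 2 ≤ 10 ^ 17 * κ / i.r ^ 2 := by
      apply div_le_div_of_nonneg_right _ (by positivity)
      linarith
    linarith

/-- [BI-G6] Bounded multiplicity of the supplied pairs.
PROOF. `p = (y, w)`, `W = |w|² > 0`, `C = J.image cls`; `J.card ≤ 2 C.card` as in `DFam.card_not_IT`
(`DFam.same_le_two`). Choose for every class in `C` one room of `J`: a subset `J' ⊆ J` on which `cls` is injective, `J'.card = C.card`.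
For `j ∈ J'` with minimiser `i_j`, `θ_j = th κ i_j j`: `κ / (100 W) ≤ θ_j ≤ κ / (4 W)`. Let `j, k ∈ J'`, `cls j < cls k`. `j` is a shorter room near the
foot on `k` (`Fam.sh_of_zones`), so `th κ j k ≥ θ_k ≥ κ / (100 W)`. If `Al κ j k`: `th κ j k = κ / j.r²`, so `W ≥ j.r² / 100`; but
`Fam.th_lower` for `(i_j, j)`: `16 κ / (ε⁴ j.r²) ≤ θ_j ≤ κ / (4 W)`, so `W ≤ ε⁴ j.r² / 64`: contradiction. Hence
`|dt j.u k.u| = th κ j k ≥ φ := κ / (100 W)`. With `ŵ = w / |w|` (unit): `|dt j.u ŵ| = |dt j.u w| / |w| ≤ 10 ^ 20 θ_j ≤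
Φ := 10 ^ 20 κ / (4 W)`. `dir_count`: `J'.card ≤ 8 * 25 * 10 ^ 20 + 2 ≤ 10 ^ 22 * 3`; so `J.card ≤ 10 ^ 23`. -/
theorem DFam.card_PS {S : Set (ℝ × ℝ)} {κ ε : ℝ} {F : Finset Room} {cls : Room → ℤ}
    (T : DFam S κ ε F cls) {p : (ℝ × ℝ) × (ℝ × ℝ)} (J : Finset Room) (hJ : J ⊆ F)
    (hnt : ∀ j ∈ J, NTok F cls κ ε j (fi j.c j.u p.1).1) (hp : ∀ j ∈ J, PSc F cls κ ε j p) :
    J.card ≤ 10 ^ 23 := by
  classical
  have hκ := T.κ0
  have hε := T.ε0
  have hε1 := T.ε1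
  -- two rooms of a class
  have hcard2 : J.card ≤ 2 * (J.image cls).card := by
    apply Finset.card_le_mul_card_image
    intro c _
    by_contra hcon
    rw [not_le, Finset.two_lt_card] at hcon
    obtain ⟨a, ha, b, hb, e, he, hab, hae, hbe⟩ := hcon
    rw [Finset.mem_filter] at ha hb he
    exact T.same_le_two (hJ ha.1) (hJ hb.1) (hJ he.1) hab hae hbe (ha.2.trans hb.2.symm)
      (ha.2.trans he.2.symm) (hp a ha.1).1 (hp b hb.1).1 (hp e he.1).1 (hnt a ha.1) (hnt b hb.1)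
  have hex : ∀ c ∈ J.image cls, ∃ j ∈ J, cls j = c := by
    intro c hc
    exact Finset.mem_image.mp hc
  have hne : Nonempty Room := ⟨⟨(0, 0), (0, 0), 0, 0⟩⟩
  choose! g hgJ hgc using hex
  set W : ℝ := p.2.1 ^ 2 + p.2.2 ^ 2 with hW
  have hW0 : 0 ≤ W := by positivity
  rcases Finset.eq_empty_or_nonempty J with hJe | hJne
  · rw [hJe, Finset.card_empty]
    exact Nat.zero_le _
  have hWpos : 0 < W := by
    obtain ⟨j, hj⟩ := hJne
    obtain ⟨_, i, _, hwin⟩ := hp j hj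
    rcases hW0.eq_or_lt with h | h
    · exfalso
      have h1 := hwin.1
      rw [← hW, ← h, mul_zero] at h1
      linarith
    · exact h
  set φ : ℝ := κ / (100 * W) with hφ
  set Φ : ℝ := 10 ^ 20 * (κ / (4 * W)) with hΦ
  have hφ0 : 0 < φ := by positivity
  have hΦ0 : 0 ≤ Φ := by positivity
  -- lower bound of the angles
  have hlow : ∀ j ∈ J, ∀ k ∈ J, cls j < cls k → φ ≤ |dt j.u k.u| := by
    intro j hj k hk hlt
    obtain ⟨hzj, ij, hminj, hwinj⟩ := hp j hj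
    obtain ⟨hzk, ik, hmink, hwink⟩ := hp k hk
    have hsh := T.toFam.sh_of_zones (hJ hj) (hJ hk) hlt hzj hzk
    have h1 := hmink.2 j hsh
    have h2 := hwink.1
    rw [← hW] at h2
    have h3 : κ / 100 ≤ th κ j k * W := h2.trans (mul_le_mul_of_nonneg_right h1 hW0)
    have h4 : φ ≤ th κ j k := by
      rw [hφ, div_le_iff₀ (by positivity)]
      linarith
    by_cases hAl : Al κ j k
    · exfalso
      have hjr := g6_r_pos (T.room j (hJ hj))
      have h5 : th κ j k = κ / j.r ^ 2 := if_pos hAl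
      rw [h5, hφ, div_le_div_iff₀ (by positivity) (by positivity)] at h4
      have h6 : j.r ^ 2 ≤ 100 * W := le_of_mul_le_mul_left h4 hκ
      have h7 := T.toFam.th_lower hminj.1.1 (hJ hj) hminj.1.2.1
      have h8 := hwinj.2.1
      rw [← hW] at h8
      have h9 : 16 * κ / (ε ^ 4 * j.r ^ 2) * W ≤ κ / 4 :=
        (mul_le_mul_of_nonneg_right h7 hW0).trans h8
      have h10 : 16 * κ * W ≤ κ / 4 * (ε ^ 4 * j.r ^ 2) := by
        rw [div_mul_eq_mul_div, div_le_iff₀ (by positivity)] at h9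
        exact h9
      have h11 : 64 * W ≤ ε ^ 4 * j.r ^ 2 := by
        have : κ * (64 * W) ≤ κ * (ε ^ 4 * j.r ^ 2) := by linarith
        exact le_of_mul_le_mul_left this hκ
      have h12 : ε ^ 4 ≤ 1 / 10 := by
        have : ε ^ 4 ≤ (1 / 10 ^ 30) ^ 4 := pow_le_pow_left₀ hε.le hε1 4
        refine this.trans ?_
        norm_num
      have h13 : ε ^ 4 * j.r ^ 2 ≤ 1 / 10 * (100 * W) :=
        mul_le_mul h12 h6 (by positivity) (by norm_num)
      linarith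
    · have h5 : th κ j k = |dt j.u k.u| := if_neg hAl
      rw [← h5]
      exact h4
  -- the direction of the vector
  set s : ℝ := Real.sqrt W with hs
  have hs0 : 0 < s := Real.sqrt_pos.mpr hWpos
  have hs2 : s ^ 2 = W := Real.sq_sqrt hW0
  have hwu : UV (p.2.1 / s, p.2.2 / s) := by
    unfold UV
    show (p.2.1 / s) ^ 2 + (p.2.2 / s) ^ 2 = 1
    rw [div_pow, div_pow, ← add_div, hs2, ← hW, div_self hWpos.ne']
  have hup : ∀ j ∈ J, |dt j.u (p.2.1 / s, p.2.2 / s)| ≤ Φ := by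
    intro j hj
    obtain ⟨_, i, _, hwin⟩ := hp j hj
    obtain ⟨hw1, hw2, hw3⟩ := hwin
    rw [← hW] at hw1 hw2 hw3
    set θ := th κ i j with hθ
    have hθ0 : 0 ≤ θ := by
      by_contra hcon
      have : θ * W ≤ 0 := mul_nonpos_of_nonpos_of_nonneg (not_le.mp hcon).le hW0
      linarith
    have h1 : dt j.u (p.2.1 / s, p.2.2 / s) = dt j.u p.2 / s := by
      simp only [dt]
      ring
    have h2 : (dt j.u (p.2.1 / s, p.2.2 / s)) ^ 2 ≤ (10 ^ 20 * θ) ^ 2 := by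
      rw [h1, div_pow, hs2, div_le_iff₀ hWpos]
      calc dt j.u p.2 ^ 2 ≤ 10 ^ 40 * θ ^ 2 * W := hw3
        _ = (10 ^ 20 * θ) ^ 2 * W := by ring
    have h3 := abs_le_of_sq_le_sq h2 (by positivity)
    have h4 : θ ≤ κ / (4 * W) := by
      rw [le_div_iff₀ (by positivity)]
      linarith
    calc |dt j.u (p.2.1 / s, p.2.2 / s)| ≤ 10 ^ 20 * θ := h3
      _ ≤ Φ := by rw [hΦ]; exact mul_le_mul_of_nonneg_left h4 (by positivity)
  have hroom : ∀ c ∈ J.image cls, UV (g c).u := fun c hc => (T.room _ (hJ (hgJ c hc))).uv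
  have hcount := dir_count (J.image cls) (fun c => (g c).u) hroom hwu hφ0 hΦ0
    (fun c hc => hup _ (hgJ c hc)) (by
      intro c hc c' hc' hcc
      rcases lt_or_gt_of_ne hcc with h | h
      · exact hlow _ (hgJ c hc) _ (hgJ c' hc') (by rw [hgc c hc, hgc c' hc']; exact h)
      · rw [abs_dt_comm]
        exact hlow _ (hgJ c' hc') _ (hgJ c hc) (by rw [hgc c hc, hgc c' hc']; exact h))
  have hquo : Φ / φ = 25 * 10 ^ 20 := by
    rw [hΦ, hφ]
    field_simp
    norm_num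
  rw [hquo] at hcount
  have h1 : (J.card : ℝ) ≤ 2 * ((J.image cls).card : ℝ) := by exact_mod_cast hcard2
  have h2 : (J.card : ℝ) ≤ ((10 ^ 23 : ℕ) : ℝ) := by
    push_cast
    linarith
  exact_mod_cast h2

end Pool.Agent.BI
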