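import Pool.Agent.BI.F5
import Pool.Agent.BI.F7
import Pool.Agent.BI.G6

set_option autoImplicit false

open MeasureTheory Set
open scoped ENNReal

namespace Pool.Agent.BI

/-- [BI-F8] Supply at a fine point of type I.
PROOF. `i` the minimiser. If `Al κ i j`: `th κ i j = κ / i.r²` and `supply_a` (`T.lt i j`). Otherwise `th κ i j = |dt i.u j.u| =: θ`, positive
(`¬ Al`), and there is `i'` with `Sh 6 i'`, `¬ Al`, `64 θ ≤ |dt i'.u j.u| ≤ 1`. Put `X = sqrt (κ / θ)`, `θ X² = κ`. `X ≤ ε² j.r`: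
`Fam.th_lower`: `θ ≥ 16 κ / (ε⁴ j.r²)`. `PP ... t (64 / X²)`: `κ * 64 / X² = 64 θ ≤ |dt i'.u j.u|`. So `hf` gives `t₁, i₁` and `t₂, i₂` with
`κ * (4 / X²) = 4 θ ≤ |dt i₁.u j.u|`, ...; `supply_b`. -/
theorem DFam.supply {S : Set (ℝ × ℝ)} {κ ε : ℝ} {F : Finset Room} {cls : Room → ℤ}
    (T : DFam S κ ε F cls) {j : Room} (hj : j ∈ F) {t : ℝ} (ht : |t| ≤ j.r / 8)
    (hf : Fine (PP F cls κ ε j) (ε ^ 2 * j.r) t) (hI : IT F cls κ ε j t) :
    ∃ i, IsMin F cls κ ε j t i ∧ ∃ s : ℝ, (s = 1 ∨ s = -1) ∧ ∀ β : ℝ, 0 < β → β ≤ pz κ ε j.r →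
      ENNReal.ofReal (κ / 100) ≤ volume {w : ℝ × ℝ |
        segment ℝ (fr j.c j.u (t, s * β)) (fr j.c j.u (t, s * β) + w) ⊆ S ∧
          Win κ (th κ i j) j.u w} := by
  obtain ⟨i, hmin, hI⟩ := hI
  refine ⟨i, hmin, ?_⟩
  obtain ⟨hiF, hicls, hnear⟩ := hmin.1
  have hij := T.lt i hiF j hj hicls
  by_cases hal : Al κ i j
  · have hth : th κ i j = κ / i.r ^ 2 := by
      unfold th
      rw [if_pos hal]
    rw [hth]
    exact supply_a T.tri T.κ0 T.ε0 T.ε1 (T.droom i hiF) (T.droom j hj) hij ht hnear hal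
  · have hth : th κ i j = |dt i.u j.u| := by
      unfold th
      rw [if_neg hal]
    obtain ⟨i', hSh', hal', h64⟩ := hI.resolve_left hal
    rw [hth] at h64 ⊢
    set θ := |dt i.u j.u| with hθd
    have hκ := T.κ0
    have hε := T.ε0
    have hri : 0 < i.r := by
      have h1 := (T.room i hiF).h0
      have h2 := (T.room i hiF).thin
      have h3 : 0 < i.r / 10 ^ 20 := h1.trans_le h2
      by_contra h4
      have h5 : i.r / 10 ^ 20 ≤ 0 := div_nonpos_of_nonpos_of_nonneg (not_lt.1 h4) (by positivity)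
      linarith
    have hrj : 0 < j.r := by
      have h1 := (T.room j hj).h0
      have h2 := (T.room j hj).thin
      have h3 : 0 < j.r / 10 ^ 20 := h1.trans_le h2
      by_contra h4
      have h5 : j.r / 10 ^ 20 ≤ 0 := div_nonpos_of_nonpos_of_nonneg (not_lt.1 h4) (by positivity)
      linarith
    have hθ : 0 < θ := by
      unfold Al at hal
      have h1 := not_le.1 hal
      have h2 : 0 < 10 ^ 17 * κ / i.r ^ 2 := by positivity
      exact h2.trans h1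
    have hlow : 16 * κ / (ε ^ 4 * j.r ^ 2) ≤ θ := by
      have h1 := T.toFam.th_lower hiF hj hicls
      rwa [hth] at h1
    set X := Real.sqrt (κ / θ) with hXd
    have hX : 0 < X := Real.sqrt_pos.2 (by positivity)
    have hX2 : X ^ 2 = κ / θ := Real.sq_sqrt (by positivity)
    have hκX : θ * X ^ 2 = κ := by
      rw [hX2]
      field_simp
    have hXle : X ≤ ε ^ 2 * j.r := by
      have h1 : X ^ 2 ≤ (ε ^ 2 * j.r) ^ 2 := by
        rw [hX2, div_le_iff₀ hθ]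
        have h2 : 16 * κ ≤ θ * (ε ^ 4 * j.r ^ 2) := (div_le_iff₀ (by positivity)).1 hlow
        have h3 : (ε ^ 2 * j.r) ^ 2 * θ = θ * (ε ^ 4 * j.r ^ 2) := by ring
        rw [h3]
        linarith
      exact le_of_pow_le_pow_left₀ (by norm_num) (by positivity) h1
    have h64X : κ * (64 / X ^ 2) = 64 * θ := by
      rw [← hκX]
      field_simp
    have h4X : κ * (4 / X ^ 2) = 4 * θ := by
      rw [← hκX]
      field_simp
    have hPP : PP F cls κ ε j t (64 / X ^ 2) := ⟨i', hSh', hal', by rw [h64X]; exact h64⟩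
    obtain ⟨⟨t₁, ht1, i₁, hSh1, hal1, h41⟩, ⟨t₂, ht2, i₂, hSh2, hal2, h42⟩⟩ := hf X hX hXle hPP
    rw [h4X] at h41 h42
    have hdt1 : |dt i'.u j.u| ≤ 1 := abs_dt_le_one (T.room i' hSh'.1).uv (T.room j hj).uv
    exact supply_b T.tri T.κ0 T.ε0 T.ε1 (T.droom i hiF) (T.droom i₁ hSh1.1) (T.droom i₂ hSh2.1)
      (T.droom j hj) hij (T.lt i₁ hSh1.1 j hj hSh1.2.1) (T.lt i₂ hSh2.1 j hj hSh2.2.1) ht hnear hal
      (by linarith) hX hκX ht1 hSh1.2.2 hal1 h41 ht2 hSh2.2.2 hal2 h42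

end Pool.Agent.BI
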