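import Pool.Agent.BI.C5

set_option autoImplicit false

open MeasureTheory Set
open scoped ENNReal

namespace Pool.Agent.BI

/-- [BI-G1] Two zones meeting at `y`: the feet are close.
PROOF. `d2_foot` for both and `d2_tri`. `Room.ax` is `fr c u (t, 0)`. -/
theorem zone_feet {κ ε : ℝ} {j k : Room} (hj : UV j.u) (hk : UV k.u) {y : ℝ × ℝ}
    (hpj : 0 ≤ pz κ ε j.r) (hpk : 0 ≤ pz κ ε k.r) (h1 : Zn κ ε j y) (h2 : Zn κ ε k y) :
    d2 (j.ax (fi j.c j.u y).1) (k.ax (fi k.c k.u y).1) ≤ (pz κ ε j.r + pz κ ε k.r) ^ 2 := by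
  have a1 := d2_foot hj h1.1
  have a2 := d2_foot hk h2.1
  rw [d2_comm] at a1
  exact d2_tri hpj hpk a1 a2

/-- [BI-G1] `pz` in a family.
PROOF. `pz κ ε r = κ / (10 ^ 5 ε r)` is positive and antitone in `r > 0`; `i.r > 0` because `κ ≤ i.r * i.h`, `i.h > 0`. If
`cls i = cls j` then `j.r ≤ 2 i.r`, so `pz i.r ≤ 2 pz j.r`; if `cls j < cls i` then `j.r ≤ ε²/4 i.r ≤ i.r` and
`pz i.r ≤ pz j.r`. -/
theorem Fam.pz_le {S : Set (ℝ × ℝ)} {κ ε : ℝ} {F : Finset Room} {cls : Room → ℤ}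
    (T : Fam S κ ε F cls) {i j : Room} (hi : i ∈ F) (hj : j ∈ F) :
    0 < i.r ∧ 0 < pz κ ε i.r ∧ (cls j ≤ cls i → pz κ ε i.r ≤ 2 * pz κ ε j.r ∧ j.r ≤ 2 * i.r) := by
  have hi' := T.room i hi
  have hj' := T.room j hj
  have hκ := T.κ0
  have hε := T.ε0
  have ri : 0 < i.r := by
    have h1 : 0 < i.r * i.h := lt_of_lt_of_le hκ hi'.lo
    exact pos_of_mul_pos_left h1 hi'.h0.le
  have rj : 0 < j.r := by
    have h1 : 0 < j.r * j.h := lt_of_lt_of_le hκ hj'.lo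
    exact pos_of_mul_pos_left h1 hj'.h0.le
  refine ⟨ri, ?_, ?_⟩
  · unfold pz
    positivity
  · intro hle
    have hjr : j.r ≤ 2 * i.r := by
      rcases hle.lt_or_eq with h | h
      · have h1 := T.lt j hj i hi h
        have h2 : ε ^ 2 / 4 * i.r ≤ 1 * i.r := by
          have h3 : ε ^ 2 / 4 ≤ 1 := by
            have : ε ≤ 1 := T.ε1.trans (by norm_num)
            nlinarith
          gcongr
        linarith
      · exact T.same j hj i hi h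
    refine ⟨?_, hjr⟩
    unfold pz
    rw [← mul_div_assoc, div_le_div_iff₀ (by positivity) (by positivity)]
    have : κ * (10 ^ 5 * ε * j.r) ≤ κ * (10 ^ 5 * ε * (2 * i.r)) := by gcongr
    linarith

/-- [BI-G1] In a family, if `y` is in the zones of `j` and of the strictly longer `k`, then `j` is a shorter room
near the foot of `y` on `k` (dilation 4).
PROOF. `near κ ε j (k.ax (fi k.c k.u y).1) 4`: take `τ = (fi j.c j.u y).1`; `zone_feet` (`d2_comm`) and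
`pz k.r ≤ 2 pz j.r` (`Fam.pz_le`). -/
theorem Fam.sh_of_zones {S : Set (ℝ × ℝ)} {κ ε : ℝ} {F : Finset Room} {cls : Room → ℤ}
    (T : Fam S κ ε F cls) {j k : Room} (hj : j ∈ F) (hk : k ∈ F) (hlt : cls j < cls k)
    {y : ℝ × ℝ} (h1 : Zn κ ε j y) (h2 : Zn κ ε k y) :
    Sh F cls κ ε k (fi k.c k.u y).1 4 j := by
  obtain ⟨-, pj, -⟩ := T.pz_le hj hj
  obtain ⟨-, pk, h3⟩ := T.pz_le hk hj
  obtain ⟨h4, -⟩ := h3 hlt.le
  refine ⟨hj, hlt, (fi j.c j.u y).1, h1.2, ?_⟩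
  have h5 := zone_feet (T.room j hj).uv (T.room k hk).uv pj.le pk.le h1 h2
  rw [d2_comm]
  refine h5.trans ?_
  gcongr
  linarith

/-- [BI-G1] In a family, `y` in the zones of `j` and of `k`, `cls j ≤ cls k`, not aligned: `k` crosses `j` at the foot
of `y`.
PROOF. `Cross`: `j.r ≤ 2 k.r` and `pz k.r ≤ 2 pz j.r` by `Fam.pz_le`; `τ = (fi k.c k.u y).1`; `zone_feet`:
`d2 ≤ (3 pz j.r)² ≤ (4 pz j.r)²`. -/
theorem Fam.cross_of_zones {S : Set (ℝ × ℝ)} {κ ε : ℝ} {F : Finset Room} {cls : Room → ℤ}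
    (T : Fam S κ ε F cls) {j k : Room} (hj : j ∈ F) (hk : k ∈ F) (hle : cls j ≤ cls k)
    {y : ℝ × ℝ} (h1 : Zn κ ε j y) (h2 : Zn κ ε k y) (hna : ¬ Al κ j k) :
    Cross κ ε j k (fi j.c j.u y).1 := by
  obtain ⟨-, pj, -⟩ := T.pz_le hj hj
  obtain ⟨-, pk, h3⟩ := T.pz_le hk hj
  obtain ⟨h4, h6⟩ := h3 hle
  refine ⟨h6, hna, (fi k.c k.u y).1, h2.2, ?_⟩
  have h5 := zone_feet (T.room j hj).uv (T.room k hk).uv pj.le pk.le h1 h2
  refine h5.trans ?_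
  gcongr
  linarith

/-- [BI-G1] Rooms of the same class whose zones meet are not aligned.
PROOF. `not_al_of_same` with `t = (fi j.c j.u y).1`, `τ = (fi k.c k.u y).1`; `T.same` both ways; `T.sep k j`; `zone_feet`,
`pz k.r ≤ 2 pz j.r`. -/
theorem DFam.not_al_same {S : Set (ℝ × ℝ)} {κ ε : ℝ} {F : Finset Room} {cls : Room → ℤ}
    (T : DFam S κ ε F cls) {j k : Room} (hj : j ∈ F) (hk : k ∈ F) (hjk : j ≠ k)
    (hc : cls j = cls k) {y : ℝ × ℝ} (h1 : Zn κ ε j y) (h2 : Zn κ ε k y) : ¬ Al κ j k := by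
  have T' := T.toFam
  obtain ⟨rj, pj, -⟩ := T'.pz_le hj hj
  obtain ⟨rk, pk, h3⟩ := T'.pz_le hk hj
  obtain ⟨h4, h6⟩ := h3 hc.le
  have h5 := zone_feet (T'.room j hj).uv (T'.room k hk).uv pj.le pk.le h1 h2
  refine not_al_of_same T'.tri T'.κ0 T'.ε0 T'.ε1 (T.droom j hj) (T.droom k hk) h6
    (T'.same k hk j hj hc.symm) (T'.sep k hk j hj hjk.symm hc.symm) (t := (fi j.c j.u y).1)
    (τ := (fi k.c k.u y).1) ?_ ?_ ?_
  · exact h1.2.trans (by linarith)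
  · exact h2.2.trans (by linarith)
  · refine h5.trans ?_
    gcongr
    linarith

end Pool.Agent.BI
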