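import Pool.Agent.BI.G1
import Pool.Agent.BI.D3

set_option autoImplicit false

open MeasureTheory Set
open scoped ENNReal

namespace Pool.Agent.BI

/-- the axis of a room is in `S` -/
theorem g2_ax {S : Set (ℝ × ℝ)} {κ : ℝ} {R : Room} (h : IsRoom S κ R) (t : ℝ) (ht : |t| ≤ R.r) :
    R.ax t ∈ S :=
  h.rect t 0 ht (by rw [abs_zero]; exact h.h0.le)

/-- [BI-G2] Cone lemma in a family.
PROOF. `k, k'` cross `j` at `t = (fi j.c j.u y).1` (`Fam.cross_of_zones`), so `t ∈ Xc` (`|t| ≤ j.r / 8 ≤ j.r / 7`); `hnt` gives `t' ∈ Xc`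
and a `k''` crossing at `t'`; `cone`. The axes are in `S`: `RectIn` with `y = 0`. -/
theorem DFam.cone {S : Set (ℝ × ℝ)} {κ ε : ℝ} {F : Finset Room} {cls : Room → ℤ}
    (T : DFam S κ ε F cls) {j k k' : Room} (hj : j ∈ F) (hk : k ∈ F) (hk' : k' ∈ F)
    (hle : cls j ≤ cls k) (hle' : cls j ≤ cls k') {y : ℝ × ℝ} (h1 : Zn κ ε j y)
    (h2 : Zn κ ε k y) (h3 : Zn κ ε k' y) (hna : ¬ Al κ j k) (hna' : ¬ Al κ j k')
    (hnt : NTok F cls κ ε j (fi j.c j.u y).1) :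
    |dt k.u k'.u| ≤ 1 / 70 * |dt j.u k.u| ∧ |dt k.u k'.u| ≤ 1 / 70 * |dt j.u k'.u| := by
  have hc := T.toFam.cross_of_zones hj hk hle h1 h2 hna
  have hc' := T.toFam.cross_of_zones hj hk' hle' h1 h3 hna'
  have hr : 0 < j.r := (T.toFam.pz_le hj hj).1
  have ht : |(fi j.c j.u y).1| ≤ j.r / 7 := by
    have := h1.2
    linarith
  obtain ⟨t', ⟨ht', k'', hk'', hle'', hc''⟩, hd1, hd2⟩ := hnt ⟨ht, k, hk, hle, hc⟩
  exact Pool.Agent.BI.cone T.tri T.κ0 T.ε0 T.ε1 (T.droom j hj) (T.room k hk).uv (g2_ax (T.room k hk))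
    (T.room k' hk').uv (g2_ax (T.room k' hk')) (T.room k'' hk'').uv (g2_ax (T.room k'' hk''))
    ht ht' hd1 hd2 hc hc' hc''

/-- [BI-G2] At most two rooms of one class over a point.
PROOF. Pairwise non-aligned by `DFam.not_al_same`. `DFam.cone` at `j` (for `k, l`): `|dt k.u l.u| ≤ |dt j.u k.u| / 70`; at `k` (for
`j, l`): `|dt j.u l.u| ≤ |dt k.u j.u| / 70`. So `|dt j.u k.u| ≤ |dt j.u l.u| + |dt l.u k.u| ≤ (2/70) |dt j.u k.u|`
(`abs_dt_triangle`, `abs_dt_comm`), hence `dt j.u k.u = 0` and `Al κ j k` (`0 ≤ 10 ^ 17 κ / r²`). Contradiction. -/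
theorem DFam.same_le_two {S : Set (ℝ × ℝ)} {κ ε : ℝ} {F : Finset Room} {cls : Room → ℤ}
    (T : DFam S κ ε F cls) {j k l : Room} (hj : j ∈ F) (hk : k ∈ F) (hl : l ∈ F) (hjk : j ≠ k)
    (hjl : j ≠ l) (hkl : k ≠ l) (hc : cls j = cls k) (hc' : cls j = cls l) {y : ℝ × ℝ}
    (h1 : Zn κ ε j y) (h2 : Zn κ ε k y) (h3 : Zn κ ε l y)
    (hnj : NTok F cls κ ε j (fi j.c j.u y).1) (hnk : NTok F cls κ ε k (fi k.c k.u y).1) :
    False := by
  have njk := T.not_al_same hj hk hjk hc h1 h2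
  have njl := T.not_al_same hj hl hjl hc' h1 h3
  have nkj := T.not_al_same hk hj hjk.symm hc.symm h2 h1
  have nkl := T.not_al_same hk hl hkl (hc.symm.trans hc') h2 h3
  have a1 := (T.cone hj hk hl hc.le hc'.le h1 h2 h3 njk njl hnj).1
  have a2 := (T.cone hk hj hl hc.ge (hc.symm.trans hc').le h2 h1 h3 nkj nkl hnk).1
  have uj := (T.room j hj).uv
  have uk := (T.room k hk).uv
  have ul := (T.room l hl).uv
  have a3 := abs_dt_triangle uj ul uk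
  rw [abs_dt_comm l.u k.u] at a3
  rw [abs_dt_comm k.u j.u] at a2
  have a4 : |dt j.u k.u| ≤ 0 := by
    have := abs_nonneg (dt j.u k.u)
    linarith
  apply njk
  unfold Al
  have : 0 ≤ 10 ^ 17 * κ / j.r ^ 2 := by
    have := T.κ0
    positivity
  linarith

end Pool.Agent.BI
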