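import Pool.Agent.BI.G1

set_option autoImplicit false

open MeasureTheory Set
open scoped ENNReal

namespace Pool.Agent.BI

/-- [BI-G3] A minimiser exists if there is a shorter room. PROOF. `{i ∈ F | Sh ... 4 i}` (classical filter) is a non-empty
finite set; `Finset.exists_min_image` for `fun i => th κ i j`. -/
theorem exists_isMin {F : Finset Room} {cls : Room → ℤ} {κ ε : ℝ} {j : Room} {t : ℝ} {i : Room}
    (h : Sh F cls κ ε j t 4 i) : ∃ i', IsMin F cls κ ε j t i' := by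
  classical
  have hne : (F.filter fun i => Sh F cls κ ε j t 4 i).Nonempty :=
    ⟨i, Finset.mem_filter.2 ⟨h.1, h⟩⟩
  obtain ⟨i', hi', hmin⟩ := Finset.exists_min_image _ (fun i => th κ i j) hne
  exact ⟨i', (Finset.mem_filter.1 hi').2, fun k hk => hmin k (Finset.mem_filter.2 ⟨hk.1, hk⟩)⟩

/-- [BI-G3] Non-type-I rooms over one point are not aligned.
PROOF. `j₁` shorter than `j₂`. Suppose `Al κ j₁ j₂`. `t₁, t₂` the feet of `y`. `exists_isMin`: `i` minimises at `(j₁, t₁)`. As `¬ IT` at `j₁`,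
`¬ Al κ i j₁`; by `dichotomy` with `(j, k) := (i, j₁)` (point from `near`, `|τ| ≤ i.r / 8`, and `|t₁| ≤ j₁.r / 8 ≤ j₁.r / 7`,
`i.r ≤ 2 j₁.r`): `|dt i.u j₁.u| > κ / (4000 ε² i.r²)`. `i` is near `j₂.ax t₂` with dilation 6: `d2 (j₂.ax t₂) (i.ax τ) ≤
(4 p_i + p_{j₁} + p_{j₂})² ≤ (6 p_i)²` (`zone_feet`, `d2_tri`; `pz j₁.r ≤ pz i.r`, `pz j₂.r ≤ pz i.r`, both radii are `≥ i.r`); and
`cls i < cls j₁ < cls j₂`. By `abs_dt_triangle` `|dt i.u j₂.u| ≥ |dt i.u j₁.u| - |dt j₁.u j₂.u| ≥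
κ / (4000 ε² i.r²) - 10 ^ 17 κ / j₁.r²`, which is `> 10 ^ 17 κ / i.r²` (so `¬ Al κ i j₂`) and `≥ 64 κ / j₁.r²` (as
`i.r ≤ ε²/4 j₁.r`). Let `i₂` be a minimiser at `(j₂, t₂)` (exists: `Fam.sh_of_zones`): `th κ i₂ j₂ ≤ th κ j₁ j₂ = κ / j₁.r²`. So
`64 th κ i₂ j₂ ≤ |dt i.u j₂.u|` and `IT` holds at `(j₂, t₂)`: contradiction. -/
theorem DFam.not_al_of_not_IT {S : Set (ℝ × ℝ)} {κ ε : ℝ} {F : Finset Room} {cls : Room → ℤ}
    (T : DFam S κ ε F cls) {j₁ j₂ : Room} (h1 : j₁ ∈ F) (h2 : j₂ ∈ F) (hc : cls j₁ < cls j₂)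
    {y : ℝ × ℝ} (hz1 : Zn κ ε j₁ y) (hz2 : Zn κ ε j₂ y)
    (hn1 : ¬ IT F cls κ ε j₁ (fi j₁.c j₁.u y).1) (hn2 : ¬ IT F cls κ ε j₂ (fi j₂.c j₂.u y).1)
    (hsh : ∃ i, Sh F cls κ ε j₁ (fi j₁.c j₁.u y).1 4 i) : ¬ Al κ j₁ j₂ := by
  intro hAl
  have hκ := T.κ0
  have hε := T.ε0
  have hε1 := T.ε1
  obtain ⟨i0, hi0⟩ := hsh
  obtain ⟨i, hi⟩ := exists_isMin hi0
  obtain ⟨⟨hiF, hlt, τ, hτ, hd⟩, hmin⟩ := id hi
  have hr1 := (T.toFam.pz_le h1 h1).1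
  have hri := (T.toFam.pz_le hiF hiF).1
  have hr2 := (T.toFam.pz_le h2 h2).1
  have hle1 : i.r ≤ ε ^ 2 / 4 * j₁.r := T.lt i hiF j₁ h1 hlt
  have hle2 : j₁.r ≤ ε ^ 2 / 4 * j₂.r := T.lt j₁ h1 j₂ h2 hc
  have hεs : ε ^ 2 / 4 ≤ 1 / 4 := by
    have : ε ≤ 1 := hε1.trans (by norm_num)
    have : ε ^ 2 ≤ 1 := pow_le_one₀ hε.le this
    linarith
  have hle1' : i.r ≤ j₁.r := by nlinarith
  have hle2' : j₁.r ≤ j₂.r := by nlinarith
  have hna : ¬ Al κ i j₁ := fun h => hn1 ⟨i, hi, Or.inl h⟩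
  have hd' : d2 (i.ax τ) (j₁.ax (fi j₁.c j₁.u y).1) ≤ (8 * pz κ ε i.r) ^ 2 := by
    rw [d2_comm]
    refine hd.trans ?_
    have := (T.toFam.pz_le hiF hiF).2.1
    gcongr
    norm_num
  have hdich := dichotomy T.tri hκ hε hε1 (T.droom i hiF) (T.room j₁ h1).uv
    (fun t ht => (T.room j₁ h1).rect t 0 ht (by rw [abs_zero]; exact (T.room j₁ h1).h0.le))
    (t := τ) (τ := (fi j₁.c j₁.u y).1) (by linarith)
    (by linarith) (by have := hz1.2; linarith) hd'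
  have hbig : κ / (4000 * ε ^ 2 * i.r ^ 2) < |dt i.u j₁.u| := by
    rcases hdich with h | h
    · exact h
    · exact absurd h.1 hna
  -- the short room near the foot on `j₂`
  have hpz : ∀ {r r' : ℝ}, 0 < r → r ≤ r' → pz κ ε r' ≤ pz κ ε r := by
    intro r r' h0 h
    unfold pz
    gcongr
  have hsh6 : Sh F cls κ ε j₂ (fi j₂.c j₂.u y).1 6 i := by
    refine ⟨hiF, hlt.trans hc, τ, hτ, ?_⟩
    have e1 := zone_feet (κ := κ) (ε := ε) (T.room j₂ h2).uv (T.room j₁ h1).uv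
      (T.toFam.pz_le h2 h2).2.1.le (T.toFam.pz_le h1 h1).2.1.le hz2 hz1
    have p2 := (T.toFam.pz_le h2 h2).2.1
    have p1 := (T.toFam.pz_le h1 h1).2.1
    have p0 := (T.toFam.pz_le hiF hiF).2.1
    have e2 := d2_tri (by positivity) (by positivity) e1 hd
    refine e2.trans ?_
    have q1 := hpz hri hle1'
    have q2 := hpz hri (hle1'.trans hle2')
    gcongr
    linarith
  have htri := abs_dt_triangle (T.room i hiF).uv (T.room j₂ h2).uv (T.room j₁ h1).uv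
  rw [abs_dt_comm j₂.u j₁.u] at htri
  unfold Al at hAl
  set a : ℝ := κ / i.r ^ 2 with ha
  have ha0 : 0 < a := by positivity
  have hj1 : κ / j₁.r ^ 2 ≤ ε ^ 4 / 16 * a := by
    rw [ha, div_le_iff₀ (by positivity)]
    have e : ε ^ 4 / 16 * (κ / i.r ^ 2) * j₁.r ^ 2 = κ * ((ε ^ 2 / 4 * j₁.r) ^ 2 / i.r ^ 2) := by
      ring
    rw [e]
    have : 1 ≤ (ε ^ 2 / 4 * j₁.r) ^ 2 / i.r ^ 2 := by
      rw [one_le_div (by positivity)]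
      gcongr
    nlinarith
  have hε4 : ε ^ 4 ≤ 1 / 10 ^ 120 := by
    calc ε ^ 4 ≤ (1 / 10 ^ 30) ^ 4 := by gcongr
      _ = 1 / 10 ^ 120 := by norm_num
  have hε2 : ε ^ 2 ≤ 1 / 10 ^ 60 := by
    calc ε ^ 2 ≤ (1 / 10 ^ 30) ^ 2 := by gcongr
      _ = 1 / 10 ^ 60 := by norm_num
  have hsmall : κ / j₁.r ^ 2 ≤ 1 / 10 ^ 120 * a := by
    refine hj1.trans (mul_le_mul_of_nonneg_right ?_ ha0.le)
    have : 0 < ε ^ 4 := by positivity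
    linarith
  have hbig' : 10 ^ 56 * a ≤ κ / (4000 * ε ^ 2 * i.r ^ 2) := by
    have e : κ / (4000 * ε ^ 2 * i.r ^ 2) = a / (4000 * ε ^ 2) := by
      rw [ha]
      field_simp
    rw [e, le_div_iff₀ (by positivity)]
    have : 4000 * ε ^ 2 ≤ 1 / 10 ^ 56 := by
      have : (4000 : ℝ) * (1 / 10 ^ 60) ≤ 1 / 10 ^ 56 := by norm_num
      linarith
    calc 10 ^ 56 * a * (4000 * ε ^ 2) ≤ 10 ^ 56 * a * (1 / 10 ^ 56) := by gcongr
      _ = a := by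
        field_simp
  have hAl' : |dt j₁.u j₂.u| ≤ 1 / 10 ^ 103 * a := by
    refine hAl.trans ?_
    rw [mul_div_assoc]
    calc (10 : ℝ) ^ 17 * (κ / j₁.r ^ 2) ≤ 10 ^ 17 * (1 / 10 ^ 120 * a) := by gcongr
      _ = 1 / 10 ^ 103 * a := by ring
  have hfin : 10 ^ 55 * a ≤ |dt i.u j₂.u| := by
    have : (1 : ℝ) / 10 ^ 103 * a + 10 ^ 55 * a ≤ 10 ^ 56 * a := by
      have : (1 : ℝ) / 10 ^ 103 + 10 ^ 55 ≤ 10 ^ 56 := by norm_num
      nlinarith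
    linarith
  have hna2 : ¬ Al κ i j₂ := by
    unfold Al
    rw [not_le, mul_div_assoc, ← ha]
    have : (10 : ℝ) ^ 17 * a < 10 ^ 55 * a := by
      have : (10 : ℝ) ^ 17 < 10 ^ 55 := by norm_num
      nlinarith
    linarith
  obtain ⟨i₂, hi₂⟩ := exists_isMin (T.toFam.sh_of_zones h1 h2 hc hz1 hz2)
  have hth : th κ i₂ j₂ ≤ κ / j₁.r ^ 2 := by
    refine (hi₂.2 j₁ (T.toFam.sh_of_zones h1 h2 hc hz1 hz2)).trans (le_of_eq ?_)
    unfold th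
    rw [if_pos]
    exact hAl
  refine hn2 ⟨i₂, hi₂, Or.inr ⟨i, hsh6, hna2, ?_⟩⟩
  have : (64 : ℝ) * (1 / 10 ^ 120 * a) ≤ 10 ^ 55 * a := by
    have : (64 : ℝ) * (1 / 10 ^ 120) ≤ 10 ^ 55 := by norm_num
    nlinarith
  linarith

end Pool.Agent.BI
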