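import Pool.Agent.BI.G2
import Pool.Agent.BI.G3

set_option autoImplicit false

open MeasureTheory Set
open scoped ENNReal

namespace Pool.Agent.BI

theorem g4_mono {F : Finset Room} {cls : Room → ℤ} {κ ε : ℝ} {j : Room} {t : ℝ} {i : Room}
    (h : Sh F cls κ ε j t 4 i) : Sh F cls κ ε j t 6 i := by
  obtain ⟨h1, h2, τ, h3, h4⟩ := h
  refine ⟨h1, h2, τ, h3, h4.trans ?_⟩
  nlinarith [sq_nonneg (pz κ ε i.r)]

/-- [BI-G4] No three classes of non-type-I rooms, the shortest of which sees a shorter room, over one point.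
PROOF. All three pairs are not aligned (`DFam.not_al_of_not_IT`; for the pair `(j₂, j₃)` the room `j₁` is a shorter room near the foot on
`j₂`, `Fam.sh_of_zones`). `DFam.cone` at `j₁` (for `j₃, j₂`): `|dt j₃.u j₂.u| ≤ |dt j₁.u j₃.u| / 70`. Let `i` be a minimiser at
`(j₃, t₃)`: `th κ i j₃ ≤ th κ j₂ j₃ = |dt j₂.u j₃.u|` (`¬ Al κ j₂ j₃`, `Fam.sh_of_zones`). So `64 th κ i j₃ ≤ |dt j₁.u j₃.u|`, `j₁` is a
shorter non-aligned room near the foot on `j₃` with dilation 4, hence 6: `IT` at `(j₃, t₃)`, a contradiction. -/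
theorem DFam.no_three {S : Set (ℝ × ℝ)} {κ ε : ℝ} {F : Finset Room} {cls : Room → ℤ}
    (T : DFam S κ ε F cls) {j₁ j₂ j₃ : Room} (h1 : j₁ ∈ F) (h2 : j₂ ∈ F) (h3 : j₃ ∈ F)
    (hc : cls j₁ < cls j₂) (hc' : cls j₂ < cls j₃) {y : ℝ × ℝ} (hz1 : Zn κ ε j₁ y)
    (hz2 : Zn κ ε j₂ y) (hz3 : Zn κ ε j₃ y) (hn1 : ¬ IT F cls κ ε j₁ (fi j₁.c j₁.u y).1)
    (hn2 : ¬ IT F cls κ ε j₂ (fi j₂.c j₂.u y).1) (hn3 : ¬ IT F cls κ ε j₃ (fi j₃.c j₃.u y).1)
    (hnt : NTok F cls κ ε j₁ (fi j₁.c j₁.u y).1)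
    (hsh : ∃ i, Sh F cls κ ε j₁ (fi j₁.c j₁.u y).1 4 i) : False := by
  have s12 := T.toFam.sh_of_zones h1 h2 hc hz1 hz2
  have s23 := T.toFam.sh_of_zones h2 h3 hc' hz2 hz3
  have s13 := T.toFam.sh_of_zones h1 h3 (hc.trans hc') hz1 hz3
  have a13 := T.not_al_of_not_IT h1 h3 (hc.trans hc') hz1 hz3 hn1 hn3 hsh
  have a12 := T.not_al_of_not_IT h1 h2 hc hz1 hz2 hn1 hn2 hsh
  have a23 := T.not_al_of_not_IT h2 h3 hc' hz2 hz3 hn2 hn3 ⟨j₁, s12⟩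
  have hcone := (T.cone h1 h3 h2 (hc.trans hc').le hc.le hz1 hz3 hz2 a13 a12 hnt).1
  obtain ⟨i, hi⟩ := exists_isMin s23
  have hth : th κ i j₃ ≤ |dt j₂.u j₃.u| := by
    have h4 := hi.2 j₂ s23
    rwa [th, th, if_neg a23, ← th] at h4
  apply hn3
  refine ⟨i, hi, Or.inr ⟨j₁, g4_mono s13, a13, ?_⟩⟩
  rw [abs_dt_comm j₃.u j₂.u] at hcone
  have h5 := abs_nonneg (dt j₁.u j₃.u)
  linarith

/-- [BI-G4] At most six non-type-I rooms over a point.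
PROOF. Let `J` be the given set, `C = J.image cls`. Each class contains at most two elements of `J`
(`DFam.same_le_two`; three distinct elements: `Finset.two_lt_card`), so `J.card ≤ 2 C.card`
(`Finset.card_le_mul_card_image`). If `C.card ≥ 4` take `c₀ < c₁ < c₂ < c₃` in `C` and rooms `j₀, j₁, j₂, j₃ ∈ J` of these classes; `j₀` is a
shorter room near the foot on `j₁` (`Fam.sh_of_zones`), so `DFam.no_three` for `j₁, j₂, j₃` is a contradiction. Hence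
`C.card ≤ 3`. -/
theorem DFam.card_not_IT {S : Set (ℝ × ℝ)} {κ ε : ℝ} {F : Finset Room} {cls : Room → ℤ}
    (T : DFam S κ ε F cls) {y : ℝ × ℝ} (J : Finset Room) (hJ : J ⊆ F)
    (hz : ∀ j ∈ J, Zn κ ε j y) (hnt : ∀ j ∈ J, NTok F cls κ ε j (fi j.c j.u y).1)
    (hn : ∀ j ∈ J, ¬ IT F cls κ ε j (fi j.c j.u y).1) : J.card ≤ 6 := by
  classical
  have h2 : J.card ≤ 2 * (J.image cls).card := by
    refine Finset.card_le_mul_card_image (f := cls) J 2 fun c _ => ?_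
    by_contra hcon
    push Not at hcon
    obtain ⟨j, k, l, hj, hk, hl, hjk, hjl, hkl⟩ := Finset.two_lt_card_iff.1 hcon
    rw [Finset.mem_filter] at hj hk hl
    exact T.same_le_two (hJ hj.1) (hJ hk.1) (hJ hl.1) hjk hjl hkl (hj.2.trans hk.2.symm)
      (hj.2.trans hl.2.symm) (hz j hj.1) (hz k hk.1) (hz l hl.1) (hnt j hj.1) (hnt k hk.1)
  have h3 : (J.image cls).card ≤ 3 := by
    by_contra hcon
    push Not at hcon
    let e := (J.image cls).orderEmbOfFin rfl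
    have hmem : ∀ i, ∃ j ∈ J, cls j = e i := fun i =>
      Finset.mem_image.1 ((J.image cls).orderEmbOfFin_mem rfl i)
    obtain ⟨j₀, hj₀, e₀⟩ := hmem ⟨0, by omega⟩
    obtain ⟨j₁, hj₁, e₁⟩ := hmem ⟨1, by omega⟩
    obtain ⟨j₂, hj₂, e₂⟩ := hmem ⟨2, by omega⟩
    obtain ⟨j₃, hj₃, e₃⟩ := hmem ⟨3, by omega⟩
    have c01 : cls j₀ < cls j₁ := by
      rw [e₀, e₁]
      exact e.strictMono (by simp [Fin.lt_def])
    have c12 : cls j₁ < cls j₂ := by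
      rw [e₁, e₂]
      exact e.strictMono (by simp [Fin.lt_def])
    have c23 : cls j₂ < cls j₃ := by
      rw [e₂, e₃]
      exact e.strictMono (by simp [Fin.lt_def])
    exact T.no_three (hJ hj₁) (hJ hj₂) (hJ hj₃) c12 c23 (hz j₁ hj₁) (hz j₂ hj₂) (hz j₃ hj₃)
      (hn j₁ hj₁) (hn j₂ hj₂) (hn j₃ hj₃) (hnt j₁ hj₁)
      ⟨j₀, T.toFam.sh_of_zones (hJ hj₀) (hJ hj₁) c01 (hz j₀ hj₀) (hz j₁ hj₁)⟩
  omega

end Pool.Agent.BI
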