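import Pool.Agent.BI.Basic

set_option autoImplicit false

open MeasureTheory Set
open scoped ENNReal

namespace Pool.Agent.BI

/-- The rung, given the direction `(X, e)` with `q ≤ e ≤ r`, `|X| ≤ r` in frame coordinates. -/
theorem h1_rung {S : Set (ℝ × ℝ)} {r q : ℝ} (hq : 0 < q) {R : Room} (hR : UV R.u)
    (hrect : RectIn S R) {t α β : ℝ}
    (h1 : |(fi R.c R.u (t, 0)).1| + |α| ≤ R.r) (h2 : |(fi R.c R.u (t, 0)).2| + |β| ≤ R.h)
    (he : q ≤ α * R.u.2 + β * R.u.1) (he' : α * R.u.2 + β * R.u.1 ≤ r)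
    (hX : |α * R.u.1 - β * R.u.2| ≤ r) : t ∈ Rungs S r q := by
  set e := α * R.u.2 + β * R.u.1 with hedef
  set X := α * R.u.1 - β * R.u.2 with hXdef
  have he0 : 0 < e := lt_of_lt_of_le hq he
  refine ⟨he.trans he', X / e, ?_, ?_⟩
  · rw [abs_div, abs_of_pos he0, div_mul_eq_mul_div, div_le_iff₀ he0]
    calc |X| * q ≤ r * e := mul_le_mul hX he hq.le ((abs_nonneg _).trans hX)
      _ = r * e := rfl
  · intro y hy
    have hs : |y / e| ≤ 1 := by
      rw [abs_div, abs_of_pos he0, div_le_one he0]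
      exact hy.trans he
    have key : (t + X / e * y, y) = fr R.c R.u ((fi R.c R.u (t, 0)).1 + y / e * α,
        (fi R.c R.u (t, 0)).2 + y / e * β) := by
      have hu := hR
      unfold UV at hu
      have hye : y / e * e = y := by field_simp
      have hXe : X / e * y = y / e * X := by ring
      ext
      · simp only [fr, fi]
        rw [hXe]
        have h3 : R.c.1 + (((t - R.c.1) * R.u.1 + (0 - R.c.2) * R.u.2) + y / e * α) * R.u.1 -
            (((0 - R.c.2) * R.u.1 - (t - R.c.1) * R.u.2) + y / e * β) * R.u.2 =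
            R.c.1 + (t - R.c.1) * (R.u.1 ^ 2 + R.u.2 ^ 2) + y / e * X := by
          rw [hXdef]
          ring
        rw [h3, hu]
        ring
      · simp only [fr, fi]
        have h3 : R.c.2 + (((t - R.c.1) * R.u.1 + (0 - R.c.2) * R.u.2) + y / e * α) * R.u.2 +
            (((0 - R.c.2) * R.u.1 - (t - R.c.1) * R.u.2) + y / e * β) * R.u.1 =
            R.c.2 + (0 - R.c.2) * (R.u.1 ^ 2 + R.u.2 ^ 2) + y / e * e := by
          rw [hedef]
          ring
        rw [h3, hu, hye]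
        ring
    rw [key]
    apply hrect
    · calc |(fi R.c R.u (t, 0)).1 + y / e * α| ≤ |(fi R.c R.u (t, 0)).1| + |y / e * α| := abs_add_le _ _
        _ ≤ |(fi R.c R.u (t, 0)).1| + |α| := by
            have h5 : |y / e * α| ≤ |α| := by
              rw [abs_mul]
              exact mul_le_of_le_one_left (abs_nonneg _) hs
            linarith
        _ ≤ R.r := h1
    · calc |(fi R.c R.u (t, 0)).2 + y / e * β| ≤ |(fi R.c R.u (t, 0)).2| + |y / e * β| := abs_add_le _ _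
        _ ≤ |(fi R.c R.u (t, 0)).2| + |β| := by
            have h5 : |y / e * β| ≤ |β| := by
              rw [abs_mul]
              exact mul_le_of_le_one_left (abs_nonneg _) hs
            linarith
        _ ≤ R.h := h2

/-- signs -/
theorem h1_sign (x : ℝ) : ∃ s : ℝ, (s = 1 ∨ s = -1) ∧ s * x = |x| := by
  rcases le_total 0 x with h | h
  · exact ⟨1, Or.inl rfl, by rw [abs_of_nonneg h, one_mul]⟩
  · exact ⟨-1, Or.inr rfl, by rw [abs_of_nonpos h]; ring⟩

/-- [BI-H1] A rectangle crossing the axis in a short piece gives rungs (standard position of the long room;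
`R` is the rectangle).
PROOF. `u = R.u`, `(X₀, Y₀) = fi R.c u (t, 0)`, `a = R.r / 4`, `b = R.h / 2`. All points of frame coordinates `(X₀ + α, Y₀ + β)`, `|α| ≤ a`,
`|β| ≤ b`, are in `R`, hence in `S`. Moving the point `(t, 0)` to `(t + δ, 0)` changes the frame coordinates by `(δ u.1, - δ u.2)`.
Claim: `2 a ≤ ε² r |u.1|` or `2 b ≤ ε² r |u.2|`. If not, there is `δ > ε² r / 2` with `δ |u.1| ≤ a` and `δ |u.2| ≤ b`, so `(t ± δ, 0)` are both in
`R`, and `hshort` gives `2 δ ≤ ε² r`, a contradiction.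
Choose `α = ± a`, `β = ± b` such that `e := α u.2 + β u.1 = a |u.2| + b |u.1|`, and let `X = α u.1 - β u.2`
(`(X, e)` is the vector with frame coordinates `(α, β)`). In the first case `e ≥ b |u.1| ≥ 2 a b / (ε² r)`, in the second
`e ≥ a |u.2| ≥ 2 a b / (ε² r)`; and `2 a b / (ε² r) = R.r R.h / (4 ε² r) ≥ κ / (4 ε² r) = pst =: q`. `e, |X| ≤ a + b ≤ R.r / 2 ≤ r`. So `q ≤ e ≤ r`;
`g = X / e`: `|g| q ≤ |X| ≤ r`, and for `|y| ≤ q`: `(t + g y, y) = (t, 0) + (y / e) (X, e)` has frame coordinates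
`(X₀ + (y/e) α, Y₀ + (y/e) β)`. -/
theorem hub_rung {S : Set (ℝ × ℝ)} {κ ε r : ℝ} (hκ : 0 < κ) (hε : 0 < ε) (hr : 0 < r) {R : Room}
    (hR : UV R.u) (h0 : 0 < R.h) (hthin : R.h ≤ R.r / 10 ^ 20) (hlo : κ ≤ R.r * R.h)
    (hrect : RectIn S R) (hRr : R.r ≤ 2 * r) {t : ℝ}
    (h1 : |(fi R.c R.u (t, 0)).1| ≤ 3 / 4 * R.r) (h2 : |(fi R.c R.u (t, 0)).2| ≤ R.h / 2)
    (hshort : ∀ t₁ t₂ : ℝ, |(fi R.c R.u (t₁, 0)).1| ≤ R.r → |(fi R.c R.u (t₁, 0)).2| ≤ R.h →
      |(fi R.c R.u (t₂, 0)).1| ≤ R.r → |(fi R.c R.u (t₂, 0)).2| ≤ R.h → |t₁ - t₂| ≤ ε ^ 2 * r) :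
    t ∈ Rungs S r (pst κ ε r) := by
  have hq : 0 < pst κ ε r := by unfold pst; positivity
  have hRpos : 0 < R.r := by
    have h3 : (0 : ℝ) < R.r / 10 ^ 20 := lt_of_lt_of_le h0 hthin
    by_contra hcon
    have h4 : R.r / 10 ^ 20 ≤ 0 := div_nonpos_of_nonpos_of_nonneg (not_lt.1 hcon) (by positivity)
    linarith
  set u1 := R.u.1 with hu1
  set u2 := R.u.2 with hu2
  have huv : u1 ^ 2 + u2 ^ 2 = 1 := hR
  have ha1 : |u1| ≤ 1 := by
    rw [← sq_le_one_iff_abs_le_one]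
    nlinarith [sq_nonneg u2]
  have ha2 : |u2| ≤ 1 := by
    rw [← sq_le_one_iff_abs_le_one]
    nlinarith [sq_nonneg u1]
  have hε2 : 0 < ε ^ 2 * r := by positivity
  -- moving the foot
  have hmove : ∀ δ : ℝ, (fi R.c R.u (t + δ, 0)).1 = (fi R.c R.u (t, 0)).1 + δ * u1 ∧
      (fi R.c R.u (t + δ, 0)).2 = (fi R.c R.u (t, 0)).2 - δ * u2 := by
    intro δ
    constructor
    · simp only [fi, hu1]
      ring
    · simp only [fi, hu2]
      ring
  have claim : R.r / 2 ≤ ε ^ 2 * r * |u1| ∨ R.h ≤ ε ^ 2 * r * |u2| := by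
    by_contra hcon
    push Not at hcon
    obtain ⟨c1, c2⟩ := hcon
    -- `δ = ε² r / 2 + η`
    obtain ⟨η, hη, h3, h4⟩ : ∃ η : ℝ, 0 < η ∧ (ε ^ 2 * r / 2 + η) * |u1| ≤ R.r / 4 ∧
        (ε ^ 2 * r / 2 + η) * |u2| ≤ R.h / 2 := by
      refine ⟨min ((R.r / 2 - ε ^ 2 * r * |u1|) / 2) ((R.h - ε ^ 2 * r * |u2|) / 2),
        lt_min (by linarith) (by linarith), ?_, ?_⟩
      · have h5 := min_le_left ((R.r / 2 - ε ^ 2 * r * |u1|) / 2) ((R.h - ε ^ 2 * r * |u2|) / 2)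
        have h6 : min ((R.r / 2 - ε ^ 2 * r * |u1|) / 2) ((R.h - ε ^ 2 * r * |u2|) / 2) * |u1| ≤
            (R.r / 2 - ε ^ 2 * r * |u1|) / 2 * 1 :=
          mul_le_mul h5 ha1 (abs_nonneg _) (by linarith)
        linarith
      · have h5 := min_le_right ((R.r / 2 - ε ^ 2 * r * |u1|) / 2) ((R.h - ε ^ 2 * r * |u2|) / 2)
        have h6 : min ((R.r / 2 - ε ^ 2 * r * |u1|) / 2) ((R.h - ε ^ 2 * r * |u2|) / 2) * |u2| ≤
            (R.h - ε ^ 2 * r * |u2|) / 2 * 1 :=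
          mul_le_mul h5 ha2 (abs_nonneg _) (by linarith)
        linarith
    set δ := ε ^ 2 * r / 2 + η with hδ
    have hδ0 : 0 < δ := by positivity
    have e1 : |δ * u1| ≤ R.r / 4 := by rw [abs_mul, abs_of_pos hδ0]; exact h3
    have e2 : |δ * u2| ≤ R.h / 2 := by rw [abs_mul, abs_of_pos hδ0]; exact h4
    have m1 := hmove δ
    have m2 := hmove (-δ)
    have h5 := hshort (t + δ) (t + -δ) ?_ ?_ ?_ ?_
    · rw [show t + δ - (t + -δ) = 2 * δ by ring, abs_of_pos (by positivity)] at h5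
      linarith
    · rw [m1.1]
      refine (abs_add_le _ _).trans ?_
      linarith
    · rw [m1.2]
      refine (abs_sub _ _).trans ?_
      linarith
    · rw [m2.1]
      refine (abs_add_le _ _).trans ?_
      rw [neg_mul, abs_neg]
      linarith
    · rw [m2.2]
      refine (abs_sub _ _).trans ?_
      rw [neg_mul, abs_neg]
      linarith
  obtain ⟨s1, hs1, hs1'⟩ := h1_sign u2
  obtain ⟨s2, hs2, hs2'⟩ := h1_sign u1
  have hs1a : |s1| = 1 := by rcases hs1 with rfl | rfl <;> simp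
  have hs2a : |s2| = 1 := by rcases hs2 with rfl | rfl <;> simp
  have hhr : R.h ≤ R.r / 4 := hthin.trans (by
    rw [div_le_div_iff₀ (by positivity) (by norm_num)]
    nlinarith)
  have hα : |s1 * (R.r / 4)| = R.r / 4 := by rw [abs_mul, hs1a, one_mul, abs_of_pos (by positivity)]
  have hβ : |s2 * (R.h / 2)| = R.h / 2 := by rw [abs_mul, hs2a, one_mul, abs_of_pos (by positivity)]
  have hval : s1 * (R.r / 4) * R.u.2 + s2 * (R.h / 2) * R.u.1 =
      R.r / 4 * |u2| + R.h / 2 * |u1| := by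
    rw [← hs1', ← hs2']
    ring
  refine h1_rung (α := s1 * (R.r / 4)) (β := s2 * (R.h / 2)) hq hR hrect ?_ ?_ ?_ ?_ ?_
  · rw [hα]
    linarith
  · rw [hβ]
    linarith
  · rw [hval]
    have hp : pst κ ε r ≤ R.r * R.h / (4 * ε ^ 2 * r) := by
      unfold pst
      gcongr
    refine hp.trans ?_
    rw [div_le_iff₀ (by positivity)]
    rcases claim with h | h
    · have h3 : R.h / 2 * (R.r / 2) ≤ R.h / 2 * (ε ^ 2 * r * |u1|) := by gcongr
      have h4 : 0 ≤ R.r / 4 * |u2| * (4 * ε ^ 2 * r) := by positivity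
      nlinarith
    · have h3 : R.r / 4 * R.h ≤ R.r / 4 * (ε ^ 2 * r * |u2|) := by gcongr
      have h4 : 0 ≤ R.h / 2 * |u1| * (4 * ε ^ 2 * r) := by positivity
      nlinarith
  · rw [hval]
    have h3 : R.r / 4 * |u2| ≤ R.r / 4 * 1 := by gcongr
    have h4 : R.h / 2 * |u1| ≤ R.h / 2 * 1 := by gcongr
    linarith
  · refine (abs_sub _ _).trans ?_
    rw [abs_mul (s1 * (R.r / 4)), abs_mul (s2 * (R.h / 2)), hα, hβ]
    have h3 : R.r / 4 * |R.u.1| ≤ R.r / 4 * 1 := by gcongr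
    have h4 : R.h / 2 * |R.u.2| ≤ R.h / 2 * 1 := by gcongr
    linarith

end Pool.Agent.BI
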