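import Pool.Agent.BI.H1
import Pool.Agent.BI.A5

set_option autoImplicit false

open MeasureTheory Set
open scoped ENNReal

namespace Pool.Agent.BI

theorem h2_fi {i j : Room} (hi : UV i.u) (hj : UV j.u) (p : ℝ × ℝ) :
    fi (relRoom j i).c (relRoom j i).u p = fi i.c i.u (fr j.c j.u p) := by
  have hR : UV (relRoom j i).u := UV_rel hj hi
  have h1 := fr_rel hj (j := j) (k := i) (fi (relRoom j i).c (relRoom j i).u p)
  rw [fr_fi hR] at h1
  rw [h1, fi_fr hi]

theorem h2_pos {S : Set (ℝ × ℝ)} {κ : ℝ} {R : Room} (h : IsRoom S κ R) : 0 < R.r := by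
  have h1 := h.h0
  have h2 := h.thin
  by_contra h3
  push Not at h3
  have : R.r / 10 ^ 20 ≤ 0 := div_nonpos_of_nonpos_of_nonneg h3 (by positivity)
  linarith

theorem h2_cont (c u : ℝ × ℝ) : Continuous fun t : ℝ => fi c u (t, 0) := by
  unfold fi
  fun_prop

/-- [BI-H2] Two rooms over an uncovered point.
PROOF. Suppose first that all `t₁, t₂` with `(t₁, 0), (t₂, 0)` in the rectangle of `R := relRoom j i` (frame of `j`) satisfy
`|t₁ - t₂| ≤ ε² j.r`. Let `t = (fi j.c j.u x).1`. The point `(t, 0)` of the frame of `j` is at distance `≤ j.h / 16` from `x`; so its coordinates in the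
frame of `i` are at most `i.r / 2 + j.h / 16` and `i.h / 16 + j.h / 16` in absolute value (`abs_fi_sub_le`). `j.h < 2 κ / j.r`,
`i.h ≥ κ / i.r ≥ κ / (2 j.r)`: `j.h ≤ 4 i.h`. So the coordinates are `< 3/4 i.r` and `< i.h / 2` (strictly; `i.h ≤ i.r / 10 ^ 20`), and
the same holds for all `t'` in a neighbourhood of `t`. By `hub_rung` all these `t'` are in `Rungs`, so `t` is in the interior:
contradiction. Hence there are `t₁, t₂` with `(t₁, 0), (t₂, 0)` in the rectangle and `D := |t₁ - t₂| > ε² j.r`. The difference of the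
frame coordinates (frame of `R`) is `± (D R.u.1, - D R.u.2)`, of absolute values `≤ 2 i.r`, `≤ 2 i.h`;
`R.u.2 = dt j.u i.u`, so `|dt j.u i.u| ε² j.r ≤ 2 i.h`; and `D² = D² (R.u.1² + R.u.2²) ≤ 4 i.r² + 4 i.h² ≤ 9 i.r²`. -/
theorem uncov_pair {S : Set (ℝ × ℝ)} {κ ε : ℝ} (hκ : 0 < κ) (hε : 0 < ε) {i j : Room}
    (hi : IsRoom S κ i) (hj : IsRoom S κ j) (hr : i.r ≤ 2 * j.r) {x : ℝ × ℝ}
    (hi1 : |(fi i.c i.u x).1| ≤ i.r / 2) (hi2 : |(fi i.c i.u x).2| ≤ i.h / 16)
    (hj1 : |(fi j.c j.u x).1| ≤ j.r / 2) (hj2 : |(fi j.c j.u x).2| ≤ j.h / 16)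
    (hun : (fi j.c j.u x).1 ∉ interior (Rungs (inF j S) j.r (pst κ ε j.r))) :
    ε ^ 2 * j.r < 3 * i.r ∧ |dt j.u i.u| * (ε ^ 2 * j.r) ≤ 2 * i.h := by
  have hir := h2_pos hi
  have hjr := h2_pos hj
  have hR := IsRoom_rel hj.uv hi
  have hRr : (relRoom j i).r = i.r := rfl
  have hRh : (relRoom j i).h = i.h := rfl
  have hjh : j.h ≤ 4 * i.h := by
    have h1 : j.r * j.h < j.r * (4 * i.h) := by
      have h2 := hj.hi
      have h3 := hi.lo
      have h4 : i.r * i.h ≤ 2 * j.r * i.h := mul_le_mul_of_nonneg_right hr hi.h0.le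
      linarith
    exact (lt_of_mul_lt_mul_left h1 hjr.le).le
  by_cases hshort : ∀ t₁ t₂ : ℝ, |(fi (relRoom j i).c (relRoom j i).u (t₁, 0)).1| ≤ (relRoom j i).r →
      |(fi (relRoom j i).c (relRoom j i).u (t₁, 0)).2| ≤ (relRoom j i).h →
      |(fi (relRoom j i).c (relRoom j i).u (t₂, 0)).1| ≤ (relRoom j i).r →
      |(fi (relRoom j i).c (relRoom j i).u (t₂, 0)).2| ≤ (relRoom j i).h → |t₁ - t₂| ≤ ε ^ 2 * j.r
  · exfalso
    apply hun
    obtain ⟨t, ht⟩ : ∃ t : ℝ, t = (fi j.c j.u x).1 := ⟨_, rfl⟩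
    rw [← ht]
    have hd := d2_foot hj.uv hj2
    rw [← ht] at hd
    obtain ⟨h1, h2⟩ := abs_fi_sub_le (c := i.c) hi.uv (by linarith [hj.h0] : 0 ≤ j.h / 16) hd
    rw [← h2_fi hi.uv hj.uv] at h1 h2
    have hcont := h2_cont (relRoom j i).c (relRoom j i).u
    have hopen : IsOpen {t' : ℝ | |(fi (relRoom j i).c (relRoom j i).u (t', 0)).1| < 3 / 4 * i.r ∧
        |(fi (relRoom j i).c (relRoom j i).u (t', 0)).2| < i.h / 2} :=
      (isOpen_lt (continuous_fst.comp hcont).abs continuous_const).inter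
        (isOpen_lt (continuous_snd.comp hcont).abs continuous_const)
    refine interior_maximal ?_ hopen ?_
    · rintro t' ⟨h3, h4⟩
      exact hub_rung hκ hε hjr hR.uv hR.h0 hR.thin hR.lo hR.rect hr h3.le h4.le hshort
    · have h5 := hi.h0
      have h6 := hi.thin
      have h7 : i.r / 10 ^ 20 ≤ i.r / 2 := by
        apply div_le_div_of_nonneg_left hir.le (by norm_num) (by norm_num)
      constructor
      · rw [abs_lt]
        rw [abs_le] at h1 hi1
        constructor <;> linarith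
      · rw [abs_lt]
        rw [abs_le] at h2 hi2
        constructor <;> linarith
  · push Not at hshort
    obtain ⟨t₁, t₂, h1, h2, h3, h4, h5⟩ := hshort
    have hu : (relRoom j i).u.1 ^ 2 + (relRoom j i).u.2 ^ 2 = 1 := hR.uv
    have hdt : dt j.u i.u = (relRoom j i).u.2 := rfl
    rw [hdt]
    rw [hRr] at h1 h3
    rw [hRh] at h2 h4
    obtain ⟨c, hc⟩ : ∃ c, c = (relRoom j i).c := ⟨_, rfl⟩
    obtain ⟨u, hu'⟩ : ∃ u, u = (relRoom j i).u := ⟨_, rfl⟩
    rw [← hu'] at hu ⊢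
    rw [← hc, ← hu'] at h1 h2 h3 h4
    have e1 : (t₁ - t₂) * u.1 = (fi c u (t₁, 0)).1 - (fi c u (t₂, 0)).1 := by
      simp only [fi]
      ring
    have e2 : (t₁ - t₂) * u.2 = (fi c u (t₂, 0)).2 - (fi c u (t₁, 0)).2 := by
      simp only [fi]
      ring
    have e3 : |t₁ - t₂| * |u.1| ≤ 2 * i.r := by
      rw [← abs_mul, e1]
      calc _ ≤ |(fi c u (t₁, 0)).1| + |(fi c u (t₂, 0)).1| := abs_sub _ _
        _ ≤ 2 * i.r := by linarith
    have e4 : |t₁ - t₂| * |u.2| ≤ 2 * i.h := by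
      rw [← abs_mul, e2]
      calc _ ≤ |(fi c u (t₂, 0)).2| + |(fi c u (t₁, 0)).2| := abs_sub _ _
        _ ≤ 2 * i.h := by linarith
    constructor
    · refine h5.trans ?_
      have h6 : |t₁ - t₂| ^ 2 < (3 * i.r) ^ 2 := by
        have h7 : |t₁ - t₂| ^ 2 = (|t₁ - t₂| * |u.1|) ^ 2 + (|t₁ - t₂| * |u.2|) ^ 2 := by
          rw [mul_pow, mul_pow, sq_abs u.1, sq_abs u.2]
          linear_combination -(|t₁ - t₂| ^ 2) * hu
        rw [h7]
        have h8 : (|t₁ - t₂| * |u.1|) ^ 2 ≤ (2 * i.r) ^ 2 :=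
          pow_le_pow_left₀ (by positivity) e3 2
        have h9 : (|t₁ - t₂| * |u.2|) ^ 2 ≤ (2 * i.h) ^ 2 :=
          pow_le_pow_left₀ (by positivity) e4 2
        have h10 : (2 * i.h) ^ 2 ≤ i.r ^ 2 := by
          apply pow_le_pow_left₀ (by linarith [hi.h0])
          have h6 := hi.thin
          have h7 : i.r / 10 ^ 20 ≤ i.r / 2 :=
            div_le_div_of_nonneg_left hir.le (by norm_num) (by norm_num)
          linarith
        have h11 : 0 < i.r ^ 2 := by positivity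
        linarith
      exact lt_of_pow_lt_pow_left₀ 2 (by linarith) h6
    · calc |u.2| * (ε ^ 2 * j.r) ≤ |u.2| * |t₁ - t₂| :=
            mul_le_mul_of_nonneg_left h5.le (abs_nonneg _)
        _ = |t₁ - t₂| * |u.2| := mul_comm _ _
        _ ≤ 2 * i.h := e4

end Pool.Agent.BI
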