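import Pool.Agent.BI.H2
import Pool.Agent.BI.G5
import Pool.Agent.BI.G1

set_option autoImplicit false

open MeasureTheory Set
open scoped ENNReal

namespace Pool.Agent.BI

theorem h3_rpos {S : Set (ℝ × ℝ)} {κ : ℝ} {R : Room} (h : IsRoom S κ R) : 0 < R.r := by
  have h1 := h.thin
  have h2 := h.h0
  by_contra hcon
  push Not at hcon
  have : R.r / 10 ^ 20 ≤ 0 := div_nonpos_of_nonpos_of_nonneg hcon (by positivity)
  linarith

theorem h3_h {S : Set (ℝ × ℝ)} {κ : ℝ} {R : Room} (h : IsRoom S κ R) : R.h < 2 * κ / R.r := by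
  rw [lt_div_iff₀ (h3_rpos h)]
  have := h.hi
  linarith

/-- distance of a point of the central part to the centre -/
theorem h3_d2 {S : Set (ℝ × ℝ)} {κ : ℝ} {R : Room} (h : IsRoom S κ R) {x : ℝ × ℝ}
    (h1 : |(fi R.c R.u x).1| ≤ R.r / 2) (h2 : |(fi R.c R.u x).2| ≤ R.h / 16) :
    d2 R.c x ≤ R.r ^ 2 := by
  have hr := h3_rpos h
  have h0 : R.c = fr R.c R.u (0, 0) := by
    ext
    · simp only [fr]; ring
    · simp only [fr]; ring
  have hx : x = fr R.c R.u (fi R.c R.u x) := (fr_fi h.uv x).symm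
  have e : d2 R.c x = (fi R.c R.u x).1 ^ 2 + (fi R.c R.u x).2 ^ 2 := by
    have h3 := d2_fr (c := R.c) (u := R.u) h.uv (0, 0) (fi R.c R.u x)
    rw [← h0, ← hx] at h3
    rw [h3]
    unfold d2
    simp only
    ring
  rw [e]
  have h4 : R.h / 16 ≤ R.r / 2 := by
    have := h.thin
    have h5 : R.r / 10 ^ 20 ≤ R.r := by
      rw [div_le_iff₀ (by positivity)]
      nlinarith
    linarith
  have h5 : (fi R.c R.u x).1 ^ 2 ≤ (R.r / 2) ^ 2 := sq_le_sq' (abs_le.mp h1).1 (abs_le.mp h1).2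
  have h6 : (fi R.c R.u x).2 ^ 2 ≤ (R.r / 2) ^ 2 :=
    sq_le_sq' (by linarith [(abs_le.mp h2).1]) (by linarith [(abs_le.mp h2).2])
  nlinarith [sq_nonneg R.r]

theorem h3_fi {i j : Room} (hi : UV i.u) (x : ℝ × ℝ) : (fi j.c j.u x).2 = (fi j.c j.u i.c).2 +
    (fi i.c i.u x).1 * dt j.u i.u + (fi i.c i.u x).2 * dp j.u i.u := by
  unfold UV at hi
  simp only [fi, dt, dp]
  linear_combination (-((x.2 - i.c.2) * j.u.1 - (x.1 - i.c.1) * j.u.2)) * hi

/-- [BI-H3] Multiplicity of the uncovered parts.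
PROOF. Let `J ⊆ F` be the set. If it is empty, fine; else fix `j₀ ∈ J`, `ρ = j₀.r`. All elements have the same class: if `i, j ∈ J`,
`cls i < cls j`, then `i.r ≤ ε²/4 j.r` (`T.lt`) contradicts `ε² j.r < 3 i.r` (`uncov_pair`). So all radii in `J` are between `ρ / 2` and
`2 ρ` (`T.same`). `dir_count` with `u i = i.u`, `w = j₀.u`: by `uncov_pair` for `i, j₀`:
`|dt i.u j₀.u| ≤ 2 i.h / (ε² ρ) ≤ 4 κ / (i.r ε² ρ) ≤ 8 κ / (ε² ρ²) =: Φ`. For `i ≠ j` in `J`: `|dt i.u j.u| ≥ φ := κ / ρ²`: otherwise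
`Close κ i j`, contradicting `T.sep`: `|dt j.u i.u| ≤ κ / ρ² ≤ 4 κ / j.r²`; `fi j.c j.u i.c`: writing `x = fr i.c i.u (s, v)`, `|s| ≤ i.r / 2`,
`|v| ≤ i.h / 16`, its second coordinate differs from that of `x` (`≤ j.h / 16`) by `s dt j.u i.u + v dp j.u i.u` up to sign, so it is
`≤ j.h / 16 + i.r κ / ρ² + i.h / 16 ≤ 10 ^ 18 κ / j.r`; and `d2 i.c j.c ≤ (i.r / 2 + i.h + j.r / 2 + j.h)² ≤ (4 j.r)²`. So
`card J ≤ 8 Φ / φ + 2 = 64 / ε² + 2 ≤ 66 / ε²`. -/
theorem Fam.card_unc {S : Set (ℝ × ℝ)} {κ ε : ℝ} {F : Finset Room} {cls : Room → ℤ}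
    (T : Fam S κ ε F cls) {x : ℝ × ℝ} (J : Finset Room) (hJ : J ⊆ F)
    (hx : ∀ j ∈ J, x ∈ Unc S κ ε j) : (J.card : ℝ) ≤ 66 / ε ^ 2 := by
  have hκ := T.κ0
  have hε := T.ε0
  have hε1 : ε ≤ 1 := T.ε1.trans (by norm_num)
  have hε2 : ε ^ 2 ≤ 1 := pow_le_one₀ hε.le hε1
  have hε2p : 0 < ε ^ 2 := by positivity
  rcases J.eq_empty_or_nonempty with rfl | ⟨j₀, hj₀⟩
  · simp only [Finset.card_empty, Nat.cast_zero]
    positivity
  have hroom : ∀ i ∈ J, IsRoom S κ i := fun i hi => T.room i (hJ hi)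
  have hpos : ∀ i ∈ J, 0 < i.r := fun i hi => h3_rpos (hroom i hi)
  have hc1 : ∀ i ∈ J, |(fi i.c i.u x).1| ≤ i.r / 2 := fun i hi => abs_le.mpr (hx i hi).2.1
  have hc2 : ∀ i ∈ J, |(fi i.c i.u x).2| ≤ i.h / 16 := fun i hi => (hx i hi).1
  have hpair : ∀ i ∈ J, ∀ j ∈ J, i.r ≤ 2 * j.r →
      ε ^ 2 * j.r < 3 * i.r ∧ |dt j.u i.u| * (ε ^ 2 * j.r) ≤ 2 * i.h := by
    intro i hi j hj hr
    exact uncov_pair hκ hε (hroom i hi) (hroom j hj) hr (hc1 i hi) (hc2 i hi) (hc1 j hj)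
      (hc2 j hj) (hx j hj).2.2
  have hcls' : ∀ i ∈ J, ∀ j ∈ J, ¬ cls i < cls j := by
    intro i hi j hj hlt
    have h1 := T.lt i (hJ hi) j (hJ hj) hlt
    have h2 := hpos j hj
    have h3 : ε ^ 2 / 4 * j.r ≤ 2 * j.r := by
      apply mul_le_mul_of_nonneg_right _ h2.le
      linarith
    have h4 := (hpair i hi j hj (h1.trans h3)).1
    have h5 : 0 < ε ^ 2 * j.r := by positivity
    nlinarith
  have hcls : ∀ i ∈ J, ∀ j ∈ J, cls i = cls j := fun i hi j hj =>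
    le_antisymm (not_lt.mp (hcls' j hj i hi)) (not_lt.mp (hcls' i hi j hj))
  have hrr : ∀ i ∈ J, ∀ j ∈ J, i.r ≤ 2 * j.r := fun i hi j hj =>
    T.same i (hJ hi) j (hJ hj) (hcls i hi j hj)
  have hρ := hpos j₀ hj₀
  set ρ := j₀.r with hρdef
  have hcount := dir_count J (fun i : Room => i.u) (fun i hi => (hroom i hi).uv)
    (w := j₀.u) (hroom j₀ hj₀).uv (φ := κ / ρ ^ 2) (Φ := 8 * κ / (ε ^ 2 * ρ ^ 2))
    (by positivity) (by positivity) ?_ ?_
  · refine hcount.trans ?_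
    have h1 : 8 * (8 * κ / (ε ^ 2 * ρ ^ 2) / (κ / ρ ^ 2)) + 2 = 64 / ε ^ 2 + 2 := by
      field_simp
      norm_num
    rw [h1]
    have h2 : 2 ≤ 2 / ε ^ 2 := by
      rw [le_div_iff₀ hε2p]
      linarith
    have h3 : 66 / ε ^ 2 = 64 / ε ^ 2 + 2 / ε ^ 2 := by
      rw [← add_div]
      norm_num
    linarith
  · intro i hi
    have h1 := (hpair i hi j₀ hj₀ (hrr i hi j₀ hj₀)).2
    have h2 := h3_h (hroom i hi)
    have h3 : 2 * κ / i.r ≤ 4 * κ / ρ := by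
      rw [div_le_div_iff₀ (hpos i hi) hρ]
      have := hrr j₀ hj₀ i hi
      nlinarith
    rw [abs_dt_comm]
    have h4 : |dt j₀.u i.u| * (ε ^ 2 * ρ) ≤ 8 * κ / ρ := by
      have h5 : 8 * κ / ρ = 2 * (4 * κ / ρ) := by ring
      rw [h5]
      linarith
    have h5 : 8 * κ / (ε ^ 2 * ρ ^ 2) = 8 * κ / ρ / (ε ^ 2 * ρ) := by
      field_simp
    rw [h5, le_div_iff₀ (by positivity)]
    exact h4
  · intro i hi j hj hij
    by_contra hcon
    push Not at hcon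
    have hri := hpos i hi
    have hrj := hpos j hj
    apply T.sep i (hJ hi) j (hJ hj) hij (hcls i hi j hj)
    have hdt : |dt j.u i.u| ≤ κ / ρ ^ 2 := by
      rw [abs_dt_comm]
      exact hcon.le
    refine ⟨?_, ?_, ?_⟩
    · refine hdt.trans ?_
      rw [div_le_div_iff₀ (by positivity) (by positivity)]
      have h1 := hrr j hj j₀ hj₀
      have h2 : j.r ^ 2 ≤ (2 * ρ) ^ 2 := by gcongr
      have h3 : κ * j.r ^ 2 ≤ κ * (2 * ρ) ^ 2 := by gcongr
      have h4 : 0 ≤ κ * ρ ^ 2 := by positivity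
      nlinarith
    · have h1 := h3_fi (i := i) (j := j) (hroom i hi).uv x
      have h2 : (fi j.c j.u i.c).2 = (fi j.c j.u x).2 - (fi i.c i.u x).1 * dt j.u i.u -
        (fi i.c i.u x).2 * dp j.u i.u := by linarith
      rw [h2]
      have h3 : |(fi i.c i.u x).1 * dt j.u i.u| ≤ i.r / 2 * (κ / ρ ^ 2) := by
        rw [abs_mul]
        gcongr
        exact hc1 i hi
      have h4 : |(fi i.c i.u x).2 * dp j.u i.u| ≤ i.h / 16 * 1 := by
        rw [abs_mul]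
        gcongr
        · exact div_nonneg (hroom i hi).h0.le (by norm_num)
        · exact hc2 i hi
        · exact abs_dp_le_one (hroom j hj).uv (hroom i hi).uv
      have h5 : |(fi j.c j.u x).2 - (fi i.c i.u x).1 * dt j.u i.u -
          (fi i.c i.u x).2 * dp j.u i.u| ≤ j.h / 16 + i.r / 2 * (κ / ρ ^ 2) + i.h / 16 * 1 := by
        refine (abs_sub _ _).trans ?_
        refine add_le_add ((abs_sub _ _).trans (add_le_add (hc2 j hj) h3)) h4
      refine h5.trans ?_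
      have h6 : i.r / 2 * (κ / ρ ^ 2) ≤ 2 * κ / j.r := by
        have h61 := hrr i hi j₀ hj₀
        have h62 := hrr j hj j₀ hj₀
        calc i.r / 2 * (κ / ρ ^ 2) ≤ (2 * ρ) / 2 * (κ / ρ ^ 2) := by gcongr
          _ = κ / ρ := by field_simp
          _ ≤ 2 * κ / j.r := by
            rw [div_le_div_iff₀ hρ hrj]
            nlinarith
      have h7 := (h3_h (hroom j hj)).le
      have h8 : i.h ≤ 4 * κ / j.r := by
        refine (h3_h (hroom i hi)).le.trans ?_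
        rw [div_le_div_iff₀ hri hrj]
        have := hrr j hj i hi
        nlinarith
      have h9 : 10 ^ 18 * κ / j.r = 10 ^ 18 * (κ / j.r) := by ring
      have h10 : 2 * κ / j.r = 2 * (κ / j.r) := by ring
      have h11 : 4 * κ / j.r = 4 * (κ / j.r) := by ring
      have h12 : 0 < κ / j.r := by positivity
      rw [h9]
      rw [h10] at h6 h7
      rw [h11] at h8
      nlinarith
    · have h1 := h3_d2 (hroom i hi) (hc1 i hi) (hc2 i hi)
      have h2 := h3_d2 (hroom j hj) (hc1 j hj) (hc2 j hj)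
      rw [d2_comm] at h2
      refine (d2_tri hri.le hrj.le h1 h2).trans ?_
      have h3 := hrr i hi j hj
      gcongr
      linarith

end Pool.Agent.BI
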