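import Pool.Agent.BI.A4

set_option autoImplicit false

open MeasureTheory Set
open scoped ENNReal

namespace Pool.Agent.BI

open Classical in
/-- [BI-H4] Summation of measures with bounded multiplicity.
PROOF. `∑ μ (Z i) = ∑ ∫⁻ indicator = ∫⁻ x, ∑ i, (Z i).indicator 1 x`, the integrand is `card (filter)` on `S'` and `0` outside `S'`, so it
is `≤ S'.indicator (fun _ => N) x`. (`lintegral_finsetSum`, `lintegral_indicator_one`.) -/
theorem sum_measure_le {ι α : Type*} [MeasurableSpace α] {μ : Measure α} (F : Finset ι)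
    (Z : ι → Set α) (hZ : ∀ i ∈ F, MeasurableSet (Z i)) {S' : Set α} (hS' : ∀ i ∈ F, Z i ⊆ S')
    (hS'm : MeasurableSet S') {N : ℝ≥0∞}
    (hN : ∀ x, ((F.filter fun i => x ∈ Z i).card : ℝ≥0∞) ≤ N) :
    ∑ i ∈ F, μ (Z i) ≤ N * μ S' := by
  have h1 : ∑ i ∈ F, μ (Z i) = ∫⁻ x, ∑ i ∈ F, (Z i).indicator (fun _ => (1 : ℝ≥0∞)) x ∂μ := by
    rw [lintegral_finsetSum' _ (fun i hi => ((measurable_const.indicator (hZ i hi)).aemeasurable))]
    refine Finset.sum_congr rfl fun i hi => ?_
    rw [lintegral_indicator (hZ i hi), setLIntegral_const, one_mul]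
  have h2 : ∀ x, ∑ i ∈ F, (Z i).indicator (fun _ => (1 : ℝ≥0∞)) x ≤ S'.indicator (fun _ => N) x := by
    intro x
    by_cases hx : x ∈ S'
    · rw [indicator_of_mem hx]
      refine le_trans (le_of_eq ?_) (hN x)
      rw [Finset.card_filter, Nat.cast_sum]
      refine Finset.sum_congr rfl fun i _ => ?_
      by_cases hi : x ∈ Z i
      · rw [indicator_of_mem hi, if_pos hi, Nat.cast_one]
      · rw [indicator_of_notMem hi, if_neg hi, Nat.cast_zero]
    · rw [indicator_of_notMem hx]
      refine le_of_eq (Finset.sum_eq_zero fun i hi => ?_)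
      exact indicator_of_notMem (fun h => hx (hS' i hi h)) _
  rw [h1]
  refine (lintegral_mono h2).trans (le_of_eq ?_)
  rw [lintegral_indicator hS'm, setLIntegral_const]

theorem h4_cont (c u : ℝ × ℝ) : Continuous (fi c u) := by
  unfold fi
  fun_prop

/-- [BI-H4] PROOF: preimage of a measurable set under the continuous map `fi c u`. -/
theorem measurableSet_strip {c u : ℝ × ℝ} {G : Set ℝ} (hG : MeasurableSet G) {p : ℝ} :
    MeasurableSet {x : ℝ × ℝ | |(fi c u x).2| ≤ p ∧ (fi c u x).1 ∈ G} := by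
  have h := (h4_cont c u).measurable
  exact (measurableSet_le (h.snd.abs) measurable_const).inter (h.fst hG)

/-- [BI-H4] Measure of a strip. PROOF. The set is the preimage under `fi c u` of `G ×ˢ Icc (-p) p`, i.e. its image under `fr c u`;
`volume_preimage_fr`/`volume_image_fr` and `Measure.prod_prod`. -/
theorem volume_strip {c u : ℝ × ℝ} (hu : UV u) {G : Set ℝ} (hG : MeasurableSet G) {p : ℝ}
    (hp : 0 ≤ p) :
    volume {x : ℝ × ℝ | |(fi c u x).2| ≤ p ∧ (fi c u x).1 ∈ G} = ENNReal.ofReal (2 * p) * volume G := by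
  have hfi : ∀ y : ℝ × ℝ, fi c u (fr c u y) = y := by
    intro y
    have hu' : u.1 ^ 2 + u.2 ^ 2 = 1 := hu
    unfold fi fr
    ext
    · simp only
      linear_combination y.1 * hu'
    · simp only
      linear_combination y.2 * hu'
  rw [← volume_preimage_fr (c := c) hu]
  have h1 : fr c u ⁻¹' {x : ℝ × ℝ | |(fi c u x).2| ≤ p ∧ (fi c u x).1 ∈ G} = G ×ˢ Icc (-p) p := by
    ext y
    simp only [mem_preimage, mem_ofPred_eq, hfi, mem_prod, mem_Icc, abs_le]
    tauto
  rw [h1, Measure.volume_eq_prod, Measure.prod_prod, Real.volume_Icc, mul_comm]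
  congr 2
  ring

end Pool.Agent.BI
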