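import Pool.Agent.BI.H3
import Pool.Agent.BI.H4

set_option autoImplicit false

open MeasureTheory Set
open scoped ENNReal

namespace Pool.Agent.BI

theorem h5_subset {S : Set (ℝ × ℝ)} {κ ε : ℝ} {j : Room} (hj : IsRoom S κ j) :
    Unc S κ ε j ⊆ S := by
  rintro x ⟨h1, h2, -⟩
  have hh := hj.h0
  have hr : 0 ≤ j.r := by
    have := hj.thin
    have h3 : 0 < j.r / 10 ^ 20 := lt_of_lt_of_le hh this
    by_contra hcon
    push Not at hcon
    have h4 : j.r / 10 ^ 20 < 0 := div_neg_of_neg_of_pos hcon (by positivity)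
    linarith
  rw [← fr_fi hj.uv x]
  have e : fi j.c j.u x = ((fi j.c j.u x).1, (fi j.c j.u x).2) := rfl
  rw [e]
  refine hj.rect _ _ ?_ ?_
  · rw [abs_le]
    constructor
    · linarith [h2.1]
    · linarith [h2.2]
  · linarith

theorem h5_measurable {S : Set (ℝ × ℝ)} {κ ε : ℝ} (j : Room) :
    MeasurableSet (Unc S κ ε j) :=
  measurableSet_strip (measurableSet_Icc.diff isOpen_interior.measurableSet)

theorem h5_volume {S : Set (ℝ × ℝ)} {κ ε : ℝ} {j : Room} (hj : IsRoom S κ j)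
    (hc : ¬ Cov (inF j S) κ ε j.r) :
    ENNReal.ofReal (ε ^ 2 * κ / 8) ≤ volume (Unc S κ ε j) := by
  have hh := hj.h0
  unfold Unc
  rw [volume_strip hj.uv (measurableSet_Icc.diff isOpen_interior.measurableSet) (by linarith)]
  unfold Cov at hc
  push Not at hc
  refine le_trans ?_ (mul_le_mul_right hc.le _)
  rw [← ENNReal.ofReal_mul (by linarith)]
  apply ENNReal.ofReal_le_ofReal
  have h1 := hj.lo
  nlinarith [sq_nonneg ε, mul_le_mul_of_nonneg_left h1 (sq_nonneg ε)]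

open Classical in
/-- [BI-H5] Rooms which are not almost covered.
PROOF. For `j` in the filter, `Unc S κ ε j` is a strip (`volume_strip`), of volume `(j.h / 8) * volume (...) ≥ (j.h / 8) ε² j.r ≥ ε² κ / 8` (by `¬ Cov`), contained in
`S ⊆ S'` (rectangle). `sum_measure_le` with `N = ofReal (66 / ε²)` (`Fam.card_unc`). So
`card * ε² κ / 8 ≤ (66 / ε²) volume S'`; multiply by `8 κ / ε²`: `card κ² ≤ 528 κ / ε⁴ volume S'`. -/
theorem Fam.not_cov {S S' : Set (ℝ × ℝ)} {κ ε : ℝ} {F : Finset Room} {cls : Room → ℤ}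
    (T : Fam S κ ε F cls) (hS' : MeasurableSet S') (hSS' : S ⊆ S') :
    ((F.filter fun j => ¬ Cov (inF j S) κ ε j.r).card : ℝ≥0∞) * ENNReal.ofReal (κ ^ 2) ≤
      ENNReal.ofReal (528 * κ / ε ^ 4) * volume S' := by
  have hκ := T.κ0
  have hε := T.ε0
  set F' := F.filter fun j => ¬ Cov (inF j S) κ ε j.r with hF'
  have h1 : ∑ j ∈ F', volume (Unc S κ ε j) ≤ ENNReal.ofReal (66 / ε ^ 2) * volume S' := by
    refine sum_measure_le F' (fun j => Unc S κ ε j) (fun j _ => h5_measurable j) (fun j hj => ?_)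
      hS' fun x => ?_
    · exact (h5_subset (T.room j (Finset.mem_filter.1 hj).1)).trans hSS'
    · have h2 : ((F'.filter fun i => x ∈ Unc S κ ε i).card : ℝ) ≤ 66 / ε ^ 2 :=
        T.card_unc _ (fun j hj => (Finset.mem_filter.1 (Finset.mem_filter.1 hj).1).1)
          fun j hj => (Finset.mem_filter.1 hj).2
      rw [← ENNReal.ofReal_natCast]
      exact ENNReal.ofReal_le_ofReal h2
  have h2 : (F'.card : ℝ≥0∞) * ENNReal.ofReal (ε ^ 2 * κ / 8) ≤
      ∑ j ∈ F', volume (Unc S κ ε j) := by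
    rw [← nsmul_eq_mul, ← Finset.sum_const]
    refine Finset.sum_le_sum fun j hj => ?_
    exact h5_volume (T.room j (Finset.mem_filter.1 hj).1) (Finset.mem_filter.1 hj).2
  have h3 := mul_le_mul_right (h2.trans h1) (ENNReal.ofReal (8 * κ / ε ^ 2))
  have e1 : ENNReal.ofReal (8 * κ / ε ^ 2) * ((F'.card : ℝ≥0∞) * ENNReal.ofReal (ε ^ 2 * κ / 8)) =
      (F'.card : ℝ≥0∞) * ENNReal.ofReal (κ ^ 2) := by
    rw [mul_left_comm, ← ENNReal.ofReal_mul (by positivity)]
    congr 2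
    field_simp
  have e2 : ENNReal.ofReal (8 * κ / ε ^ 2) * (ENNReal.ofReal (66 / ε ^ 2) * volume S') =
      ENNReal.ofReal (528 * κ / ε ^ 4) * volume S' := by
    rw [← mul_assoc, ← ENNReal.ofReal_mul (by positivity)]
    congr 2
    field_simp
    ring
  rw [e1, e2] at h3
  exact h3

end Pool.Agent.BI
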