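import Pool.Agent.BI.Basic

set_option autoImplicit false

open MeasureTheory Set
open scoped ENNReal

namespace Pool.Agent.BI

/-- [BI-I1] PROOF. For fixed `i` and `a` the set `{t | near κ ε i (j.ax t) a}` is closed: it is the projection of the closed set
`{(t, τ) | |τ| ≤ i.r / 8 ∧ d2 (j.ax t) (i.ax τ) ≤ (a pz)²}` along the compact interval `|τ| ≤ i.r / 8` (sequences, or
`IsCompact`/`isClosedMap_snd_of_compactSpace`); it is also the preimage of a compact set. (If `i.r < 0` it is empty.) -/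
theorem measurable_near (κ ε : ℝ) (i j : Room) (a : ℝ) :
    MeasurableSet {t : ℝ | near κ ε i (j.ax t) a} := by
  have hK : CompactSpace (Icc (-(i.r / 8)) (i.r / 8)) := isCompact_iff_compactSpace.1 isCompact_Icc
  have hC : IsClosed {p : ℝ × (Icc (-(i.r / 8)) (i.r / 8)) |
      d2 (j.ax p.1) (i.ax p.2) ≤ (a * pz κ ε i.r) ^ 2} := by
    refine isClosed_le ?_ continuous_const
    unfold d2 Room.ax fr
    fun_prop
  have hI := isClosedMap_fst_of_compactSpace _ hC
  have he : {t : ℝ | near κ ε i (j.ax t) a} = Prod.fst '' {p : ℝ × (Icc (-(i.r / 8)) (i.r / 8)) |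
      d2 (j.ax p.1) (i.ax p.2) ≤ (a * pz κ ε i.r) ^ 2} := by
    ext t
    constructor
    · rintro ⟨τ, hτ, h⟩
      exact ⟨(t, ⟨τ, abs_le.1 hτ⟩), h, rfl⟩
    · rintro ⟨⟨t', τ⟩, h, rfl⟩
      exact ⟨τ, abs_le.2 τ.2, h⟩
  rw [he]
  exact hI.measurableSet

theorem i1_sh (F : Finset Room) (cls : Room → ℤ) (κ ε : ℝ) (i j : Room) (a : ℝ) :
    MeasurableSet {t : ℝ | Sh F cls κ ε j t a i} := by
  unfold Sh
  exact (MeasurableSet.const _).inter ((MeasurableSet.const _).inter (measurable_near κ ε i j a))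

/-- [BI-I1] PROOF. `IsMin` is the intersection of `{t | i ∈ F ∧ cls i < cls j ∧ near ...}` and, over the finitely many `i' ∈ F` with
`cls i' < cls j` and `th κ i' j < th κ i j`, of the complements of `{t | near κ ε i' (j.ax t) 4}`. -/
theorem measurable_isMin (F : Finset Room) (cls : Room → ℤ) (κ ε : ℝ) (i j : Room) :
    MeasurableSet {t : ℝ | IsMin F cls κ ε j t i} := by
  have he : {t : ℝ | IsMin F cls κ ε j t i} = {t : ℝ | Sh F cls κ ε j t 4 i} ∩
      ⋂ i' ∈ F, ({t : ℝ | Sh F cls κ ε j t 4 i'}ᶜ ∪ {_t : ℝ | th κ i j ≤ th κ i' j}) := by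
    ext t
    simp only [IsMin, mem_inter_iff, mem_iInter, mem_union, mem_compl_iff]
    constructor
    · rintro ⟨h1, h2⟩
      refine ⟨h1, fun i' _ => ?_⟩
      by_cases h : Sh F cls κ ε j t 4 i'
      · exact Or.inr (h2 i' h)
      · exact Or.inl h
    · rintro ⟨h1, h2⟩
      refine ⟨h1, fun i' h => ?_⟩
      rcases h2 i' h.1 with h3 | h3
      · exact absurd h h3
      · exact h3
  rw [he]
  refine (i1_sh F cls κ ε i j 4).inter ?_
  refine Finset.measurableSet_biInter F fun i' _ => ?_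
  exact (i1_sh F cls κ ε i' j 4).compl.union (MeasurableSet.const _)

/-- [BI-I1] PROOF. `IT` is the finite union over `i ∈ F` of `{t | IsMin ... i}` intersected with: everything if `Al κ i j`, otherwise the
finite union over `i' ∈ F` with `cls i' < cls j`, `¬ Al κ i' j`, `64 th ≤ |dt|` of `{t | near κ ε i' (j.ax t) 6}`. -/
theorem measurable_IT (F : Finset Room) (cls : Room → ℤ) (κ ε : ℝ) (j : Room) :
    MeasurableSet {t : ℝ | IT F cls κ ε j t} := by
  have he : {t : ℝ | IT F cls κ ε j t} = ⋃ i ∈ F, ({t : ℝ | IsMin F cls κ ε j t i} ∩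
      ({_t : ℝ | Al κ i j} ∪ ⋃ i' ∈ F, ({t : ℝ | Sh F cls κ ε j t 6 i'} ∩
        {_t : ℝ | ¬ Al κ i' j ∧ 64 * th κ i j ≤ |dt i'.u j.u|}))) := by
    ext t
    simp only [mem_iUnion, mem_inter_iff, mem_union, exists_prop]
    constructor
    · rintro ⟨i, h1, h2⟩
      refine ⟨i, h1.1.1, h1, ?_⟩
      rcases h2 with h2 | ⟨i', h3, h4⟩
      · exact Or.inl h2
      · exact Or.inr ⟨i', h3.1, h3, h4⟩
    · rintro ⟨i, _, h1, h2⟩
      refine ⟨i, h1, ?_⟩
      rcases h2 with h2 | ⟨i', _, h3, h4⟩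
      · exact Or.inl h2
      · exact Or.inr ⟨i', h3, h4⟩
  rw [he]
  refine Finset.measurableSet_biUnion F fun i _ => (measurable_isMin F cls κ ε i j).inter ?_
  refine (MeasurableSet.const _).union (Finset.measurableSet_biUnion F fun i' _ => ?_)
  exact (i1_sh F cls κ ε i' j 6).inter (MeasurableSet.const _)

/-- [BI-I1] PROOF. Finite union over `i ∈ F` of the sets `{p | Zn ... ∧ IsMin ... (foot) i ∧ Win ...}`: `Zn` and `Win` are closed conditions
(continuous functions of `p`), `IsMin` is the preimage of a measurable set (`measurable_isMin`) under the continuous map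
`p ↦ (fi j.c j.u p.1).1`. -/
theorem measurable_PSc (F : Finset Room) (cls : Room → ℤ) (κ ε : ℝ) (j : Room) :
    MeasurableSet {p : (ℝ × ℝ) × (ℝ × ℝ) | PSc F cls κ ε j p} := by
  have he : {p : (ℝ × ℝ) × (ℝ × ℝ) | PSc F cls κ ε j p} = {p : (ℝ × ℝ) × (ℝ × ℝ) | Zn κ ε j p.1} ∩
      ⋃ i ∈ F, ((fun p : (ℝ × ℝ) × (ℝ × ℝ) => (fi j.c j.u p.1).1) ⁻¹'
        {t : ℝ | IsMin F cls κ ε j t i} ∩
        {p : (ℝ × ℝ) × (ℝ × ℝ) | Win κ (th κ i j) j.u p.2}) := by
    ext p
    simp only [PSc, mem_inter_iff, mem_iUnion, exists_prop, mem_preimage]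
    constructor
    · rintro ⟨h1, i, h2, h3⟩
      exact ⟨h1, i, h2.1.1, h2, h3⟩
    · rintro ⟨h1, i, _, h2, h3⟩
      exact ⟨h1, i, h2, h3⟩
  rw [he]
  refine MeasurableSet.inter ?_ (Finset.measurableSet_biUnion F fun i _ => MeasurableSet.inter ?_ ?_)
  · unfold Zn fi
    have h1 : Continuous fun p : (ℝ × ℝ) × (ℝ × ℝ) =>
        |(p.1.2 - j.c.2) * j.u.1 - (p.1.1 - j.c.1) * j.u.2| := by fun_prop
    have h2 : Continuous fun p : (ℝ × ℝ) × (ℝ × ℝ) =>
        |(p.1.1 - j.c.1) * j.u.1 + (p.1.2 - j.c.2) * j.u.2| := by fun_prop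
    exact ((isClosed_le h1 continuous_const).and (isClosed_le h2 continuous_const)).measurableSet
  · refine (Continuous.measurable ?_) (measurable_isMin F cls κ ε i j)
    unfold fi
    fun_prop
  · unfold Win dt
    have h1 : Continuous fun p : (ℝ × ℝ) × (ℝ × ℝ) => th κ i j * (p.2.1 ^ 2 + p.2.2 ^ 2) := by
      fun_prop
    have h2 : Continuous fun p : (ℝ × ℝ) × (ℝ × ℝ) => (j.u.1 * p.2.2 - j.u.2 * p.2.1) ^ 2 := by
      fun_prop
    have h3 : Continuous fun p : (ℝ × ℝ) × (ℝ × ℝ) =>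
        10 ^ 40 * th κ i j ^ 2 * (p.2.1 ^ 2 + p.2.2 ^ 2) := by
      fun_prop
    exact ((isClosed_le continuous_const h1).and ((isClosed_le h1 continuous_const).and
      (isClosed_le h2 h3))).measurableSet

end Pool.Agent.BI
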