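import Pool.Agent.BI.E4
import Pool.Agent.BI.G1

set_option autoImplicit false

open MeasureTheory Set
open scoped ENNReal

namespace Pool.Agent.BI

/-- [BI-I2] Good points of a room of the family.
PROOF. `good_measure` with `P = PP F cls κ ε j` (antitone in `a` since `κ > 0`), `X = Xc F cls κ ε j`, `Xm = ε² j.r`, `r = j.r`
(`144 ε² ≤ 1`; `j.r > 0` by `Fam.pz_le`). -/
theorem DFam.good {S : Set (ℝ × ℝ)} {κ ε : ℝ} {F : Finset Room} {cls : Room → ℤ}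
    (T : DFam S κ ε F cls) {j : Room} (hj : j ∈ F) :
    ∃ G : Set ℝ, MeasurableSet G ∧ G ⊆ Icc (-(j.r / 8)) (j.r / 8) ∧
      (∀ t ∈ G, Fine (PP F cls κ ε j) (ε ^ 2 * j.r) t ∧ NTok F cls κ ε j t) ∧
      ENNReal.ofReal (j.r / 300) ≤ volume G := by
  obtain ⟨hr, -, -⟩ := T.toFam.pz_le hj hj
  have hκ := T.κ0
  have hε := T.ε0
  have hε1 := T.ε1
  have hP : ∀ t a b, a ≤ b → PP F cls κ ε j t b → PP F cls κ ε j t a := by
    rintro t a b hab ⟨i, h1, h2, h3⟩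
    exact ⟨i, h1, h2, (mul_le_mul_of_nonneg_left hab hκ.le).trans h3⟩
  have h144 : 144 * (ε ^ 2 * j.r) ≤ j.r := by
    have h1 : ε ≤ 1 / 12 := hε1.trans (by norm_num)
    have h2 : ε ^ 2 ≤ (1 / 12) ^ 2 := by gcongr
    nlinarith
  obtain ⟨G, hG1, hG2, hG3, hG4⟩ := good_measure hP (Xc F cls κ ε j)
    (Xm := ε ^ 2 * j.r) (r := j.r) (by positivity) hr h144
  exact ⟨G, hG1, hG2, fun t ht => ⟨(hG3 t ht).1, fun h => (hG3 t ht).2 h⟩, hG4⟩

end Pool.Agent.BI
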