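import Pool.Agent.BI.A4

set_option autoImplicit false

open MeasureTheory Set
open scoped ENNReal

namespace Pool.Agent.BI

/-- [BI-I3] Fubini for the supplied pairs of one room.
PROOF. `volume {p | ...} = ∫⁻ y, volume (section)` (`Measure.prod_apply`); change variables `y = fr c u (t, b)` (measure preserving). For
`t ∈ G` and `b ∈ (0, P]`: the sections at `(t, b)` and `(t, -b)` have together measure `≥ ofReal c` (one of them does, with
`b = β`, `s = ± 1`). So the integral over `b ∈ [-P, P]` is `≥ ∫ b in (0, P], (sec (t, b) + sec (t, -b)) ≥ ofReal (c P)`, and the integral over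
`t ∈ G` gives the claim. -/
theorem fubini_zone {c u : ℝ × ℝ} (hu : UV u) {G : Set ℝ} (hG : MeasurableSet G) {P a : ℝ}
    (hP : 0 < P) (ha : 0 ≤ a) {Z : Set ((ℝ × ℝ) × (ℝ × ℝ))} (hZ : MeasurableSet Z)
    (h : ∀ t ∈ G, ∃ s : ℝ, (s = 1 ∨ s = -1) ∧ ∀ β : ℝ, 0 < β → β ≤ P →
      ENNReal.ofReal a ≤ volume {w : ℝ × ℝ | (fr c u (t, s * β), w) ∈ Z}) :
    ENNReal.ofReal (a * P) * volume G ≤ volume Z := by
  have hφ := measurePreserving_fr (c := c) (u := u) hu
  set f : ℝ × ℝ → ℝ≥0∞ := fun y => volume (Prod.mk y ⁻¹' Z) with hf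
  have hfm : Measurable f := measurable_measure_prodMk_left hZ
  have e1 : volume Z = ∫⁻ y : ℝ × ℝ, f y := Measure.prod_apply hZ
  have e2 : ∫⁻ y : ℝ × ℝ, f y = ∫⁻ q : ℝ × ℝ, f (fr c u q) := (hφ.lintegral_comp hfm).symm
  have hgm : Measurable fun q : ℝ × ℝ => f (fr c u q) := hfm.comp hφ.measurable
  have e3 : ∫⁻ q : ℝ × ℝ, f (fr c u q) = ∫⁻ t : ℝ, ∫⁻ b : ℝ, f (fr c u (t, b)) :=
    lintegral_prod _ hgm.aemeasurable
  rw [e1, e2, e3]
  have e4 : ∀ t ∈ G, ENNReal.ofReal (a * P) ≤ ∫⁻ b : ℝ, f (fr c u (t, b)) := by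
    intro t ht
    obtain ⟨s, hs, hβ⟩ := h t ht
    rcases hs with rfl | rfl
    · calc ENNReal.ofReal (a * P) = ∫⁻ _ in Ioc 0 P, ENNReal.ofReal a := by
            rw [setLIntegral_const, Real.volume_Ioc, sub_zero, ENNReal.ofReal_mul ha]
        _ ≤ ∫⁻ b in Ioc 0 P, f (fr c u (t, b)) := by
            apply setLIntegral_mono' measurableSet_Ioc
            intro b hb
            have := hβ b hb.1 hb.2
            rw [one_mul] at this
            exact this
        _ ≤ ∫⁻ b : ℝ, f (fr c u (t, b)) := setLIntegral_le_lintegral _ _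
    · calc ENNReal.ofReal (a * P) = ∫⁻ _ in Ico (-P) 0, ENNReal.ofReal a := by
            rw [setLIntegral_const, Real.volume_Ico, zero_sub, neg_neg, ENNReal.ofReal_mul ha]
        _ ≤ ∫⁻ b in Ico (-P) 0, f (fr c u (t, b)) := by
            apply setLIntegral_mono' measurableSet_Ico
            intro b hb
            have := hβ (-b) (by linarith [hb.2]) (by linarith [hb.1])
            rw [neg_mul_neg, one_mul] at this
            exact this
        _ ≤ ∫⁻ b : ℝ, f (fr c u (t, b)) := setLIntegral_le_lintegral _ _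
  calc ENNReal.ofReal (a * P) * volume G = ∫⁻ _ in G, ENNReal.ofReal (a * P) := by
        rw [setLIntegral_const]
    _ ≤ ∫⁻ t in G, ∫⁻ b : ℝ, f (fr c u (t, b)) := setLIntegral_mono' hG e4
    _ ≤ ∫⁻ t : ℝ, ∫⁻ b : ℝ, f (fr c u (t, b)) := setLIntegral_le_lintegral _ _

end Pool.Agent.BI
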