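import Pool.Agent.BI.I1
import Pool.Agent.BI.I3
import Pool.Agent.BI.F8
import Pool.Agent.BI.G6
import Pool.Agent.BI.H4

set_option autoImplicit false

open MeasureTheory Set
open scoped ENNReal

namespace Pool.Agent.BI

theorem i4_meas_foot (c u : ℝ × ℝ) {G : Set ℝ} (hG : MeasurableSet G) :
    MeasurableSet {p : (ℝ × ℝ) × (ℝ × ℝ) | (fi c u p.1).1 ∈ G} := by
  have h : Measurable fun p : (ℝ × ℝ) × (ℝ × ℝ) => (fi c u p.1).1 := by
    unfold fi
    simp only
    fun_prop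
  exact h hG

/-- the supplied pairs of the room `j` at the points of `G j` -/
def i4_Z (F : Finset Room) (cls : Room → ℤ) (κ ε : ℝ) (G' : Set ((ℝ × ℝ) × (ℝ × ℝ)))
    (G : Room → Set ℝ) (j : Room) : Set ((ℝ × ℝ) × (ℝ × ℝ)) :=
  {p | p ∈ G' ∧ (fi j.c j.u p.1).1 ∈ G j ∧ PSc F cls κ ε j p}

/-- [BI-I4] Type I points: charge to the visible pairs.
PROOF. For `j ∈ F` let `I j = {t ∈ G j | IT ... j t}`, `Z j = {p ∈ G' | (fi j.c j.u p.1).1 ∈ G j ∧ PSc ... j p}`, measurable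
(`measurable_IT`, `measurable_PSc`). `fubini_zone` for `I j`, `P = pz κ ε j.r`, `a = κ / 100`, `Z j`: for `t ∈ I j` `DFam.supply` gives `s` and the set of
`w`; such `w` satisfy `(fr (t, s β), w) ∈ Z j`: `hG'` with the visible segment; `fi (fr (t, s β)) = (t, s β)` (`fi_fr`), so `Zn` (`|s β| ≤ pz`,
`|t| ≤ j.r / 8`) and `PSc`. So `ofReal (κ pz / 100) * volume (I j) ≤ volume (Z j)`. `sum_measure_le` with `S' = G'`,
`N = 10 ^ 23` (`DFam.card_PS`; `NTok` for the points of `G j`). -/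
theorem DFam.sum_I {S : Set (ℝ × ℝ)} {κ ε : ℝ} {F : Finset Room} {cls : Room → ℤ}
    (T : DFam S κ ε F cls) {G' : Set ((ℝ × ℝ) × (ℝ × ℝ))} (hG'm : MeasurableSet G')
    (hG' : ∀ y w : ℝ × ℝ, segment ℝ y (y + w) ⊆ S → (y, w) ∈ G') (G : Room → Set ℝ)
    (hGm : ∀ j ∈ F, MeasurableSet (G j)) (hGs : ∀ j ∈ F, G j ⊆ Icc (-(j.r / 8)) (j.r / 8))
    (hG : ∀ j ∈ F, ∀ t ∈ G j, Fine (PP F cls κ ε j) (ε ^ 2 * j.r) t ∧ NTok F cls κ ε j t) :
    ∑ j ∈ F, ENNReal.ofReal (κ * pz κ ε j.r) * volume (G j ∩ {t | IT F cls κ ε j t}) ≤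
      10 ^ 25 * volume G' := by
  classical
  set Z : Room → Set ((ℝ × ℝ) × (ℝ × ℝ)) := i4_Z F cls κ ε G' G with hZ
  have hZm : ∀ j ∈ F, MeasurableSet (Z j) := fun j hj =>
    hG'm.inter ((i4_meas_foot j.c j.u (hGm j hj)).inter (measurable_PSc F cls κ ε j))
  have hrpos : ∀ j ∈ F, 0 < j.r := by
    intro j hj
    have h1 := (T.room j hj).h0
    have h2 := (T.room j hj).thin
    have h3 : (0 : ℝ) < j.r / 10 ^ 20 := lt_of_lt_of_le h1 h2
    by_contra hcon
    have h4 : j.r / 10 ^ 20 ≤ 0 := div_nonpos_of_nonpos_of_nonneg (not_lt.1 hcon) (by positivity)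
    linarith
  have hpz : ∀ j ∈ F, 0 < pz κ ε j.r := by
    intro j hj
    have h1 := hrpos j hj
    have h2 := T.κ0
    have h3 := T.ε0
    unfold pz
    positivity
  have key : ∀ j ∈ F, ENNReal.ofReal (κ * pz κ ε j.r) * volume (G j ∩ {t | IT F cls κ ε j t}) ≤
      100 * volume (Z j) := by
    intro j hj
    have hu : UV j.u := (T.room j hj).uv
    have h1 := fubini_zone (c := j.c) hu (G := G j ∩ {t | IT F cls κ ε j t})
      ((hGm j hj).inter (measurable_IT F cls κ ε j)) (P := pz κ ε j.r) (a := κ / 100) (hpz j hj)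
      (by have := T.κ0; positivity) (Z := Z j) (hZm j hj) (by
        rintro t ⟨htG, htI⟩
        have ht8 : |t| ≤ j.r / 8 := abs_le.2 (hGs j hj htG)
        obtain ⟨hfine, -⟩ := hG j hj t htG
        obtain ⟨i, hi, s, hs, hsup⟩ := T.supply hj ht8 hfine htI
        refine ⟨s, hs, fun β hβ0 hβ1 => (hsup β hβ0 hβ1).trans (measure_mono ?_)⟩
        rintro w ⟨hw1, hw2⟩
        have hfi : fi j.c j.u (fr j.c j.u (t, s * β)) = (t, s * β) := fi_fr hu _
        refine ⟨hG' _ _ hw1, ?_, ⟨?_, ?_⟩, i, ?_, hw2⟩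
        · show (fi j.c j.u (fr j.c j.u (t, s * β))).1 ∈ G j
          rw [hfi]
          exact htG
        · show |(fi j.c j.u (fr j.c j.u (t, s * β))).2| ≤ pz κ ε j.r
          rw [hfi]
          show |s * β| ≤ pz κ ε j.r
          rw [abs_mul, abs_of_pos hβ0]
          rcases hs with rfl | rfl <;> simpa using hβ1
        · show |(fi j.c j.u (fr j.c j.u (t, s * β))).1| ≤ j.r / 8
          rw [hfi]
          exact ht8
        · show IsMin F cls κ ε j (fi j.c j.u (fr j.c j.u (t, s * β))).1 i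
          rw [hfi]
          exact hi)
    have h2 : ENNReal.ofReal (κ * pz κ ε j.r) = 100 * ENNReal.ofReal (κ / 100 * pz κ ε j.r) := by
      have h100 : (100 : ℝ≥0∞) = ENNReal.ofReal 100 := by norm_num
      rw [h100, ← ENNReal.ofReal_mul (by norm_num)]
      congr 1
      ring
    rw [h2, mul_assoc]
    gcongr
  have hsum : ∑ j ∈ F, volume (Z j) ≤ 10 ^ 23 * volume G' := by
    refine sum_measure_le F Z hZm (S' := G') (fun j _ p hp => hp.1) hG'm ?_
    intro p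
    have h3 := T.card_PS (p := p) (F.filter fun i => p ∈ Z i) (Finset.filter_subset _ _) ?_ ?_
    · exact_mod_cast h3
    · intro j hj
      obtain ⟨hjF, hjZ⟩ := Finset.mem_filter.1 hj
      exact (hG j hjF _ hjZ.2.1).2
    · intro j hj
      obtain ⟨hjF, hjZ⟩ := Finset.mem_filter.1 hj
      exact hjZ.2.2
  calc ∑ j ∈ F, ENNReal.ofReal (κ * pz κ ε j.r) * volume (G j ∩ {t | IT F cls κ ε j t})
      ≤ ∑ j ∈ F, 100 * volume (Z j) := Finset.sum_le_sum key
    _ = 100 * ∑ j ∈ F, volume (Z j) := by rw [Finset.mul_sum]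
    _ ≤ 100 * (10 ^ 23 * volume G') := by gcongr
    _ = 10 ^ 25 * volume G' := by
        rw [← mul_assoc]
        norm_num

end Pool.Agent.BI
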