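import Pool.Agent.BI.G4
import Pool.Agent.BI.H4
import Pool.Agent.BI.I1

set_option autoImplicit false

open MeasureTheory Set
open scoped ENNReal

namespace Pool.Agent.BI

/-- [BI-I5] Other points: charge to the area.
PROOF. `Z j = {x | |(fi j.c j.u x).2| ≤ j.h / 16 ∧ (fi j.c j.u x).1 ∈ G j ∩ {¬ IT}}`, of volume `(j.h / 8) volume (...)` (`volume_strip`),
contained in `S` (rectangle). `j.h / 16 ≤ pz κ ε j.r` (`j.h < 2 κ / j.r`, `10 ^ 5 ε ≤ 1`), so the points of `Z j` are in the
zone. `sum_measure_le`, `N = 6` (`DFam.card_not_IT`). -/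
theorem DFam.sum_II {S S' : Set (ℝ × ℝ)} {κ ε : ℝ} {F : Finset Room} {cls : Room → ℤ}
    (T : DFam S κ ε F cls) (hS' : MeasurableSet S') (hSS' : S ⊆ S') (G : Room → Set ℝ)
    (hGm : ∀ j ∈ F, MeasurableSet (G j)) (hGs : ∀ j ∈ F, G j ⊆ Icc (-(j.r / 8)) (j.r / 8))
    (hG : ∀ j ∈ F, ∀ t ∈ G j, Fine (PP F cls κ ε j) (ε ^ 2 * j.r) t ∧ NTok F cls κ ε j t) :
    ∑ j ∈ F, ENNReal.ofReal j.h * volume (G j ∩ {t | ¬ IT F cls κ ε j t}) ≤
      48 * volume S' := by
  classical
  set H : Room → Set ℝ := fun j => G j ∩ {t | ¬ IT F cls κ ε j t} with hHdef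
  have hHm : ∀ j ∈ F, MeasurableSet (H j) := fun j hj =>
    (hGm j hj).inter (measurable_IT F cls κ ε j).compl
  obtain ⟨Z, hZdef⟩ : ∃ Z : Room → Set (ℝ × ℝ),
      ∀ j, Z j = {x | |(fi j.c j.u x).2| ≤ j.h / 16 ∧ (fi j.c j.u x).1 ∈ H j} :=
    ⟨fun j => {x | |(fi j.c j.u x).2| ≤ j.h / 16 ∧ (fi j.c j.u x).1 ∈ H j}, fun _ => rfl⟩
  have hZm : ∀ j x, x ∈ Z j ↔ |(fi j.c j.u x).2| ≤ j.h / 16 ∧ (fi j.c j.u x).1 ∈ H j := by
    intro j x
    rw [hZdef]
    exact Iff.rfl
  have hr : ∀ j ∈ F, 0 < j.r := by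
    intro j hj
    have h1 := (T.room j hj).thin
    have h2 := (T.room j hj).h0
    have h3 : 0 < j.r / 10 ^ 20 := lt_of_lt_of_le h2 h1
    have h4 : j.r = j.r / 10 ^ 20 * 10 ^ 20 := by ring
    rw [h4]
    positivity
  have hZ1 : ∀ j ∈ F, ∀ x ∈ Z j, |(fi j.c j.u x).1| ≤ j.r / 8 := fun j hj x hx =>
    abs_le.2 (hGs j hj ((hZm j x).1 hx).2.1)
  have hmain := sum_measure_le (μ := volume) F Z
    (fun j hj => by rw [hZdef]; exact measurableSet_strip (hHm j hj))
    (S' := S') (by
      intro j hj x hx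
      have hR := T.room j hj
      have h1 := hZ1 j hj x hx
      have h2 := hR.rect (fi j.c j.u x).1 (fi j.c j.u x).2 (by linarith [hr j hj])
        (by linarith [((hZm j x).1 hx).1, hR.h0])
      rw [Prod.mk.eta, fr_fi hR.uv] at h2
      exact hSS' h2) hS' (N := 6) (by
      intro x
      have h9 : ((6 : ℕ) : ℝ≥0∞) = 6 := by norm_num
      rw [← h9, Nat.cast_le]
      · refine T.card_not_IT (y := x) _ (Finset.filter_subset _ _) ?_ ?_ ?_
        · intro j hj
          obtain ⟨hjF, hxZ⟩ := Finset.mem_filter.1 hj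
          have hx := (hZm j x).1 hxZ
          refine ⟨hx.1.trans ?_, hZ1 j hjF x hxZ⟩
          have hR := T.room j hjF
          have hrj := hr j hjF
          have hε := T.ε0
          unfold pz
          rw [le_div_iff₀ (by positivity)]
          have h1 : 10 ^ 5 * ε ≤ 1 := by
            have := T.ε1
            norm_num at this ⊢
            linarith
          have h2 : j.r * j.h * (10 ^ 5 * ε) ≤ j.r * j.h * 1 :=
            mul_le_mul_of_nonneg_left h1 (mul_nonneg hrj.le hR.h0.le)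
          have h3 := hR.hi
          have h4 := T.κ0
          linarith
        · intro j hj
          obtain ⟨hjF, hxZ⟩ := Finset.mem_filter.1 hj
          have hx := (hZm j x).1 hxZ
          exact (hG j hjF _ hx.2.1).2
        · intro j hj
          obtain ⟨hjF, hxZ⟩ := Finset.mem_filter.1 hj
          have hx := (hZm j x).1 hxZ
          exact hx.2.2)
  calc ∑ j ∈ F, ENNReal.ofReal j.h * volume (H j)
      = ∑ j ∈ F, 8 * volume (Z j) := by
        refine Finset.sum_congr rfl fun j hj => ?_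
        have hR := T.room j hj
        have h1 : volume (Z j) = ENNReal.ofReal (2 * (j.h / 16)) * volume (H j) := by
          rw [hZdef]
          exact volume_strip hR.uv (hHm j hj) (by linarith [hR.h0])
        rw [h1, ← mul_assoc]
        congr 1
        have h8 : (8 : ℝ≥0∞) = ENNReal.ofReal 8 := by
          rw [ENNReal.ofReal_ofNat]
        rw [h8, ← ENNReal.ofReal_mul (by norm_num)]
        congr 1
        ring
    _ = 8 * ∑ j ∈ F, volume (Z j) := by rw [Finset.mul_sum]
    _ ≤ 8 * (6 * volume S') := by gcongr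
    _ = 48 * volume S' := by
        rw [← mul_assoc]
        norm_num

end Pool.Agent.BI
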