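import Pool.Agent.BI.I2
import Pool.Agent.BI.I4
import Pool.Agent.BI.I5
import Pool.Agent.BI.H5

set_option autoImplicit false

open MeasureTheory Set
open scoped ENNReal

namespace Pool.Agent.BI

theorem i6_rpos {S : Set (ℝ × ℝ)} {κ : ℝ} {R : Room} (h : IsRoom S κ R) : 0 < R.r := by
  have h1 := h.thin
  have h2 := h.h0
  by_contra hcon
  push Not at hcon
  have : R.r / 10 ^ 20 ≤ 0 := div_nonpos_of_nonpos_of_nonneg hcon (by positivity)
  linarith

theorem i6_h {S : Set (ℝ × ℝ)} {κ : ℝ} {R : Room} (h : IsRoom S κ R) : R.h < 2 * κ / R.r := by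
  rw [lt_div_iff₀ (i6_rpos h)]
  have := h.hi
  linarith

/-- [BI-I6] The single level theorem for almost covered rooms.
PROOF. `G j` from `DFam.good`. For `j ∈ F`: `κ² ≤ κ j.h j.r`, and
`ofReal (j.r / 300) ≤ volume (G j) = volume (G j ∩ IT) + volume (G j ∩ ¬ IT)`; so
`ofReal (κ²) ≤ 300 ofReal (κ j.h) (volume (G j ∩ IT) + volume (G j ∩ ¬ IT))`. `κ j.h ≤ 2 κ² / j.r = 2 * 10 ^ 5 ε κ pz κ ε j.r`. Sum over `j`
with `DFam.sum_I`, `DFam.sum_II`: `≤ 300 * 2 * 10 ^ 5 ε * 10 ^ 25 volume G' + 300 κ * 48 volume S'`. -/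
theorem DFam.level {S S' : Set (ℝ × ℝ)} {κ ε : ℝ} {F : Finset Room} {cls : Room → ℤ}
    (T : DFam S κ ε F cls) (hS' : MeasurableSet S') (hSS' : S ⊆ S')
    {G' : Set ((ℝ × ℝ) × (ℝ × ℝ))} (hG'm : MeasurableSet G')
    (hG' : ∀ y w : ℝ × ℝ, segment ℝ y (y + w) ⊆ S → (y, w) ∈ G') :
    (F.card : ℝ≥0∞) * ENNReal.ofReal (κ ^ 2) ≤
      ENNReal.ofReal (14400 * κ) * volume S' + ENNReal.ofReal (10 ^ 33 * ε) * volume G' := by
  have hκ := T.κ0
  have hε := T.ε0
  have hex : ∀ j : Room, ∃ G : Set ℝ, j ∈ F → (MeasurableSet G ∧ G ⊆ Icc (-(j.r / 8)) (j.r / 8) ∧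
      (∀ t ∈ G, Fine (PP F cls κ ε j) (ε ^ 2 * j.r) t ∧ NTok F cls κ ε j t) ∧
      ENNReal.ofReal (j.r / 300) ≤ volume G) := by
    intro j
    by_cases hj : j ∈ F
    · obtain ⟨G, hG⟩ := T.good hj
      exact ⟨G, fun _ => hG⟩
    · exact ⟨∅, fun h => absurd h hj⟩
  choose G hG using hex
  have hI := T.sum_I hG'm hG' G (fun j hj => (hG j hj).1) (fun j hj => (hG j hj).2.1)
    (fun j hj => (hG j hj).2.2.1)
  have hII := T.sum_II hS' hSS' G (fun j hj => (hG j hj).1) (fun j hj => (hG j hj).2.1)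
    (fun j hj => (hG j hj).2.2.1)
  have hone : ∀ j ∈ F, ENNReal.ofReal (κ ^ 2) ≤
      ENNReal.ofReal (6 * 10 ^ 7 * ε) *
        (ENNReal.ofReal (κ * pz κ ε j.r) * volume (G j ∩ {t | IT F cls κ ε j t})) +
      ENNReal.ofReal (300 * κ) *
        (ENNReal.ofReal j.h * volume (G j ∩ {t | ¬ IT F cls κ ε j t})) := by
    intro j hj
    have hr := T.room j hj
    have hrp := i6_rpos hr
    have hh0 := hr.h0
    have h1 : ENNReal.ofReal (κ ^ 2) ≤
        ENNReal.ofReal (300 * κ * j.h) * ENNReal.ofReal (j.r / 300) := by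
      rw [← ENNReal.ofReal_mul (by positivity)]
      apply ENNReal.ofReal_le_ofReal
      have := hr.lo
      calc κ ^ 2 = κ * κ := by ring
        _ ≤ κ * (j.r * j.h) := by gcongr
        _ = _ := by ring
    have h2 : volume (G j) ≤ volume (G j ∩ {t | IT F cls κ ε j t}) +
        volume (G j ∩ {t | ¬ IT F cls κ ε j t}) := by
      refine (measure_mono ?_).trans (measure_union_le _ _)
      intro t ht
      by_cases hit : IT F cls κ ε j t
      · exact Or.inl ⟨ht, hit⟩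
      · exact Or.inr ⟨ht, hit⟩
    have h3 : ENNReal.ofReal (300 * κ * j.h) ≤
        ENNReal.ofReal (6 * 10 ^ 7 * ε) * ENNReal.ofReal (κ * pz κ ε j.r) := by
      rw [← ENNReal.ofReal_mul (by positivity)]
      apply ENNReal.ofReal_le_ofReal
      have h31 := (i6_h hr).le
      have h32 : 6 * 10 ^ 7 * ε * (κ * pz κ ε j.r) = 300 * κ * (2 * κ / j.r) := by
        unfold pz
        field_simp
        norm_num
      rw [h32]
      gcongr
    have h4 : ENNReal.ofReal (300 * κ * j.h) = ENNReal.ofReal (300 * κ) * ENNReal.ofReal j.h := by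
      rw [← ENNReal.ofReal_mul (by positivity)]
    calc ENNReal.ofReal (κ ^ 2) ≤
        ENNReal.ofReal (300 * κ * j.h) * ENNReal.ofReal (j.r / 300) := h1
      _ ≤ ENNReal.ofReal (300 * κ * j.h) * (volume (G j ∩ {t | IT F cls κ ε j t}) +
          volume (G j ∩ {t | ¬ IT F cls κ ε j t})) := by
          gcongr
          exact (hG j hj).2.2.2.trans h2
      _ = ENNReal.ofReal (300 * κ * j.h) * volume (G j ∩ {t | IT F cls κ ε j t}) +
          ENNReal.ofReal (300 * κ * j.h) * volume (G j ∩ {t | ¬ IT F cls κ ε j t}) := mul_add _ _ _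
      _ ≤ ENNReal.ofReal (6 * 10 ^ 7 * ε) * ENNReal.ofReal (κ * pz κ ε j.r) *
            volume (G j ∩ {t | IT F cls κ ε j t}) +
          ENNReal.ofReal (300 * κ) * ENNReal.ofReal j.h *
            volume (G j ∩ {t | ¬ IT F cls κ ε j t}) := by
          rw [← h4]
          gcongr
      _ = _ := by ring
  calc (F.card : ℝ≥0∞) * ENNReal.ofReal (κ ^ 2) = ∑ j ∈ F, ENNReal.ofReal (κ ^ 2) := by
        rw [Finset.sum_const, nsmul_eq_mul]
    _ ≤ ∑ j ∈ F, (ENNReal.ofReal (6 * 10 ^ 7 * ε) *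
        (ENNReal.ofReal (κ * pz κ ε j.r) * volume (G j ∩ {t | IT F cls κ ε j t})) +
      ENNReal.ofReal (300 * κ) *
        (ENNReal.ofReal j.h * volume (G j ∩ {t | ¬ IT F cls κ ε j t}))) := Finset.sum_le_sum hone
    _ = ENNReal.ofReal (6 * 10 ^ 7 * ε) * ∑ j ∈ F,
          (ENNReal.ofReal (κ * pz κ ε j.r) * volume (G j ∩ {t | IT F cls κ ε j t})) +
        ENNReal.ofReal (300 * κ) * ∑ j ∈ F,
          (ENNReal.ofReal j.h * volume (G j ∩ {t | ¬ IT F cls κ ε j t})) := by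
        rw [Finset.sum_add_distrib, Finset.mul_sum, Finset.mul_sum]
    _ ≤ ENNReal.ofReal (6 * 10 ^ 7 * ε) * (10 ^ 25 * volume G') +
        ENNReal.ofReal (300 * κ) * (48 * volume S') := by gcongr
    _ ≤ ENNReal.ofReal (10 ^ 33 * ε) * volume G' + ENNReal.ofReal (14400 * κ) * volume S' := by
        have e1 : (10 : ℝ≥0∞) ^ 25 = ENNReal.ofReal (10 ^ 25) := by
          rw [ENNReal.ofReal_pow (by norm_num)]
          norm_num
        have e2 : (48 : ℝ≥0∞) = ENNReal.ofReal 48 := by norm_num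
        rw [← mul_assoc, ← mul_assoc, e1, e2, ← ENNReal.ofReal_mul (by positivity),
          ← ENNReal.ofReal_mul (by positivity)]
        have h5 : 6 * 10 ^ 7 * ε * 10 ^ 25 ≤ 10 ^ 33 * ε := by nlinarith
        have h6 : 300 * κ * 48 ≤ 14400 * κ := by linarith
        gcongr
    _ = _ := add_comm _ _

/-- [BI-I6] The single level theorem.
PROOF. Split `F` into the rooms with `Cov` and the others. `Fam.not_cov` for the others; `DFam.level` for the family of the rooms with `Cov`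
(a subfamily of a family is a family). `14400 ≤ 14400 / ε ^ 4`, sum of constants `≤ 15000 / ε ^ 4`. -/
theorem Fam.level {S S' : Set (ℝ × ℝ)} {κ ε : ℝ} {F : Finset Room} {cls : Room → ℤ}
    (T : Fam S κ ε F cls) (hS' : MeasurableSet S') (hSS' : S ⊆ S')
    {G' : Set ((ℝ × ℝ) × (ℝ × ℝ))} (hG'm : MeasurableSet G')
    (hG' : ∀ y w : ℝ × ℝ, segment ℝ y (y + w) ⊆ S → (y, w) ∈ G') :
    (F.card : ℝ≥0∞) * ENNReal.ofReal (κ ^ 2) ≤
      ENNReal.ofReal (15000 * κ / ε ^ 4) * volume S' + ENNReal.ofReal (10 ^ 33 * ε) * volume G' := by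
  classical
  have hκ := T.κ0
  have hε := T.ε0
  have hε1 : ε ≤ 1 := T.ε1.trans (by norm_num)
  have hε4 : ε ^ 4 ≤ 1 := pow_le_one₀ hε.le hε1
  have hε4p : 0 < ε ^ 4 := by positivity
  set F1 := F.filter fun j => Cov (inF j S) κ ε j.r with hF1
  have hsub : F1 ⊆ F := Finset.filter_subset _ _
  have T1 : DFam S κ ε F1 cls :=
    { tri := T.tri
      κ0 := T.κ0
      ε0 := T.ε0
      ε1 := T.ε1
      room := fun R hR => T.room R (hsub hR)
      same := fun i hi j hj => T.same i (hsub hi) j (hsub hj)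
      lt := fun i hi j hj => T.lt i (hsub hi) j (hsub hj)
      sep := fun i hi j hj => T.sep i (hsub hi) j (hsub hj)
      droom := fun R hR =>
        { toIsRoom := T.room R (hsub hR)
          cov := (Finset.mem_filter.mp hR).2 } }
  have h1 := T1.level hS' hSS' hG'm hG'
  have h2 := T.not_cov hS' hSS'
  have hcard : (F.card : ℝ≥0∞) = (F1.card : ℝ≥0∞) +
      ((F.filter fun j => ¬ Cov (inF j S) κ ε j.r).card : ℝ≥0∞) := by
    rw [← Nat.cast_add, hF1]
    congr 1
    exact (Finset.card_filter_add_card_filter_not _).symm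
  rw [hcard, add_mul]
  have h3 : ((F.filter fun j => ¬ Cov (inF j S) κ ε j.r).card : ℝ≥0∞) *
      ENNReal.ofReal (κ ^ 2) ≤ ENNReal.ofReal (528 * κ / ε ^ 4) * volume S' := by
    convert h2
  calc _ ≤ (ENNReal.ofReal (14400 * κ) * volume S' + ENNReal.ofReal (10 ^ 33 * ε) * volume G') +
        ENNReal.ofReal (528 * κ / ε ^ 4) * volume S' := add_le_add h1 h3
    _ = (ENNReal.ofReal (14400 * κ) + ENNReal.ofReal (528 * κ / ε ^ 4)) * volume S' +
        ENNReal.ofReal (10 ^ 33 * ε) * volume G' := by ring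
    _ ≤ _ := by
        gcongr
        rw [← ENNReal.ofReal_add (by positivity) (by positivity)]
        apply ENNReal.ofReal_le_ofReal
        have h4 : 14400 * κ ≤ 14400 * κ / ε ^ 4 := by
          rw [le_div_iff₀ hε4p]
          nlinarith
        have h5 : 15000 * κ / ε ^ 4 = 14400 * κ / ε ^ 4 + 528 * κ / ε ^ 4 + 72 * κ / ε ^ 4 := by
          rw [← add_div, ← add_div]
          ring
        have h6 : 0 ≤ 72 * κ / ε ^ 4 := by positivity
        linarith

end Pool.Agent.BI
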