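import Pool.Agent.BI.A4

set_option autoImplicit false

open MeasureTheory Set
open scoped ENNReal

namespace Pool.Agent.BI

/-- [BI-J1] PROOF: as in `exists_nearMax`: `volume` of the rectangle is `ofReal (4 r h)`. -/
theorem RectIn.area {S : Set (ℝ × ℝ)} {K : ℝ} (hK : 0 ≤ K)
    (hC : ∀ C ⊆ S, Convex ℝ C → volume C ≤ ENNReal.ofReal K) {R : Room} (hu : UV R.u)
    (hr : 0 ≤ R.r) (hh : 0 ≤ R.h) (hR : RectIn S R) : 4 * (R.r * R.h) ≤ K := by
  have h1 := hC (fr R.c R.u '' (Icc (-R.r) R.r ×ˢ Icc (-R.h) R.h)) (by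
    rintro _ ⟨p, hp, rfl⟩
    exact hR p.1 p.2 (abs_le.2 hp.1) (abs_le.2 hp.2))
    (convex_image_fr ((convex_Icc _ _).prod (convex_Icc _ _)))
  rw [volume_image_fr hu, Measure.volume_eq_prod, Measure.prod_prod, Real.volume_Icc,
    Real.volume_Icc, ← ENNReal.ofReal_mul (by linarith), ENNReal.ofReal_le_ofReal_iff hK] at h1
  linarith

theorem j1_bound {S : Set (ℝ × ℝ)} {K : ℝ} (hK : 0 ≤ K)
    (hC : ∀ C ⊆ S, Convex ℝ C → volume C ≤ ENNReal.ofReal K) {z v : ℝ × ℝ} {R : Room}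
    (h : Adm S z v R) : R.r ^ 4 * R.h ≤ (v.1 ^ 2 + v.2 ^ 2 + 1) ^ 2 * K := by
  obtain ⟨hu, hh, hthin, hrect, hside⟩ := h
  have hr : 0 < R.r := by
    have : 0 < R.r / 10 ^ 20 := lt_of_lt_of_le hh hthin
    by_contra hneg
    have : R.r / 10 ^ 20 ≤ 0 := div_nonpos_of_nonpos_of_nonneg (not_lt.1 hneg) (by positivity)
    linarith
  have hl : R.r ^ 2 ≤ v.1 ^ 2 + v.2 ^ 2 := by
    have key : ∃ l : ℝ, R.r ≤ l ∧ v = (l * R.u.1, l * R.u.2) := by
      rcases hside with ⟨x, l, h1, h2, -⟩ | ⟨x, l, h1, h2, -⟩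
      · exact ⟨l, le_trans (by linarith [abs_nonneg x]) h1, h2⟩
      · exact ⟨l, le_trans (by linarith [abs_nonneg x]) h1, h2⟩
    obtain ⟨l, h1, rfl⟩ := key
    unfold UV at hu
    have e : (l * R.u.1, l * R.u.2).1 ^ 2 + (l * R.u.1, l * R.u.2).2 ^ 2 = l ^ 2 := by
      simp only
      linear_combination l ^ 2 * hu
    rw [e]
    exact pow_le_pow_left₀ hr.le h1 2
  have harea := RectIn.area hK hC hu hr.le hh.le hrect
  have hrh : R.r * R.h ≤ K := by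
    have : 0 ≤ R.r * R.h := by positivity
    linarith
  have h3 : R.r ^ 3 ≤ (v.1 ^ 2 + v.2 ^ 2 + 1) ^ 2 := by
    have h4 : R.r ^ 3 ≤ (R.r ^ 2 + 1) ^ 2 := by
      nlinarith [sq_nonneg (R.r - 1), sq_nonneg (R.r ^ 2 - R.r), pow_pos hr 2, pow_pos hr 3,
        pow_pos hr 4]
    exact h4.trans (pow_le_pow_left₀ (by positivity) (by linarith) 2)
  calc R.r ^ 4 * R.h = R.r ^ 3 * (R.r * R.h) := by ring
    _ ≤ (v.1 ^ 2 + v.2 ^ 2 + 1) ^ 2 * K := by gcongr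

/-- [BI-J1] A near-maximal rectangle exists.
PROOF. The set of values `R'.r ^ 4 * R'.h` over the admissible rectangles is non-empty, consists of positive numbers and is bounded:
`4 R'.r R'.h = volume (rectangle) ≤ K` (the rectangle is the image of `Icc (-r) r ×ˢ Icc (-h) h` under `fr`, convex, contained in `S`;
`volume_image_fr`, `convex_image_fr`) and `R'.r ≤ l` where `l² = v.1² + v.2²` (`OnSide`). Take an element larger than half of the
supremum. -/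
theorem exists_nearMax {S : Set (ℝ × ℝ)} {K : ℝ} (hK : 0 ≤ K)
    (hC : ∀ C ⊆ S, Convex ℝ C → volume C ≤ ENNReal.ofReal K) {z v : ℝ × ℝ}
    (h : ∃ R, Adm S z v R) : ∃ R, NearMax S z v R := by
  obtain ⟨R₀, hR₀⟩ := h
  set V : Set ℝ := {x | ∃ R, Adm S z v R ∧ x = R.r ^ 4 * R.h} with hV
  have hbdd : BddAbove V := by
    refine ⟨(v.1 ^ 2 + v.2 ^ 2 + 1) ^ 2 * K, ?_⟩
    rintro _ ⟨R, hR, rfl⟩
    exact j1_bound hK hC hR
  have hmem₀ : R₀.r ^ 4 * R₀.h ∈ V := ⟨R₀, hR₀, rfl⟩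
  have hpos : 0 < R₀.r ^ 4 * R₀.h := by
    obtain ⟨-, hh, hthin, -, -⟩ := hR₀
    have hr : 0 < R₀.r := by
      have : 0 < R₀.r / 10 ^ 20 := lt_of_lt_of_le hh hthin
      by_contra hneg
      have : R₀.r / 10 ^ 20 ≤ 0 := div_nonpos_of_nonpos_of_nonneg (not_lt.1 hneg) (by positivity)
      linarith
    positivity
  have hsup : 0 < sSup V := lt_of_lt_of_le hpos (le_csSup hbdd hmem₀)
  obtain ⟨x, ⟨R, hR, rfl⟩, hx⟩ := exists_lt_of_lt_csSup ⟨_, hmem₀⟩ (half_lt_self hsup)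
  refine ⟨R, hR, fun R' hR' => ?_⟩
  have h1 : R'.r ^ 4 * R'.h ≤ sSup V := le_csSup hbdd ⟨R', hR', rfl⟩
  linarith

end Pool.Agent.BI
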