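import Pool.Agent.BI.Basic

set_option autoImplicit false

open MeasureTheory Set
open scoped ENNReal

namespace Pool.Agent.BI

theorem j2_comb {P Q R : ℝ × ℝ} {a b c : ℝ} (ha : 0 ≤ a) (hb : 0 ≤ b) (hc : 0 ≤ c)
    (h : a + b + c = 1) : a • P + b • Q + c • R ∈ convexHull ℝ ({P, Q, R} : Set (ℝ × ℝ)) := by
  have hP : P ∈ convexHull ℝ ({P, Q, R} : Set (ℝ × ℝ)) := subset_convexHull ℝ _ (by simp)
  have hQ : Q ∈ convexHull ℝ ({P, Q, R} : Set (ℝ × ℝ)) := subset_convexHull ℝ _ (by simp)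
  have hR : R ∈ convexHull ℝ ({P, Q, R} : Set (ℝ × ℝ)) := subset_convexHull ℝ _ (by simp)
  have hcv := convex_convexHull ℝ ({P, Q, R} : Set (ℝ × ℝ))
  rcases (add_nonneg hb hc).eq_or_lt with h0 | h0
  · have hb0 : b = 0 := by linarith
    have hc0 : c = 0 := by linarith
    have ha1 : a = 1 := by linarith
    rw [hb0, hc0, ha1, one_smul, zero_smul, zero_smul, add_zero, add_zero]
    exact hP
  · have h1 : (b / (b + c)) • Q + (c / (b + c)) • R ∈ convexHull ℝ ({P, Q, R} : Set (ℝ × ℝ)) :=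
      hcv hQ hR (by positivity) (by positivity) (by field_simp)
    have h2 := hcv hP h1 ha h0.le (by linarith)
    have e : a • P + (b + c) • ((b / (b + c)) • Q + (c / (b + c)) • R) = a • P + b • Q + c • R := by
      rw [smul_add, smul_smul, smul_smul, mul_div_cancel₀ b h0.ne', mul_div_cancel₀ c h0.ne',
        add_assoc]
    rw [e] at h2
    exact h2

/-- [BI-J2] A rectangle inside a triangle on a horizontal base, apex possibly far aside (apex above the base).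
PROOF. Base `[p, q] × {y₀}`, apex `(x₀, y₀ + H)`. `l = q - p`, `x ∈ [p + l/4, q - l/4]`, `0 ≤ η ≤ H l / (4 W)` where `|x₀ - p|, |x₀ - q| ≤ W`. The
point `(x, y₀ + η)` is the convex combination `(1 - λ) (x', y₀) + λ (x₀, y₀ + H)`, `λ = η / H ≤ l / (4 W) ≤ 1 / 2`
(`l ≤ 2 W`), `x' = (x - λ x₀) / (1 - λ) = x + (λ/(1-λ)) (x - x₀)`; it remains to see `x' ∈ [p, q]`:
`x' ≥ p` iff `x - λ x₀ ≥ (1 - λ) p` iff `x - p ≥ λ (x₀ - p)`, true since `x - p ≥ l / 4 ≥ λ W`; likewise `q`. -/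
theorem rect_in_tri {p q y₀ x₀ H W x η : ℝ} (hpq : p < q) (hH : 0 < H) (hW1 : |x₀ - p| ≤ W)
    (hW2 : |x₀ - q| ≤ W) (hx1 : p + (q - p) / 4 ≤ x) (hx2 : x ≤ q - (q - p) / 4) (hη : 0 ≤ η)
    (hη' : η * (4 * W) ≤ H * (q - p)) :
    (x, y₀ + η) ∈ convexHull ℝ ({(p, y₀), (q, y₀), (x₀, y₀ + H)} : Set (ℝ × ℝ)) := by
  have hl : 0 < q - p := by linarith
  have hlam0 : 0 ≤ η / H := by positivity
  have hlamW : η / H * W ≤ (q - p) / 4 := by
    rw [div_mul_eq_mul_div, div_le_iff₀ hH]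
    linarith
  have h1 := abs_le.mp hW1
  have h2 := abs_le.mp hW2
  have h3 : η / H * (x₀ - p) ≤ (q - p) / 4 :=
    (mul_le_mul_of_nonneg_left h1.2 hlam0).trans hlamW
  have h4 : η / H * (q - x₀) ≤ (q - p) / 4 := by
    have : q - x₀ ≤ W := by linarith
    exact (mul_le_mul_of_nonneg_left this hlam0).trans hlamW
  have hα : 0 ≤ (q - x - η / H * (q - x₀)) / (q - p) := div_nonneg (by linarith) hl.le
  have hβ : 0 ≤ (x - p - η / H * (x₀ - p)) / (q - p) := div_nonneg (by linarith) hl.le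
  have hne : q - p ≠ 0 := hl.ne'
  have hHne : H ≠ 0 := hH.ne'
  have hsum : (q - x - η / H * (q - x₀)) / (q - p) + (x - p - η / H * (x₀ - p)) / (q - p) +
      η / H = 1 := by
    field_simp
    ring
  have h5 := j2_comb (P := (p, y₀)) (Q := (q, y₀)) (R := (x₀, y₀ + H)) hα hβ hlam0 hsum
  have e : ((q - x - η / H * (q - x₀)) / (q - p)) • ((p, y₀) : ℝ × ℝ) +
      ((x - p - η / H * (x₀ - p)) / (q - p)) • ((q, y₀) : ℝ × ℝ) +
      (η / H) • ((x₀, y₀ + H) : ℝ × ℝ) = (x, y₀ + η) := by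
    ext
    · simp only [Prod.fst_add, Prod.smul_fst, smul_eq_mul]
      field_simp
      ring
    · simp only [Prod.snd_add, Prod.smul_snd, smul_eq_mul]
      have h6 : η / H * H = η := div_mul_cancel₀ η hHne
      linear_combination y₀ * hsum + h6
  rw [e] at h5
  exact h5

end Pool.Agent.BI
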