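import Pool.Agent.BI.J2

set_option autoImplicit false

open MeasureTheory Set
open scoped ENNReal

namespace Pool.Agent.BI

theorem j3_mem {D : Set (ℝ × ℝ)} (hD : Convex ℝ D) {r a b x lam : ℝ} {X : ℝ × ℝ} (hr : 0 < r)
    (ha : -r ≤ a) (hab : a < b) (hb : b ≤ r) (h1 : (a, (0 : ℝ)) ∈ D) (h2 : (b, (0 : ℝ)) ∈ D)
    (hX : X ∈ D) (hX1 : |X.1| ≤ 2 * r) (hl0 : 0 ≤ lam) (hl : lam * (40 * r) ≤ b - a)
    (hx : |x - (a + b) / 2| ≤ (b - a) / 12) : (x, lam * X.2) ∈ D := by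
  have hlam : lam ≤ 1 / 20 := by
    by_contra hcon
    push Not at hcon
    have : 1 / 20 * (40 * r) < lam * (40 * r) := mul_lt_mul_of_pos_right hcon (by linarith)
    linarith
  have hlam1 : 0 < 1 - lam := by linarith
  rw [abs_le] at hX1 hx
  obtain ⟨w, hw⟩ : ∃ w : ℝ, w * (1 - lam) = x - lam * X.1 :=
    ⟨(x - lam * X.1) / (1 - lam), div_mul_cancel₀ _ hlam1.ne'⟩
  have e1 : lam * (X.1 - a) ≤ lam * (3 * r) := mul_le_mul_of_nonneg_left (by linarith) hl0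
  have e2 : lam * (b - X.1) ≤ lam * (3 * r) := mul_le_mul_of_nonneg_left (by linarith) hl0
  have e3 : lam * (3 * r) = 3 / 40 * (lam * (40 * r)) := by ring
  have hwa : a ≤ w := by
    have : 0 ≤ (w - a) * (1 - lam) := by
      have h3 : (w - a) * (1 - lam) = (x - a) - lam * (X.1 - a) := by linear_combination hw
      rw [h3]
      linarith
    have := nonneg_of_mul_nonneg_left this hlam1
    linarith
  have hwb : w ≤ b := by
    have : 0 ≤ (b - w) * (1 - lam) := by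
      have h3 : (b - w) * (1 - lam) = (b - x) - lam * (b - X.1) := by linear_combination -hw
      rw [h3]
      linarith
    have := nonneg_of_mul_nonneg_left this hlam1
    linarith
  have hL : b - a ≠ 0 := (sub_pos.2 hab).ne'
  have hw0 : (w, (0 : ℝ)) ∈ D := by
    have h3 := hD h1 h2 (div_nonneg (sub_nonneg.2 hwb) (sub_pos.2 hab).le)
      (div_nonneg (sub_nonneg.2 hwa) (sub_pos.2 hab).le) (by field_simp; ring)
    convert h3 using 1
    ext
    · simp only [Prod.fst_add, Prod.smul_fst, smul_eq_mul]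
      field_simp
      ring
    · simp
  have h4 := hD hw0 hX hlam1.le hl0 (by ring)
  convert h4 using 1
  ext
  · simp only [Prod.fst_add, Prod.smul_fst, smul_eq_mul]
    linear_combination -hw
  · simp

/-- [BI-J3] Height of convex sets through the axis, standard position, chord below (`s = 1`).
The rectangle `[-r, r] × [-h, h]` is in `S`; `hmax`: near-maximality in the coordinates of the frame, for rectangles
`[x' - r', x' + r'] × [-h, -h + 2 h']` (above the chord) or `[x' - r', x' + r'] × [-h - 2 h', -h]` (below it), on the chord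
`[-l₁, l₂] × {-h}` which contains `[-r, r] × {-h}`.
PROOF. Let `X = (x₀, H₀) ∈ D`, `δ = (b - a) / r ∈ (0, 2]`. Suppose `|H₀| ≥ (12 / δ) h`. Put `r' = δ r / 12`.
Case `H₀ > 0`. `a' = a + (b - a)/3`, `b' = b - (b - a)/3`; let `P = (P₁, -h)`, `Q = (Q₁, -h)` be the points of the lines from `X` through `(a', 0)`,
`(b', 0)`: `P₁ = a' + (h / H₀)(a' - x₀)`, `|P₁ - a'| ≤ (δ / 12) 3 r = (b - a) / 4`, so `a ≤ P₁`, similarly `Q₁ ≤ b`; `Q₁ - P₁ = (b - a)/3 (1 + h / H₀)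
≥ δ r / 3`. The triangle `P Q X` is in `S`: its part above the axis is the triangle `(a', 0), (b', 0), X ⊆ D`, its part below is in the
rectangle `[a, b] × [-h, 0]` (a point of the hull at height `≤ 0`: its abscissa is between the lines `XP` and `XQ`). `rect_in_tri` with base
`[P₁, Q₁]`, `y₀ = -h`, `W = 4 r`: the rectangle over `[P₁ + l/4, Q₁ - l/4]` (`l = Q₁ - P₁ ≥ δ r / 3`, contains an interval of length
`2 r' = δ r / 6`) of height `2 h'` is in `S` as soon as `2 h' * 16 r ≤ H₀ l`; take `h' = min (H₀ δ / 100) (r' / 10 ^ 20)`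
(`2 (H₀ δ / 100) 16 r = 0.32 H₀ δ r ≤ H₀ δ r / 3`).
Case `H₀ < 0`: the triangle `(a, 0), (b, 0), X ⊆ D` cut by the line `y = -h`: base of length `l = (b - a)(1 - h / |H₀|) ≥ (5/6) δ r`
(`|H₀| ≥ (12/δ) h ≥ 6 h`) on the chord (its end points are points of `D`, abscissae in `[-2r, 2r]`, in fact between
those of `(a, 0), (b, 0)` and `X`; the base itself: for the rectangle use its middle half, and `-l₁ ≤ x' - r'`, `x' + r' ≤ l₂`: NOTE the base
`[p, q]` of the cut triangle need not lie in `[a, b]`, but `|p - a|, |q - b| ≤ (h/|H₀|) 3 r ≤ (b - a)/4`, so the middle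
`[a + (b - a)/4, b - (b - a)/4] ⊆ [p, q]`; use this interval `[a'', b'']` of length `δ r / 2` as the base instead: the triangle `(a'', -h), (b'', -h), X`
is in `D`, by convexity), apex `X` at depth `|H₀| - h ≥ (5/6) |H₀|` below; `rect_in_tri` reflected (`W = 4 r`, `l = δ r / 2`): rectangle below the
chord over the middle half of `[a'', b'']`, half-length `r' = δ r / 12 ≤ l / 4`, height `2 h'`, `h' = min (|H₀| δ / 100) (r' / 10 ^ 20)`:
`2 h' 16 r ≤ 0.32 |H₀| δ r ≤ (5/6) |H₀| δ r / 2`.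
In both cases `hmax` gives `r' ^ 4 h' ≤ 2 r ^ 4 h`, i.e. `h' ≤ 2 (12 / δ) ^ 4 h`. If `h' = |H₀| δ / 100`:
`|H₀| ≤ 200 * 12 ^ 4 δ ^ (-5) h ≤ 5 * 10 ^ 6 δ ^ (-5) h`. If `h' = r' / 10 ^ 20`: `r ≤ 24 * 10 ^ 20 * 12 ^ 4 δ ^ (-5) h ≤ 10 ^ 26 δ ^ (-5) h`.
(If `|H₀| < (12/δ) h` then also `|H₀| ≤ 5 * 10 ^ 6 δ ^ (-5) h`, as `δ ≤ 2`: `12 / δ ≤ 12 * 16 δ ^ (-5)`.) -/
theorem height_bound {S : Set (ℝ × ℝ)} {r h l₁ l₂ : ℝ} (hr : 0 < r) (hh : 0 < h)
    (rect : ∀ x y : ℝ, |x| ≤ r → |y| ≤ h → (x, y) ∈ S) (hl1 : r ≤ l₁) (hl2 : r ≤ l₂)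
    (hmax : ∀ x' r' h' : ℝ, 0 < h' → h' ≤ r' / 10 ^ 20 → -l₁ ≤ x' - r' → x' + r' ≤ l₂ →
      ((∀ x y : ℝ, |x - x'| ≤ r' → -h ≤ y → y ≤ -h + 2 * h' → (x, y) ∈ S) ∨
        (∀ x y : ℝ, |x - x'| ≤ r' → -h - 2 * h' ≤ y → y ≤ -h → (x, y) ∈ S)) →
      r' ^ 4 * h' ≤ 2 * (r ^ 4 * h))
    {D : Set (ℝ × ℝ)} (hDS : D ⊆ S) (hD : Convex ℝ D)
    (hB : ∀ p ∈ D, p.1 ^ 2 + p.2 ^ 2 ≤ 4 * r ^ 2) {a b : ℝ} (ha : -r ≤ a) (hab : a < b)
    (hb : b ≤ r) (h1 : (a, (0 : ℝ)) ∈ D) (h2 : (b, (0 : ℝ)) ∈ D)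
    (hfat : 10 ^ 26 * (r / (b - a)) ^ 5 * h < r) {X : ℝ × ℝ} (hX : X ∈ D) :
    |X.2| ≤ 5 * 10 ^ 6 * (r / (b - a)) ^ 5 * h := by
  have hL : 0 < b - a := sub_pos.2 hab
  have hL2 : b - a ≤ 2 * r := by linarith
  obtain ⟨k, hk⟩ : ∃ k : ℝ, k = r / (b - a) := ⟨_, rfl⟩
  rw [← hk] at hfat ⊢
  have hkr : k * (b - a) = r := by rw [hk]; exact div_mul_cancel₀ _ hL.ne'
  have hk0 : 0 < k := by rw [hk]; exact div_pos hr hL
  have hk1 : 1 / 2 ≤ k := by
    rw [hk, le_div_iff₀ hL]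
    linarith
  have hk4 : 1 / 16 ≤ k ^ 4 := by
    have := pow_le_pow_left₀ (by norm_num : (0 : ℝ) ≤ 1 / 2) hk1 4
    norm_num at this ⊢
    linarith
  have hX1 : |X.1| ≤ 2 * r := by
    rw [abs_le]
    have h3 := hB X hX
    have h4 : X.1 ^ 2 ≤ (2 * r) ^ 2 := by nlinarith [sq_nonneg X.2]
    exact abs_le.1 (abs_le_of_sq_le_sq h4 (by linarith))
  by_contra hcon
  push Not at hcon
  obtain ⟨H, hH⟩ : ∃ H : ℝ, H = |X.2| := ⟨_, rfl⟩
  rw [← hH] at hcon
  have hkh : 0 < k * h := mul_pos hk0 hh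
  have hHk : 3 * 10 ^ 5 * (k * h) ≤ H := by
    have h3 : 1 / 16 * (k * h) ≤ k ^ 4 * (k * h) := mul_le_mul_of_nonneg_right hk4 hkh.le
    have h4 : 5 * 10 ^ 6 * k ^ 5 * h = 5 * 10 ^ 6 * (k ^ 4 * (k * h)) := by ring
    rw [h4] at hcon
    linarith
  have hH0 : 0 < H := lt_of_lt_of_le (by positivity) hHk
  -- the rectangle
  obtain ⟨h', hh'⟩ : ∃ h' : ℝ, h' = min (H * (b - a) / (100 * r)) ((b - a) / 12 / 10 ^ 20) := ⟨_, rfl⟩
  have hm1 : h' ≤ H * (b - a) / (100 * r) := by rw [hh']; exact min_le_left _ _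
  have hm2 : h' ≤ (b - a) / 12 / 10 ^ 20 := by rw [hh']; exact min_le_right _ _
  have hm0 : 0 < h' := by
    rw [hh']
    exact lt_min (by positivity) (by positivity)
  have hm3 : h' * (100 * r) ≤ H * (b - a) := by rwa [le_div_iff₀ (by linarith)] at hm1
  -- `h` is small
  have hhr : h * (3 * 10 ^ 5 * r) ≤ H * (b - a) := by
    have h3 := mul_le_mul_of_nonneg_right hHk hL.le
    have h4 : 3 * 10 ^ 5 * (k * h) * (b - a) = h * (3 * 10 ^ 5 * r) := by
      rw [← hkr]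
      ring
    linarith
  have hin : ∀ x t : ℝ, |x - (a + b) / 2| ≤ (b - a) / 12 → 0 ≤ t → t ≤ h + 2 * h' →
      (x, t / H * X.2) ∈ D := by
    intro x t hx ht0 ht
    refine j3_mem hD hr ha hab hb h1 h2 hX hX1 (div_nonneg ht0 hH0.le) ?_ hx
    rw [div_mul_eq_mul_div, div_le_iff₀ hH0]
    have h3 : t * (40 * r) ≤ (h + 2 * h') * (40 * r) := mul_le_mul_of_nonneg_right ht (by linarith)
    have h4 : (h + 2 * h') * (40 * r) = 40 / (3 * 10 ^ 5) * (h * (3 * 10 ^ 5 * r)) +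
        80 / 100 * (h' * (100 * r)) := by ring
    have h5 : 0 < H * (b - a) := mul_pos hH0 hL
    nlinarith
  have hbd := hmax ((a + b) / 2) ((b - a) / 12) h' hm0 hm2 (by linarith) (by linarith) (by
    rcases le_or_gt 0 X.2 with hs | hs
    · left
      have hHX : X.2 = H := by rw [hH, abs_of_nonneg hs]
      intro x y hx hy1 hy2
      rcases le_or_gt y 0 with hy | hy
      · refine rect x y ?_ ?_
        · rw [abs_le] at hx ⊢
          constructor <;> linarith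
        · rw [abs_le]
          constructor <;> linarith
      · have h3 := hDS (hin x y hx hy.le (by linarith))
        rwa [hHX, div_mul_cancel₀ _ hH0.ne'] at h3
    · right
      have hHX : X.2 = -H := by rw [hH, abs_of_neg hs, neg_neg]
      intro x y hx hy1 hy2
      have h3 := hDS (hin x (-y) hx (by linarith) (by linarith))
      rwa [hHX, mul_neg, div_mul_cancel₀ _ hH0.ne', neg_neg] at h3)
  -- the estimate
  have hb1 : h' ≤ 41472 * (k ^ 4 * h) := by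
    have h3 : ((b - a) / 12) ^ 4 * (41472 * (k ^ 4 * h)) = 2 * (r ^ 4 * h) := by
      rw [← hkr]
      ring
    rw [← h3] at hbd
    exact le_of_mul_le_mul_left hbd (by positivity)
  rcases min_choice (H * (b - a) / (100 * r)) ((b - a) / 12 / 10 ^ 20) with hc | hc
  · rw [hc] at hh'
    have h3 : H = 100 * (k * h') := by
      rw [hh', ← hkr]
      field_simp
    have h4 : k * h' ≤ k * (41472 * (k ^ 4 * h)) := mul_le_mul_of_nonneg_left hb1 hk0.le
    have h5 : 5 * 10 ^ 6 * k ^ 5 * h = 5 * 10 ^ 6 * (k ^ 5 * h) := by ring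
    have h6 : k * (41472 * (k ^ 4 * h)) = 41472 * (k ^ 5 * h) := by ring
    have h7 : 0 < k ^ 5 * h := by positivity
    rw [h5, h3] at hcon
    rw [h6] at h4
    linarith
  · rw [hc] at hh'
    have h3 : r = 12 * 10 ^ 20 * (k * h') := by
      rw [hh', ← hkr]
      ring
    have h4 : k * h' ≤ k * (41472 * (k ^ 4 * h)) := mul_le_mul_of_nonneg_left hb1 hk0.le
    have h5 : 10 ^ 26 * k ^ 5 * h = 10 ^ 26 * (k ^ 5 * h) := by ring
    have h6 : k * (41472 * (k ^ 4 * h)) = 41472 * (k ^ 5 * h) := by ring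
    have h7 : 0 < k ^ 5 * h := by positivity
    rw [h5, h3] at hfat
    rw [h6] at h4
    linarith

end Pool.Agent.BI
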