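import Pool.Agent.BI.J3
import Pool.Agent.BI.A6
import Pool.Agent.BI.A4

set_option autoImplicit false

open MeasureTheory Set
open scoped ENNReal

namespace Pool.Agent.BI

theorem j4_fr_fr (c u p q : ℝ × ℝ) : fr (fr c u p) u q = fr c u (p.1 + q.1, p.2 + q.2) := by
  ext
  · simp only [fr]; ring
  · simp only [fr]; ring

/-- near-maximality against a rectangle on the chord -/
theorem j4_max {S : Set (ℝ × ℝ)} {z v : ℝ × ℝ} {R : Room} (h : NearMax S z v R) {s x l : ℝ}
    (hv : v = (l * R.u.1, l * R.u.2)) (hz : z = fr R.c R.u (x, -(s * R.h)))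
    {t : ℝ} (ht : t = 1 ∨ t = -1) {x' r' h' : ℝ} (hh' : 0 < h') (hthin : h' ≤ r' / 10 ^ 20)
    (h1 : -(l - x) ≤ x' - r') (h2 : x' + r' ≤ x + l)
    (hr : ∀ X Y : ℝ, |X - x'| ≤ r' → |Y - (-(s * R.h) + t * h')| ≤ h' → (X, Y) ∈ inF R S) :
    r' ^ 4 * h' ≤ 2 * (R.r ^ 4 * R.h) := by
  have hR' : Adm S z v ⟨fr R.c R.u (x', -(s * R.h) + t * h'), R.u, r', h'⟩ := by
    refine ⟨h.1.1, hh', hthin, ?_, ?_⟩
    · intro X Y hX hY
      simp only at hX hY ⊢
      rw [j4_fr_fr]
      exact hr (x' + X) (-(s * R.h) + t * h' + Y) (by simpa using hX) (by simpa using hY)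
    · have hon : OnSide z v ⟨fr R.c R.u (x', -(s * R.h) + t * h'), R.u, r', h'⟩ t := by
        refine ⟨x - x', l, ?_, hv, ?_⟩
        · simp only
          have : |x - x'| ≤ l - r' := abs_le.mpr ⟨by linarith, by linarith⟩
          linarith
        · simp only
          rw [j4_fr_fr, hz]
          congr 1
          ext
          · simp only; ring
          · simp only; ring
      rcases ht with rfl | rfl
      · exact Or.inl hon
      · exact Or.inr hon
  exact h.2 _ hR'

theorem j4_vol {D : Set (ℝ × ℝ)} {r Y : ℝ} (hr : 0 < r) (hY : 0 ≤ Y)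
    (h1 : ∀ p ∈ D, p.1 ^ 2 + p.2 ^ 2 ≤ 4 * r ^ 2) (h2 : ∀ p ∈ D, |p.2| ≤ Y) :
    volume D ≤ ENNReal.ofReal (8 * r * Y) := by
  have hsub : D ⊆ Icc (-(2 * r)) (2 * r) ×ˢ Icc (-Y) Y := by
    intro p hp
    refine ⟨?_, abs_le.mp (h2 p hp)⟩
    have h3 := h1 p hp
    have h4 : |p.1| ≤ 2 * r := by
      apply abs_le_of_sq_le_sq _ (by positivity)
      nlinarith [sq_nonneg p.2]
    exact abs_le.mp h4
  refine (measure_mono hsub).trans ?_
  rw [Measure.volume_eq_prod, Measure.prod_prod, Real.volume_Icc, Real.volume_Icc,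
    ← ENNReal.ofReal_mul (by linarith)]
  apply ENNReal.ofReal_le_ofReal
  nlinarith

/-- [BI-J4] Near-maximal rectangles are regular.
PROOF. Frame of `R`; `OnSide z v R s`. If `s = -1` reflect (`flipy`), so let `s = 1`: in the frame the chord is
`[x - l, x + l] × {-h}`, with `[-r, r] ⊆ [x - l, x + l]`; `l₁ = l - x`, `l₂ = x + l`. `hmax` of `height_bound` for a rectangle
`(x', r', h')` above the chord: the room `R' = ⟨fr R.c R.u (x', -h + h'), R.u, r', h'⟩` is admissible with `OnSide z v R' 1` (`x` replaced by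
`x - x'`, `|x - x'| + r' ≤ l`); below the chord: `R' = ⟨fr R.c R.u (x', -h - h'), R.u, r', h'⟩`, `OnSide z v R' (-1)`.
Let `D, a, b` be as in `RegStd`, not fat. `height_bound`: `D ⊆ Icc (-2r) (2r) ×ˢ Icc (-Y) Y`, `Y = 5 * 10 ^ 6 (r/(b-a)) ^ 5 h`, so
`volume D ≤ 4 r * 2 Y = 4 * 10 ^ 7 (r/(b-a)) ^ 5 r h ≤ 10 ^ 8 ...`. -/
theorem NearMax.reg {S : Set (ℝ × ℝ)} {z v : ℝ × ℝ} {R : Room} (h : NearMax S z v R) :
    RegStd (inF R S) R.r R.h := by
  intro D hDS hD hB a b ha hab hb h1 h2
  obtain ⟨hu, hh, hthin, hrect, hside⟩ := h.1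
  have hr : 0 < R.r := by
    have : 0 < R.r / 10 ^ 20 := lt_of_lt_of_le hh hthin
    by_contra hcon
    push Not at hcon
    have : R.r / 10 ^ 20 ≤ 0 := div_nonpos_of_nonpos_of_nonneg hcon (by positivity)
    linarith
  by_cases hfat : R.r ≤ 10 ^ 26 * (R.r / (b - a)) ^ 5 * R.h
  · exact Or.inr hfat
  push Not at hfat
  left
  have hba : 0 < b - a := by linarith
  have hY : ∀ X ∈ D, |X.2| ≤ 5 * 10 ^ 6 * (R.r / (b - a)) ^ 5 * R.h := by
    rcases hside with ⟨x, l, hx, hv, hz⟩ | ⟨x, l, hx, hv, hz⟩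
    · intro X hX
      have hxa := abs_le.mp (le_refl |x|)
      refine height_bound (S := inF R S) (l₁ := l - x) (l₂ := x + l) hr hh
        (fun X Y hX hY => hrect X Y hX hY) (by linarith) (by linarith) ?_ hDS hD hB ha hab hb
        h1 h2 hfat hX
      intro x' r' h' hh' hthin' hl1 hl2 hor
      rcases hor with hor | hor
      · refine j4_max h hv hz (Or.inl rfl) hh' hthin' hl1 hl2 ?_
        intro X Y hX hY
        rw [abs_le] at hY
        exact hor X Y hX (by linarith) (by linarith)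
      · refine j4_max h hv hz (Or.inr rfl) hh' hthin' hl1 hl2 ?_
        intro X Y hX hY
        rw [abs_le] at hY
        exact hor X Y hX (by linarith) (by linarith)
    · intro X hX
      have hxa := abs_le.mp (le_refl |x|)
      have hkey := height_bound (S := flipy (inF R S)) (D := flipy D) (l₁ := l - x) (l₂ := x + l)
        (a := a) (b := b) (X := (X.1, -X.2)) hr hh
        (fun X Y hX hY => hrect X (-Y) hX (by rwa [abs_neg])) (by linarith) (by linarith) ?_
        (fun p hp => hDS hp) ?_ ?_ ha hab hb (by simpa [flipy] using h1)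
        (by simpa [flipy] using h2) hfat (by simpa [flipy] using hX)
      · simpa using hkey
      · intro x' r' h' hh' hthin' hl1 hl2 hor
        rcases hor with hor | hor
        · refine j4_max h hv hz (Or.inr rfl) hh' hthin' hl1 hl2 ?_
          intro X Y hX hY
          rw [abs_le] at hY
          have := hor X (-Y) hX (by linarith) (by linarith)
          simpa [flipy] using this
        · refine j4_max h hv hz (Or.inl rfl) hh' hthin' hl1 hl2 ?_
          intro X Y hX hY
          rw [abs_le] at hY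
          have := hor X (-Y) hX (by linarith) (by linarith)
          simpa [flipy] using this
      · intro p hp q hq α β hα hβ hαβ
        have h3 := hD hp hq hα hβ hαβ
        have h4 : ((α • p + β • q).1, -(α • p + β • q).2) =
            α • ((p.1, -p.2) : ℝ × ℝ) + β • ((q.1, -q.2) : ℝ × ℝ) := by
          ext
          · simp
          · simp; ring
        change ((α • p + β • q).1, -(α • p + β • q).2) ∈ D
        rw [h4]
        exact h3
      · intro p hp
        have := hB _ hp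
        simpa using this
  refine (j4_vol hr (by positivity) hB hY).trans ?_
  apply ENNReal.ofReal_le_ofReal
  have h5 : 0 ≤ (R.r / (b - a)) ^ 5 * (R.r * R.h) := by positivity
  nlinarith

/-- [BI-J4] PROOF: the clauses of `IsRoom` from `Adm` and `NearMax.reg`. -/
theorem NearMax.isRoom {S : Set (ℝ × ℝ)} {z v : ℝ × ℝ} {R : Room} (h : NearMax S z v R) {κ : ℝ}
    (h1 : κ ≤ R.r * R.h) (h2 : R.r * R.h < 2 * κ) : IsRoom S κ R :=
  ⟨h.1.1, h.1.2.1, h.1.2.2.1, h1, h2, h.1.2.2.2.1, h.reg⟩

end Pool.Agent.BI
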