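import Pool.Agent.BI.Basic

set_option autoImplicit false

open MeasureTheory Set
open scoped ENNReal

namespace Pool.Agent.BI

/-- if the part of a bounded set to the right of each of its points is small, the set is small -/
theorem k1_right {A : Set ℝ} (hb : BddBelow A) {m : ℝ≥0∞} (h : ∀ p ∈ A, volume (A ∩ Ioi p) ≤ m) :
    volume A ≤ m := by
  rcases A.eq_empty_or_nonempty with he | hne
  · rw [he]
    simp
  set m0 := sInf A with hm0
  have hsub : A ⊆ {m0} ∪ ⋃ n : ℕ, A ∩ Ioi (m0 + 1 / ((n : ℝ) + 1)) := by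
    intro x hx
    have h1 : m0 ≤ x := csInf_le hb hx
    rcases h1.eq_or_lt with h2 | h2
    · left
      exact h2.symm
    · right
      obtain ⟨n, hn⟩ := exists_nat_one_div_lt (sub_pos.2 h2)
      rw [mem_iUnion]
      refine ⟨n, hx, ?_⟩
      rw [mem_Ioi]
      linarith
  have hmono : Monotone fun n : ℕ => A ∩ Ioi (m0 + 1 / ((n : ℝ) + 1)) := by
    intro i j hij
    apply inter_subset_inter_right
    apply Ioi_subset_Ioi
    have : (1 : ℝ) / ((j : ℝ) + 1) ≤ 1 / ((i : ℝ) + 1) := by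
      apply one_div_le_one_div_of_le (by positivity)
      have : (i : ℝ) ≤ j := by exact_mod_cast hij
      linarith
    linarith
  calc volume A ≤ volume ({m0} ∪ ⋃ n : ℕ, A ∩ Ioi (m0 + 1 / ((n : ℝ) + 1))) := measure_mono hsub
    _ ≤ volume ({m0} : Set ℝ) + volume (⋃ n : ℕ, A ∩ Ioi (m0 + 1 / ((n : ℝ) + 1))) := measure_union_le _ _
    _ = ⨆ n : ℕ, volume (A ∩ Ioi (m0 + 1 / ((n : ℝ) + 1))) := by
        rw [Real.volume_singleton, zero_add, hmono.measure_iUnion]
    _ ≤ m := by
        refine iSup_le fun n => ?_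
        have h3 : m0 < m0 + 1 / ((n : ℝ) + 1) := by
          have : (0 : ℝ) < 1 / ((n : ℝ) + 1) := by positivity
          linarith
        obtain ⟨p, hp, hp2⟩ := exists_lt_of_csInf_lt hne h3
        refine le_trans (measure_mono ?_) (h p hp)
        exact inter_subset_inter_right _ (Ioi_subset_Ioi hp2.le)

/-- [BI-K1] One-dimensional corner lemma.
PROOF. Cover `[α, α + L]` by the `N = ⌊L / W⌋ + 1` intervals `J m = Ico (α + m W) (α + (m + 1) W)`; it is enough to see
`volume (Λ ∩ J m) ≤ ofReal w`. Let `Λ' = Λ ∩ J m`, non-empty. For `p ∈ Λ'`: `Λ' ∩ Ioi p ⊆ Ioc p (p + w) ∪ (Λ ∩ Ioc (p + w) (p + W))`, of measure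
`≤ ofReal w` (if `w ≥ W` simply `Λ' ∩ Ioi p ⊆ Ioc p (p + W)`). Take a sequence `p n ∈ Λ'` decreasing to `m₀ = sInf Λ'` (or equal to it);
`Λ' ⊆ {m₀} ∪ ⋃ n, Λ' ∩ Ioi (p n)`, an increasing union: `volume Λ' ≤ ofReal w`. `N w ≤ (L / W + 1) w`. -/
theorem corner1 {Λ : Set ℝ} {α L w W : ℝ} (hL : 0 ≤ L) (hw : 0 ≤ w)
    (hW : 0 < W) (hsub : Λ ⊆ Icc α (α + L))
    (h : ∀ p ∈ Λ, volume (Λ ∩ Ioc (p + w) (p + W)) = 0) :
    volume Λ ≤ ENNReal.ofReal ((L / W + 1) * w) := by
  set N : ℕ := ⌊L / W⌋₊ + 1 with hN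
  have hLW : 0 ≤ L / W := div_nonneg hL hW.le
  have hcov : Λ ⊆ ⋃ m ∈ Finset.range N, Λ ∩ Ico (α + m * W) (α + (m + 1) * W) := by
    intro x hx
    obtain ⟨h1, h2⟩ := hsub hx
    have hq : 0 ≤ (x - α) / W := div_nonneg (by linarith) hW.le
    simp only [mem_iUnion, Finset.mem_range, exists_prop]
    refine ⟨⌊(x - α) / W⌋₊, ?_, hx, ?_, ?_⟩
    · rw [hN, Nat.lt_succ_iff]
      apply Nat.floor_le_floor
      gcongr
      linarith
    · have := Nat.floor_le hq
      rw [le_div_iff₀ hW] at this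
      linarith
    · have := Nat.lt_floor_add_one ((x - α) / W)
      rw [div_lt_iff₀ hW] at this
      linarith
  have hpiece : ∀ m : ℕ, volume (Λ ∩ Ico (α + m * W) (α + (m + 1) * W)) ≤ ENNReal.ofReal w := by
    intro m
    apply k1_right
    · exact ⟨α + m * W, fun x hx => hx.2.1⟩
    · intro p hp
      have hs : Λ ∩ Ico (α + m * W) (α + (m + 1) * W) ∩ Ioi p ⊆ Ioc p (p + w) ∪ (Λ ∩ Ioc (p + w) (p + W)) := by
        rintro x ⟨⟨hx1, hx2⟩, hx3⟩
        rw [mem_Ioi] at hx3
        by_cases hc : x ≤ p + w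
        · left
          exact ⟨hx3, hc⟩
        · right
          refine ⟨hx1, not_le.1 hc, ?_⟩
          have := hp.2.1
          have := hx2.2
          linarith
      calc _ ≤ volume (Ioc p (p + w) ∪ (Λ ∩ Ioc (p + w) (p + W))) := measure_mono hs
        _ ≤ volume (Ioc p (p + w)) + volume (Λ ∩ Ioc (p + w) (p + W)) := measure_union_le _ _
        _ = ENNReal.ofReal w := by
            rw [h p hp.1, add_zero, Real.volume_Ioc, add_sub_cancel_left]
  calc volume Λ ≤ volume (⋃ m ∈ Finset.range N, Λ ∩ Ico (α + m * W) (α + (m + 1) * W)) := measure_mono hcov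
    _ ≤ ∑ m ∈ Finset.range N, volume (Λ ∩ Ico (α + m * W) (α + (m + 1) * W)) := measure_biUnion_finset_le _ _
    _ ≤ ∑ m ∈ Finset.range N, ENNReal.ofReal w := Finset.sum_le_sum fun m _ => hpiece m
    _ = ENNReal.ofReal (N * w) := by
        rw [Finset.sum_const, Finset.card_range, nsmul_eq_mul, ENNReal.ofReal_mul (by positivity),
          ENNReal.ofReal_natCast]
    _ ≤ _ := by
        apply ENNReal.ofReal_le_ofReal
        have h1 : (N : ℝ) ≤ L / W + 1 := by
          rw [hN]
          push_cast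
          have := Nat.floor_le hLW
          linarith
        exact mul_le_mul_of_nonneg_right h1 hw

/-- [BI-K1] Two-dimensional corner lemma.
PROOF. The shear `(a, s) ↦ (a + k s, s)` is a measure preserving measurable equivalence; `H' = {(a, s) | (a + k s, s) ∈ H}` has the same
measure. Its section over `a` is `Λ a = {s | (a + k s, s) ∈ H}`, empty unless `|a| ≤ Pa`, contained in `[-P - a, P - a]`; for `s ∈ Λ a`:
`Λ a ∩ Ioc (s + w) (s + W)` is the translate by `s` of a subset of `{τ ∈ Ioc w W | (p.1 + k τ, p.2 + τ) ∈ H}`, `p = (a + k s, s)`, so it is null.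
`corner1` with `L = 2 P`: `volume (Λ a) ≤ ofReal ((2 P / W + 1) w)`; integrate over `a ∈ [-Pa, Pa]` (`Measure.prod_apply`). -/
theorem corner2 {H : Set (ℝ × ℝ)} (hH : MeasurableSet H) {k Pa P w W : ℝ} (hPa : 0 ≤ Pa)
    (hP : 0 ≤ P) (hw : 0 ≤ w) (hW : 0 < W)
    (h1 : ∀ p ∈ H, |p.1 - k * p.2| ≤ Pa ∧ |p.1 - k * p.2 + p.2| ≤ P)
    (h2 : ∀ p ∈ H, volume {τ : ℝ | τ ∈ Ioc w W ∧ (p.1 + k * τ, p.2 + τ) ∈ H} = 0) :
    volume H ≤ ENNReal.ofReal (2 * Pa * ((2 * P / W + 1) * w)) := by
  set H' : Set (ℝ × ℝ) := {q | (q.1 + k * q.2, q.2) ∈ H} with hH'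
  have hH'm : MeasurableSet H' := by
    have : Measurable fun q : ℝ × ℝ => (q.1 + k * q.2, q.2) := by fun_prop
    exact this hH
  have hvol : volume H = volume H' := by
    rw [Measure.volume_eq_prod, Measure.prod_apply_symm hH, Measure.prod_apply_symm hH'm]
    refine lintegral_congr fun s => ?_
    have : (fun x : ℝ => (x, s)) ⁻¹' H' = (fun x : ℝ => x + k * s) ⁻¹' ((fun x : ℝ => (x, s)) ⁻¹' H) := rfl
    rw [this, measure_preimage_add_right]
  have hsec : ∀ a : ℝ, volume (Prod.mk a ⁻¹' H') ≤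
      (Icc (-Pa) Pa).indicator (fun _ => ENNReal.ofReal ((2 * P / W + 1) * w)) a := by
    intro a
    by_cases ha : a ∈ Icc (-Pa) Pa
    · rw [indicator_of_mem ha]
      apply corner1 (α := -P - a) (L := 2 * P) (by linarith) hw hW
      · intro s hs
        have h3 := (h1 _ hs).2
        simp only at h3
        rw [add_sub_cancel_right, abs_le] at h3
        constructor <;> linarith [h3.1, h3.2]
      · intro s hs
        have h3 := h2 _ hs
        simp only at h3
        have h4 : Prod.mk a ⁻¹' H' ∩ Ioc (s + w) (s + W) =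
            (fun x : ℝ => x + (-s)) ⁻¹' {τ : ℝ | τ ∈ Ioc w W ∧ (a + k * s + k * τ, s + τ) ∈ H} := by
          ext x
          simp only [mem_inter_iff, mem_preimage, mem_Ioc, mem_ofPred_eq, hH']
          have e1 : a + k * s + k * (x + -s) = a + k * x := by ring
          have e2 : s + (x + -s) = x := by ring
          rw [e1, e2]
          constructor
          · rintro ⟨h5, h6, h7⟩
            exact ⟨⟨by linarith, by linarith⟩, h5⟩
          · rintro ⟨⟨h6, h7⟩, h5⟩
            exact ⟨h5, by linarith, by linarith⟩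
        rw [h4, measure_preimage_add_right]
        exact h3
    · rw [indicator_of_notMem ha]
      have : Prod.mk a ⁻¹' H' = ∅ := by
        rw [eq_empty_iff_forall_notMem]
        intro s hs
        have h3 := (h1 _ hs).1
        simp only at h3
        rw [add_sub_cancel_right, abs_le] at h3
        exact ha ⟨h3.1, h3.2⟩
      rw [this, measure_empty]
  rw [hvol, Measure.volume_eq_prod, Measure.prod_apply hH'm]
  refine (lintegral_mono hsec).trans (le_of_eq ?_)
  rw [lintegral_indicator measurableSet_Icc, setLIntegral_const, Real.volume_Icc, mul_comm,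
    ← ENNReal.ofReal_mul (by linarith)]
  congr 1
  ring

end Pool.Agent.BI
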