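import Pool.Agent.BI.K1

set_option autoImplicit false

open MeasureTheory Set
open scoped ENNReal

namespace Pool.Agent.BI

theorem k2_swap : MeasurePreserving (fun q : (ℝ × ℝ) × (ℝ × ℝ) =>
    (((q.1.2, q.2.1), (q.1.1, q.2.2)) : (ℝ × ℝ) × (ℝ × ℝ))) volume volume := by
  have h1 : MeasurePreserving (MeasurableEquiv.prodAssoc : (ℝ × ℝ) × (ℝ × ℝ) ≃ᵐ ℝ × ℝ × ℝ × ℝ) :=
    volume_preserving_prodAssoc
  have h2 : MeasurePreserving (Prod.map (id : ℝ → ℝ)
      (MeasurableEquiv.prodAssoc.symm : ℝ × ℝ × ℝ ≃ᵐ (ℝ × ℝ) × ℝ)) :=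
    (MeasurePreserving.id volume).prod
      (MeasurePreserving.symm _ (volume_preserving_prodAssoc (α₁ := ℝ) (β₁ := ℝ) (γ₁ := ℝ)))
  have h3 : MeasurePreserving
      (MeasurableEquiv.prodAssoc.symm : ℝ × (ℝ × ℝ) × ℝ ≃ᵐ (ℝ × (ℝ × ℝ)) × ℝ) :=
    MeasurePreserving.symm _ (volume_preserving_prodAssoc (α₁ := ℝ) (β₁ := ℝ × ℝ) (γ₁ := ℝ))
  have h4 : MeasurePreserving (Prod.map (Prod.swap : ℝ × (ℝ × ℝ) → (ℝ × ℝ) × ℝ) (id : ℝ → ℝ)) :=
    (Measure.measurePreserving_swap (μ := (volume : Measure ℝ))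
      (ν := (volume : Measure (ℝ × ℝ)))).prod (MeasurePreserving.id volume)
  have h5 : MeasurePreserving
      (MeasurableEquiv.prodAssoc : ((ℝ × ℝ) × ℝ) × ℝ ≃ᵐ (ℝ × ℝ) × ℝ × ℝ) :=
    volume_preserving_prodAssoc
  exact h5.comp (h4.comp (h3.comp (h2.comp h1)))

theorem k2_tail (a c : ℝ) (ha : 0 < a) (hc : 0 ≤ c) :
    ∫⁻ v in Ici a, ENNReal.ofReal (c / v ^ 2) = ENNReal.ofReal (c / a) := by
  rw [← setLIntegral_congr Ioi_ae_eq_Ici]
  have h1 : ∫⁻ v in Ioi a, ENNReal.ofReal (c / v ^ 2) =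
      ∫⁻ v in Ioi a, ENNReal.ofReal (c * v ^ (-2 : ℝ)) := by
    apply setLIntegral_congr_fun measurableSet_Ioi
    intro v hv
    have hv0 : 0 < v := ha.trans hv
    simp only
    rw [Real.rpow_neg hv0.le, div_eq_mul_inv]
    norm_num
  rw [h1, ← ofReal_integral_eq_lintegral_ofReal]
  · rw [integral_const_mul, integral_Ioi_rpow_of_lt (by norm_num) ha]
    congr 1
    rw [show (-2 : ℝ) + 1 = -1 by norm_num, Real.rpow_neg_one]
    field_simp
  · exact (integrableOn_Ioi_rpow_of_lt (by norm_num) ha).const_mul c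
  · filter_upwards [ae_restrict_mem measurableSet_Ioi] with v hv
    have hv0 : 0 < v := ha.trans hv
    positivity

/-- [BI-K2] Four-dimensional corner lemma.
PROOF. Tonelli: `volume E = ∫⁻ z₁, ∫⁻ v₁, volume {(z₂, v₂) | ((z₁, z₂), (v₁, v₂)) ∈ E}` (Fubini in the order `z₁, v₁, (z₂, v₂)`; for
example by `Measure.prod_apply` and the measurable equivalence exchanging the two middle coordinates, or by writing the
four-fold `lintegral` of the indicator and swapping). For fixed `z₁, v₁` apply `corner2` with `k = (z₁ - t₀ + v₁) / v₁`,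
`w = 10 ^ 6 ρ³ κ / v₁⁴`, `W = κ / (2 ρ)`, `P = 2 * 10 ^ 19 κ / ρ`, `Pa = P + 2 * 10 ^ 18 κ v₁ / ρ²`. The section is empty unless
`9/10 ρ ≤ v₁` and `t₀ - v₁ ≤ z₁ ≤ t₀`. `2 P / W + 1 ≤ 9 * 10 ^ 19`; `Pa ≤ 2.5 * 10 ^ 19 κ v₁ / ρ²` (`ρ ≤ 10/9 v₁`). So the section has measure
`≤ 2 * 2.5 * 10 ^ 19 * 9 * 10 ^ 19 * 10 ^ 6 κ² ρ / v₁³ ≤ 5 * 10 ^ 45 κ² ρ / v₁³`; the integral over `z₁` multiplies by `v₁`, and
`∫_{9/10 ρ}^∞ ρ / v₁² = 10 / 9`. -/
theorem corner4 {E : Set ((ℝ × ℝ) × (ℝ × ℝ))} (hE : MeasurableSet E) {κ ρ t₀ : ℝ} (hκ : 0 < κ)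
    (hρ : 0 < ρ)
    (h1 : ∀ p ∈ E, 9 / 10 * ρ ≤ p.2.1 ∧ t₀ - p.2.1 ≤ p.1.1 ∧ p.1.1 ≤ t₀ ∧
      |p.1.2 + (t₀ - p.1.1) * p.2.2 / p.2.1| ≤ 2 * 10 ^ 19 * κ / ρ ∧
      |p.2.2| ≤ 2 * 10 ^ 18 * κ / ρ ^ 2 * p.2.1)
    (h2 : ∀ p ∈ E, volume {τ : ℝ | τ ∈ Ioc (10 ^ 6 * ρ ^ 3 * κ / p.2.1 ^ 4) (κ / (2 * ρ)) ∧
      ((p.1.1, p.1.2 + (p.1.1 - t₀ + p.2.1) / p.2.1 * τ), (p.2.1, p.2.2 + τ)) ∈ E} = 0) :
    volume E ≤ ENNReal.ofReal (10 ^ 46 * κ ^ 2) := by
  classical
  set φ : (ℝ × ℝ) × (ℝ × ℝ) → (ℝ × ℝ) × (ℝ × ℝ) := fun q => ((q.1.2, q.2.1), (q.1.1, q.2.2))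
    with hφdef
  have hφ : MeasurePreserving φ volume volume := k2_swap
  set c : ℝ := 5 * 10 ^ 45 * κ ^ 2 * ρ with hc
  have hc0 : 0 < c := by positivity
  set Rg : Set (ℝ × ℝ) := {q | 9 / 10 * ρ ≤ q.1 ∧ t₀ - q.1 ≤ q.2 ∧ q.2 ≤ t₀} with hRg
  have hRgm : MeasurableSet Rg := by
    apply MeasurableSet.inter (measurableSet_le measurable_const measurable_fst)
    exact MeasurableSet.inter (measurableSet_le (measurable_const.sub measurable_fst)
      measurable_snd) (measurableSet_le measurable_snd measurable_const)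
  set G : ℝ × ℝ → ℝ≥0∞ := Rg.indicator (fun q => ENNReal.ofReal (c / q.1 ^ 3)) with hG
  have hGm : Measurable G := by
    apply Measurable.indicator _ hRgm
    fun_prop
  have hEm : MeasurableSet (φ ⁻¹' E) := hφ.measurable hE
  -- the sections
  have hsec : ∀ q : ℝ × ℝ, volume (Prod.mk q ⁻¹' (φ ⁻¹' E)) ≤ G q := by
    rintro ⟨v, z⟩
    by_cases hq : (v, z) ∈ Rg
    · rw [hG, indicator_of_mem hq]
      obtain ⟨hv, hz1, hz2⟩ := hq
      simp only at hv hz1 hz2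
      have hv0 : 0 < v := by nlinarith
      have hHm : MeasurableSet (Prod.mk (v, z) ⁻¹' (φ ⁻¹' E)) := measurable_prodMk_left hEm
      have key := corner2 (H := Prod.mk (v, z) ⁻¹' (φ ⁻¹' E)) hHm (k := (z - t₀ + v) / v)
        (Pa := 2 * 10 ^ 19 * κ / ρ + 2 * 10 ^ 18 * κ / ρ ^ 2 * v)
        (P := 2 * 10 ^ 19 * κ / ρ) (w := 10 ^ 6 * ρ ^ 3 * κ / v ^ 4) (W := κ / (2 * ρ))
        (by positivity) (by positivity) (by positivity) (by positivity) ?_ ?_
      · refine key.trans (ENNReal.ofReal_le_ofReal ?_)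
        have e1 : 2 * (2 * 10 ^ 19 * κ / ρ) / (κ / (2 * ρ)) + 1 = 8 * 10 ^ 19 + 1 := by
          field_simp
          ring
        rw [e1]
        have e2 : 2 * 10 ^ 19 * κ / ρ + 2 * 10 ^ 18 * κ / ρ ^ 2 * v ≤
            25 * 10 ^ 18 * κ * v / ρ ^ 2 := by
          have : 2 * 10 ^ 19 * κ / ρ = 2 * 10 ^ 19 * κ * ρ / ρ ^ 2 := by field_simp
          rw [this, div_mul_eq_mul_div, ← add_div]
          apply div_le_div_of_nonneg_right _ (by positivity)
          nlinarith [mul_le_mul_of_nonneg_left hv hκ.le, mul_pos hκ hv0]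
        calc 2 * (2 * 10 ^ 19 * κ / ρ + 2 * 10 ^ 18 * κ / ρ ^ 2 * v) *
              ((8 * 10 ^ 19 + 1) * (10 ^ 6 * ρ ^ 3 * κ / v ^ 4))
            ≤ 2 * (25 * 10 ^ 18 * κ * v / ρ ^ 2) *
              ((9 * 10 ^ 19) * (10 ^ 6 * ρ ^ 3 * κ / v ^ 4)) := by
              apply mul_le_mul
              · linarith
              · apply mul_le_mul_of_nonneg_right _ (by positivity)
                norm_num
              · positivity
              · positivity
          _ = 45 * 10 ^ 44 * κ ^ 2 * ρ / v ^ 3 := by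
              field_simp
              ring
          _ ≤ c / v ^ 3 := by
              apply div_le_div_of_nonneg_right _ (by positivity)
              rw [hc]
              have : 0 < κ ^ 2 * ρ := by positivity
              nlinarith
      · rintro ⟨z2, v2⟩ hp
        have hp' : ((z, z2), (v, v2)) ∈ E := hp
        obtain ⟨-, -, -, g4, g5⟩ := h1 _ hp'
        simp only at g4 g5 ⊢
        have e3 : z2 - (z - t₀ + v) / v * v2 + v2 = z2 + (t₀ - z) * v2 / v := by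
          field_simp
          ring
        refine ⟨?_, ?_⟩
        · have e4 : z2 - (z - t₀ + v) / v * v2 = (z2 + (t₀ - z) * v2 / v) - v2 := by
            rw [← e3]; ring
          rw [e4]
          exact (abs_sub _ _).trans (add_le_add g4 g5)
        · rw [e3]; exact g4
      · rintro ⟨z2, v2⟩ hp
        have hp' : ((z, z2), (v, v2)) ∈ E := hp
        exact h2 _ hp'
    · have : Prod.mk (v, z) ⁻¹' (φ ⁻¹' E) = ∅ := by
        ext ⟨z2, v2⟩
        simp only [mem_preimage, mem_empty_iff_false, iff_false]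
        intro hp
        have hp' : ((z, z2), (v, v2)) ∈ E := hp
        obtain ⟨g1, g2, g3, -, -⟩ := h1 _ hp'
        exact hq ⟨g1, g2, g3⟩
      rw [this, measure_empty]
      exact zero_le
  -- the integral
  rw [← hφ.measure_preimage hE.nullMeasurableSet]
  have e5 : volume (φ ⁻¹' E) = ∫⁻ q : ℝ × ℝ, volume (Prod.mk q ⁻¹' (φ ⁻¹' E)) :=
    Measure.prod_apply hEm
  rw [e5]
  refine (lintegral_mono hsec).trans ?_
  have e6 : ∫⁻ q : ℝ × ℝ, G q = ∫⁻ v : ℝ, ∫⁻ z : ℝ, G (v, z) :=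
    lintegral_prod _ hGm.aemeasurable
  rw [e6]
  have e7 : ∀ v : ℝ, ∫⁻ z : ℝ, G (v, z) ≤
      (Ici (9 / 10 * ρ)).indicator (fun v => ENNReal.ofReal (c / v ^ 2)) v := by
    intro v
    by_cases hv : 9 / 10 * ρ ≤ v
    · have hv0 : 0 < v := by nlinarith
      rw [indicator_of_mem (show v ∈ Ici (9 / 10 * ρ) from hv)]
      have e8 : ∀ z : ℝ, G (v, z) ≤
          (Icc (t₀ - v) t₀).indicator (fun _ => ENNReal.ofReal (c / v ^ 3)) z := by
        intro z
        by_cases hz : z ∈ Icc (t₀ - v) t₀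
        · rw [indicator_of_mem hz, hG, indicator_of_mem]
          exact ⟨hv, hz.1, hz.2⟩
        · rw [hG, indicator_of_notMem]
          · exact zero_le
          · rintro ⟨-, g2, g3⟩
            exact hz ⟨g2, g3⟩
      refine (lintegral_mono e8).trans ?_
      rw [lintegral_indicator measurableSet_Icc, setLIntegral_const, Real.volume_Icc,
        ← ENNReal.ofReal_mul (by positivity)]
      apply ENNReal.ofReal_le_ofReal
      apply le_of_eq
      field_simp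
      ring
    · have e9 : ∀ z : ℝ, G (v, z) = 0 := by
        intro z
        rw [hG, indicator_of_notMem]
        rintro ⟨g1, -, -⟩
        exact hv g1
      simp [e9]
  refine (lintegral_mono e7).trans ?_
  rw [lintegral_indicator measurableSet_Ici, k2_tail _ _ (by positivity) hc0.le]
  apply ENNReal.ofReal_le_ofReal
  rw [div_le_iff₀ (by positivity), hc]
  have : 0 < κ ^ 2 * ρ := by positivity
  nlinarith

end Pool.Agent.BI
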