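import Pool.Agent.BI.A1
import Pool.Agent.BI.J2
import Pool.Agent.BI.A5

set_option autoImplicit false

open MeasureTheory Set
open scoped ENNReal

namespace Pool.Agent.BI

theorem k3_mem_Ch {z v w : ℝ × ℝ} {s : ℝ} (hs : |s| ≤ 1) (h1 : w.1 = z.1 + s * v.1)
    (h2 : w.2 = z.2 + s * v.2) : w ∈ Ch z v := by
  obtain ⟨hs1, hs2⟩ := abs_le.mp hs
  refine ⟨(1 - s) / 2, (1 + s) / 2, by linarith, by linarith, by ring, ?_⟩
  ext
  · simp only [Prod.fst_add, Prod.smul_fst, Prod.fst_sub, smul_eq_mul]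
    rw [h1]; ring
  · simp only [Prod.snd_add, Prod.smul_snd, Prod.snd_sub, smul_eq_mul]
    rw [h2]; ring

theorem k3_seg_Ch {z v a b : ℝ × ℝ} (ha : a ∈ Ch z v) (hb : b ∈ Ch z v) :
    segment ℝ a b ⊆ Ch z v := (convex_segment _ _).segment_subset ha hb

/-- the geometric part: the long thin rectangle over the middle half of the base of the triangle -/
theorem k3_rect {S : Set (ℝ × ℝ)} {u a : ℝ × ℝ} {l τ h' : ℝ} (hu : UV u) (hu1 : 99 / 100 ≤ u.1)
    (hl : 0 < l) (hτ : 0 < τ) (hτl : τ ≤ l / 100) (hh : h' ≤ τ / 10)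
    (htri : convexHull ℝ {a, fr a u (l, 0), fr a u (l + τ * u.2, τ * u.1)} ⊆ S) :
    RectIn S ⟨fr a u (l / 2, h'), u, l / 4, h'⟩ := by
  have huv : u.1 ^ 2 + u.2 ^ 2 = 1 := hu
  have hu1le : u.1 ≤ 1 := by nlinarith [sq_nonneg u.2]
  have hu2 : |u.2| ≤ 1 := by
    rw [← sq_le_one_iff_abs_le_one]
    nlinarith [sq_nonneg u.1]
  intro x y hx hy
  have hx' := abs_le.mp hx
  have hy' := abs_le.mp hy
  simp only at hx' hy'
  have e1 : fr (fr a u (l / 2, h')) u (x, y) = fr a u (l / 2 + x, 0 + (h' + y)) := by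
    simp only [fr]
    ext
    · show a.1 + l / 2 * u.1 - h' * u.2 + x * u.1 - y * u.2 =
        a.1 + (l / 2 + x) * u.1 - (0 + (h' + y)) * u.2
      ring
    · show a.2 + l / 2 * u.2 + h' * u.1 + x * u.2 + y * u.1 =
        a.2 + (l / 2 + x) * u.2 + (0 + (h' + y)) * u.1
      ring
  show fr (fr a u (l / 2, h')) u (x, y) ∈ S
  rw [e1]
  apply htri
  have hτu : |τ * u.2| ≤ l / 100 := by
    rw [abs_mul, abs_of_pos hτ]
    calc τ * |u.2| ≤ τ * 1 := mul_le_mul_of_nonneg_left hu2 hτ.le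
      _ ≤ l / 100 := by linarith
  have hτu' := abs_le.mp hτu
  have hmem : ((l / 2 + x, 0 + (h' + y)) : ℝ × ℝ) ∈
      convexHull ℝ ({((0 : ℝ), (0 : ℝ)), (l, 0), (l + τ * u.2, 0 + τ * u.1)} : Set (ℝ × ℝ)) := by
    apply rect_in_tri (W := 11 / 10 * l) hl
    · exact mul_pos hτ (by linarith)
    · rw [sub_zero, abs_le]
      constructor <;> linarith
    · rw [add_sub_cancel_left, abs_le]
      constructor <;> linarith
    · linarith
    · linarith
    · linarith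
    · have h1 : (h' + y) * (4 * (11 / 10 * l)) ≤ (τ / 5) * (4 * (11 / 10 * l)) :=
        mul_le_mul_of_nonneg_right (by linarith) (by positivity)
      have h2 : (99 / 100) * (τ * l) ≤ u.1 * (τ * l) :=
        mul_le_mul_of_nonneg_right hu1 (by positivity)
      have h3 : 0 < τ * l := mul_pos hτ hl
      calc (h' + y) * (4 * (11 / 10 * l)) ≤ (τ / 5) * (4 * (11 / 10 * l)) := h1
        _ = 22 / 25 * (τ * l) := by ring
        _ ≤ 99 / 100 * (τ * l) := by linarith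
        _ ≤ u.1 * (τ * l) := h2
        _ = τ * u.1 * (l - 0) := by ring
  have hsub : convexHull ℝ ({((0 : ℝ), (0 : ℝ)), (l, 0), (l + τ * u.2, 0 + τ * u.1)} : Set (ℝ × ℝ)) ⊆
      fr a u ⁻¹' (convexHull ℝ {a, fr a u (l, 0), fr a u (l + τ * u.2, τ * u.1)}) := by
    apply convexHull_min
    · intro p hp
      rw [mem_preimage]
      apply subset_convexHull
      simp only [mem_insert_iff, mem_singleton_iff] at hp ⊢
      rcases hp with rfl | rfl | rfl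
      · left
        simp [fr]
      · right; left; rfl
      · right; right
        rw [zero_add]
    · exact convex_preimage_fr (convex_convexHull ℝ _)
  exact hsub hmem

/-- [BI-K3] The closing property.
PROOF. `v = l u`, `l > 0`, `u = R.u`, `u.1 ≥ 0.99`, `v.1 = l u.1 > 0`, `z = fr R.c u (x, -R.h)`, `|x| + R.r ≤ l`. Suppose the tilted chord
is in `S`. `k = (z.1 - t₀ + v.1) / v.1`. Points `a = (t₀ - v.1, a₂)`, `a₂ = z.2 - k v.2`; `b = (t₀, a₂ + v.2)`; `c = (t₀, a₂ + v.2 + τ)`.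
`a, b` are on the chord `(z, v)` (`z.1 - v.1 ≤ t₀ - v.1`, `t₀ ≤ z.1 + v.1`), `a, c` on the tilted one, so `[a, b], [a, c] ⊆ S`.
`[b, c]` is in the rectangle of `R`: `b = fr R.c u (x', -R.h)` with `x' = (t₀ - R.c.1 - R.h u.2) / u.1`, `|x'| ≤ 0.3 ρ`, and
`b + (0, s) = fr R.c u (x' + s u.2, -R.h + s u.1)` with `0 ≤ s ≤ τ ≤ κ / (2 ρ) ≤ R.h` (`κ ≤ R.r R.h ≤ 2 ρ R.h`), so
`|x' + s u.2| ≤ 0.3 ρ + R.h ≤ R.r` and `|-R.h + s u.1| ≤ R.h`. By `tri_subset` the triangle `a, b, c` is in `S`. In the frame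
`(a, u)`: `a = (0, 0)`, `b = (l, 0)`, `c = (l + τ u.2, τ u.1)`. `rect_in_tri` (base `[0, l]`, `H = τ u.1`, `W = 11/10 l`): the rectangle over
`[l/4, 3l/4]` of height `2 h'` is in the triangle if `2 h' * 4 * (11/10) l ≤ τ u.1 l`: `h' ≤ τ / 10` suffices. Put `r' = l / 4`,
`h' = min (τ / 10) (r' / 10 ^ 20)`. This rectangle is a room `R'` (centre `fr a u (l/2, h')`) with `OnSide z v R' 1` (its lower side is
on the chord: `[a, b] ⊆ Ch z v`), admissible; `NearMax`: `r'^4 h' ≤ 2 R.r^4 R.h < 32 ρ³ κ` (`R.r < 2 ρ`, `R.r R.h < 2 κ`).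
If `h' = τ / 10`: `τ ≤ 320 * 256 ρ³ κ / l⁴ ≤ 10 ^ 6 ρ³ κ / v.1⁴`, contradicting `hτ0` (`l ≥ v.1`). If `h' = r' / 10 ^ 20`:
`l⁵ ≤ 32 * 1024 * 10 ^ 20 ρ³ κ` and `κ ≤ R.r R.h ≤ R.r² / 10 ^ 20 ≤ 4 ρ² / 10 ^ 20`, so `l⁵ ≤ 131072 ρ⁵`, `l ≤ 11 ρ`, `v.1 ≤ 11 ρ` and
`10 ^ 6 ρ³ κ / v.1⁴ ≥ 10 ^ 6 κ / (14641 ρ) > κ / (2 ρ) ≥ τ`, contradicting `hτ0`. -/
theorem closing {S : Set (ℝ × ℝ)} (hS : TriConn S) {z v : ℝ × ℝ} {R : Room} {κ ρ t₀ τ : ℝ}
    (hκ : 0 < κ) (hρ : 0 < ρ) (hM : NearMax S z v R) (h1 : OnSide z v R 1) (hu1 : 0 < R.u.1)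
    (hu2 : |R.u.2| ≤ 1 / 10) (hr : ρ ≤ R.r) (hr' : R.r < 2 * ρ) (hlo : κ ≤ R.r * R.h)
    (hhi : R.r * R.h < 2 * κ) (hc : |R.c.1 - t₀| ≤ ρ / 4) (hz : Ch z v ⊆ S) (hz1 : z.1 ≤ t₀)
    (hz2 : t₀ ≤ z.1 + v.1) (hτ0 : 10 ^ 6 * ρ ^ 3 * κ / v.1 ^ 4 < τ) (hτ1 : τ ≤ κ / (2 * ρ)) :
    ¬ (Ch (z.1, z.2 + (z.1 - t₀ + v.1) / v.1 * τ) (v.1, v.2 + τ) ⊆ S) := by
  intro hT
  obtain ⟨⟨huv', hh0, hthin, hrect, _⟩, hmax⟩ := hM
  obtain ⟨x, l, hxl, hv, hzz⟩ := h1
  have huv : R.u.1 ^ 2 + R.u.2 ^ 2 = 1 := huv'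
  have hu2' := abs_le.mp hu2
  have hu1le : R.u.1 ≤ 1 := by nlinarith [sq_nonneg R.u.2]
  have hu1ge : 99 / 100 ≤ R.u.1 := by
    have h2 : R.u.2 ^ 2 ≤ 1 / 100 := by nlinarith [hu2'.1, hu2'.2]
    nlinarith
  have hl : 0 < l := by
    have := abs_nonneg x
    linarith
  have hv1 : v.1 = l * R.u.1 := by rw [hv]
  have hv2 : v.2 = l * R.u.2 := by rw [hv]
  have hz1' : z.1 = R.c.1 + x * R.u.1 + R.h * R.u.2 := by
    rw [hzz]; simp only [fr]; ring
  have hz2' : z.2 = R.c.2 + x * R.u.2 - R.h * R.u.1 := by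
    rw [hzz]; simp only [fr]; ring
  have hv1pos : 0 < v.1 := by rw [hv1]; exact mul_pos hl hu1
  have hτpos : 0 < τ := lt_of_le_of_lt (by positivity) hτ0
  -- sizes
  have hκR : κ ≤ 2 * ρ * R.h := by
    calc κ ≤ R.r * R.h := hlo
      _ ≤ 2 * ρ * R.h := mul_le_mul_of_nonneg_right hr'.le hh0.le
  have hτh : τ ≤ R.h := by
    refine hτ1.trans ?_
    rw [div_le_iff₀ (by positivity)]
    linarith
  have hRr : 0 < R.r := by linarith
  have hhr : R.h ≤ 1 / 10 ^ 20 * R.r := by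
    calc R.h ≤ R.r / 10 ^ 20 := hthin
      _ = 1 / 10 ^ 20 * R.r := by ring
  have hhr' : R.h ≤ R.r / 1000 := by
    refine hhr.trans ?_
    have : (1 : ℝ) / 10 ^ 20 ≤ 1 / 1000 := by norm_num
    calc 1 / 10 ^ 20 * R.r ≤ 1 / 1000 * R.r := mul_le_mul_of_nonneg_right this hRr.le
      _ = R.r / 1000 := by ring
  have hlr : R.r ≤ l := by
    have := abs_nonneg x
    linarith
  set k : ℝ := (z.1 - t₀ + v.1) / v.1 with hk
  have hkv : k * v.1 = z.1 - t₀ + v.1 := by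
    rw [hk]; field_simp
  have hk0 : 0 ≤ k := div_nonneg (by linarith) hv1pos.le
  have hk1 : k ≤ 1 := by
    rw [hk, div_le_one hv1pos]
    linarith
  set a : ℝ × ℝ := (t₀ - v.1, z.2 - k * v.2) with ha
  set b : ℝ × ℝ := (t₀, z.2 - k * v.2 + v.2) with hb
  set c : ℝ × ℝ := (t₀, z.2 - k * v.2 + v.2 + τ) with hcdef
  -- points on the chords
  have haz : a ∈ Ch z v := by
    apply k3_mem_Ch (s := -k)
    · rw [abs_neg, abs_of_nonneg hk0]; exact hk1
    · show t₀ - v.1 = z.1 + -k * v.1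
      linear_combination hkv
    · show z.2 - k * v.2 = z.2 + -k * v.2
      ring
  have hbz : b ∈ Ch z v := by
    apply k3_mem_Ch (s := 1 - k)
    · rw [abs_of_nonneg (by linarith)]; linarith
    · show t₀ = z.1 + (1 - k) * v.1
      linear_combination hkv
    · show z.2 - k * v.2 + v.2 = z.2 + (1 - k) * v.2
      ring
  have haT : a ∈ Ch (z.1, z.2 + k * τ) (v.1, v.2 + τ) := by
    apply k3_mem_Ch (s := -k)
    · rw [abs_neg, abs_of_nonneg hk0]; exact hk1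
    · show t₀ - v.1 = z.1 + -k * v.1
      linear_combination hkv
    · show z.2 - k * v.2 = z.2 + k * τ + -k * (v.2 + τ)
      ring
  have hcT : c ∈ Ch (z.1, z.2 + k * τ) (v.1, v.2 + τ) := by
    apply k3_mem_Ch (s := 1 - k)
    · rw [abs_of_nonneg (by linarith)]; linarith
    · show t₀ = z.1 + (1 - k) * v.1
      linear_combination hkv
    · show z.2 - k * v.2 + v.2 + τ = z.2 + k * τ + (1 - k) * (v.2 + τ)
      ring
  have hab : segment ℝ a b ⊆ S := (k3_seg_Ch haz hbz).trans hz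
  have hca : segment ℝ c a ⊆ S := (k3_seg_Ch hcT haT).trans hT
  -- the vertical side
  set x' : ℝ := x + (1 - k) * l with hx'
  have hx'u : x' * R.u.1 = t₀ - R.c.1 - R.h * R.u.2 := by
    rw [hx']
    have h3 : (1 - k) * l * R.u.1 = t₀ - z.1 := by
      have : (1 - k) * l * R.u.1 = v.1 - k * v.1 := by rw [hv1]; ring
      rw [this, hkv]; ring
    linear_combination h3 - hz1'
  have hc' := abs_le.mp hc
  have hx'abs : |x'| ≤ 3 / 10 * ρ := by
    have h3 : |x'| * R.u.1 ≤ 26 / 100 * ρ := by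
      rw [← abs_of_pos hu1, ← abs_mul, hx'u, abs_le]
      have h4 : |R.h * R.u.2| ≤ ρ / 100 := by
        rw [abs_mul, abs_of_pos hh0]
        calc R.h * |R.u.2| ≤ R.h * (1 / 10) := mul_le_mul_of_nonneg_left hu2 hh0.le
          _ ≤ ρ / 100 := by linarith
      have h4' := abs_le.mp h4
      constructor <;> linarith [hc'.1, hc'.2, h4'.1, h4'.2]
    have h5 : |x'| * (99 / 100) ≤ |x'| * R.u.1 := mul_le_mul_of_nonneg_left hu1ge (abs_nonneg _)
    linarith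
  have hx'b := abs_le.mp hx'abs
  have hbc : segment ℝ b c ⊆ S := by
    rintro w ⟨α, β, hα, hβ, hαβ, rfl⟩
    have e1 : α • b + β • c = fr R.c R.u (x' + β * τ * R.u.2, -R.h + β * τ * R.u.1) := by
      have hα' : α = 1 - β := by linarith
      ext
      · simp only [Prod.fst_add, Prod.smul_fst, smul_eq_mul, fr, hb, hcdef]
        rw [hα']
        linear_combination (-1 : ℝ) * hx'u
      · simp only [Prod.snd_add, Prod.smul_snd, smul_eq_mul, fr, hb, hcdef]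
        rw [hα', hz2', hv2, hx']
        linear_combination (-(β * τ)) * huv
    rw [e1]
    have hβτ : 0 ≤ β * τ := mul_nonneg hβ hτpos.le
    have hβτ' : β * τ ≤ R.h := by
      have : β * τ ≤ 1 * τ := mul_le_mul_of_nonneg_right (by linarith) hτpos.le
      linarith
    apply hrect
    · rw [abs_le]
      have h4 : |β * τ * R.u.2| ≤ R.h := by
        rw [abs_mul, abs_of_nonneg hβτ]
        calc β * τ * |R.u.2| ≤ β * τ * 1 :=
              mul_le_mul_of_nonneg_left (by linarith [hu2]) hβτ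
          _ ≤ R.h := by linarith
      have h4' := abs_le.mp h4
      constructor <;> linarith [h4'.1, h4'.2]
    · rw [abs_le]
      have h5 : 0 ≤ β * τ * R.u.1 := mul_nonneg hβτ hu1.le
      have h6 : β * τ * R.u.1 ≤ β * τ * 1 := mul_le_mul_of_nonneg_left hu1le hβτ
      constructor <;> linarith
  have htri := tri_subset hS hab hbc hca
  have hbf : b = fr a R.u (l, 0) := by
    ext
    · simp only [fr, ha, hb]
      rw [hv1]; ring
    · simp only [fr, ha, hb]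
      rw [hv2]; ring
  have hcf : c = fr a R.u (l + τ * R.u.2, τ * R.u.1) := by
    ext
    · simp only [fr, ha, hcdef]
      rw [hv1]; ring
    · simp only [fr, ha, hcdef]
      rw [hv2]
      linear_combination (-τ) * huv
  rw [hbf, hcf] at htri
  set h' : ℝ := min (τ / 10) (l / 4 / 10 ^ 20) with hh'
  have hh'pos : 0 < h' := lt_min (by positivity) (by positivity)
  have hrectR := k3_rect (S := S) (h' := h') huv' hu1ge hl hτpos (by linarith) (min_le_left _ _) htri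
  have hadm : Adm S z v ⟨fr a R.u (l / 2, h'), R.u, l / 4, h'⟩ := by
    refine ⟨huv', hh'pos, min_le_right _ _, hrectR, Or.inl ?_⟩
    refine ⟨(k - 1 / 2) * l, l, ?_, hv, ?_⟩
    · show |(k - 1 / 2) * l| + l / 4 ≤ l
      rw [abs_mul, abs_of_pos hl]
      have : |k - 1 / 2| ≤ 1 / 2 := by
        rw [abs_le]; constructor <;> linarith
      have h3 : |k - 1 / 2| * l ≤ 1 / 2 * l := mul_le_mul_of_nonneg_right this hl.le
      linarith
    · ext
      · simp only [fr, ha]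
        have : k * (l * R.u.1) = z.1 - t₀ + l * R.u.1 := by rw [← hv1]; exact hkv
        rw [hv1]
        linear_combination (-1 : ℝ) * this
      · simp only [fr, ha]
        rw [hv2]
        ring
  have hM2 := hmax _ hadm
  simp only at hM2
  have hbound : R.r ^ 4 * R.h < 16 * ρ ^ 3 * κ := by
    have h3 : R.r ^ 3 ≤ (2 * ρ) ^ 3 := pow_le_pow_left₀ hRr.le hr'.le 3
    calc R.r ^ 4 * R.h = R.r ^ 3 * (R.r * R.h) := by ring
      _ ≤ (2 * ρ) ^ 3 * (R.r * R.h) := mul_le_mul_of_nonneg_right h3 (by positivity)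
      _ < (2 * ρ) ^ 3 * (2 * κ) := mul_lt_mul_of_pos_left hhi (by positivity)
      _ = 16 * ρ ^ 3 * κ := by ring
  have hM3 : (l / 4) ^ 4 * h' < 32 * ρ ^ 3 * κ := by linarith
  have hτv : 10 ^ 6 * ρ ^ 3 * κ < τ * v.1 ^ 4 := by
    rwa [div_lt_iff₀ (by positivity)] at hτ0
  have hvl : v.1 ≤ l := by
    rw [hv1]
    calc l * R.u.1 ≤ l * 1 := mul_le_mul_of_nonneg_left hu1le hl.le
      _ = l := mul_one l
  have hvl4 : v.1 ^ 4 ≤ l ^ 4 := pow_le_pow_left₀ hv1pos.le hvl 4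
  have hτl4 : 10 ^ 6 * ρ ^ 3 * κ < τ * l ^ 4 :=
    hτv.trans_le (mul_le_mul_of_nonneg_left hvl4 hτpos.le)
  have hρκ : 0 < ρ ^ 3 * κ := by positivity
  rcases min_choice (τ / 10) (l / 4 / 10 ^ 20) with hmin | hmin
  · rw [hh', hmin] at hM3
    have h3 : (l / 4) ^ 4 * (τ / 10) = τ * l ^ 4 / 2560 := by ring
    rw [h3] at hM3
    linarith
  · rw [hh', hmin] at hM3
    have h3 : (l / 4) ^ 4 * (l / 4 / 10 ^ 20) = l ^ 5 / (1024 * 10 ^ 20) := by ring
    rw [h3, div_lt_iff₀ (by positivity)] at hM3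
    have h4 : κ ≤ 4 * ρ ^ 2 / 10 ^ 20 := by
      calc κ ≤ R.r * R.h := hlo
        _ ≤ R.r * (1 / 10 ^ 20 * R.r) := mul_le_mul_of_nonneg_left hhr hRr.le
        _ = R.r ^ 2 / 10 ^ 20 := by ring
        _ ≤ (2 * ρ) ^ 2 / 10 ^ 20 := by
            apply div_le_div_of_nonneg_right _ (by positivity)
            exact pow_le_pow_left₀ hRr.le hr'.le 2
        _ = 4 * ρ ^ 2 / 10 ^ 20 := by ring
    have h5 : l ^ 5 < 131072 * ρ ^ 5 := by
      have h6 : 32 * ρ ^ 3 * κ * (1024 * 10 ^ 20) ≤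
          32 * ρ ^ 3 * (4 * ρ ^ 2 / 10 ^ 20) * (1024 * 10 ^ 20) := by gcongr
      have h7 : 32 * ρ ^ 3 * (4 * ρ ^ 2 / 10 ^ 20) * (1024 * 10 ^ 20) = 131072 * ρ ^ 5 := by ring
      linarith
    have h8 : l ≤ 11 * ρ := by
      by_contra hcon
      have h9 : (11 * ρ) ^ 5 ≤ l ^ 5 := pow_le_pow_left₀ (by positivity) (not_le.mp hcon).le 5
      have h10 : 0 < ρ ^ 5 := by positivity
      nlinarith
    have h9 : τ * l ^ 4 ≤ κ / (2 * ρ) * (11 * ρ) ^ 4 :=
      mul_le_mul hτ1 (pow_le_pow_left₀ hl.le h8 4) (by positivity) (by positivity)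
    have h10 : κ / (2 * ρ) * (11 * ρ) ^ 4 = 14641 / 2 * (ρ ^ 3 * κ) := by
      field_simp
      ring
    rw [h10] at h9
    linarith

end Pool.Agent.BI
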