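import Pool.Agent.BI.K2
import Pool.Agent.BI.K3

set_option autoImplicit false

open MeasureTheory Set
open scoped ENNReal

namespace Pool.Agent.BI

theorem k4_meas (κ ρ t₀ : ℝ) {G : Set ((ℝ × ℝ) × (ℝ × ℝ))} (hG : MeasurableSet G) :
    Measurable fun p : (ℝ × ℝ) × (ℝ × ℝ) =>
      volume {τ : ℝ | τ ∈ Ioc (10 ^ 6 * ρ ^ 3 * κ / p.2.1 ^ 4) (κ / (2 * ρ)) ∧
        ((p.1.1, p.1.2 + (p.1.1 - t₀ + p.2.1) / p.2.1 * τ), (p.2.1, p.2.2 + τ)) ∈ G} := by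
  have hs : MeasurableSet ({q : ((ℝ × ℝ) × (ℝ × ℝ)) × ℝ | 10 ^ 6 * ρ ^ 3 * κ / q.1.2.1 ^ 4 < q.2} ∩
      {q : ((ℝ × ℝ) × (ℝ × ℝ)) × ℝ | q.2 ≤ κ / (2 * ρ)} ∩
      (fun q : ((ℝ × ℝ) × (ℝ × ℝ)) × ℝ =>
        (((q.1.1.1, q.1.1.2 + (q.1.1.1 - t₀ + q.1.2.1) / q.1.2.1 * q.2), (q.1.2.1, q.1.2.2 + q.2)) :
          (ℝ × ℝ) × (ℝ × ℝ))) ⁻¹' G) := by
    refine MeasurableSet.inter (MeasurableSet.inter ?_ ?_) ?_
    · exact measurableSet_lt (by fun_prop) (by fun_prop)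
    · exact measurableSet_le (by fun_prop) (by fun_prop)
    · exact measurableSet_preimage (by fun_prop) hG
  exact measurable_measure_prodMk_left hs

theorem k4_geom {κ ρ t₀ x l h r c1 c2 u1 u2 : ℝ} (hκ : 0 < κ) (hρ : 0 < ρ)
    (hthin : 10 ^ 18 * κ ≤ ρ ^ 2 / 20) (hu : u1 ^ 2 + u2 ^ 2 = 1) (h0 : 0 < h)
    (hh : h ≤ r / 10 ^ 20) (hxl : |x| + r ≤ l) (hr : ρ ≤ r) (hr' : r < 2 * ρ)
    (hhi : r * h < 2 * κ) (hu1 : 0 < u1) (hu2 : |u2| ≤ 10 ^ 18 * κ / ρ ^ 2)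
    (hc : |c1 - t₀| ≤ ρ / 4) (hc2 : |c2| ≤ 10 ^ 19 * κ / ρ) :
    |u2| ≤ 1 / 10 ∧ 9 / 10 * ρ ≤ l * u1 ∧ t₀ - l * u1 ≤ c1 + x * u1 + h * u2 ∧
      |c2 + x * u2 - h * u1 + (t₀ - (c1 + x * u1 + h * u2)) * (l * u2) / (l * u1)| ≤ 2 * 10 ^ 19 * κ / ρ ∧
      |l * u2| ≤ 2 * 10 ^ 18 * κ / ρ ^ 2 * (l * u1) := by
  have hb : 10 ^ 18 * κ / ρ ^ 2 ≤ 1 / 20 := by
    rw [div_le_iff₀ (by positivity)]
    linarith
  have hu2' : |u2| ≤ 1 / 20 := hu2.trans hb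
  have hu2sq : u2 ^ 2 ≤ 1 / 400 := by
    rw [← sq_abs]
    nlinarith [abs_nonneg u2]
  have hu1g : 99 / 100 ≤ u1 := by
    by_contra hcon
    push Not at hcon
    nlinarith
  have hu1le : u1 ≤ 1 := by nlinarith [sq_nonneg u2]
  have hrl : r ≤ l := by
    have := abs_nonneg x
    linarith
  have hl : 0 < l := by linarith
  have hxl' : r ≤ x + l := by
    have := neg_abs_le x
    linarith
  set q : ℝ := κ / ρ with hq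
  have hq0 : 0 < q := by positivity
  have hhq : h ≤ 2 * q := by
    have h1 : ρ * h < 2 * κ := lt_of_le_of_lt (by gcongr) hhi
    rw [hq, ← mul_div_assoc, le_div_iff₀ hρ]
    linarith
  have hhs : h ≤ ρ / 100 := by
    have h2 : h * 10 ^ 20 ≤ r := by
      rw [le_div_iff₀ (by positivity)] at hh
      exact hh
    nlinarith
  have hcb := abs_le.1 hc
  have hu2b := abs_le.1 hu2'
  refine ⟨by linarith, ?_, ?_, ?_, ?_⟩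
  · nlinarith
  · have h3 : r * u1 ≤ (x + l) * u1 := by gcongr
    have h4 : ρ * (99 / 100) ≤ r * u1 := mul_le_mul hr hu1g (by norm_num) (by linarith)
    have h5 : -(h * (1 / 20)) ≤ h * u2 := by
      have : h * (-(1 / 20)) ≤ h * u2 := by
        apply mul_le_mul_of_nonneg_left _ h0.le
        linarith
      linarith
    nlinarith
  · have e : c2 + x * u2 - h * u1 + (t₀ - (c1 + x * u1 + h * u2)) * (l * u2) / (l * u1) =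
        c2 - h / u1 + (t₀ - c1) * u2 / u1 := by
      field_simp
      linear_combination (-h) * hu
    rw [e]
    have e1 : 2 * 10 ^ 19 * κ / ρ = 2 * 10 ^ 19 * q := by rw [hq]; ring
    have e2 : 10 ^ 19 * κ / ρ = 10 ^ 19 * q := by rw [hq]; ring
    have e3 : 10 ^ 18 * κ / ρ ^ 2 = 10 ^ 18 * q / ρ := by rw [hq]; field_simp
    rw [e1]
    rw [e2] at hc2
    rw [e3] at hu2
    have h6 : |h / u1| ≤ 4 * q := by
      rw [abs_div, abs_of_pos h0, abs_of_pos hu1, div_le_iff₀ hu1]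
      nlinarith
    have h7 : |(t₀ - c1) * u2 / u1| ≤ 10 ^ 18 * q := by
      rw [abs_div, abs_mul, abs_of_pos hu1, div_le_iff₀ hu1]
      rw [abs_sub_comm] at hc
      calc |t₀ - c1| * |u2| ≤ (ρ / 4) * (10 ^ 18 * q / ρ) := by gcongr
        _ = 10 ^ 18 * q / 4 := by field_simp
        _ ≤ 10 ^ 18 * q * u1 := by nlinarith
    calc |c2 - h / u1 + (t₀ - c1) * u2 / u1| ≤ |c2| + |h / u1| + |(t₀ - c1) * u2 / u1| := by
          refine (abs_add_le _ _).trans ?_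
          gcongr
          exact abs_sub _ _
      _ ≤ 10 ^ 19 * q + 4 * q + 10 ^ 18 * q := by gcongr
      _ ≤ 2 * 10 ^ 19 * q := by nlinarith
  · rw [abs_mul, abs_of_pos hl]
    calc l * |u2| ≤ l * (10 ^ 18 * κ / ρ ^ 2) := by gcongr
      _ = 10 ^ 18 * κ / ρ ^ 2 * l := by ring
      _ ≤ 10 ^ 18 * κ / ρ ^ 2 * (2 * (l * u1)) := by
          gcongr
          nlinarith
      _ = 2 * 10 ^ 18 * κ / ρ ^ 2 * (l * u1) := by ring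

/-- [BI-K4] The basic piece.
PROOF. Let `E` be the set of `p = (z, v) ∈ G` with: `9/10 ρ ≤ v.1`, `t₀ - v.1 ≤ z.1 ≤ t₀`, the two bounds of `corner4` (h1), and
`volume {τ ∈ Ioc (w p) W | T_τ p ∈ G} = 0` (`T_τ` as in `corner4` h2, `w p = 10 ^ 6 ρ³ κ / v.1⁴`, `W = κ / (2 ρ)`). `E` is measurable
(`measurable_measure_prodMk_left` for the measurable set `{(p, τ) | ...}`), satisfies the hypotheses of `corner4` (`E ⊆ G`), and contains the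
given set: let `R` be as there, `u = R.u`, `|u.2| ≤ 10 ^ 18 κ / ρ² ≤ 1 / 20`, `u.1 ≥ 0.99`; `v = l u`, `l ≥ R.r ≥ ρ`, `v.1 ≥ 0.9 ρ`,
`|v.2| = l |u.2| ≤ (v.1 / 0.99) 10 ^ 18 κ / ρ²`. `t₀ ≤ z.1 + v.1` and `z.1 - v.1 ≤ t₀`: in the frame of `R` the chord is `[x - l, x + l] × {-h}` with
`[-r, r] ⊆ [x - l, x + l]`, and the point of the chord line with abscissa `t₀` is `fr R.c u (x', -h)`, `|x'| ≤ 0.3 ρ` (as in
`closing`). Its height is `z.2 + (t₀ - z.1) v.2 / v.1 = R.c.2 + x' u.2 - h u.1`, of absolute value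
`≤ 10 ^ 19 κ / ρ + 0.3 ρ 10 ^ 18 κ / ρ² + 2 κ / ρ ≤ 2 * 10 ^ 19 κ / ρ`. For `τ ∈ (w p, W]` `T_τ p ∉ G` by `closing` and `hGS`. -/
theorem corner_piece {S : Set (ℝ × ℝ)} (hS : TriConn S) {κ ρ : ℝ} (t₀ : ℝ) (hκ : 0 < κ)
    (hρ : 0 < ρ) (hthin : 10 ^ 18 * κ ≤ ρ ^ 2 / 20) {G : Set ((ℝ × ℝ) × (ℝ × ℝ))}
    (hG : MeasurableSet G) (hGS : ∀ p ∈ G, Ch p.1 p.2 ⊆ S) :
    volume {p | p ∈ G ∧ ∃ R, Sel S κ ρ p R ∧ OnSide p.1 p.2 R 1 ∧ 0 < R.u.1 ∧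
      |R.u.2| ≤ 10 ^ 18 * κ / ρ ^ 2 ∧ |R.c.1 - t₀| ≤ ρ / 4 ∧ |R.c.2| ≤ 10 ^ 19 * κ / ρ ∧
      p.1.1 ≤ t₀} ≤ ENNReal.ofReal (10 ^ 46 * κ ^ 2) := by
  set E : Set ((ℝ × ℝ) × (ℝ × ℝ)) := G ∩ ({p | 9 / 10 * ρ ≤ p.2.1} ∩ ({p | t₀ - p.2.1 ≤ p.1.1} ∩
    ({p | p.1.1 ≤ t₀} ∩ ({p | |p.1.2 + (t₀ - p.1.1) * p.2.2 / p.2.1| ≤ 2 * 10 ^ 19 * κ / ρ} ∩
    ({p | |p.2.2| ≤ 2 * 10 ^ 18 * κ / ρ ^ 2 * p.2.1} ∩
    {p | volume {τ : ℝ | τ ∈ Ioc (10 ^ 6 * ρ ^ 3 * κ / p.2.1 ^ 4) (κ / (2 * ρ)) ∧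
        ((p.1.1, p.1.2 + (p.1.1 - t₀ + p.2.1) / p.2.1 * τ), (p.2.1, p.2.2 + τ)) ∈ G} = 0}))))) with hE
  have hEm : MeasurableSet E := by
    refine hG.inter (MeasurableSet.inter ?_ (MeasurableSet.inter ?_ (MeasurableSet.inter ?_
      (MeasurableSet.inter ?_ (MeasurableSet.inter ?_ ?_)))))
    · exact measurableSet_le (by fun_prop) (by fun_prop)
    · exact measurableSet_le (by fun_prop) (by fun_prop)
    · exact measurableSet_le (by fun_prop) (by fun_prop)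
    · refine measurableSet_le ?_ (by fun_prop)
      have hm : Measurable fun p : (ℝ × ℝ) × (ℝ × ℝ) => p.1.2 + (t₀ - p.1.1) * p.2.2 / p.2.1 := by
        fun_prop
      exact continuous_abs.measurable.comp hm
    · refine measurableSet_le ?_ (by fun_prop)
      have hm : Measurable fun p : (ℝ × ℝ) × (ℝ × ℝ) => p.2.2 := by fun_prop
      exact continuous_abs.measurable.comp hm
    · exact (k4_meas κ ρ t₀ hG) (measurableSet_singleton 0)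
  have hvol := corner4 hEm (κ := κ) (ρ := ρ) (t₀ := t₀) hκ hρ
    (fun p hp => ⟨hp.2.1, hp.2.2.1, hp.2.2.2.1, hp.2.2.2.2.1, hp.2.2.2.2.2.1⟩)
    (fun p hp => by
      refine measure_mono_null ?_ hp.2.2.2.2.2.2
      rintro τ ⟨h1, h2⟩
      exact ⟨h1, h2.1⟩)
  refine le_trans (measure_mono ?_) hvol
  rintro ⟨z, v⟩ ⟨hpG, R, hSel, hOn, hu1, hu2, hc, hc2, hz1⟩
  obtain ⟨hM, hr, hr', hlo, hhi⟩ := hSel
  have hM' := hM
  obtain ⟨⟨hUV, hh0, hthinR, _, _⟩, _⟩ := hM'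
  have hOn' := hOn
  obtain ⟨x, l, hxl, hv0, hz0⟩ := hOn'
  have hv : v = (l * R.u.1, l * R.u.2) := hv0
  have hz : z = fr R.c R.u (x, -(1 * R.h)) := hz0
  obtain ⟨g1, g2, g3, g4, g5⟩ := k4_geom (t₀ := t₀) hκ hρ hthin hUV hh0 hthinR hxl hr hr' hhi hu1 hu2 hc hc2
  have ev1 : v.1 = l * R.u.1 := by rw [hv]
  have ev2 : v.2 = l * R.u.2 := by rw [hv]
  have ez1 : z.1 = R.c.1 + x * R.u.1 + R.h * R.u.2 := by
    rw [hz]
    simp only [fr]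
    ring
  have ez2 : z.2 = R.c.2 + x * R.u.2 - R.h * R.u.1 := by
    rw [hz]
    simp only [fr]
    ring
  rw [← ev1] at g2 g3 g4 g5
  rw [← ev2] at g4 g5
  rw [← ez1] at g3 g4
  rw [← ez2] at g4
  refine ⟨hpG, g2, g3, hz1, g4, g5, ?_⟩
  have hempty : {τ : ℝ | τ ∈ Ioc (10 ^ 6 * ρ ^ 3 * κ / v.1 ^ 4) (κ / (2 * ρ)) ∧
        ((z.1, z.2 + (z.1 - t₀ + v.1) / v.1 * τ), (v.1, v.2 + τ)) ∈ G} = ∅ := by
    rw [eq_empty_iff_forall_notMem]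
    rintro τ ⟨⟨hτ0, hτ1⟩, hτG⟩
    exact closing hS hκ hρ hM hOn hu1 g1 hr hr' hlo hhi hc (hGS _ hpG) hz1 (by linarith) hτ0 hτ1
      (hGS _ hτG)
  show volume {τ : ℝ | τ ∈ Ioc (10 ^ 6 * ρ ^ 3 * κ / v.1 ^ 4) (κ / (2 * ρ)) ∧
        ((z.1, z.2 + (z.1 - t₀ + v.1) / v.1 * τ), (v.1, v.2 + τ)) ∈ G} = 0
  rw [hempty, measure_empty]

end Pool.Agent.BI
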