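import Pool.Agent.BI.Basic

set_option autoImplicit false

open MeasureTheory Set
open scoped ENNReal

namespace Pool.Agent.BI

theorem k5_os_flipy {z v : ℝ × ℝ} {R : Room} {s : ℝ} (h : OnSide z v R s) :
    OnSide (z.1, -z.2) (v.1, -v.2) ⟨(R.c.1, -R.c.2), (R.u.1, -R.u.2), R.r, R.h⟩ (-s) := by
  obtain ⟨x, l, h1, h2, h3⟩ := h
  refine ⟨x, l, h1, ?_, ?_⟩
  · rw [h2]
    ext
    · rfl
    · show -(l * R.u.2) = l * -R.u.2
      ring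
  · rw [h3]
    ext
    · simp only [fr]
      ring
    · simp only [fr]
      ring

theorem k5_adm_flipy {S : Set (ℝ × ℝ)} {z v : ℝ × ℝ} {R : Room} (h : Adm S z v R) :
    Adm (flipy S) (z.1, -z.2) (v.1, -v.2) ⟨(R.c.1, -R.c.2), (R.u.1, -R.u.2), R.r, R.h⟩ := by
  obtain ⟨h1, h2, h3, h4, h5⟩ := h
  refine ⟨?_, h2, h3, ?_, ?_⟩
  · unfold UV at h1 ⊢
    show R.u.1 ^ 2 + (-R.u.2) ^ 2 = 1
    rw [neg_sq]
    exact h1
  · intro x y hx hy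
    have h6 := h4 x (-y) hx (by rw [abs_neg]; exact hy)
    show ((fr (R.c.1, -R.c.2) (R.u.1, -R.u.2) (x, y)).1, -(fr (R.c.1, -R.c.2) (R.u.1, -R.u.2) (x, y)).2) ∈ S
    have e : ((fr (R.c.1, -R.c.2) (R.u.1, -R.u.2) (x, y)).1, -(fr (R.c.1, -R.c.2) (R.u.1, -R.u.2) (x, y)).2) =
        fr R.c R.u (x, -y) := by
      ext
      · simp only [fr]
        ring
      · simp only [fr]
        ring
    rw [e]
    exact h6
  · rcases h5 with h5 | h5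
    · exact Or.inr (k5_os_flipy h5)
    · left
      have h6 := k5_os_flipy h5
      rwa [neg_neg] at h6

theorem k5_os_neg {z v : ℝ × ℝ} {R : Room} {s : ℝ} (h : OnSide z v R s) :
    OnSide z (-v) ⟨R.c, -R.u, R.r, R.h⟩ (-s) := by
  obtain ⟨x, l, h1, h2, h3⟩ := h
  refine ⟨-x, l, by rw [abs_neg]; exact h1, ?_, ?_⟩
  · rw [h2]
    ext
    · show -(l * R.u.1) = l * -R.u.1
      ring
    · show -(l * R.u.2) = l * -R.u.2
      ring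
  · rw [h3]
    ext
    · simp only [fr, Prod.fst_neg, Prod.snd_neg]
      ring
    · simp only [fr, Prod.fst_neg, Prod.snd_neg]
      ring

theorem k5_adm_neg {S : Set (ℝ × ℝ)} {z v : ℝ × ℝ} {R : Room} (h : Adm S z v R) :
    Adm S z (-v) ⟨R.c, -R.u, R.r, R.h⟩ := by
  obtain ⟨h1, h2, h3, h4, h5⟩ := h
  refine ⟨?_, h2, h3, ?_, ?_⟩
  · unfold UV at h1 ⊢
    show (-R.u.1) ^ 2 + (-R.u.2) ^ 2 = 1
    rw [neg_sq, neg_sq]
    exact h1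
  · intro x y hx hy
    have h6 := h4 (-x) (-y) (by rw [abs_neg]; exact hx) (by rw [abs_neg]; exact hy)
    have e : fr R.c (-R.u) (x, y) = fr R.c R.u (-x, -y) := by
      ext
      · simp only [fr, Prod.fst_neg, Prod.snd_neg]
        ring
      · simp only [fr, Prod.fst_neg, Prod.snd_neg]
        ring
    show fr R.c (-R.u) (x, y) ∈ S
    rw [e]
    exact h6
  · rcases h5 with h5 | h5
    · exact Or.inr (k5_os_neg h5)
    · left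
      have h6 := k5_os_neg h5
      rwa [neg_neg] at h6

theorem k5_os_flipx {z v : ℝ × ℝ} {R : Room} {s : ℝ} (h : OnSide z v R s) :
    OnSide (-z.1, z.2) (v.1, -v.2) ⟨(-R.c.1, R.c.2), (R.u.1, -R.u.2), R.r, R.h⟩ s := by
  obtain ⟨x, l, h1, h2, h3⟩ := h
  refine ⟨-x, l, by rw [abs_neg]; exact h1, ?_, ?_⟩
  · rw [h2]
    ext
    · rfl
    · show -(l * R.u.2) = l * -R.u.2
      ring
  · rw [h3]
    ext
    · simp only [fr]
      ring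
    · simp only [fr]
      ring

theorem k5_adm_flipx {S : Set (ℝ × ℝ)} {z v : ℝ × ℝ} {R : Room} (h : Adm S z v R) :
    Adm (flipx S) (-z.1, z.2) (v.1, -v.2) ⟨(-R.c.1, R.c.2), (R.u.1, -R.u.2), R.r, R.h⟩ := by
  obtain ⟨h1, h2, h3, h4, h5⟩ := h
  refine ⟨?_, h2, h3, ?_, ?_⟩
  · unfold UV at h1 ⊢
    show R.u.1 ^ 2 + (-R.u.2) ^ 2 = 1
    rw [neg_sq]
    exact h1
  · intro x y hx hy
    have h6 := h4 (-x) y (by rw [abs_neg]; exact hx) hy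
    show (-(fr (-R.c.1, R.c.2) (R.u.1, -R.u.2) (x, y)).1, (fr (-R.c.1, R.c.2) (R.u.1, -R.u.2) (x, y)).2) ∈ S
    have e : (-(fr (-R.c.1, R.c.2) (R.u.1, -R.u.2) (x, y)).1, (fr (-R.c.1, R.c.2) (R.u.1, -R.u.2) (x, y)).2) =
        fr R.c R.u (-x, y) := by
      ext
      · simp only [fr]
        ring
      · simp only [fr]
        ring
    rw [e]
    exact h6
  · rcases h5 with h5 | h5
    · exact Or.inl (k5_os_flipx h5)
    · exact Or.inr (k5_os_flipx h5)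

theorem k5_flipy_flipy (S : Set (ℝ × ℝ)) : flipy (flipy S) = S := by
  ext p
  show (p.1, - -p.2) ∈ S ↔ p ∈ S
  rw [neg_neg]

theorem k5_flipx_flipx (S : Set (ℝ × ℝ)) : flipx (flipx S) = S := by
  ext p
  show (- -p.1, p.2) ∈ S ↔ p ∈ S
  rw [neg_neg]

/-- [BI-K5] reflection of chords and rooms, `y ↦ -y`.
PROOF. Under `(x, y) ↦ (x, -y)` the point `fr c u (a, b)` goes to `fr (c.1, -c.2) (u.1, -u.2) (a, -b)`; so `RectIn (flipy S) R' ↔ RectIn S R`, and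
`OnSide z' v' R' (-s) ↔ OnSide z v R s`, where `'` denotes the reflected objects; `Adm` and hence `NearMax` correspond (the
reflection of rooms is an involution). -/
theorem Sel_flipy {S : Set (ℝ × ℝ)} {κ ρ : ℝ} {p : (ℝ × ℝ) × (ℝ × ℝ)} {R : Room}
    (h : Sel S κ ρ p R) :
    Sel (flipy S) κ ρ ((p.1.1, -p.1.2), (p.2.1, -p.2.2)) ⟨(R.c.1, -R.c.2), (R.u.1, -R.u.2), R.r, R.h⟩ := by
  obtain ⟨⟨hA, hN⟩, h1, h2, h3, h4⟩ := h
  refine ⟨⟨k5_adm_flipy hA, fun R' hR' => ?_⟩, h1, h2, h3, h4⟩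
  have h5 := k5_adm_flipy hR'
  rw [k5_flipy_flipy] at h5
  simp only [neg_neg] at h5
  exact hN ⟨(R'.c.1, -R'.c.2), (R'.u.1, -R'.u.2), R'.r, R'.h⟩ h5

/-- [BI-K5] PROOF: see `Sel_flipy`. -/
theorem OnSide_flipy {z v : ℝ × ℝ} {R : Room} {s : ℝ} (h : OnSide z v R s) :
    OnSide (z.1, -z.2) (v.1, -v.2) ⟨(R.c.1, -R.c.2), (R.u.1, -R.u.2), R.r, R.h⟩ (-s) := by
  exact k5_os_flipy h

/-- [BI-K5] reversal of the chord: `v ↦ -v`, `u ↦ -u`. PROOF: `fr c (-u) (a, b) = fr c u (-a, -b)`;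
`OnSide z (-v) R' (-s) ↔ OnSide z v R s` (`x ↦ -x`). -/
theorem Sel_neg {S : Set (ℝ × ℝ)} {κ ρ : ℝ} {p : (ℝ × ℝ) × (ℝ × ℝ)} {R : Room}
    (h : Sel S κ ρ p R) : Sel S κ ρ (p.1, -p.2) ⟨R.c, -R.u, R.r, R.h⟩ := by
  obtain ⟨⟨hA, hN⟩, h1, h2, h3, h4⟩ := h
  refine ⟨⟨k5_adm_neg hA, fun R' hR' => ?_⟩, h1, h2, h3, h4⟩
  have h5 := k5_adm_neg hR'
  simp only [neg_neg] at h5
  exact hN ⟨R'.c, -R'.u, R'.r, R'.h⟩ h5

theorem OnSide_neg {z v : ℝ × ℝ} {R : Room} {s : ℝ} (h : OnSide z v R s) :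
    OnSide z (-v) ⟨R.c, -R.u, R.r, R.h⟩ (-s) := by
  exact k5_os_neg h

/-- [BI-K5] reflection `x ↦ -x` together with reversal: `fr c u (a, b)` goes to
`fr (-c.1, c.2) (u.1, -u.2) (-a, b)`; `OnSide` keeps `s`. -/
theorem Sel_flipx {S : Set (ℝ × ℝ)} {κ ρ : ℝ} {p : (ℝ × ℝ) × (ℝ × ℝ)} {R : Room}
    (h : Sel S κ ρ p R) :
    Sel (flipx S) κ ρ ((-p.1.1, p.1.2), (p.2.1, -p.2.2)) ⟨(-R.c.1, R.c.2), (R.u.1, -R.u.2), R.r, R.h⟩ := by
  obtain ⟨⟨hA, hN⟩, h1, h2, h3, h4⟩ := h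
  refine ⟨⟨k5_adm_flipx hA, fun R' hR' => ?_⟩, h1, h2, h3, h4⟩
  have h5 := k5_adm_flipx hR'
  rw [k5_flipx_flipx] at h5
  simp only [neg_neg] at h5
  exact hN ⟨(-R'.c.1, R'.c.2), (R'.u.1, -R'.u.2), R'.r, R'.h⟩ h5

theorem OnSide_flipx {z v : ℝ × ℝ} {R : Room} {s : ℝ} (h : OnSide z v R s) :
    OnSide (-z.1, z.2) (v.1, -v.2) ⟨(-R.c.1, R.c.2), (R.u.1, -R.u.2), R.r, R.h⟩ s := by
  exact k5_os_flipx h

end Pool.Agent.BI
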