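import Pool.Agent.BI.A5

set_option autoImplicit false

open MeasureTheory Set
open scoped ENNReal

namespace Pool.Agent.BI

theorem k6_fi_inj {c u z : ℝ × ℝ} (hu : UV u) {p : ℝ × ℝ} (h : z = fr c u p) : fi c u z = p := by
  rw [h, fi_fr hu]

theorem k6_side {z v : ℝ × ℝ} {R j : Room} {s : ℝ} (hj : UV j.u) (h : OnSide z v R s) :
    OnSide (fi j.c j.u z) (fi 0 j.u v) (relRoom j R) s := by
  obtain ⟨x, l, h1, h2, h3⟩ := h
  refine ⟨x, l, h1, ?_, ?_⟩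
  · rw [h2]
    simp only [fi, relRoom, rel, dp, dt]
    ext
    · show (l * R.u.1 - (0 : ℝ × ℝ).1) * j.u.1 + (l * R.u.2 - (0 : ℝ × ℝ).2) * j.u.2 = _
      simp only [Prod.fst_zero, Prod.snd_zero]
      ring
    · show (l * R.u.2 - (0 : ℝ × ℝ).2) * j.u.1 - (l * R.u.1 - (0 : ℝ × ℝ).1) * j.u.2 = _
      simp only [Prod.fst_zero, Prod.snd_zero]
      ring
  · apply k6_fi_inj hj
    rw [h3]
    exact (fr_rel hj _).symm

/-- the room of the frame of `j` seen in the plane -/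
def k6_back (j R : Room) : Room := ⟨fr j.c j.u R.c, fr 0 j.u R.u, R.r, R.h⟩

theorem k6_fr (j R : Room) (p : ℝ × ℝ) :
    fr (k6_back j R).c (k6_back j R).u p = fr j.c j.u (fr R.c R.u p) := by
  simp only [k6_back, fr, Prod.fst_zero, Prod.snd_zero]
  ext
  · show j.c.1 + R.c.1 * j.u.1 - R.c.2 * j.u.2 + p.1 * (0 + R.u.1 * j.u.1 - R.u.2 * j.u.2) -
      p.2 * (0 + R.u.1 * j.u.2 + R.u.2 * j.u.1) = j.c.1 + (R.c.1 + p.1 * R.u.1 - p.2 * R.u.2) * j.u.1 -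
      (R.c.2 + p.1 * R.u.2 + p.2 * R.u.1) * j.u.2
    ring
  · show j.c.2 + R.c.1 * j.u.2 + R.c.2 * j.u.1 + p.1 * (0 + R.u.1 * j.u.2 + R.u.2 * j.u.1) +
      p.2 * (0 + R.u.1 * j.u.1 - R.u.2 * j.u.2) = j.c.2 + (R.c.1 + p.1 * R.u.1 - p.2 * R.u.2) * j.u.2 +
      (R.c.2 + p.1 * R.u.2 + p.2 * R.u.1) * j.u.1
    ring

theorem k6_uv {j R : Room} (hj : UV j.u) (hR : UV R.u) : UV (k6_back j R).u := by
  unfold UV at *
  simp only [k6_back, fr, Prod.fst_zero, Prod.snd_zero]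
  linear_combination (R.u.1 ^ 2 + R.u.2 ^ 2) * hj + hR

theorem k6_adm_back {S : Set (ℝ × ℝ)} {z v : ℝ × ℝ} {R j : Room} (hj : UV j.u)
    (h : Adm (inF j S) (fi j.c j.u z) (fi 0 j.u v) R) : Adm S z v (k6_back j R) := by
  obtain ⟨h1, h2, h3, h4, h5⟩ := h
  have hside : ∀ s : ℝ, OnSide (fi j.c j.u z) (fi 0 j.u v) R s → OnSide z v (k6_back j R) s := by
    rintro s ⟨x, l, a1, a2, a3⟩
    refine ⟨x, l, a1, ?_, ?_⟩
    · rw [← fr_fi (c := 0) hj v, a2]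
      simp only [k6_back, fr, Prod.fst_zero, Prod.snd_zero]
      ext
      · show 0 + l * R.u.1 * j.u.1 - l * R.u.2 * j.u.2 = l * (0 + R.u.1 * j.u.1 - R.u.2 * j.u.2)
        ring
      · show 0 + l * R.u.1 * j.u.2 + l * R.u.2 * j.u.1 = l * (0 + R.u.1 * j.u.2 + R.u.2 * j.u.1)
        ring
    · rw [k6_fr]
      show z = fr j.c j.u (fr R.c R.u (x, -(s * R.h)))
      rw [← a3, fr_fi hj]
  refine ⟨k6_uv hj h1, h2, h3, ?_, h5.imp (hside 1) (hside (-1))⟩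
  intro x y hx hy
  rw [k6_fr]
  exact h4 x y hx hy

theorem k6_adm {S : Set (ℝ × ℝ)} {z v : ℝ × ℝ} {R j : Room} (hj : UV j.u)
    (h : Adm S z v R) : Adm (inF j S) (fi j.c j.u z) (fi 0 j.u v) (relRoom j R) := by
  obtain ⟨h1, h2, h3, h4, h5⟩ := h
  refine ⟨UV_rel hj h1, h2, h3, ?_, h5.imp (k6_side hj) (k6_side hj)⟩
  intro x y hx hy
  show fr j.c j.u (fr (relRoom j R).c (relRoom j R).u (x, y)) ∈ S
  rw [fr_rel hj]
  exact h4 x y hx hy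

/-- [BI-K6] change of frame for chords and rooms. PROOF: `fr_rel` etc.: `z = fr j.c j.u z'`,
`v = fr 0 j.u v'`. -/
theorem Sel_frame {S : Set (ℝ × ℝ)} {κ ρ : ℝ} {z v : ℝ × ℝ} {R j : Room} (hj : UV j.u)
    (h : Sel S κ ρ (z, v) R) :
    Sel (inF j S) κ ρ (fi j.c j.u z, fi 0 j.u v) (relRoom j R) := by
  obtain ⟨⟨h1, h2⟩, h3, h4, h5, h6⟩ := h
  refine ⟨⟨k6_adm hj h1, fun R' hR' => ?_⟩, h3, h4, h5, h6⟩
  exact h2 (k6_back j R') (k6_adm_back hj hR')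

theorem OnSide_frame {z v : ℝ × ℝ} {R j : Room} {s : ℝ} (hj : UV j.u) (h : OnSide z v R s) :
    OnSide (fi j.c j.u z) (fi 0 j.u v) (relRoom j R) s := by
  exact k6_side hj h

end Pool.Agent.BI
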