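import Pool.Agent.BI.K4
import Pool.Agent.BI.K5
import Pool.Agent.BI.A6

set_option autoImplicit false

open MeasureTheory Set
open scoped ENNReal

namespace Pool.Agent.BI

theorem k7_pre {f : (ℝ × ℝ) × (ℝ × ℝ) → (ℝ × ℝ) × (ℝ × ℝ)} (hf : MeasurePreserving f volume volume)
    (T : Set ((ℝ × ℝ) × (ℝ × ℝ))) : volume (f ⁻¹' T) ≤ volume T := by
  calc volume (f ⁻¹' T) ≤ volume (f ⁻¹' (toMeasurable volume T)) :=
        measure_mono (preimage_mono (subset_toMeasurable _ _))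
    _ = volume (toMeasurable volume T) :=
        hf.measure_preimage (measurableSet_toMeasurable _ _).nullMeasurableSet
    _ = volume T := measure_toMeasurable _

theorem k7_union {A B C : Set ((ℝ × ℝ) × (ℝ × ℝ))} {c : ℝ} (hc : 0 ≤ c) (h : A ⊆ B ∪ C)
    (hB : volume B ≤ ENNReal.ofReal c) (hC : volume C ≤ ENNReal.ofReal c) :
    volume A ≤ ENNReal.ofReal (2 * c) := by
  calc volume A ≤ volume (B ∪ C) := measure_mono h
    _ ≤ volume B + volume C := measure_union_le _ _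
    _ ≤ ENNReal.ofReal c + ENNReal.ofReal c := add_le_add hB hC
    _ = ENNReal.ofReal (2 * c) := by
        rw [← ENNReal.ofReal_add hc hc]
        congr 1
        ring

theorem k7_neg : MeasurePreserving (fun x : ℝ => -x) volume volume :=
  Measure.measurePreserving_neg volume

/-- the map of `Sel_flipx` -/
def k7_x (p : (ℝ × ℝ) × (ℝ × ℝ)) : (ℝ × ℝ) × (ℝ × ℝ) := ((-p.1.1, p.1.2), (p.2.1, -p.2.2))

/-- the map of `Sel_flipy` -/
def k7_y (p : (ℝ × ℝ) × (ℝ × ℝ)) : (ℝ × ℝ) × (ℝ × ℝ) := ((p.1.1, -p.1.2), (p.2.1, -p.2.2))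

/-- the map of `Sel_neg` -/
def k7_n (p : (ℝ × ℝ) × (ℝ × ℝ)) : (ℝ × ℝ) × (ℝ × ℝ) := (p.1, -p.2)

theorem k7_mx : MeasurePreserving k7_x volume volume :=
  ((k7_neg.prod (MeasurePreserving.id volume)).prod ((MeasurePreserving.id volume).prod k7_neg))

theorem k7_my : MeasurePreserving k7_y volume volume :=
  (((MeasurePreserving.id volume).prod k7_neg).prod ((MeasurePreserving.id volume).prod k7_neg))

theorem k7_mn : MeasurePreserving k7_n volume volume :=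
  (((MeasurePreserving.id volume).prod (MeasurePreserving.id volume)).prod (k7_neg.prod k7_neg))

theorem k7_xx (p : (ℝ × ℝ) × (ℝ × ℝ)) : k7_x (k7_x p) = p := by
  simp [k7_x]

theorem k7_yy (p : (ℝ × ℝ) × (ℝ × ℝ)) : k7_y (k7_y p) = p := by
  simp [k7_y]

theorem k7_nn (p : (ℝ × ℝ) × (ℝ × ℝ)) : k7_n (k7_n p) = p := by
  simp [k7_n]

theorem k7_ch {z v x : ℝ × ℝ} : x ∈ Ch z v ↔ ∃ a b : ℝ, 0 ≤ a ∧ 0 ≤ b ∧ a + b = 1 ∧
    a * (z.1 - v.1) + b * (z.1 + v.1) = x.1 ∧ a * (z.2 - v.2) + b * (z.2 + v.2) = x.2 := by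
  unfold Ch segment
  constructor
  · rintro ⟨a, b, ha, hb, hab, h⟩
    refine ⟨a, b, ha, hb, hab, ?_, ?_⟩
    · rw [← h]
      simp [mul_add]
    · rw [← h]
      simp [mul_add]
  · rintro ⟨a, b, ha, hb, hab, h1, h2⟩
    refine ⟨a, b, ha, hb, hab, ?_⟩
    ext
    · rw [← h1]
      simp [mul_add]
    · rw [← h2]
      simp [mul_add]

theorem k7_chx {S : Set (ℝ × ℝ)} {p : (ℝ × ℝ) × (ℝ × ℝ)} (h : Ch (k7_x p).1 (k7_x p).2 ⊆ S) :
    Ch p.1 p.2 ⊆ flipx S := by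
  intro x hx
  obtain ⟨a, b, ha, hb, hab, h1, h2⟩ := k7_ch.1 hx
  change (-x.1, x.2) ∈ S
  refine h (k7_ch.2 ⟨b, a, hb, ha, by rw [add_comm]; exact hab, ?_, ?_⟩)
  · simp only [k7_x]
    linear_combination -h1
  · simp only [k7_x]
    linear_combination h2

theorem k7_chy {S : Set (ℝ × ℝ)} {p : (ℝ × ℝ) × (ℝ × ℝ)} (h : Ch (k7_y p).1 (k7_y p).2 ⊆ S) :
    Ch p.1 p.2 ⊆ flipy S := by
  intro x hx
  obtain ⟨a, b, ha, hb, hab, h1, h2⟩ := k7_ch.1 hx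
  change (x.1, -x.2) ∈ S
  refine h (k7_ch.2 ⟨a, b, ha, hb, hab, ?_, ?_⟩)
  · simp only [k7_y]
    linear_combination h1
  · simp only [k7_y]
    linear_combination -h2

theorem k7_chn {S : Set (ℝ × ℝ)} {p : (ℝ × ℝ) × (ℝ × ℝ)} (h : Ch (k7_n p).1 (k7_n p).2 ⊆ S) :
    Ch p.1 p.2 ⊆ S := by
  intro x hx
  obtain ⟨a, b, ha, hb, hab, h1, h2⟩ := k7_ch.1 hx
  refine h (k7_ch.2 ⟨b, a, hb, ha, by rw [add_comm]; exact hab, ?_, ?_⟩)
  · simp only [k7_n, Prod.fst_neg]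
    linear_combination h1
  · simp only [k7_n, Prod.snd_neg]
    linear_combination h2

/-- both sides of the window -/
theorem k7_one {S : Set (ℝ × ℝ)} (hS : TriConn S) {κ ρ : ℝ} (t₀ : ℝ) (hκ : 0 < κ)
    (hρ : 0 < ρ) (hthin : 10 ^ 18 * κ ≤ ρ ^ 2 / 20) {G : Set ((ℝ × ℝ) × (ℝ × ℝ))}
    (hG : MeasurableSet G) (hGS : ∀ p ∈ G, Ch p.1 p.2 ⊆ S) :
    volume {p | p ∈ G ∧ ∃ R, Sel S κ ρ p R ∧ OnSide p.1 p.2 R 1 ∧ 0 < R.u.1 ∧
      |R.u.2| ≤ 10 ^ 18 * κ / ρ ^ 2 ∧ |R.c.1 - t₀| ≤ ρ / 4 ∧ |R.c.2| ≤ 10 ^ 19 * κ / ρ} ≤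
      ENNReal.ofReal (2 * (10 ^ 46 * κ ^ 2)) := by
  refine k7_union (by positivity) ?_ (corner_piece hS t₀ hκ hρ hthin hG hGS)
    ((k7_pre k7_mx _).trans (corner_piece (TriConn_flipx hS) (-t₀) hκ hρ hthin
      (G := k7_x ⁻¹' G) (k7_mx.measurable hG) (fun p hp => k7_chx (hGS _ hp))))
  rintro p ⟨hp, R, h1, h2, h3, h4, h5, h6⟩
  rcases le_total p.1.1 t₀ with h | h
  · exact Or.inl ⟨hp, R, h1, h2, h3, h4, h5, h6, h⟩
  · refine Or.inr ⟨?_, _, Sel_flipx h1, OnSide_flipx h2, h3, ?_, ?_, h6, ?_⟩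
    · change k7_x (k7_x p) ∈ G
      rw [k7_xx]
      exact hp
    · simp only [abs_neg]
      exact h4
    · simp only
      rw [show -R.c.1 - -t₀ = -(R.c.1 - t₀) by ring, abs_neg]
      exact h5
    · exact neg_le_neg h

/-- both sides of the room -/
theorem k7_two {S : Set (ℝ × ℝ)} (hS : TriConn S) {κ ρ : ℝ} (t₀ : ℝ) (hκ : 0 < κ)
    (hρ : 0 < ρ) (hthin : 10 ^ 18 * κ ≤ ρ ^ 2 / 20) {G : Set ((ℝ × ℝ) × (ℝ × ℝ))}
    (hG : MeasurableSet G) (hGS : ∀ p ∈ G, Ch p.1 p.2 ⊆ S) :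
    volume {p | p ∈ G ∧ ∃ R, Sel S κ ρ p R ∧ 0 < R.u.1 ∧
      |R.u.2| ≤ 10 ^ 18 * κ / ρ ^ 2 ∧ |R.c.1 - t₀| ≤ ρ / 4 ∧ |R.c.2| ≤ 10 ^ 19 * κ / ρ} ≤
      ENNReal.ofReal (2 * (2 * (10 ^ 46 * κ ^ 2))) := by
  refine k7_union (by positivity) ?_ (k7_one hS t₀ hκ hρ hthin hG hGS)
    ((k7_pre k7_my _).trans (k7_one (TriConn_flipy hS) t₀ hκ hρ hthin
      (G := k7_y ⁻¹' G) (k7_my.measurable hG) (fun p hp => k7_chy (hGS _ hp))))
  rintro p ⟨hp, R, h1, h3, h4, h5, h6⟩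
  rcases h1.1.1.2.2.2.2 with h | h
  · exact Or.inl ⟨hp, R, h1, h, h3, h4, h5, h6⟩
  · have h7 := OnSide_flipy h
    rw [neg_neg] at h7
    refine Or.inr ⟨?_, _, Sel_flipy h1, h7, h3, ?_, h5, ?_⟩
    · change k7_y (k7_y p) ∈ G
      rw [k7_yy]
      exact hp
    · simp only [abs_neg]
      exact h4
    · simp only [abs_neg]
      exact h6

/-- [BI-K7] Union over the sides, reversals and reflections, for one window `t₀`.
PROOF. Eight cases: sign of `R.u.1` (non-zero), `s = ± 1`, `p.1.1 ≤ t₀` or `≥ t₀`; in each case the set is the preimage, under one of the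
measure preserving involutions of `Sel_flipy`, `Sel_neg`, `Sel_flipx` or their compositions (linear maps of `ℝ⁴` which change signs of
coordinates), of a set as in `corner_piece` (for the reflected `S` (`TriConn_flipx`, `TriConn_flipy`), the reflected measurable `G`, and
`± t₀`). `8 * 10 ^ 46`. -/
theorem corner_window {S : Set (ℝ × ℝ)} (hS : TriConn S) {κ ρ : ℝ} (t₀ : ℝ) (hκ : 0 < κ)
    (hρ : 0 < ρ) (hthin : 10 ^ 18 * κ ≤ ρ ^ 2 / 20) {G : Set ((ℝ × ℝ) × (ℝ × ℝ))}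
    (hG : MeasurableSet G) (hGS : ∀ p ∈ G, Ch p.1 p.2 ⊆ S) :
    volume {p | p ∈ G ∧ ∃ R, Sel S κ ρ p R ∧
      |R.u.2| ≤ 10 ^ 18 * κ / ρ ^ 2 ∧ |R.c.1 - t₀| ≤ ρ / 4 ∧ |R.c.2| ≤ 10 ^ 19 * κ / ρ} ≤
      ENNReal.ofReal (8 * 10 ^ 46 * κ ^ 2) := by
  have e : (8 * 10 ^ 46 * κ ^ 2 : ℝ) = 2 * (2 * (2 * (10 ^ 46 * κ ^ 2))) := by ring
  rw [e]
  refine k7_union (by positivity) ?_ (k7_two hS t₀ hκ hρ hthin hG hGS)
    ((k7_pre k7_mn _).trans (k7_two hS t₀ hκ hρ hthin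
      (G := k7_n ⁻¹' G) (k7_mn.measurable hG) (fun p hp => k7_chn (hGS _ hp))))
  rintro p ⟨hp, R, h1, h4, h5, h6⟩
  have hu : R.u.1 ^ 2 + R.u.2 ^ 2 = 1 := h1.1.1.1
  have hne : R.u.1 ≠ 0 := by
    intro h0
    have h7 : |R.u.2| ≤ 1 / 20 := by
      refine h4.trans ?_
      rw [div_le_iff₀ (by positivity)]
      linarith
    rw [h0] at hu
    have h8 : R.u.2 ^ 2 = |R.u.2| ^ 2 := (sq_abs _).symm
    rw [h8] at hu
    nlinarith [abs_nonneg R.u.2]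
  rcases lt_or_gt_of_ne hne with h | h
  · refine Or.inr ⟨?_, _, Sel_neg h1, ?_, ?_, h5, h6⟩
    · change k7_n (k7_n p) ∈ G
      rw [k7_nn]
      exact hp
    · simp only [Prod.fst_neg]
      linarith
    · simp only [Prod.snd_neg, abs_neg]
      exact h4
  · exact Or.inl ⟨hp, R, h1, h, h4, h5, h6⟩

end Pool.Agent.BI
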