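import Pool.Agent.BI.K6
import Pool.Agent.BI.K7
import Pool.Agent.BI.A5

set_option autoImplicit false

open MeasureTheory Set
open scoped ENNReal

namespace Pool.Agent.BI

/-- the frame map on pairs (point, vector) -/
def k8map (j : Room) (q : (ℝ × ℝ) × (ℝ × ℝ)) : (ℝ × ℝ) × (ℝ × ℝ) :=
  (fr j.c j.u q.1, fr 0 j.u q.2)

theorem k8_meas (j : Room) : Measurable (k8map j) := by
  unfold k8map
  exact ((continuous_fr _ _).measurable.comp measurable_fst).prodMk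
    ((continuous_fr _ _).measurable.comp measurable_snd)

theorem k8_volume {j : Room} (hj : UV j.u) (T : Set ((ℝ × ℝ) × (ℝ × ℝ))) :
    volume (k8map j ⁻¹' T) = volume T := by
  have he : MeasurableEmbedding (k8map j) := by
    have h1 : Function.LeftInverse (fun q : (ℝ × ℝ) × (ℝ × ℝ) => (fi j.c j.u q.1, fi 0 j.u q.2))
        (k8map j) := by
      intro q
      simp only [k8map, fi_fr hj]
    have h2 : Function.RightInverse (fun q : (ℝ × ℝ) × (ℝ × ℝ) => (fi j.c j.u q.1, fi 0 j.u q.2))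
        (k8map j) := by
      intro q
      simp only [k8map, fr_fi hj]
    exact (MeasurableEquiv.measurableEmbedding
      { toFun := k8map j
        invFun := fun q => (fi j.c j.u q.1, fi 0 j.u q.2)
        left_inv := h1
        right_inv := h2
        measurable_toFun := k8_meas j
        measurable_invFun := ((continuous_fi _ _).measurable.comp measurable_fst).prodMk
          ((continuous_fi _ _).measurable.comp measurable_snd) })
  have hp : MeasurePreserving (k8map j) volume volume :=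
    (measurePreserving_fr (c := j.c) hj).prod (measurePreserving_fr (c := 0) hj)
  exact hp.measure_preimage_emb he T

/-- bounds in the frame of `j` -/
theorem k8_bounds {κ ρ : ℝ} (hκ : 0 < κ) (hρ : 0 < ρ) {R j : Room} (hR : UV R.u) (hj : UV j.u)
    (h : Sim κ ρ R j ∨ Sim κ ρ j R) :
    |dt j.u R.u| ≤ 10 ^ 18 * κ / ρ ^ 2 ∧ |(fi j.c j.u R.c).1| ≤ 8 * ρ ∧
      |(fi j.c j.u R.c).2| ≤ 10 ^ 19 * κ / ρ := by
  have hq : 0 < κ / ρ := by positivity
  have e18 : 10 ^ 18 * κ / ρ = 10 ^ 18 * (κ / ρ) := by ring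
  have e19 : 10 ^ 19 * κ / ρ = 10 ^ 19 * (κ / ρ) := by ring
  have hd : d2 R.c j.c ≤ (8 * ρ) ^ 2 := by
    rcases h with h | h
    · exact h.2.2
    · rw [d2_comm]
      exact h.2.2
  have h0 : fi j.c j.u j.c = (0, 0) := by simp [fi]
  have hb := abs_fi_sub_le (c := j.c) hj (a := 8 * ρ) (by positivity) hd
  rw [h0] at hb
  simp only [sub_zero] at hb
  rcases h with h | h
  · refine ⟨h.1, hb.1, h.2.1.trans ?_⟩
    rw [e18, e19]
    nlinarith
  · refine ⟨by rw [abs_dt_comm]; exact h.1, hb.1, ?_⟩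
    obtain ⟨h1, h2, h3⟩ := h
    set x1 := R.c.1 - j.c.1 with hx1
    set x2 := R.c.2 - j.c.2 with hx2
    have e1 : (fi j.c j.u R.c).2 = - dp R.u j.u * (fi R.c R.u j.c).2 -
        dt R.u j.u * (x1 * R.u.1 + x2 * R.u.2) := by
      unfold UV at hR
      simp only [fi, dp, dt, hx1, hx2]
      linear_combination (-((R.c.2 - j.c.2) * j.u.1 - (R.c.1 - j.c.1) * j.u.2)) * hR
    have e2 : |x1 * R.u.1 + x2 * R.u.2| ≤ 8 * ρ := by
      apply abs_le_of_sq_le_sq _ (by positivity)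
      have e3 : (x1 * R.u.1 + x2 * R.u.2) ^ 2 + (x1 * R.u.2 - x2 * R.u.1) ^ 2 = x1 ^ 2 + x2 ^ 2 := by
        unfold UV at hR
        linear_combination (x1 ^ 2 + x2 ^ 2) * hR
      have e4 : x1 ^ 2 + x2 ^ 2 ≤ (8 * ρ) ^ 2 := by
        unfold d2 at hd
        exact hd
      nlinarith [sq_nonneg (x1 * R.u.2 - x2 * R.u.1)]
    have e5 : 10 ^ 18 * κ / ρ ^ 2 * (8 * ρ) = 8 * 10 ^ 18 * (κ / ρ) := by
      field_simp
    rw [e1]
    calc |- dp R.u j.u * (fi R.c R.u j.c).2 - dt R.u j.u * (x1 * R.u.1 + x2 * R.u.2)|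
        ≤ |- dp R.u j.u * (fi R.c R.u j.c).2| + |dt R.u j.u * (x1 * R.u.1 + x2 * R.u.2)| :=
          abs_sub _ _
      _ = |dp R.u j.u| * |(fi R.c R.u j.c).2| + |dt R.u j.u| * |x1 * R.u.1 + x2 * R.u.2| := by
          rw [abs_mul, abs_mul, abs_neg]
      _ ≤ 1 * (10 ^ 18 * κ / ρ) + (10 ^ 18 * κ / ρ ^ 2) * (8 * ρ) := by
          gcongr
          exact abs_dp_le_one hR hj
      _ ≤ 10 ^ 19 * κ / ρ := by
          rw [e5, e18, e19]
          nlinarith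

/-- [BI-K8] Measure of the chords whose room is similar to a given one.
PROOF. Frame of `j` (`Sel_frame`; the map `(z, v) ↦ (fi j.c j.u z, fi 0 j.u v)` is a measure preserving equivalence): `R' = relRoom j R` has
`|R'.u.2| = |dt j.u R.u| ≤ 10 ^ 18 κ / ρ²`, `|R'.c.1| ≤ 8 ρ`, and `|R'.c.2| ≤ 10 ^ 18 κ / ρ` in the first case of `Sim`; in the second case,
`(fi R.c R.u j.c).2 = - dt R.u (R.c - j.c)` and
`dt j.u x = dp R.u j.u * dt R.u x - dt R.u j.u * dp R.u x` (`R.u` unit), so `|R'.c.2| = |dt j.u (R.c - j.c)| ≤ 10 ^ 18 κ / ρ + 10 ^ 18 κ / ρ² * 8 ρ ≤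
10 ^ 19 κ / ρ`. Windows `t₀ = m ρ / 2`, `m` an integer, `|m| ≤ 16` (`m = round (2 R'.c.1 / ρ)`): 33 sets as in `corner_window`;
`33 * 8 * 10 ^ 46 ≤ 10 ^ 49`. `hthin` follows for a non-empty set from `κ ≤ R.r R.h ≤ R.r² / 10 ^ 20 ≤ 4 ρ² / 10 ^ 20`
(so `10 ^ 18 κ ≤ ρ² / 25`? check: `4 / 100 = 1 / 25 ≤ 1 / 20`: yes). -/
theorem cell_volume {S : Set (ℝ × ℝ)} (hS : TriConn S) {κ ρ : ℝ} (hκ : 0 < κ) (hρ : 0 < ρ)
    {G : Set ((ℝ × ℝ) × (ℝ × ℝ))} (hG : MeasurableSet G) (hGS : ∀ p ∈ G, Ch p.1 p.2 ⊆ S)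
    {j : Room} (hj : UV j.u) :
    volume {p | p ∈ G ∧ ∃ R, Sel S κ ρ p R ∧ (Sim κ ρ R j ∨ Sim κ ρ j R)} ≤
      ENNReal.ofReal (10 ^ 49 * κ ^ 2) := by
  set A : Set ((ℝ × ℝ) × (ℝ × ℝ)) :=
    {p | p ∈ G ∧ ∃ R, Sel S κ ρ p R ∧ (Sim κ ρ R j ∨ Sim κ ρ j R)} with hA
  rcases A.eq_empty_or_nonempty with hE | ⟨p₀, hp₀⟩
  · rw [hE, measure_empty]
    exact zero_le
  have hthin : 10 ^ 18 * κ ≤ ρ ^ 2 / 20 := by
    obtain ⟨-, R, hR, -⟩ := hp₀
    obtain ⟨⟨⟨-, hh0, hh, -, -⟩, -⟩, h1, h2, h3, -⟩ := hR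
    have hr0 : 0 < R.r := lt_of_lt_of_le hρ h1
    have h4 : R.r * R.h ≤ R.r * (R.r / 10 ^ 20) := by gcongr
    have h5 : R.r * (R.r / 10 ^ 20) ≤ (2 * ρ) * ((2 * ρ) / 10 ^ 20) := by gcongr
    have h6 : (2 * ρ) * ((2 * ρ) / 10 ^ 20) = 4 / 10 ^ 20 * ρ ^ 2 := by ring
    have h7 : κ ≤ 4 / 10 ^ 20 * ρ ^ 2 := by linarith
    calc 10 ^ 18 * κ ≤ 10 ^ 18 * (4 / 10 ^ 20 * ρ ^ 2) := by gcongr
      _ = 1 / 25 * ρ ^ 2 := by ring
      _ ≤ ρ ^ 2 / 20 := by nlinarith [sq_nonneg ρ]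
  set G₁ : Set ((ℝ × ℝ) × (ℝ × ℝ)) := k8map j ⁻¹' G with hG₁
  have hG₁m : MeasurableSet G₁ := k8_meas j hG
  have hG₁S : ∀ p ∈ G₁, Ch p.1 p.2 ⊆ inF j S := by
    intro p hp
    have h1 := hGS _ hp
    unfold Ch at h1 ⊢
    unfold inF
    rw [segment_inF]
    have e1 : fr j.c j.u (p.1 - p.2) = (k8map j p).1 - (k8map j p).2 := by
      simp only [k8map, fr]
      ext
      · simp
        ring
      · simp
        ring
    have e2 : fr j.c j.u (p.1 + p.2) = (k8map j p).1 + (k8map j p).2 := by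
      simp only [k8map, fr]
      ext
      · simp
        ring
      · simp
        ring
    rw [e1, e2]
    exact h1
  have hSj : TriConn (inF j S) := TriConn_inF hS hj
  set W : ℤ → Set ((ℝ × ℝ) × (ℝ × ℝ)) := fun m => {p | p ∈ G₁ ∧ ∃ R, Sel (inF j S) κ ρ p R ∧
      |R.u.2| ≤ 10 ^ 18 * κ / ρ ^ 2 ∧ |R.c.1 - m * ρ / 2| ≤ ρ / 4 ∧ |R.c.2| ≤ 10 ^ 19 * κ / ρ}
    with hW
  have hWm : ∀ m : ℤ, volume (W m) ≤ ENNReal.ofReal (8 * 10 ^ 46 * κ ^ 2) := fun m =>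
    corner_window hSj (m * ρ / 2) hκ hρ hthin hG₁m hG₁S
  have hsub : k8map j ⁻¹' A ⊆ ⋃ m ∈ Finset.Icc (-16 : ℤ) 16, W m := by
    intro q hq
    obtain ⟨hqG, R, hR, hsim⟩ := hq
    have hRu : UV R.u := hR.1.1.1
    have hsel : Sel (inF j S) κ ρ q (relRoom j R) := by
      have h1 := Sel_frame (z := (k8map j q).1) (v := (k8map j q).2) hj hR
      simp only [k8map, fi_fr hj] at h1
      exact h1
    obtain ⟨b1, b2, b3⟩ := k8_bounds hκ hρ hRu hj hsim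
    set x := (fi j.c j.u R.c).1 with hx
    have hround := abs_sub_round (2 * x / ρ)
    set m := round (2 * x / ρ) with hm
    have h1 : |x - m * ρ / 2| ≤ ρ / 4 := by
      have e1 : x - m * ρ / 2 = (2 * x / ρ - m) * (ρ / 2) := by field_simp
      rw [e1, abs_mul, abs_of_pos (by positivity : (0:ℝ) < ρ / 2)]
      nlinarith
    have h2 : |(m : ℝ)| < 17 := by
      have h3 : |2 * x / ρ| ≤ 16 := by
        rw [abs_div, abs_mul, abs_of_pos hρ, div_le_iff₀ hρ, abs_two]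
        linarith
      have h4 : |(m : ℝ)| ≤ |2 * x / ρ| + |2 * x / ρ - m| := by
        have : (m : ℝ) = 2 * x / ρ - (2 * x / ρ - m) := by ring
        calc |(m : ℝ)| = |2 * x / ρ - (2 * x / ρ - m)| := by rw [← this]
          _ ≤ _ := abs_sub _ _
      linarith
    have h3 : m ∈ Finset.Icc (-16 : ℤ) 16 := by
      rw [abs_lt] at h2
      rw [Finset.mem_Icc]
      have h5 : (-17 : ℤ) < m := by exact_mod_cast h2.1
      have h6 : m < (17 : ℤ) := by exact_mod_cast h2.2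
      omega
    simp only [mem_iUnion]
    exact ⟨m, h3, hqG, relRoom j R, hsel, b1, h1, b3⟩
  have hfin : ENNReal.ofReal (8 * 10 ^ 46 * κ ^ 2) * 33 ≤ ENNReal.ofReal (10 ^ 49 * κ ^ 2) := by
    have e33 : (33 : ℝ≥0∞) = ENNReal.ofReal 33 := by norm_num
    rw [e33, ← ENNReal.ofReal_mul (by positivity)]
    apply ENNReal.ofReal_le_ofReal
    nlinarith [sq_nonneg κ]
  calc volume A = volume (k8map j ⁻¹' A) := (k8_volume hj A).symm
    _ ≤ volume (⋃ m ∈ Finset.Icc (-16 : ℤ) 16, W m) := measure_mono hsub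
    _ ≤ ∑ m ∈ Finset.Icc (-16 : ℤ) 16, volume (W m) := measure_biUnion_finset_le _ _
    _ ≤ ∑ _m ∈ Finset.Icc (-16 : ℤ) 16, ENNReal.ofReal (8 * 10 ^ 46 * κ ^ 2) :=
        Finset.sum_le_sum fun m _ => hWm m
    _ = ENNReal.ofReal (8 * 10 ^ 46 * κ ^ 2) * 33 := by
        have hc : (Finset.Icc (-16 : ℤ) 16).card = 33 := by decide
        rw [Finset.sum_const, nsmul_eq_mul, mul_comm, hc]
        rfl
    _ ≤ _ := hfin

end Pool.Agent.BI
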