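import Pool.Agent.BI.Basic

set_option autoImplicit false

open MeasureTheory Set
open scoped ENNReal

namespace Pool.Agent.BI

theorem l1_aux {U K : Set ((ℝ × ℝ) × (ℝ × ℝ))} (hKm : MeasurableSet K)
    (hKfin : volume K ≠ ⊤) (hUlt : volume U < volume K + volume K / 2) {δ : ℝ}
    (hδ : Metric.thickening δ K ⊆ U) {x : (ℝ × ℝ) × (ℝ × ℝ)} (hx : ‖x‖ < δ) :
    volume (U \ {p | p + x ∈ K}) < volume K / 2 := by
  have hm : MeasurableSet {p | p + x ∈ K} := (measurable_add_const x) hKm
  have hp : MeasurePreserving (fun p : (ℝ × ℝ) × (ℝ × ℝ) => p + x) volume volume :=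
    ((measurePreserving_add_right (volume : Measure ℝ) x.1.1).prod
      (measurePreserving_add_right (volume : Measure ℝ) x.1.2)).prod
      ((measurePreserving_add_right (volume : Measure ℝ) x.2.1).prod
      (measurePreserving_add_right (volume : Measure ℝ) x.2.2))
  have hv : volume {p | p + x ∈ K} = volume K := hp.measure_preimage hKm.nullMeasurableSet
  have hsub : {p | p + x ∈ K} ⊆ U := by
    intro p hp
    apply hδ
    rw [Metric.mem_thickening_iff]
    refine ⟨p + x, hp, ?_⟩
    rw [dist_eq_norm, sub_add_cancel_left, norm_neg]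
    exact hx
  have h1 : volume {p | p + x ∈ K} + volume (U \ {p | p + x ∈ K}) = volume U := by
    rw [← measure_inter_add_sdiff U hm, inter_eq_self_of_subset_right hsub]
  rw [← h1, hv] at hUlt
  exact lt_of_add_lt_add_left hUlt

/-- [BI-L1] Continuity of translations, for two translates.
PROOF. Take a compact `K ⊆ A` with `0 < volume K < ∞` (`MeasurableSet.exists_lt_isCompact`, inner regularity) and an open
`U ⊇ K` with `volume U < (4/3) volume K` (`Set.exists_isOpen_lt_of_lt`). There is `δ > 0` with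
`Metric.thickening δ K ⊆ U` (`IsCompact.exists_thickening_subset_open`). For `x, y` of norm `< δ` the sets `K`, `{p | p + x ∈ K}`, `{p | p + y ∈ K}` are
contained in `U` and have measure `volume K > (3/4) volume U`; so their intersection has measure
`≥ volume U - 3 (volume U - volume K) > 0`. As `s n, t n → 0` this applies for large `n`. -/
theorem exists_translate {A : Set ((ℝ × ℝ) × (ℝ × ℝ))} (hA : MeasurableSet A) (h0 : volume A ≠ 0)
    {s t : ℕ → (ℝ × ℝ) × (ℝ × ℝ)} (hs : Filter.Tendsto s Filter.atTop (nhds 0))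
    (ht : Filter.Tendsto t Filter.atTop (nhds 0)) :
    ∃ n, ∃ p ∈ A, p + s n ∈ A ∧ p + t n ∈ A := by
  obtain ⟨K, hKA, hK, hK0⟩ := hA.exists_lt_isCompact (pos_iff_ne_zero.mpr h0)
  have hKfin : volume K ≠ ⊤ := hK.measure_lt_top.ne
  have hhalf : volume K / 2 ≠ 0 := by
    rw [Ne, ENNReal.div_eq_zero_iff]
    push Not
    exact ⟨hK0.ne', by norm_num⟩
  obtain ⟨U, hKU, hU, hUlt⟩ := Set.exists_isOpen_lt_of_lt K (volume K + volume K / 2)
    (ENNReal.lt_add_right hKfin hhalf)
  obtain ⟨δ, hδ0, hδ⟩ := hK.exists_thickening_subset_open hU hKU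
  have hs' : ∀ᶠ n in Filter.atTop, ‖s n‖ < δ := by
    have := hs.norm
    rw [norm_zero] at this
    exact this.eventually (gt_mem_nhds hδ0)
  have ht' : ∀ᶠ n in Filter.atTop, ‖t n‖ < δ := by
    have := ht.norm
    rw [norm_zero] at this
    exact this.eventually (gt_mem_nhds hδ0)
  obtain ⟨n, hn1, hn2⟩ := (hs'.and ht').exists
  refine ⟨n, ?_⟩
  by_contra hcon
  push Not at hcon
  have hsub : K ⊆ (U \ {p | p + s n ∈ K}) ∪ (U \ {p | p + t n ∈ K}) := by
    intro p hp
    by_cases h1 : p + s n ∈ K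
    · right
      exact ⟨hKU hp, fun h2 => hcon p (hKA hp) (hKA h1) (hKA h2)⟩
    · left
      exact ⟨hKU hp, h1⟩
  have h1 : volume K ≤ volume (U \ {p | p + s n ∈ K}) + volume (U \ {p | p + t n ∈ K}) :=
    (measure_mono hsub).trans (measure_union_le _ _)
  have h2 := ENNReal.add_lt_add (l1_aux hK.measurableSet hKfin hUlt hδ hn1)
    (l1_aux hK.measurableSet hKfin hUlt hδ hn2)
  rw [ENNReal.add_halves] at h2
  exact absurd (h1.trans_lt h2) (lt_irrefl _)

end Pool.Agent.BI
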