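import Pool.Agent.BI.J2
import Pool.Agent.BI.A5
import Pool.Agent.BI.A1
import Pool.Agent.BI.A6

set_option autoImplicit false

open MeasureTheory Set
open scoped ENNReal

namespace Pool.Agent.BI

theorem l2_std {T : Set (ℝ × ℝ)} (hT : TriConn T) {l x₀ H : ℝ} (hl : 0 < l) (hH : 0 < H)
    (h0 : segment ℝ ((-(l / 2), 0) : ℝ × ℝ) (l / 2, 0) ⊆ T)
    (h1 : segment ℝ ((-(l / 2), 0) : ℝ × ℝ) (x₀, H) ⊆ T)
    (h2 : segment ℝ ((l / 2, 0) : ℝ × ℝ) (x₀, H) ⊆ T) :
    ∃ h' : ℝ, 0 < h' ∧ h' ≤ l / 4 / 10 ^ 20 ∧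
      ∀ x y : ℝ, |x| ≤ l / 4 → 0 ≤ y → y ≤ 2 * h' → (x, y) ∈ T := by
  have hW : 0 < |x₀| + l := by positivity
  refine ⟨min (H * l / (8 * (|x₀| + l))) (l / 4 / 10 ^ 20), ?_, min_le_right _ _, ?_⟩
  · exact lt_min (by positivity) (by positivity)
  intro x y hx hy hy2
  have h3 : y ≤ 2 * (H * l / (8 * (|x₀| + l))) :=
    hy2.trans (mul_le_mul_of_nonneg_left (min_le_left _ _) (by norm_num))
  have hx' := abs_le.1 hx
  have h4 : (x, 0 + y) ∈ convexHull ℝ
      ({(-(l / 2), 0), (l / 2, 0), (x₀, 0 + H)} : Set (ℝ × ℝ)) := by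
    refine rect_in_tri (W := |x₀| + l) (by linarith) hH ?_ ?_ (by linarith) (by linarith) hy ?_
    · have := abs_add_le x₀ (l / 2)
      rw [sub_neg_eq_add]
      rw [abs_of_pos (by positivity : 0 < l / 2)] at this
      linarith
    · have := abs_sub x₀ (l / 2)
      rw [abs_of_pos (by positivity : 0 < l / 2)] at this
      linarith
    · have h5 : y * (4 * (|x₀| + l)) ≤ 2 * (H * l / (8 * (|x₀| + l))) * (4 * (|x₀| + l)) :=
        mul_le_mul_of_nonneg_right h3 (by positivity)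
      have h6 : 2 * (H * l / (8 * (|x₀| + l))) * (4 * (|x₀| + l)) = H * l := by
        field_simp
        ring
      rw [h6] at h5
      linarith
  rw [zero_add, zero_add] at h4
  exact tri_mem hT h0 h2 (by rw [segment_symm]; exact h1) h4

theorem l2_flip {T : Set (ℝ × ℝ)} {p q : ℝ × ℝ}
    (h : segment ℝ ((p.1, -p.2) : ℝ × ℝ) (q.1, -q.2) ⊆ T) : segment ℝ p q ⊆ flipy T := by
  rintro x ⟨a, b, ha, hb, hab, rfl⟩
  refine h ⟨a, b, ha, hb, hab, ?_⟩
  ext
  · simp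
  · simp
    ring

/-- [BI-L2] A triangle on the middle half of the chord gives an admissible rectangle.
PROOF. `l = |v| > 0`, `u = v / l`; frame `(z, u)`. `C = fr z u (x₀, H)`, `H ≠ 0`. The triangle `(-l/2, 0), (l/2, 0), (x₀, H)` of the frame is in
`fr z u ⁻¹' S` (`TriConn_inF`, `tri_subset`, `segment_inF`). If `H > 0`: `rect_in_tri` (base `[-l/2, l/2]`, `W = |x₀| + l`): the rectangle
`[-l/4, l/4] × [0, 2 h']` is in it as soon as `2 h' * 4 W ≤ H l`; take `r' = l / 4`, `h' = min (H l / (8 W)) (r' / 10 ^ 20)`; it is admissible with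
`OnSide z v R' 1`, centre `fr z u (0, h')`. If `H < 0`, reflect: rectangle `[-l/4, l/4] × [-2 h', 0]`, `OnSide z v R' (-1)`. -/
theorem adm_of_triangle {S : Set (ℝ × ℝ)} (hS : TriConn S) {z v C : ℝ × ℝ} (hz : Ch z v ⊆ S)
    (hC : dt v (C.1 - z.1, C.2 - z.2) ≠ 0)
    (h1 : segment ℝ (z.1 - v.1 / 2, z.2 - v.2 / 2) C ⊆ S)
    (h2 : segment ℝ (z.1 + v.1 / 2, z.2 + v.2 / 2) C ⊆ S) : ∃ R, Adm S z v R := by
  have hv : 0 < v.1 ^ 2 + v.2 ^ 2 := by
    by_contra hcon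
    have e1 : v.1 = 0 := by nlinarith [sq_nonneg v.1, sq_nonneg v.2]
    have e2 : v.2 = 0 := by nlinarith [sq_nonneg v.1, sq_nonneg v.2]
    exact hC (by simp [dt, e1, e2])
  obtain ⟨l, hl, hl2⟩ : ∃ l : ℝ, 0 < l ∧ l ^ 2 = v.1 ^ 2 + v.2 ^ 2 :=
    ⟨Real.sqrt (v.1 ^ 2 + v.2 ^ 2), Real.sqrt_pos.2 hv, Real.sq_sqrt hv.le⟩
  obtain ⟨u, hu1, hu2⟩ : ∃ u : ℝ × ℝ, v.1 = l * u.1 ∧ v.2 = l * u.2 :=
    ⟨(v.1 / l, v.2 / l), by simp only; field_simp, by simp only; field_simp⟩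
  have hu : UV u := by
    unfold UV
    have h3 : l ^ 2 * (u.1 ^ 2 + u.2 ^ 2) = l ^ 2 * 1 := by
      rw [hu1, hu2] at hl2
      linear_combination -hl2
    exact mul_left_cancel₀ (by positivity) h3
  have hve : v = (l * u.1, l * u.2) := Prod.ext hu1 hu2
  obtain ⟨x₀, H, hCe⟩ : ∃ x₀ H : ℝ, C = fr z u (x₀, H) :=
    ⟨(fi z u C).1, (fi z u C).2, (fr_fi hu C).symm⟩
  have hH : H ≠ 0 := by
    rintro rfl
    apply hC
    rw [hCe, hve]
    simp only [dt, fr]
    ring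
  have eA : fr z u (-(l / 2), 0) = (z.1 - v.1 / 2, z.2 - v.2 / 2) := by
    rw [hve]
    ext
    · simp only [fr]
      ring
    · simp only [fr]
      ring
  have eB : fr z u (l / 2, 0) = (z.1 + v.1 / 2, z.2 + v.2 / 2) := by
    rw [hve]
    ext
    · simp only [fr]
      ring
    · simp only [fr]
      ring
  have mA : (z.1 - v.1 / 2, z.2 - v.2 / 2) ∈ Ch z v := by
    refine ⟨3 / 4, 1 / 4, by norm_num, by norm_num, by norm_num, ?_⟩
    ext
    · simp
      ring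
    · simp
      ring
  have mB : (z.1 + v.1 / 2, z.2 + v.2 / 2) ∈ Ch z v := by
    refine ⟨1 / 4, 3 / 4, by norm_num, by norm_num, by norm_num, ?_⟩
    ext
    · simp
      ring
    · simp
      ring
  have s0 : segment ℝ ((-(l / 2), 0) : ℝ × ℝ) (l / 2, 0) ⊆ fr z u ⁻¹' S := by
    rw [segment_inF, eA, eB]
    exact ((convex_segment _ _).segment_subset mA mB).trans hz
  have s1 : segment ℝ ((-(l / 2), 0) : ℝ × ℝ) (x₀, H) ⊆ fr z u ⁻¹' S := by
    rw [segment_inF, eA, ← hCe]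
    exact h1
  have s2 : segment ℝ ((l / 2, 0) : ℝ × ℝ) (x₀, H) ⊆ fr z u ⁻¹' S := by
    rw [segment_inF, eB, ← hCe]
    exact h2
  have hT := TriConn_inF hS (c := z) hu
  have eR : ∀ a x y : ℝ, fr (fr z u (0, a)) u (x, y) = fr z u (x, a + y) := by
    intro a x y
    ext
    · simp only [fr]
      ring
    · simp only [fr]
      ring
  rcases lt_or_gt_of_ne hH with hneg | hpos
  · obtain ⟨h', h0, hle, hR⟩ := l2_std (TriConn_flipy hT) hl (neg_pos.2 hneg)
      (l2_flip (by simpa using s0)) (l2_flip (by simpa using s1)) (l2_flip (by simpa using s2))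
    refine ⟨⟨fr z u (0, -h'), u, l / 4, h'⟩, hu, h0, hle, ?_, Or.inr ⟨0, l, ?_, hve, ?_⟩⟩
    · intro x y hx hy
      have hy' := abs_le.1 hy
      have h3 := hR x (h' - y) hx (by linarith) (by simp only at hy'; linarith)
      have h4 : (x, -(h' - y)) ∈ fr z u ⁻¹' S := h3
      rw [eR]
      have e : -h' + y = -(h' - y) := by ring
      rw [e]
      exact h4
    · simp only [abs_zero]
      linarith
    · simp only
      rw [eR]
      ext
      · simp [fr]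
      · simp [fr]
  · obtain ⟨h', h0, hle, hR⟩ := l2_std hT hl hpos s0 s1 s2
    refine ⟨⟨fr z u (0, h'), u, l / 4, h'⟩, hu, h0, hle, ?_, Or.inl ⟨0, l, ?_, hve, ?_⟩⟩
    · intro x y hx hy
      have hy' := abs_le.1 hy
      simp only at hy'
      rw [eR]
      exact hR x (h' + y) hx (by linarith) (by linarith)
    · simp only [abs_zero]
      linarith
    · simp only
      rw [eR]
      ext
      · simp [fr]
      · simp [fr]

end Pool.Agent.BI
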