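import Pool.Agent.BI.L1
import Pool.Agent.BI.L2

set_option autoImplicit false

open MeasureTheory Set
open scoped ENNReal

namespace Pool.Agent.BI

/-- the two small translations -/
noncomputable def l3_s (n : ℕ) : (ℝ × ℝ) × (ℝ × ℝ) := ((0, 1 / ((n : ℝ) + 1) / 2), (0, 1 / ((n : ℝ) + 1)))

/-- the two small translations -/
noncomputable def l3_t (n : ℕ) : (ℝ × ℝ) × (ℝ × ℝ) := ((0, 1 / ((n : ℝ) + 1) / 2), (0, -(1 / ((n : ℝ) + 1))))

theorem l3_tendsto_s : Filter.Tendsto l3_s Filter.atTop (nhds 0) := by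
  have h := tendsto_one_div_add_atTop_nhds_zero_nat (𝕜 := ℝ)
  have h2 := h.div_const 2
  rw [zero_div] at h2
  exact (tendsto_const_nhds.prodMk_nhds h2).prodMk_nhds (tendsto_const_nhds.prodMk_nhds h)

theorem l3_tendsto_t : Filter.Tendsto l3_t Filter.atTop (nhds 0) := by
  have h := tendsto_one_div_add_atTop_nhds_zero_nat (𝕜 := ℝ)
  have h2 := h.div_const 2
  have h3 := h.neg
  rw [zero_div] at h2
  rw [neg_zero] at h3
  exact (tendsto_const_nhds.prodMk_nhds h2).prodMk_nhds (tendsto_const_nhds.prodMk_nhds h3)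

theorem l3_null : volume {p : (ℝ × ℝ) × (ℝ × ℝ) | p.2.1 = 0} = 0 := by
  have h : {p : (ℝ × ℝ) × (ℝ × ℝ) | p.2.1 = 0} = univ ×ˢ (({0} : Set ℝ) ×ˢ univ) := by
    ext p
    simp
  rw [h, Measure.volume_eq_prod, Measure.prod_prod, Measure.volume_eq_prod, Measure.prod_prod,
    Real.volume_singleton, zero_mul, mul_zero]

/-- the segment from a point of the chord to its midpoint -/
theorem l3_seg {S : Set (ℝ × ℝ)} {z v : ℝ × ℝ} (h : Ch z v ⊆ S) {P : ℝ × ℝ} {c : ℝ}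
    (hc : c = 1 ∨ c = -1) (hP : P = z + (c / 2) • v) : segment ℝ P z ⊆ S := by
  refine Subset.trans ((convex_segment _ _).segment_subset ?_ ?_) h
  · rcases hc with rfl | rfl
    · refine ⟨1 / 4, 3 / 4, by norm_num, by norm_num, by norm_num, ?_⟩
      rw [hP]
      module
    · refine ⟨3 / 4, 1 / 4, by norm_num, by norm_num, by norm_num, ?_⟩
      rw [hP]
      module
  · refine ⟨1 / 2, 1 / 2, by norm_num, by norm_num, by norm_num, ?_⟩
    module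

/-- [BI-L3] Almost every chord has an admissible rectangle.
PROOF. Let `s n = ((0, ρ/2), (0, ρ))`, `t n = ((0, ρ/2), (0, -ρ))`, `ρ = 1 / (n + 1)`. Let
`A = {p ∈ G | p.2.1 ≠ 0 ∧ ∀ n, ¬ (p + s n ∈ G ∧ p + t n ∈ G)}`, measurable. If `volume A ≠ 0`, `exists_translate` gives `n` and `p ∈ A` with
`p + s n, p + t n ∈ A ⊆ G`, a contradiction. So `volume A = 0`; also `volume {p | p.2.1 = 0} = 0`. If `p = (z, v) ∈ G` is in neither set,
there is `n` with `p + s n, p + t n ∈ G`: with `C = z + (0, ρ/2)`, the chord `(z + (0, ρ/2), v + (0, ρ))` contains the point with parameter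
`-1/2`: `z + (0, ρ/2) - v/2 - (0, ρ/2) = z - v/2`, and its midpoint `C`; the chord `(z + (0, ρ/2), v - (0, ρ))` contains
`z + v/2` (parameter `1/2`) and `C`. So the segments `[z - v/2, C]`, `[z + v/2, C]` are in `S`, and
`dt v (0, ρ/2) = v.1 ρ / 2 ≠ 0`: `adm_of_triangle`. -/
theorem null_chords {S : Set (ℝ × ℝ)} (hS : TriConn S) {G : Set ((ℝ × ℝ) × (ℝ × ℝ))}
    (hG : MeasurableSet G) (hGS : ∀ p ∈ G, Ch p.1 p.2 ⊆ S) :
    volume {p | p ∈ G ∧ ¬ ∃ R, Adm S p.1 p.2 R} = 0 := by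
  set A : Set ((ℝ × ℝ) × (ℝ × ℝ)) :=
    {p | p ∈ G ∧ p.2.1 ≠ 0 ∧ ∀ n, ¬ (p + l3_s n ∈ G ∧ p + l3_t n ∈ G)} with hA
  have hAm : MeasurableSet A := by
    have h1 : MeasurableSet {p : (ℝ × ℝ) × (ℝ × ℝ) | p.2.1 ≠ 0} := by
      have h2 : Measurable fun p : (ℝ × ℝ) × (ℝ × ℝ) => p.2.1 := by fun_prop
      exact (h2 (measurableSet_singleton (0 : ℝ))).compl
    have h3 : ∀ w : (ℝ × ℝ) × (ℝ × ℝ), MeasurableSet {p : (ℝ × ℝ) × (ℝ × ℝ) | p + w ∈ G} := by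
      intro w
      have h4 : Measurable fun p : (ℝ × ℝ) × (ℝ × ℝ) => p + w := by fun_prop
      exact h4 hG
    have h5 : MeasurableSet {p : (ℝ × ℝ) × (ℝ × ℝ) | ∀ n, ¬ (p + l3_s n ∈ G ∧ p + l3_t n ∈ G)} := by
      have h6 : {p : (ℝ × ℝ) × (ℝ × ℝ) | ∀ n, ¬ (p + l3_s n ∈ G ∧ p + l3_t n ∈ G)} =
          ⋂ n : ℕ, ({p | p + l3_s n ∈ G} ∩ {p | p + l3_t n ∈ G})ᶜ := by
        ext p
        simp only [mem_iInter, mem_compl_iff]
        rfl
      rw [h6]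
      exact MeasurableSet.iInter fun n => ((h3 _).inter (h3 _)).compl
    exact hG.inter (h1.inter h5)
  have hA0 : volume A = 0 := by
    by_contra h0
    obtain ⟨n, p, hp, h1, h2⟩ := exists_translate hAm h0 l3_tendsto_s l3_tendsto_t
    exact hp.2.2 n ⟨h1.1, h2.1⟩
  refine measure_mono_null ?_ (measure_union_null hA0 l3_null)
  rintro ⟨z, v⟩ ⟨hpG, hno⟩
  by_cases hv : v.1 = 0
  · right
    exact hv
  · left
    refine ⟨hpG, hv, fun n hn => hno ?_⟩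
    obtain ⟨hn1, hn2⟩ := hn
    have hρ : 0 < 1 / ((n : ℝ) + 1) := by positivity
    have g1 := hGS _ hn1
    have g2 := hGS _ hn2
    refine adm_of_triangle hS (hGS _ hpG) (C := z + (0, 1 / ((n : ℝ) + 1) / 2)) ?_ ?_ ?_
    · show v.1 * ((z.2 + 1 / ((n : ℝ) + 1) / 2) - z.2) - v.2 * ((z.1 + 0) - z.1) ≠ 0
      have h3 : v.1 * ((z.2 + 1 / ((n : ℝ) + 1) / 2) - z.2) - v.2 * ((z.1 + 0) - z.1) =
          v.1 * (1 / ((n : ℝ) + 1) / 2) := by ring
      rw [h3]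
      exact mul_ne_zero hv (by positivity)
    · refine l3_seg g1 (c := -1) (Or.inr rfl) ?_
      ext
      · show z.1 - v.1 / 2 = z.1 + 0 + (-1 / 2) * (v.1 + 0)
        ring
      · show z.2 - v.2 / 2 = z.2 + 1 / ((n : ℝ) + 1) / 2 + (-1 / 2) * (v.2 + 1 / ((n : ℝ) + 1))
        ring
    · refine l3_seg g2 (c := 1) (Or.inl rfl) ?_
      ext
      · show z.1 + v.1 / 2 = z.1 + 0 + (1 / 2) * (v.1 + 0)
        ring
      · show z.2 + v.2 / 2 = z.2 + 1 / ((n : ℝ) + 1) / 2 + (1 / 2) * (v.2 + -(1 / ((n : ℝ) + 1)))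
        ring

end Pool.Agent.BI
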