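import Pool.Agent.BI.Basic

set_option autoImplicit false

open MeasureTheory Set
open scoped ENNReal

namespace Pool.Agent.BI

/-- [BI-M1] A maximal separated finite set.
PROOF. By hypothesis the cardinalities of the finite subsets `F ⊆ A` which are pairwise non-similar (in both orders) are bounded by `N`; the empty
set is one; take one of maximal cardinality (`Nat.find`/`Nat.findGreatest` or well-foundedness). If `R ∈ A` is not similar to any
element of `F` (in either order), then `R ∉ F` by `hrefl` and `insert R F` (classical `DecidableEq`, `Finset.cons`) is larger, a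
contradiction. -/
theorem exists_maximal_sep {α : Type*} (A : Set α) (sim : α → α → Prop) (hrefl : ∀ a ∈ A, sim a a)
    (N : ℕ) (hN : ∀ F : Finset α, (∀ a ∈ F, a ∈ A) → (∀ a ∈ F, ∀ b ∈ F, a ≠ b → ¬ sim a b) →
      F.card ≤ N) :
    ∃ F : Finset α, (∀ a ∈ F, a ∈ A) ∧ (∀ a ∈ F, ∀ b ∈ F, a ≠ b → ¬ sim a b) ∧
      ∀ a ∈ A, ∃ b ∈ F, sim a b ∨ sim b a := by
  classical
  let P : ℕ → Prop := fun n => ∃ F : Finset α, (∀ a ∈ F, a ∈ A) ∧
    (∀ a ∈ F, ∀ b ∈ F, a ≠ b → ¬ sim a b) ∧ F.card = n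
  have h0 : P 0 := ⟨∅, by simp, by simp, rfl⟩
  have hle : ∀ n, P n → n ≤ N := by
    rintro n ⟨F, h1, h2, rfl⟩
    exact hN F h1 h2
  obtain ⟨F, h1, h2, h3⟩ : P (Nat.findGreatest P N) :=
    Nat.findGreatest_spec (P := P) (Nat.zero_le N) h0
  refine ⟨F, h1, h2, ?_⟩
  intro a ha
  by_contra hc
  push Not at hc
  have haF : a ∉ F := fun h => (hc a h).1 (hrefl a ha)
  have h4 : P (F.card + 1) := by
    refine ⟨insert a F, ?_, ?_, Finset.card_insert_of_notMem haF⟩
    · intro b hb
      rcases Finset.mem_insert.1 hb with rfl | hb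
      · exact ha
      · exact h1 b hb
    · intro b hb b' hb' hne
      rcases Finset.mem_insert.1 hb with h6 | h6
      · rcases Finset.mem_insert.1 hb' with h7 | h7
        · exact absurd (h6.trans h7.symm) hne
        · rw [h6]
          exact (hc b' h7).1
      · rcases Finset.mem_insert.1 hb' with h7 | h7
        · rw [h7]
          exact (hc b h6).2
        · exact h2 b h6 b' h7 hne
  have h5 := Nat.le_findGreatest (hle _ h4) h4
  rw [h3] at h5
  omega

/-- [BI-M1] The class determines the size. PROOF: `Sel` gives `2 ^ n ≤ R.r < 2 * 2 ^ n = 2 ^ (n + 1)`; `Int.log_eq_iff` or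
`Int.zpow_log_le_self`, `Int.lt_zpow_succ_log_self`. -/
theorem cl_eq {S : Set (ℝ × ℝ)} {κ : ℝ} {n : ℤ} {p : (ℝ × ℝ) × (ℝ × ℝ)} {R : Room}
    (h : Sel S κ ((2 : ℝ) ^ n) p R) : cl R = n := by
  obtain ⟨-, h1, h2, -, -⟩ := h
  have hp : (0 : ℝ) < (2 : ℝ) ^ n := by positivity
  have hr : 0 < R.r := lt_of_lt_of_le hp h1
  unfold cl
  have h3 : n ≤ Int.log 2 R.r := by
    refine (Int.zpow_le_iff_le_log one_lt_two hr).1 ?_
    exact_mod_cast h1
  have h4 : Int.log 2 R.r < n + 1 := by
    refine (Int.lt_zpow_iff_log_lt one_lt_two hr).1 ?_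
    push_cast
    rw [zpow_add₀ two_ne_zero, zpow_one]
    linarith
  omega

end Pool.Agent.BI
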