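import Pool.Agent.BI.M1
import Pool.Agent.BI.J4

set_option autoImplicit false

open MeasureTheory Set
open scoped ENNReal

namespace Pool.Agent.BI

/-- [BI-M2] Finite unions of separated sets of selected rooms, in classes congruent modulo `M`, form a family.
PROOF. `tri, κ0, ε0, ε1` given. `room`: `NearMax.isRoom`. All elements of `F` have class `n` with `2 ^ n ≤ R.r < 2 * 2 ^ n` (`cl_eq`). `same`: clear. `lt`: `cl i < cl j`, both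
`≡ ν mod M`, so `cl i ≤ cl j - M` and `i.r < 2 * 2 ^ (cl i) ≤ 2 * 2 ^ (-M) * 2 ^ (cl j) ≤ (ε²/4) j.r` by `hM`.
`sep`: `Close κ i j` with `ρ = 2 ^ n`, `n` the common class, `ρ ≤ j.r < 2 ρ`: `Sim κ ρ i j` (`10 ^ 18 κ / j.r² ≤ 10 ^ 18 κ / ρ²`, ...,
`(4 j.r)² ≤ (8 ρ)²`), contradicting `hsep`. -/
theorem fam_of_sel {S : Set (ℝ × ℝ)} (hS : TriConn S) {κ ε : ℝ} (hκ : 0 < κ) (hε : 0 < ε)
    (hε1 : ε ≤ 1 / 10 ^ 30) {M : ℕ} (hM : ((1 : ℝ) / 2) ^ M ≤ ε ^ 2 / 8) {ν : ℤ}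
    {G : Set ((ℝ × ℝ) × (ℝ × ℝ))} {F : Finset Room}
    (hF : ∀ R ∈ F, R ∈ SR S κ (cl R) G ∧ cl R % M = ν)
    (hsep : ∀ i ∈ F, ∀ j ∈ F, i ≠ j → cl i = cl j → ¬ Sim κ ((2 : ℝ) ^ (cl j)) i j) :
    Fam S κ ε F cl := by
  have hsel : ∀ R ∈ F, ∃ p ∈ G, Sel S κ ((2 : ℝ) ^ (cl R)) p R := fun R hR => (hF R hR).1
  have hpos : ∀ n : ℤ, (0 : ℝ) < (2 : ℝ) ^ n := fun n => zpow_pos (by norm_num) n
  refine ⟨hS, hκ, hε, hε1, ?_, ?_, ?_, ?_⟩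
  · intro R hR
    obtain ⟨p, -, h⟩ := hsel R hR
    exact h.1.isRoom h.2.2.2.1 h.2.2.2.2
  · intro i hi j hj hij
    obtain ⟨p, -, h⟩ := hsel i hi
    obtain ⟨q, -, h'⟩ := hsel j hj
    have h1 := h.2.2.1
    have h2 := h'.2.1
    rw [hij] at h1
    linarith
  · intro i hi j hj hij
    obtain ⟨p, -, h⟩ := hsel i hi
    obtain ⟨q, -, h'⟩ := hsel j hj
    have h1 := h.2.2.1
    have h2 := h'.2.1
    have h3 : (M : ℤ) ∣ cl j - cl i := by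
      apply Int.dvd_of_emod_eq_zero
      rw [← Int.emod_eq_emod_iff_emod_sub_eq_zero, (hF j hj).2, (hF i hi).2]
    have h4 : (M : ℤ) ≤ cl j - cl i := Int.le_of_dvd (by omega) h3
    have h5 : (2 : ℝ) ^ (cl i) ≤ (2 : ℝ) ^ (cl j) * (1 / 2) ^ M := by
      calc (2 : ℝ) ^ (cl i) ≤ (2 : ℝ) ^ (cl j - M) := zpow_le_zpow_right₀ (by norm_num) (by omega)
        _ = (2 : ℝ) ^ (cl j) * (1 / 2) ^ M := by
          rw [zpow_sub₀ (by norm_num), zpow_natCast, one_div, inv_pow, div_eq_mul_inv]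
    have h6 := hpos (cl j)
    have h7 : (2 : ℝ) ^ (cl j) * (1 / 2) ^ M ≤ (2 : ℝ) ^ (cl j) * (ε ^ 2 / 8) :=
      mul_le_mul_of_nonneg_left hM h6.le
    have h8 : (2 : ℝ) ^ (cl j) * (ε ^ 2 / 8) ≤ j.r * (ε ^ 2 / 8) :=
      mul_le_mul_of_nonneg_right h2 (by positivity)
    linarith
  · intro i hi j hj hij hc hcl
    obtain ⟨q, -, h'⟩ := hsel j hj
    have h1 := h'.2.2.1
    have h2 := h'.2.1
    have h6 := hpos (cl j)
    have h7 : 0 < j.r := lt_of_lt_of_le h6 h2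
    refine hsep i hi j hj hij hc ⟨hcl.1.trans ?_, hcl.2.1.trans ?_, hcl.2.2.trans ?_⟩
    · gcongr
    · gcongr
    · nlinarith

end Pool.Agent.BI
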