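import Pool.Agent.BI.M2
import Pool.Agent.BI.K8
import Pool.Agent.BI.I6

set_option autoImplicit false

open MeasureTheory Set
open scoped ENNReal

namespace Pool.Agent.BI

/-- [BI-M3] One class, one level.
PROOF. `Fam.level` applied to `F` (`fam_of_sel` with `ε = 1 / 10 ^ 30`, `M` large, `ν = n % M`) bounds the cardinality of every pairwise non-similar finite
subset of `SR S κ n G` by one number `N` (the right side of `Fam.level` is finite, `κ > 0`). `exists_maximal_sep` with `sim = Sim κ (2 ^ n)`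
(reflexive: `dt u u = 0`, `(fi c u c).2 = 0`, `d2 = 0`). Then `{p ∈ G | ∃ R, Sel ...}` is contained in the union over `j ∈ F` of the sets of
`cell_volume`. -/
theorem class_family {S S' : Set (ℝ × ℝ)} (hS : TriConn S) (hS' : MeasurableSet S')
    (hSS' : S ⊆ S') (hfin : volume S' ≠ ⊤) {κ : ℝ} (hκ : 0 < κ) (n : ℤ)
    {G G' : Set ((ℝ × ℝ) × (ℝ × ℝ))} (hG : MeasurableSet G) (hGS : ∀ p ∈ G, Ch p.1 p.2 ⊆ S)
    (hG'm : MeasurableSet G') (hG' : ∀ y w : ℝ × ℝ, segment ℝ y (y + w) ⊆ S → (y, w) ∈ G')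
    (hG'fin : volume G' ≠ ⊤) :
    ∃ F : Finset Room, (∀ R ∈ F, R ∈ SR S κ n G) ∧
      (∀ i ∈ F, ∀ j ∈ F, i ≠ j → ¬ Sim κ ((2 : ℝ) ^ n) i j) ∧
      volume {p | p ∈ G ∧ ∃ R, Sel S κ ((2 : ℝ) ^ n) p R} ≤
        F.card * ENNReal.ofReal (10 ^ 49 * κ ^ 2) := by
  classical
  have hρ : (0 : ℝ) < (2 : ℝ) ^ n := by positivity
  set ε : ℝ := 1 / 10 ^ 30 with hεdef
  have hε : 0 < ε := by rw [hεdef]; positivity
  obtain ⟨M, hM⟩ := exists_pow_lt_of_lt_one (show (0 : ℝ) < ε ^ 2 / 8 by positivity)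
    (show (1 / 2 : ℝ) < 1 by norm_num)
  set B : ℝ≥0∞ := ENNReal.ofReal (15000 * κ / ε ^ 4) * volume S' +
    ENNReal.ofReal (10 ^ 33 * ε) * volume G' with hB
  have hBfin : B ≠ ⊤ := by
    rw [hB]
    exact ENNReal.add_ne_top.mpr ⟨ENNReal.mul_ne_top ENNReal.ofReal_ne_top hfin,
      ENNReal.mul_ne_top ENNReal.ofReal_ne_top hG'fin⟩
  have hκ2 : ENNReal.ofReal (κ ^ 2) ≠ 0 := by
    rw [Ne, ENNReal.ofReal_eq_zero]
    have : 0 < κ ^ 2 := by positivity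
    linarith
  have hBκ : B / ENNReal.ofReal (κ ^ 2) ≠ ⊤ := ENNReal.div_ne_top hBfin hκ2
  have hN : ∀ F : Finset Room, (∀ a ∈ F, a ∈ SR S κ n G) →
      (∀ a ∈ F, ∀ b ∈ F, a ≠ b → ¬ Sim κ ((2 : ℝ) ^ n) a b) →
      F.card ≤ ⌈(B / ENNReal.ofReal (κ ^ 2)).toReal⌉₊ := by
    intro F hF1 hF2
    have hcl : ∀ R ∈ F, cl R = n := by
      intro R hR
      obtain ⟨p, -, hp⟩ := hF1 R hR
      exact cl_eq hp
    have T : Fam S κ ε F cl := by
      refine fam_of_sel hS hκ hε le_rfl hM.le (ν := n % M) (G := G) ?_ ?_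
      · intro R hR
        rw [hcl R hR]
        exact ⟨hF1 R hR, rfl⟩
      · intro i hi j hj hij _
        rw [hcl j hj]
        exact hF2 i hi j hj hij
    have h1 := T.level hS' hSS' hG'm hG'
    have h2 : (F.card : ℝ≥0∞) ≤ B / ENNReal.ofReal (κ ^ 2) := by
      rw [ENNReal.le_div_iff_mul_le (Or.inl hκ2) (Or.inl ENNReal.ofReal_ne_top)]
      exact h1
    have h3 : (F.card : ℝ) ≤ (B / ENNReal.ofReal (κ ^ 2)).toReal := by
      have := ENNReal.toReal_mono hBκ h2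
      simpa using this
    exact_mod_cast h3.trans (Nat.le_ceil _)
  obtain ⟨F, hF1, hF2, hF3⟩ := exists_maximal_sep (SR S κ n G) (Sim κ ((2 : ℝ) ^ n)) (by
    intro a _
    refine ⟨?_, ?_, ?_⟩
    · have : dt a.u a.u = 0 := by unfold dt; ring
      rw [this, abs_zero]; positivity
    · have : (fi a.c a.u a.c).2 = 0 := by unfold fi; ring
      rw [this, abs_zero]; positivity
    · have : d2 a.c a.c = 0 := by unfold d2; ring
      rw [this]; positivity) _ hN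
  refine ⟨F, hF1, hF2, ?_⟩
  have hsub : {p | p ∈ G ∧ ∃ R, Sel S κ ((2 : ℝ) ^ n) p R} ⊆
      ⋃ j ∈ F, {p | p ∈ G ∧ ∃ R, Sel S κ ((2 : ℝ) ^ n) p R ∧
        (Sim κ ((2 : ℝ) ^ n) R j ∨ Sim κ ((2 : ℝ) ^ n) j R)} := by
    rintro p ⟨hp, R, hR⟩
    obtain ⟨j, hj, hsim⟩ := hF3 R ⟨p, hp, hR⟩
    rw [mem_iUnion₂]
    exact ⟨j, hj, hp, R, hR, hsim⟩
  refine (measure_mono hsub).trans ((measure_biUnion_finset_le _ _).trans ?_)
  have hle : ∀ j ∈ F, volume {p | p ∈ G ∧ ∃ R, Sel S κ ((2 : ℝ) ^ n) p R ∧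
        (Sim κ ((2 : ℝ) ^ n) R j ∨ Sim κ ((2 : ℝ) ^ n) j R)} ≤
      ENNReal.ofReal (10 ^ 49 * κ ^ 2) := by
    intro j hj
    obtain ⟨p, -, hp⟩ := hF1 j hj
    exact cell_volume hS hκ hρ hG hGS hp.1.1.1
  refine (Finset.sum_le_sum hle).trans ?_
  rw [Finset.sum_const, nsmul_eq_mul]

end Pool.Agent.BI
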