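import Pool.Agent.BI.M3

set_option autoImplicit false

open MeasureTheory Set
open scoped ENNReal

namespace Pool.Agent.BI

open Classical in
/-- One residue class: the union of the chosen families is a family. -/
theorem m4_residue {S S' : Set (ℝ × ℝ)} (hS : TriConn S) (hS' : MeasurableSet S')
    (hSS' : S ⊆ S') {κ ε : ℝ} (hκ : 0 < κ) (hε : 0 < ε)
    (hε1 : ε ≤ 1 / 10 ^ 30) {M : ℕ} (hM : ((1 : ℝ) / 2) ^ M ≤ ε ^ 2 / 8)
    {G G' : Set ((ℝ × ℝ) × (ℝ × ℝ))}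
    (hG'm : MeasurableSet G') (hG' : ∀ y w : ℝ × ℝ, segment ℝ y (y + w) ⊆ S → (y, w) ∈ G')
    (F : ℤ → Finset Room) (hF1 : ∀ n, ∀ R ∈ F n, R ∈ SR S κ n G)
    (hF2 : ∀ n, ∀ i ∈ F n, ∀ j ∈ F n, i ≠ j → ¬ Sim κ ((2 : ℝ) ^ n) i j) (N : Finset ℤ) (ν : ℤ)
    (hN : ∀ n ∈ N, n % M = ν) :
    (∑ n ∈ N, ((F n).card : ℝ≥0∞)) * ENNReal.ofReal (κ ^ 2) ≤
      ENNReal.ofReal (15000 * κ / ε ^ 4) * volume S' +
        ENNReal.ofReal (10 ^ 33 * ε) * volume G' := by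
  have hcl : ∀ n, ∀ R ∈ F n, cl R = n := by
    intro n R hR
    obtain ⟨p, -, hp⟩ := hF1 n R hR
    exact cl_eq hp
  have hcard : (∑ n ∈ N, ((F n).card : ℝ≥0∞)) = ((N.biUnion F).card : ℝ≥0∞) := by
    rw [Finset.card_biUnion]
    · push_cast
      rfl
    · intro n _ m _ hnm
      rw [Function.onFun, Finset.disjoint_left]
      intro R hR hR'
      exact hnm ((hcl n R hR).symm.trans (hcl m R hR'))
  rw [hcard]
  have hfam : Fam S κ ε (N.biUnion F) cl := by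
    refine fam_of_sel (G := G) (M := M) (ν := ν) hS hκ hε hε1 hM ?_ ?_
    · intro R hR
      obtain ⟨n, hn, hR⟩ := Finset.mem_biUnion.1 hR
      rw [hcl n R hR]
      exact ⟨hF1 n R hR, hN n hn⟩
    · intro i hi j hj hij hc
      obtain ⟨n, hn, hi⟩ := Finset.mem_biUnion.1 hi
      obtain ⟨m, hm, hj⟩ := Finset.mem_biUnion.1 hj
      rw [hcl n i hi, hcl m j hj] at hc
      subst hc
      rw [hcl n j hj]
      exact hF2 n i hi j hj hij
  exact hfam.level hS' hSS' hG'm hG'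

/-- [BI-M4] One level, all classes.
PROOF. Let `F n` be the families of `class_family`. For a finite set `N` of integers and a residue `ν` the union of the `F n`, `n ∈ N`, `n ≡ ν`, is a family
(`fam_of_sel`; `cl_eq`), of cardinality `∑ card (F n)` (disjoint: classes differ), so `Fam.level` gives
`∑_{n ∈ N, n ≡ ν} volume (...) ≤ 10 ^ 49 * B` with `B` the right side of `Fam.level`. Sum over the `M` residues; the `tsum` is the supremum of the finite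
sums (`ENNReal.tsum_eq_iSup_sum`). -/
theorem level_bound {S S' : Set (ℝ × ℝ)} (hS : TriConn S) (hS' : MeasurableSet S')
    (hSS' : S ⊆ S') (hfin : volume S' ≠ ⊤) {κ ε : ℝ} (hκ : 0 < κ) (hε : 0 < ε)
    (hε1 : ε ≤ 1 / 10 ^ 30) {M : ℕ} (hM : ((1 : ℝ) / 2) ^ M ≤ ε ^ 2 / 8)
    {G G' : Set ((ℝ × ℝ) × (ℝ × ℝ))} (hG : MeasurableSet G) (hGS : ∀ p ∈ G, Ch p.1 p.2 ⊆ S)
    (hG'm : MeasurableSet G') (hG' : ∀ y w : ℝ × ℝ, segment ℝ y (y + w) ⊆ S → (y, w) ∈ G')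
    (hG'fin : volume G' ≠ ⊤) :
    ∑' n : ℤ, volume {p | p ∈ G ∧ ∃ R, Sel S κ ((2 : ℝ) ^ n) p R} ≤
      M * (10 ^ 49 * (ENNReal.ofReal (15000 * κ / ε ^ 4) * volume S' +
        ENNReal.ofReal (10 ^ 33 * ε) * volume G')) := by
  choose F hF1 hF2 hF3 using fun n : ℤ =>
    class_family hS hS' hSS' hfin hκ n hG hGS hG'm hG' hG'fin
  set B : ℝ≥0∞ := ENNReal.ofReal (15000 * κ / ε ^ 4) * volume S' +
    ENNReal.ofReal (10 ^ 33 * ε) * volume G' with hB
  have hM0 : (0 : ℤ) < M := by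
    rcases Nat.eq_zero_or_pos M with h | h
    · exfalso
      rw [h, pow_zero] at hM
      have : ε ^ 2 ≤ 1 := by
        have : ε ≤ 1 := hε1.trans (by norm_num)
        nlinarith
      linarith
    · exact_mod_cast h
  rw [ENNReal.tsum_eq_iSup_sum]
  refine iSup_le fun N => ?_
  have h49 : ENNReal.ofReal (10 ^ 49 * κ ^ 2) = 10 ^ 49 * ENNReal.ofReal (κ ^ 2) := by
    rw [ENNReal.ofReal_mul (by positivity), ENNReal.ofReal_pow (by norm_num)]
    norm_num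
  calc ∑ n ∈ N, volume {p | p ∈ G ∧ ∃ R, Sel S κ ((2 : ℝ) ^ n) p R}
      ≤ ∑ n ∈ N, ((F n).card : ℝ≥0∞) * ENNReal.ofReal (10 ^ 49 * κ ^ 2) :=
        Finset.sum_le_sum fun n _ => hF3 n
    _ = ∑ ν ∈ Finset.Ico (0 : ℤ) M, ∑ n ∈ N with n % (M : ℤ) = ν,
          ((F n).card : ℝ≥0∞) * ENNReal.ofReal (10 ^ 49 * κ ^ 2) := by
        rw [Finset.sum_fiberwise_of_maps_to]
        intro n _
        rw [Finset.mem_Ico]
        exact ⟨Int.emod_nonneg _ hM0.ne', Int.emod_lt_of_pos _ hM0⟩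
    _ ≤ ∑ ν ∈ Finset.Ico (0 : ℤ) M, 10 ^ 49 * B := by
        refine Finset.sum_le_sum fun ν _ => ?_
        rw [← Finset.sum_mul, h49]
        have key := m4_residue hS hS' hSS' hκ hε hε1 hM hG'm hG' F hF1 hF2
          (N.filter fun n => n % (M : ℤ) = ν) ν (fun n hn => (Finset.mem_filter.1 hn).2)
        calc (∑ n ∈ N with n % (M : ℤ) = ν, ((F n).card : ℝ≥0∞)) *
              (10 ^ 49 * ENNReal.ofReal (κ ^ 2))
            = 10 ^ 49 * ((∑ n ∈ N with n % (M : ℤ) = ν, ((F n).card : ℝ≥0∞)) *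
              ENNReal.ofReal (κ ^ 2)) := by ring
          _ ≤ 10 ^ 49 * B := by
              gcongr
    _ = M * (10 ^ 49 * B) := by
        rw [Finset.sum_const, Int.card_Ico, nsmul_eq_mul]
        simp

end Pool.Agent.BI
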