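import Pool.Agent.BI.J1
import Pool.Agent.BI.M1

set_option autoImplicit false

open MeasureTheory Set
open scoped ENNReal

namespace Pool.Agent.BI

/-- [BI-M5] Every chord with an admissible rectangle has a selected room of some level `K / 2 ^ k` and some class.
PROOF. `exists_nearMax`; `0 < R.r R.h ≤ K / 4` (`RectIn.area`), so there is `k : ℕ` with `K / 2 ^ k ≤ R.r R.h < 2 (K / 2 ^ k)` (`exists_nat_pow_near` for
`K / (R.r R.h) ≥ 4 > 1`: `2 ^ k' ≤ K / (R.r R.h) < 2 ^ (k' + 1)`, `k = k' + 1`: then `K / 2 ^ k < R.r R.h ≤ 2 K / 2 ^ k`; for equality at the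
upper end use `k = k'`; or use `exists_nat_pow_near` for the other half-open convention), `n = cl R`. -/
theorem exists_sel {S : Set (ℝ × ℝ)} {K : ℝ} (hK : 0 < K)
    (hC : ∀ C ⊆ S, Convex ℝ C → volume C ≤ ENNReal.ofReal K) {p : (ℝ × ℝ) × (ℝ × ℝ)}
    (h : ∃ R, Adm S p.1 p.2 R) : ∃ (k : ℕ) (n : ℤ) (R : Room), Sel S (K / 2 ^ k) ((2 : ℝ) ^ n) p R := by
  obtain ⟨R, hR⟩ := exists_nearMax hK.le hC h
  obtain ⟨hu, hh, hthin, hrect, _⟩ := hR.1
  have hr : 0 < R.r := by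
    by_contra hcon
    have h1 : R.r / 10 ^ 20 ≤ 0 := div_nonpos_of_nonpos_of_nonneg (not_lt.mp hcon) (by positivity)
    linarith
  have harea := RectIn.area hK.le hC hu hr.le hh.le hrect
  set A : ℝ := R.r * R.h with hA
  have hA0 : 0 < A := mul_pos hr hh
  have hx : 1 ≤ K / A := by
    rw [le_div_iff₀ hA0]
    linarith
  obtain ⟨m, hm1, hm2⟩ := exists_nat_pow_near hx (one_lt_two : (1 : ℝ) < 2)
  have hm1' : A ≤ K / 2 ^ m := by
    rw [le_div_iff₀ (by positivity)]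
    rw [le_div_iff₀ hA0] at hm1
    linarith
  have hm2' : K / 2 ^ (m + 1) < A := by
    rw [div_lt_iff₀ (by positivity)]
    rw [div_lt_iff₀ hA0] at hm2
    linarith
  have hn1 : (2 : ℝ) ^ (Int.log 2 R.r) ≤ R.r := by
    have := Int.zpow_log_le_self (R := ℝ) (b := 2) (by norm_num) hr
    exact_mod_cast this
  have hn2 : R.r < 2 * (2 : ℝ) ^ (Int.log 2 R.r) := by
    have := Int.lt_zpow_succ_log_self (R := ℝ) (b := 2) (by norm_num) R.r
    rw [zpow_add_one₀ (by norm_num)] at this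
    push_cast at this
    linarith
  rcases hm1'.eq_or_lt with he | hlt
  · refine ⟨m, Int.log 2 R.r, R, hR, hn1, hn2, he.symm.le, ?_⟩
    rw [← hA, ← he]
    linarith
  · refine ⟨m + 1, Int.log 2 R.r, R, hR, hn1, hn2, hm2'.le, ?_⟩
    have h1 : 2 * (K / 2 ^ (m + 1)) = K / 2 ^ m := by
      rw [pow_succ]
      field_simp
    rw [h1]
    exact hlt

end Pool.Agent.BI
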