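import Pool.Agent.BI.Basic

set_option autoImplicit false

open MeasureTheory Set
open scoped ENNReal

namespace Pool.Agent.BI

/-- [BI-M6] Numerical series: `ε_k = (9/10)^k / 2 ^ 300`, `M_k = 603 + k`.
PROOF. `∑ (603 + k) (9/10)^k = 6030 + 90 = 6120` (`tsum_geometric_of_lt_one`, `tsum_coe_mul_geometric_of_norm_lt_one`), and
`6120 * 10 ^ 82 / 2 ^ 300 ≤ 1 / 8` (`2 ^ 300 > 2 * 10 ^ 90`). -/
theorem series1 : ∑' k : ℕ, ((603 + k : ℕ) : ℝ≥0∞) * (10 ^ 49 *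
    ENNReal.ofReal (10 ^ 33 * ((9 / 10) ^ k / 2 ^ 300))) ≤ ENNReal.ofReal (1 / 8) := by
  have h9 : ‖(9 / 10 : ℝ)‖ < 1 := by norm_num
  have hs1 : HasSum (fun k : ℕ => (9 / 10 : ℝ) ^ k) 10 := by
    have := hasSum_geometric_of_lt_one (r := (9 / 10 : ℝ)) (by norm_num) (by norm_num)
    norm_num at this
    exact this
  have hs2 : HasSum (fun k : ℕ => (k : ℝ) * (9 / 10 : ℝ) ^ k) 90 := by
    have := hasSum_coe_mul_geometric_of_norm_lt_one h9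
    norm_num at this
    exact this
  have hs3 : HasSum (fun k : ℕ => (603 + (k : ℝ)) * (10 ^ 49 *
      (10 ^ 33 * ((9 / 10 : ℝ) ^ k / 2 ^ 300)))) (10 ^ 82 / 2 ^ 300 * (603 * 10 + 90)) := by
    have := ((hs1.mul_left 603).add hs2).mul_left ((10 : ℝ) ^ 82 / 2 ^ 300)
    refine this.congr_fun ?_
    intro k
    ring
  have hterm : ∀ k : ℕ, ((603 + k : ℕ) : ℝ≥0∞) * (10 ^ 49 *
      ENNReal.ofReal (10 ^ 33 * ((9 / 10) ^ k / 2 ^ 300))) =
      ENNReal.ofReal ((603 + (k : ℝ)) * (10 ^ 49 * (10 ^ 33 * ((9 / 10 : ℝ) ^ k / 2 ^ 300)))) := by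
    intro k
    generalize (10 ^ 33 * ((9 / 10 : ℝ) ^ k / 2 ^ 300)) = y
    rw [ENNReal.ofReal_mul (p := (603 + (k : ℝ))) (by positivity),
      ENNReal.ofReal_mul (p := (10 : ℝ) ^ 49) (by positivity)]
    congr 1
    · rw [← ENNReal.ofReal_natCast]
      push_cast
      rfl
    · congr 1
      rw [ENNReal.ofReal_pow (by norm_num)]
      norm_num
  simp_rw [hterm]
  rw [← ENNReal.ofReal_tsum_of_nonneg (fun k => by positivity) hs3.summable, hs3.tsum_eq]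
  apply ENNReal.ofReal_le_ofReal
  have h300 : (10 : ℝ) ^ 90 ≤ 2 ^ 300 := by
    calc (10 : ℝ) ^ 90 = (10 ^ 3) ^ 30 := by rw [← pow_mul]
      _ ≤ (2 ^ 10) ^ 30 := by
        apply pow_le_pow_left₀ (by positivity)
        norm_num
      _ = 2 ^ 300 := by rw [← pow_mul]
  calc (10 : ℝ) ^ 82 / 2 ^ 300 * (603 * 10 + 90) ≤ 10 ^ 82 / 10 ^ 90 * (603 * 10 + 90) := by
        gcongr
    _ ≤ 1 / 8 := by norm_num

end Pool.Agent.BI
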