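import Pool.Agent.BI.Basic

set_option autoImplicit false

open MeasureTheory Set
open scoped ENNReal

namespace Pool.Agent.BI

/-- the real series -/
noncomputable def m7_f (k : ℕ) : ℝ :=
  ((603 + k : ℕ) : ℝ) * (10 ^ 49 * (15000 * (1 / 2 ^ k) / ((9 / 10) ^ k / 2 ^ 300) ^ 4))

theorem m7_nonneg (k : ℕ) : 0 ≤ m7_f k := by
  unfold m7_f
  positivity

theorem m7_eq (k : ℕ) : m7_f k =
    (10 ^ 49 * 15000 * (2 ^ 300) ^ 4) * (603 * (5000 / 6561) ^ k + (k : ℝ) ^ 1 * (5000 / 6561) ^ k) := by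
  unfold m7_f
  have h1 : (5000 / 6561 : ℝ) ^ k = (1 / 2 ^ k) / ((9 / 10) ^ k) ^ 4 := by
    rw [← pow_mul, mul_comm k 4, pow_mul, one_div, ← inv_pow, ← div_pow]
    norm_num
  rw [h1, div_pow]
  push_cast
  have h2 : ((9 / 10 : ℝ) ^ k) ^ 4 ≠ 0 := by positivity
  field_simp

theorem m7_summable : Summable m7_f := by
  have h : m7_f = fun k : ℕ => (10 ^ 49 * 15000 * (2 ^ 300) ^ 4) *
      (603 * (5000 / 6561 : ℝ) ^ k + (k : ℝ) ^ 1 * (5000 / 6561) ^ k) := funext m7_eq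
  rw [h]
  apply Summable.mul_left
  apply Summable.add
  · apply Summable.mul_left
    exact summable_geometric_of_lt_one (by norm_num) (by norm_num)
  · exact summable_pow_mul_geometric_of_norm_lt_one 1 (by
      rw [Real.norm_eq_abs, abs_of_nonneg (by norm_num)]
      norm_num)


/-- [BI-M7] PROOF. The term is `(603 + k) * 10 ^ 49 * 15000 * 2 ^ 1200 * (5000/6561)^k * K` (`(1/2) * (10/9)^4 = 5000/6561 < 1`); the series
`∑ (603 + k) (5000/6561)^k` converges; `C` = its sum times the constants. -/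
theorem series2 : ∃ C : ℝ, 0 < C ∧ ∀ K : ℝ, 0 < K → ∑' k : ℕ, ((603 + k : ℕ) : ℝ≥0∞) * (10 ^ 49 *
    ENNReal.ofReal (15000 * (K / 2 ^ k) / ((9 / 10) ^ k / 2 ^ 300) ^ 4)) ≤ ENNReal.ofReal (C * K) := by
  refine ⟨(∑' k, m7_f k) + 1, ?_, ?_⟩
  · have : 0 ≤ ∑' k, m7_f k := tsum_nonneg m7_nonneg
    linarith
  · intro K hK
    have h10 : (10 ^ 49 : ℝ≥0∞) = ENNReal.ofReal (10 ^ 49) := by
      rw [ENNReal.ofReal_pow (by norm_num)]
      simp
    have h1 : ∀ k : ℕ, ((603 + k : ℕ) : ℝ≥0∞) * (10 ^ 49 *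
        ENNReal.ofReal (15000 * (K / 2 ^ k) / ((9 / 10) ^ k / 2 ^ 300) ^ 4)) =
        ENNReal.ofReal (m7_f k * K) := by
      intro k
      rw [h10, ← ENNReal.ofReal_mul (by positivity), ← ENNReal.ofReal_natCast,
        ← ENNReal.ofReal_mul (by positivity)]
      congr 1
      unfold m7_f
      ring
    rw [tsum_congr h1, ← ENNReal.ofReal_tsum_of_nonneg
      (fun k => mul_nonneg (m7_nonneg k) hK.le) (m7_summable.mul_right K), tsum_mul_right]
    apply ENNReal.ofReal_le_ofReal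
    linarith

end Pool.Agent.BI
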