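import Pool.Agent.BI.M4
import Pool.Agent.BI.M5
import Pool.Agent.BI.M6
import Pool.Agent.BI.M7
import Pool.Agent.BI.L3

set_option autoImplicit false

open MeasureTheory Set
open scoped ENNReal

namespace Pool.Agent.BI

theorem m8_eps (k : ℕ) : (0 : ℝ) < (9 / 10) ^ k / 2 ^ 300 ∧ ((9 : ℝ) / 10) ^ k / 2 ^ 300 ≤ 1 / 10 ^ 30 ∧
    ((1 : ℝ) / 2) ^ (603 + k) ≤ ((9 / 10) ^ k / 2 ^ 300) ^ 2 / 8 := by
  have h1 : ((9 : ℝ) / 10) ^ k ≤ 1 := pow_le_one₀ (by norm_num) (by norm_num)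
  refine ⟨by positivity, ?_, ?_⟩
  · rw [div_le_div_iff₀ (by positivity) (by positivity)]
    calc ((9 : ℝ) / 10) ^ k * 10 ^ 30 ≤ 1 * 10 ^ 30 := by gcongr
      _ ≤ 1 * 2 ^ 300 := by
          have h2 : (10 : ℝ) ^ 30 ≤ (2 ^ 10) ^ 30 := pow_le_pow_left₀ (by norm_num) (by norm_num) 30
          rw [← pow_mul] at h2
          rw [one_mul, one_mul]
          exact h2
  · have e1 : (((9 : ℝ) / 10) ^ k / 2 ^ 300) ^ 2 / 8 = (81 / 100) ^ k / 2 ^ 603 := by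
      have h3 : (2 : ℝ) ^ 603 = 2 ^ (300 * 2) * 8 := by
        rw [show 603 = 300 * 2 + 3 from rfl, pow_add]
        norm_num only
      rw [div_pow, ← pow_mul, mul_comm k 2, pow_mul, ← pow_mul (2 : ℝ) 300 2, h3, div_div]
      congr 2
      norm_num only
    have e2 : ((1 : ℝ) / 2) ^ (603 + k) = (1 / 2) ^ k / 2 ^ 603 := by
      rw [pow_add, one_div, inv_pow]
      ring
    rw [e2]
    refine le_of_le_of_eq ?_ e1.symm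
    refine div_le_div_of_nonneg_right ?_ (by positivity)
    exact pow_le_pow_left₀ (by norm_num) (by norm_num) k

/-- [BI-M8] Bound for the measure of the chords.
PROOF. `G ⊆ {no Adm} ∪ ⋃ k n, {p ∈ G | ∃ R, Sel S (K / 2 ^ k) (2 ^ n) p R}` (`null_chords`, `exists_sel`), so
`volume G ≤ ∑' k, ∑' n, volume (...)`; `level_bound` with `κ = K / 2 ^ k`, `ε = ε_k = (9/10)^k / 2 ^ 300 ≤ 1 / 10 ^ 30`, `M = 603 + k`
(`(1/2)^(603 + k) ≤ ε_k² / 8` because `ε_k² = (81/100)^k / 2 ^ 600` and `(1/2)^k ≤ (81/100)^k`); `series1`, `series2` (`ENNReal.tsum_add`,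
`ENNReal.tsum_mul_right`). -/
theorem chords_bound : ∃ C : ℝ, 0 < C ∧ ∀ (S S' : Set (ℝ × ℝ)) (K : ℝ)
    (G G' : Set ((ℝ × ℝ) × (ℝ × ℝ))), TriConn S → MeasurableSet S' → S ⊆ S' → volume S' ≠ ⊤ →
    0 < K → (∀ C ⊆ S, Convex ℝ C → volume C ≤ ENNReal.ofReal K) → MeasurableSet G →
    (∀ p ∈ G, Ch p.1 p.2 ⊆ S) → MeasurableSet G' →
    (∀ y w : ℝ × ℝ, segment ℝ y (y + w) ⊆ S → (y, w) ∈ G') → volume G' ≠ ⊤ →
    volume G ≤ ENNReal.ofReal (C * K) * volume S' + ENNReal.ofReal (1 / 8) * volume G' := by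
  obtain ⟨C, hC, hser⟩ := series2
  refine ⟨C, hC, ?_⟩
  intro S S' K G G' hS hS' hSS' hfin hK hconv hG hGS hG'm hG' hG'fin
  have hsub : G ⊆ {p | p ∈ G ∧ ¬ ∃ R, Adm S p.1 p.2 R} ∪
      ⋃ (k : ℕ) (n : ℤ), {p | p ∈ G ∧ ∃ R, Sel S (K / 2 ^ k) ((2 : ℝ) ^ n) p R} := by
    intro p hp
    by_cases h : ∃ R, Adm S p.1 p.2 R
    · right
      obtain ⟨k, n, R, hR⟩ := exists_sel hK hconv h
      rw [mem_iUnion]
      refine ⟨k, ?_⟩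
      rw [mem_iUnion]
      exact ⟨n, hp, R, hR⟩
    · left
      exact ⟨hp, h⟩
  have hnull : volume {p | p ∈ G ∧ ¬ ∃ R, Adm S p.1 p.2 R} = 0 := null_chords hS hG hGS
  have hlev : ∀ k : ℕ, ∑' n : ℤ, volume {p | p ∈ G ∧ ∃ R, Sel S (K / 2 ^ k) ((2 : ℝ) ^ n) p R} ≤
      ((603 + k : ℕ) : ℝ≥0∞) * (10 ^ 49 *
        (ENNReal.ofReal (15000 * (K / 2 ^ k) / ((9 / 10) ^ k / 2 ^ 300) ^ 4) * volume S' +
        ENNReal.ofReal (10 ^ 33 * ((9 / 10) ^ k / 2 ^ 300)) * volume G')) := by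
    intro k
    obtain ⟨h1, h2, h3⟩ := m8_eps k
    exact level_bound hS hS' hSS' hfin (by positivity) h1 h2 h3 hG hGS hG'm hG' hG'fin
  calc volume G ≤ volume ({p | p ∈ G ∧ ¬ ∃ R, Adm S p.1 p.2 R} ∪
      ⋃ (k : ℕ) (n : ℤ), {p | p ∈ G ∧ ∃ R, Sel S (K / 2 ^ k) ((2 : ℝ) ^ n) p R}) := measure_mono hsub
    _ ≤ volume {p | p ∈ G ∧ ¬ ∃ R, Adm S p.1 p.2 R} +
      volume (⋃ (k : ℕ) (n : ℤ), {p | p ∈ G ∧ ∃ R, Sel S (K / 2 ^ k) ((2 : ℝ) ^ n) p R}) :=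
        measure_union_le _ _
    _ = volume (⋃ (k : ℕ) (n : ℤ), {p | p ∈ G ∧ ∃ R, Sel S (K / 2 ^ k) ((2 : ℝ) ^ n) p R}) := by
        rw [hnull, zero_add]
    _ ≤ ∑' k : ℕ, volume (⋃ n : ℤ, {p | p ∈ G ∧ ∃ R, Sel S (K / 2 ^ k) ((2 : ℝ) ^ n) p R}) :=
        measure_iUnion_le _
    _ ≤ ∑' k : ℕ, ∑' n : ℤ, volume {p | p ∈ G ∧ ∃ R, Sel S (K / 2 ^ k) ((2 : ℝ) ^ n) p R} :=
        ENNReal.tsum_le_tsum fun k => measure_iUnion_le _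
    _ ≤ ∑' k : ℕ, ((603 + k : ℕ) : ℝ≥0∞) * (10 ^ 49 *
        (ENNReal.ofReal (15000 * (K / 2 ^ k) / ((9 / 10) ^ k / 2 ^ 300) ^ 4) * volume S' +
        ENNReal.ofReal (10 ^ 33 * ((9 / 10) ^ k / 2 ^ 300)) * volume G')) :=
        ENNReal.tsum_le_tsum hlev
    _ = ∑' k : ℕ, (((603 + k : ℕ) : ℝ≥0∞) * (10 ^ 49 *
        ENNReal.ofReal (15000 * (K / 2 ^ k) / ((9 / 10) ^ k / 2 ^ 300) ^ 4)) * volume S' +
        ((603 + k : ℕ) : ℝ≥0∞) * (10 ^ 49 * ENNReal.ofReal (10 ^ 33 * ((9 / 10) ^ k / 2 ^ 300))) * volume G') := by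
        refine tsum_congr fun k => ?_
        ring
    _ = (∑' k : ℕ, ((603 + k : ℕ) : ℝ≥0∞) * (10 ^ 49 *
        ENNReal.ofReal (15000 * (K / 2 ^ k) / ((9 / 10) ^ k / 2 ^ 300) ^ 4))) * volume S' +
        (∑' k : ℕ, ((603 + k : ℕ) : ℝ≥0∞) * (10 ^ 49 *
          ENNReal.ofReal (10 ^ 33 * ((9 / 10) ^ k / 2 ^ 300)))) * volume G' := by
        rw [ENNReal.tsum_add, ENNReal.tsum_mul_right, ENNReal.tsum_mul_right]
    _ ≤ ENNReal.ofReal (C * K) * volume S' + ENNReal.ofReal (1 / 8) * volume G' := by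
        gcongr
        · exact hser K hK
        · exact series1

end Pool.Agent.BI
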