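import Pool.Agent.BI.Basic

set_option autoImplicit false

open MeasureTheory Set
open scoped ENNReal

namespace Pool.Agent.BI

theorem m9_S1 : MeasurePreserving (fun z : (ℝ × ℝ) × (ℝ × ℝ) => (z.1, z.1 + z.2)) volume volume :=
  measurePreserving_prod_add (volume : Measure (ℝ × ℝ)) (volume : Measure (ℝ × ℝ))

theorem m9_S2 : MeasurePreserving (fun z : (ℝ × ℝ) × (ℝ × ℝ) => (z.1 - z.2, z.2)) volume volume := by
  have h1 : MeasurePreserving (fun z : (ℝ × ℝ) × (ℝ × ℝ) => (z.1, -z.1 + z.2)) volume volume :=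
    measurePreserving_prod_neg_add (volume : Measure (ℝ × ℝ)) (volume : Measure (ℝ × ℝ))
  have h2 : MeasurePreserving (Prod.swap : (ℝ × ℝ) × (ℝ × ℝ) → (ℝ × ℝ) × (ℝ × ℝ)) volume volume :=
    Measure.measurePreserving_swap
  have h3 := h2.comp (h1.comp h2)
  have h4 : (Prod.swap ∘ (fun z : (ℝ × ℝ) × (ℝ × ℝ) => (z.1, -z.1 + z.2)) ∘ Prod.swap) =
      fun z : (ℝ × ℝ) × (ℝ × ℝ) => (z.1 - z.2, z.2) := by
    funext z
    show (-z.2 + z.1, z.2) = (z.1 - z.2, z.2)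
    rw [neg_add_eq_sub]
  rw [h4] at h3
  exact h3

theorem m9_D (T : Set ((ℝ × ℝ) × (ℝ × ℝ))) :
    volume ((fun z : (ℝ × ℝ) × (ℝ × ℝ) => (z.1, (2 : ℝ) • z.2)) ⁻¹' T) =
      ENNReal.ofReal (1 / 4) * volume T := by
  set f : (ℝ × ℝ) × (ℝ × ℝ) →ₗ[ℝ] (ℝ × ℝ) × (ℝ × ℝ) :=
    (LinearMap.id : ℝ × ℝ →ₗ[ℝ] ℝ × ℝ).prodMap ((2 : ℝ) • (LinearMap.id : ℝ × ℝ →ₗ[ℝ] ℝ × ℝ)) with hf
  have hdet : LinearMap.det f = 4 := by
    rw [hf, LinearMap.det_prodMap, LinearMap.det_id, LinearMap.det_smul, LinearMap.det_id]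
    simp
    norm_num
  have hH : (volume : Measure ((ℝ × ℝ) × (ℝ × ℝ))).IsAddHaarMeasure :=
    inferInstanceAs (((volume : Measure (ℝ × ℝ)).prod (volume : Measure (ℝ × ℝ))).IsAddHaarMeasure)
  have h := Measure.addHaar_preimage_linearMap (volume : Measure ((ℝ × ℝ) × (ℝ × ℝ))) (f := f)
    (by rw [hdet]; norm_num) T
  rw [hdet] at h
  have h2 : (f : (ℝ × ℝ) × (ℝ × ℝ) → (ℝ × ℝ) × (ℝ × ℝ)) = fun z => (z.1, (2 : ℝ) • z.2) := rfl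
  rw [h2] at h
  rw [h]
  norm_num

/-- [BI-M9] Measure of a set of pairs in the coordinates midpoint / half-vector.
PROOF. `(z, v) ↦ (z - v, z + v)` is linear of determinant `4` on `ℝ⁴`; by Fubini as in `vol_Phi`, `lintegral_two_smul` of
`Pool/Agent/Results/MP_0d1e2e_co/LogBound.lean` (there with `v / 2`): `z ↦ z + v` translation, then `v ↦ 2 v` dilation of `ℝ²` (factor 4). -/
theorem volume_mid {T : Set ((ℝ × ℝ) × (ℝ × ℝ))} (hT : MeasurableSet T) :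
    volume T = 4 * volume {p : (ℝ × ℝ) × (ℝ × ℝ) | (p.1 - p.2, p.1 + p.2) ∈ T} := by
  have h1 : {p : (ℝ × ℝ) × (ℝ × ℝ) | (p.1 - p.2, p.1 + p.2) ∈ T} =
      (fun z : (ℝ × ℝ) × (ℝ × ℝ) => (z.1 - z.2, z.2)) ⁻¹'
        ((fun z : (ℝ × ℝ) × (ℝ × ℝ) => (z.1, (2 : ℝ) • z.2)) ⁻¹'
          ((fun z : (ℝ × ℝ) × (ℝ × ℝ) => (z.1, z.1 + z.2)) ⁻¹' T)) := by
    ext p
    show (p.1 - p.2, p.1 + p.2) ∈ T ↔ (p.1 - p.2, p.1 - p.2 + (2 : ℝ) • p.2) ∈ T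
    have h2 : p.1 - p.2 + (2 : ℝ) • p.2 = p.1 + p.2 := by
      rw [two_smul]
      abel
    rw [h2]
  have hm1 : MeasurableSet ((fun z : (ℝ × ℝ) × (ℝ × ℝ) => (z.1, z.1 + z.2)) ⁻¹' T) :=
    m9_S1.measurable hT
  have hm2 : MeasurableSet ((fun z : (ℝ × ℝ) × (ℝ × ℝ) => (z.1, (2 : ℝ) • z.2)) ⁻¹'
      ((fun z : (ℝ × ℝ) × (ℝ × ℝ) => (z.1, z.1 + z.2)) ⁻¹' T)) := by
    have h3 : Measurable (fun z : (ℝ × ℝ) × (ℝ × ℝ) => (z.1, (2 : ℝ) • z.2)) := by fun_prop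
    exact h3 hm1
  rw [h1, m9_S2.measure_preimage hm2.nullMeasurableSet, m9_D,
    m9_S1.measure_preimage hT.nullMeasurableSet, ← mul_assoc]
  have h4 : (4 : ℝ≥0∞) * ENNReal.ofReal (1 / 4) = 1 := by
    have h5 : (4 : ℝ≥0∞) = ENNReal.ofReal 4 := by norm_num
    rw [h5, ← ENNReal.ofReal_mul (by norm_num)]
    norm_num
  rw [h4, one_mul]

/-- [BI-M9] PROOF. `(y, w) ↦ (y, y + w)` preserves the measure (`measurePreserving_prod_add`). -/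
theorem volume_shift {T : Set ((ℝ × ℝ) × (ℝ × ℝ))} (hT : MeasurableSet T) :
    volume {p : (ℝ × ℝ) × (ℝ × ℝ) | (p.1, p.1 + p.2) ∈ T} = volume T :=
  m9_S1.measure_preimage hT.nullMeasurableSet

end Pool.Agent.BI
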